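import Pool.Agent.TFP.GridDefs

/-!
# From a drawing to well separated arcs
-/

set_option autoImplicit false

namespace Pool.Agent.TFP

open Set

theorem exists_pos_le {ι : Type} [Finite ι] (f : ι → ℝ) (hf : ∀ i, 0 < f i) :
    ∃ δ : ℝ, 0 < δ ∧ ∀ i, δ ≤ f i := by
  rcases isEmpty_or_nonempty ι with h | h
  · exact ⟨1, one_pos, fun i => h.elim i⟩
  · obtain ⟨i0, hi0⟩ := Finite.exists_min f
    exact ⟨f i0, hf i0, hi0⟩

/-- a positive continuous function on a nonempty compact space is bounded below -/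
theorem exists_pos_le_of_compact {X : Type} [TopologicalSpace X] [CompactSpace X] [Nonempty X]
    (f : X → ℝ) (hc : Continuous f) (hf : ∀ x, 0 < f x) : ∃ δ : ℝ, 0 < δ ∧ ∀ x, δ ≤ f x := by
  obtain ⟨x0, _, hx0⟩ := isCompact_univ.exists_isMinOn (s := (Set.univ : Set X))
    Set.univ_nonempty hc.continuousOn
  exact ⟨f x0, hf x0, fun x => hx0 (Set.mem_univ x)⟩

theorem mix_pos {a b τ : ℝ} (h0 : 0 ≤ τ) (h1 : τ ≤ 1) (ha : 0 < a) (hb : 0 < b) :
    0 < (1 - τ) * a + τ * b := by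
  rcases h0.eq_or_lt with h | h
  · rw [← h]
    simpa using ha
  · have h2 : 0 ≤ (1 - τ) * a := mul_nonneg (by linarith) ha.le
    have h3 : 0 < τ * b := mul_pos h hb
    linarith

/-- the affine path from `a` to `b` in the unit interval -/
def mix (a b τ : unitInterval) : unitInterval :=
  ⟨(1 - (τ : ℝ)) * a + τ * b, by
    constructor
    · exact add_nonneg (mul_nonneg (sub_nonneg.mpr τ.2.2) a.2.1) (mul_nonneg τ.2.1 b.2.1)
    · have h1 : 0 ≤ (1 - (τ : ℝ)) * (1 - a) :=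
        mul_nonneg (sub_nonneg.mpr τ.2.2) (sub_nonneg.mpr a.2.2)
      have h2 : 0 ≤ (τ : ℝ) * (1 - b) := mul_nonneg τ.2.1 (sub_nonneg.mpr b.2.2)
      nlinarith⟩

theorem continuous_mix (a b : unitInterval) : Continuous (mix a b) := by
  apply Continuous.subtype_mk
  fun_prop

theorem mix_zero (a b : unitInterval) : mix a b 0 = a := by
  apply Subtype.ext
  simp [mix]

theorem mix_one (a b : unitInterval) : mix a b 1 = b := by
  apply Subtype.ext
  simp [mix]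

theorem mix_ne {a b : unitInterval} (ha : 0 < (a : ℝ)) (ha1 : (a : ℝ) < 1) (hb : 0 < (b : ℝ))
    (hb1 : (b : ℝ) < 1) (τ : unitInterval) : ¬ (mix a b τ = 0 ∨ mix a b τ = 1) := by
  rintro (h | h)
  · have h1 := congrArg Subtype.val h
    have h2 := mix_pos τ.2.1 τ.2.2 ha hb
    change (1 - (τ : ℝ)) * a + τ * b = 0 at h1
    linarith
  · have h1 := congrArg Subtype.val h
    have h2 := mix_pos τ.2.1 τ.2.2 (sub_pos.mpr ha1) (sub_pos.mpr hb1)
    change (1 - (τ : ℝ)) * a + τ * b = 1 at h1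
    nlinarith

theorem exists_near_zero (g : unitInterval → ℝ × ℝ) (hg : Continuous g) (r : ℝ) (hr : 0 < r) :
    ∃ a : unitInterval, 0 < (a : ℝ) ∧ (a : ℝ) < 1 ∧ dist (g a) (g 0) ≤ r := by
  obtain ⟨δ, hδ, h⟩ := Metric.continuousAt_iff.mp (hg.continuousAt (x := 0)) r hr
  have h1 : 0 < min (δ / 2) (1 / 2) := by positivity
  have h2 : min (δ / 2) (1 / 2) ≤ 1 / 2 := min_le_right _ _
  have h3 : min (δ / 2) (1 / 2) ≤ δ / 2 := min_le_left _ _
  refine ⟨⟨min (δ / 2) (1 / 2), h1.le, by linarith⟩, h1, by change min (δ / 2) (1 / 2) < 1; linarith,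
    (h ?_).le⟩
  rw [Subtype.dist_eq, Real.dist_eq]
  change |min (δ / 2) (1 / 2) - 0| < δ
  rw [sub_zero, abs_of_pos h1]
  linarith

theorem exists_near_one (g : unitInterval → ℝ × ℝ) (hg : Continuous g) (r : ℝ) (hr : 0 < r) :
    ∃ a : unitInterval, 0 < (a : ℝ) ∧ (a : ℝ) < 1 ∧ dist (g a) (g 1) ≤ r := by
  obtain ⟨δ, hδ, h⟩ := Metric.continuousAt_iff.mp (hg.continuousAt (x := 1)) r hr
  have h1 : 0 < min (δ / 2) (1 / 2) := by positivity
  have h2 : min (δ / 2) (1 / 2) ≤ 1 / 2 := min_le_right _ _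
  have h3 : min (δ / 2) (1 / 2) ≤ δ / 2 := min_le_left _ _
  refine ⟨⟨1 - min (δ / 2) (1 / 2), by linarith, by linarith⟩,
    by change 0 < 1 - min (δ / 2) (1 / 2); linarith,
    by change 1 - min (δ / 2) (1 / 2) < 1; linarith, (h ?_).le⟩
  rw [Subtype.dist_eq, Real.dist_eq]
  change |1 - min (δ / 2) (1 / 2) - 1| < δ
  rw [show 1 - min (δ / 2) (1 / 2) - 1 = -min (δ / 2) (1 / 2) by ring, abs_neg, abs_of_pos h1]
  linarith

/-- a1. -/
theorem arcs {V : Type} [Finite V] (G : SimpleGraph V) (p : V → ℝ × ℝ)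
    (γ : V → V → unitInterval → ℝ × ℝ) (h : IsDrawing G p γ) :
    ∃ (r ρ : ℝ) (O : V → V → Prop) (c : V → V → unitInterval → ℝ × ℝ),
      ArcSystem G p r ρ O c := by
  obtain ⟨hinj, hγ, hcross⟩ := h
  obtain ⟨f, hf⟩ : ∃ f : V → ℕ, Function.Injective f := by
    obtain ⟨n, ⟨e⟩⟩ := Finite.exists_equiv_fin V
    exact ⟨fun v => (e v : ℕ), fun u v huv => e.injective (Fin.ext huv)⟩
  -- the radius
  have h1 : ∀ q : V × V × V, ∃ δ : ℝ, 0 < δ ∧
      (q.1 ≠ q.2.1 → 5 * δ ≤ dist (p q.1) (p q.2.1)) ∧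
      (G.Adj q.1 q.2.1 → q.2.2 ≠ q.1 → q.2.2 ≠ q.2.1 →
        ∀ t, 4 * δ ≤ dist (γ q.1 q.2.1 t) (p q.2.2)) := by
    rintro ⟨u, v, w⟩
    obtain ⟨δ1, hδ1, h1⟩ : ∃ δ : ℝ, 0 < δ ∧ (u ≠ v → 5 * δ ≤ dist (p u) (p v)) := by
      by_cases huv : u = v
      · exact ⟨1, one_pos, fun h => absurd huv h⟩
      · refine ⟨dist (p u) (p v) / 5, ?_, fun _ => by linarith⟩
        have := dist_pos.mpr (fun h => huv (hinj h))
        linarith
    obtain ⟨δ2, hδ2, h2⟩ : ∃ δ : ℝ, 0 < δ ∧ (G.Adj u v → w ≠ u → w ≠ v →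
        ∀ t, 4 * δ ≤ dist (γ u v t) (p w)) := by
      by_cases huv : G.Adj u v ∧ w ≠ u ∧ w ≠ v
      · obtain ⟨huv, hwu, hwv⟩ := huv
        obtain ⟨hc, _, hγ0, hγ1, hr⟩ := hγ u v huv
        obtain ⟨δ, hδ, h3⟩ := exists_pos_le_of_compact (fun t => dist (γ u v t) (p w))
          (hc.dist continuous_const) (fun t => by
            apply dist_pos.mpr
            intro h4
            rcases hr t ⟨w, h4.symm⟩ with h5 | h5
            · rw [h5, hγ0] at h4
              exact hwu (hinj h4).symm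
            · rw [h5, hγ1] at h4
              exact hwv (hinj h4).symm)
        exact ⟨δ / 4, by positivity, fun _ _ _ t => by have := h3 t; linarith⟩
      · exact ⟨1, one_pos, fun h3 h4 h5 => absurd ⟨h3, h4, h5⟩ huv⟩
    refine ⟨min δ1 δ2, lt_min hδ1 hδ2, fun h3 => ?_, fun h3 h4 h5 t => ?_⟩
    · have := h1 h3
      have := min_le_left δ1 δ2
      change 5 * min δ1 δ2 ≤ dist (p u) (p v)
      linarith
    · have := h2 h3 h4 h5 t
      have := min_le_right δ1 δ2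
      change 4 * min δ1 δ2 ≤ dist (γ u v t) (p w)
      linarith
  choose δ hδ hδ1 hδ2 using h1
  obtain ⟨r, hr, hrδ⟩ := exists_pos_le δ hδ
  have hsep : ∀ u v, u ≠ v → 4 * r < dist (p u) (p v) := by
    intro u v huv
    have h2 := hδ1 (u, v, v) huv
    have h3 := hrδ (u, v, v)
    change 5 * δ (u, v, v) ≤ dist (p u) (p v) at h2
    linarith
  have hfar : ∀ u v w, G.Adj u v → w ≠ u → w ≠ v → ∀ t, 3 * r < dist (γ u v t) (p w) := by
    intro u v w huv hwu hwv t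
    have h2 := hδ2 (u, v, w) huv hwu hwv t
    have h3 := hrδ (u, v, w)
    change 4 * δ (u, v, w) ≤ dist (γ u v t) (p w) at h2
    linarith
  -- the arcs
  have hab : ∀ u v, ∃ a b : unitInterval, G.Adj u v → (0 < (a : ℝ) ∧ (a : ℝ) < 1 ∧ 0 < (b : ℝ) ∧
      (b : ℝ) < 1 ∧ dist (γ u v a) (p u) ≤ r ∧ dist (γ u v b) (p v) ≤ r) := by
    intro u v
    by_cases huv : G.Adj u v
    · obtain ⟨hc, _, hγ0, hγ1, _⟩ := hγ u v huv
      obtain ⟨a, ha, ha1, ha2⟩ := exists_near_zero _ hc r hr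
      obtain ⟨b, hb, hb1, hb2⟩ := exists_near_one _ hc r hr
      rw [hγ0] at ha2
      rw [hγ1] at hb2
      exact ⟨a, b, fun _ => ⟨ha, ha1, hb, hb1, ha2, hb2⟩⟩
    · exact ⟨0, 0, fun h => absurd h huv⟩
  choose a b hab using hab
  let O : V → V → Prop := fun u v => G.Adj u v ∧ f u < f v
  let c : V → V → unitInterval → ℝ × ℝ := fun u v τ => γ u v (mix (a u v) (b u v) τ)
  have hcont : ∀ u v, G.Adj u v → Continuous (c u v) := fun u v huv =>
    (hγ u v huv).1.comp (continuous_mix _ _)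
  have hne : ∀ u v x y, O u v → O x y → (u, v) ≠ (x, y) → ∀ s t, c u v s ≠ c x y t := by
    intro u v x y huv hxy hne s t heq
    have h2 : Sym2.mk (u, v) ≠ Sym2.mk (x, y) := by
      intro h3
      have h4 := congrFun h3 (u, v)
      rw [Sym2.eq_iff] at h4
      rcases h4 with h4 | h4
      · exact hne h4.1
      · exact hne h4.2
    obtain ⟨h3, h4, h5, h6, _⟩ := hab u v huv.1
    exact mix_ne h3 h4 h5 h6 s (hcross u v x y huv.1 hxy.1 h2 _ _ heq)
  have h2 : ∀ q : (V × V) × (V × V), ∃ δ : ℝ, 0 < δ ∧ (O q.1.1 q.1.2 → O q.2.1 q.2.2 →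
      q.1 ≠ q.2 → ∀ s t, δ ≤ dist (c q.1.1 q.1.2 s) (c q.2.1 q.2.2 t)) := by
    rintro ⟨⟨u, v⟩, ⟨x, y⟩⟩
    by_cases hq : O u v ∧ O x y ∧ (u, v) ≠ (x, y)
    · obtain ⟨huv, hxy, hq⟩ := hq
      obtain ⟨δ, hδ, h3⟩ := exists_pos_le_of_compact
        (fun z : unitInterval × unitInterval => dist (c u v z.1) (c x y z.2))
        (((hcont u v huv.1).comp continuous_fst).dist ((hcont x y hxy.1).comp continuous_snd))
        (fun z => dist_pos.mpr (hne u v x y huv hxy hq z.1 z.2))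
      exact ⟨δ, hδ, fun _ _ _ s t => h3 (s, t)⟩
    · exact ⟨1, one_pos, fun h3 h4 h5 => absurd ⟨h3, h4, h5⟩ hq⟩
  choose δ' hδ' hδ'1 using h2
  obtain ⟨ρ, hρ, hρδ⟩ := exists_pos_le δ' hδ'
  refine ⟨r, ρ, O, c, hr, hρ, hsep, ?_, ?_, ?_, ?_, ?_, ?_, ?_⟩
  · intro u v huv
    rcases Nat.lt_trichotomy (f u) (f v) with h3 | h3 | h3
    · exact Or.inl ⟨huv, h3⟩
    · exact absurd (hf h3) huv.ne
    · exact Or.inr ⟨huv.symm, h3⟩
  · exact fun u v huv => huv.1.ne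
  · exact fun u v huv => hcont u v huv.1
  · intro u v huv
    change dist (γ u v (mix (a u v) (b u v) 0)) (p u) ≤ r
    rw [mix_zero]
    exact (hab u v huv.1).2.2.2.2.1
  · intro u v huv
    change dist (γ u v (mix (a u v) (b u v) 1)) (p v) ≤ r
    rw [mix_one]
    exact (hab u v huv.1).2.2.2.2.2
  · exact fun u v huv w hwu hwv t => hfar u v w huv.1 hwu hwv _
  · intro u v x y huv hxy hne' s t
    exact (hρδ ((u, v), (x, y))).trans (hδ'1 ((u, v), (x, y)) huv hxy hne' s t)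

end Pool.Agent.TFP
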