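import Pool.Agent.TFP.Defs

/-!
# The tree decomposition of a spherical map: definitions

Given a breadth first search tree of the underlying graph of the map, the nodes of the tree
decomposition are the darts. The node `d` stands for the triangle formed by the base point of the
face of `d`, the start of `d` and the end of `d`. Two nodes are linked when the triangles share a
side which is not an edge of the search tree.
-/

set_option autoImplicit false

namespace Pool.Agent.TFP

/-- A breadth first search structure on the vertices of a map. -/
structure BFS {D : Type} (M : CMap D) where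
  r : M.Vertex
  dep : M.Vertex → ℕ
  p : M.Vertex → D
  dep_zero : ∀ v, dep v = 0 ↔ v = r
  dep_le : ∀ d, dep (M.vtx (M.α d)) ≤ dep (M.vtx d) + 1
  p_vtx : ∀ v, v ≠ r → M.vtx (p v) = v
  p_dep : ∀ v, v ≠ r → dep (M.vtx (M.α (p v))) + 1 = dep v

namespace CMap

variable {D : Type} (M : CMap D)

/-- The base dart of a face. -/
noncomputable def base (f : M.Face) : D := Quotient.out f

theorem face_base (f : M.Face) : M.face (M.base f) = f := Quotient.out_eq f

end CMap

namespace BFS

variable {D : Type} {M : CMap D} (B : BFS M)

open Classical in
/-- The parent of a vertex (the root is its own parent). -/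
noncomputable def par (v : M.Vertex) : M.Vertex := if v = B.r then B.r else M.vtx (M.α (B.p v))

/-- `u` is an ancestor of `v` (or `v` itself). -/
def Anc (u v : M.Vertex) : Prop := ∃ i : ℕ, B.par^[i] v = u

/-- The darts of the search tree. -/
def IsTree (d : D) : Prop := ∃ v, v ≠ B.r ∧ (d = B.p v ∨ d = M.α (B.p v))

/-- The three corners of the node `d`. -/
def _root_.Pool.Agent.TFP.CMap.Touch (M : CMap D) (v : M.Vertex) (d : D) : Prop :=
  v = M.vtx d ∨ v = M.vtx (M.α d) ∨ v = M.vtx (M.base (M.face d))

/-- `u` is in the bag of the node `d`: it is an ancestor of a corner of `d`. -/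
def Bag (u : M.Vertex) (d : D) : Prop := ∃ v, B.Anc u v ∧ M.Touch v d

/-- Links between nodes: across a non-tree edge, and along a face except at its base dart. -/
def Link (d e : D) : Prop :=
  (e = M.α d ∧ ¬ B.IsTree d) ∨ (e = M.φ d ∧ e ≠ M.base (M.face e)) ∨
    (d = M.φ e ∧ d ≠ M.base (M.face d))

end BFS

end Pool.Agent.TFP
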