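import Pool.Agent.TFP.Defs
import Pool.Agent.TFP.TreeDefs

/-! C2b : the bags of the tree decomposition are connected. -/

set_option autoImplicit false

namespace Pool.Agent.TFP

namespace BFS

variable {D : Type} {M : CMap D} (B : BFS M)

theorem isTree_α {d : D} : B.IsTree (M.α d) ↔ B.IsTree d := by
  constructor
  · rintro ⟨v, hv, h | h⟩
    · exact ⟨v, hv, Or.inr (by rw [← h, M.invol])⟩
    · exact ⟨v, hv, Or.inl (by simpa using h)⟩
  · rintro ⟨v, hv, h | h⟩
    · exact ⟨v, hv, Or.inr (by rw [h])⟩
    · exact ⟨v, hv, Or.inl (by rw [h, M.invol])⟩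

theorem link_symm {a b : D} (h : B.Link a b) : B.Link b a := by
  rcases h with ⟨h, hn⟩ | h | h
  · refine Or.inl ⟨by rw [h, M.invol], ?_⟩
    rw [h]
    exact fun h' => hn (B.isTree_α.1 h')
  · exact Or.inr (Or.inr h)
  · exact Or.inr (Or.inl h)

theorem par_root : B.par B.r = B.r := by
  unfold par
  rw [if_pos rfl]

theorem par_of_ne {v : M.Vertex} (h : v ≠ B.r) : B.par v = M.vtx (M.α (B.p v)) := by
  unfold par
  rw [if_neg h]

theorem anc_refl (v : M.Vertex) : B.Anc v v := ⟨0, rfl⟩

theorem anc_trans {u v w : M.Vertex} (h1 : B.Anc u v) (h2 : B.Anc v w) : B.Anc u w := by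
  obtain ⟨i, hi⟩ := h1
  obtain ⟨j, hj⟩ := h2
  exact ⟨i + j, by rw [Function.iterate_add_apply, hj, hi]⟩

theorem bag_mono {u v : M.Vertex} (h : B.Anc u v) {d : D} (hd : B.Bag v d) : B.Bag u d := by
  obtain ⟨w, hw, ht⟩ := hd
  exact ⟨w, B.anc_trans h hw, ht⟩

theorem bag_of_touch {v : M.Vertex} {d : D} (h : M.Touch v d) : B.Bag v d :=
  ⟨v, B.anc_refl v, h⟩

/-- Connected inside the bag-set of `v`. -/
def Conn (v : M.Vertex) : D → D → Prop :=
  Relation.ReflTransGen (fun a b => B.Link a b ∧ B.Bag v a ∧ B.Bag v b)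

theorem conn_refl (v : M.Vertex) (a : D) : B.Conn v a a := Relation.ReflTransGen.refl

theorem conn_symm {v : M.Vertex} {a b : D} (h : B.Conn v a b) : B.Conn v b a := by
  unfold Conn at *
  induction h with
  | refl => exact Relation.ReflTransGen.refl
  | tail _ hxy ih =>
    exact Relation.ReflTransGen.head ⟨B.link_symm hxy.1, hxy.2.2, hxy.2.1⟩ ih

theorem conn_trans {v : M.Vertex} {a b c : D} (h : B.Conn v a b) (h' : B.Conn v b c) :
    B.Conn v a c := Relation.ReflTransGen.trans h h'

theorem conn_mono {u v : M.Vertex} (huv : B.Anc u v) {a b : D} (h : B.Conn v a b) :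
    B.Conn u a b := by
  unfold Conn at *
  induction h with
  | refl => exact Relation.ReflTransGen.refl
  | tail _ hxy ih =>
    exact Relation.ReflTransGen.tail ih ⟨hxy.1, B.bag_mono huv hxy.2.1, B.bag_mono huv hxy.2.2⟩

theorem conn_of_link {v : M.Vertex} {a b : D} (h : B.Link a b) (ha : M.Touch v a)
    (hb : M.Touch v b) : B.Conn v a b :=
  Relation.ReflTransGen.single ⟨h, B.bag_of_touch ha, B.bag_of_touch hb⟩

/-- along a face whose base point is `v` -/
theorem conn_base [Finite D] {v : M.Vertex} (f : M.Face) (hv : M.vtx (M.base f) = v) (d : D)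
    (hd : M.face d = f) : B.Conn v (M.base f) d := by
  have key : ∀ n : ℕ, B.Conn v (M.base f) ((M.φ ^ n) (M.base f)) ∧
      M.face ((M.φ ^ n) (M.base f)) = f := by
    intro n
    induction n with
    | zero => exact ⟨B.conn_refl _ _, by simpa using M.face_base f⟩
    | succ n ih =>
      obtain ⟨h1, h2⟩ := ih
      have h3 : (M.φ ^ (n + 1)) (M.base f) = M.φ ((M.φ ^ n) (M.base f)) := by
        rw [pow_succ']
        rfl
      have h4 : M.face (M.φ ((M.φ ^ n) (M.base f))) = f := by rw [M.face_φ, h2]
      rw [h3]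
      refine ⟨?_, h4⟩
      by_cases hb' : M.φ ((M.φ ^ n) (M.base f)) = M.base f
      · rw [hb']; exact B.conn_refl _ _
      · refine B.conn_trans h1 (B.conn_of_link ?_ ?_ ?_)
        · refine Or.inr (Or.inl ⟨rfl, ?_⟩)
          rw [h4]
          exact hb'
        · right; right; rw [h2, hv]
        · right; right; rw [h4, hv]
  have hs : M.φ.SameCycle (M.base f) d := by
    rw [← M.face_eq_iff, M.face_base, hd]
  obtain ⟨n, hn⟩ := hs.exists_nat_pow_eq
  rw [← hn]
  exact (key n).1

/-- corner lemma -/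
theorem conn_corner [Finite D] {v : M.Vertex} (e : D) (hv : M.vtx (M.φ e) = v) :
    B.Conn v e (M.φ e) := by
  have h1 : M.vtx (M.α e) = v := by rw [← M.vtx_φ, hv]
  by_cases hb : M.φ e = M.base (M.face (M.φ e))
  · -- `φ e` is the base of its face
    have h2 : B.Conn v (M.base (M.face (M.φ e))) e := by
      refine B.conn_base _ ?_ e ?_
      · rw [← hb, hv]
      · rw [M.face_φ]
    rw [← hb] at h2
    exact B.conn_symm h2
  · exact B.conn_of_link (Or.inr (Or.inl ⟨rfl, hb⟩)) (Or.inr (Or.inl h1.symm)) (Or.inl hv.symm)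

/-- the target nodes -/
theorem conn_target [Finite D] {v : M.Vertex} (e : D) (hv : M.vtx (M.α e) = v) :
    B.Conn v e (M.φ e) := B.conn_corner e (by rw [M.vtx_φ, hv])

theorem bag_connected_aux [Finite D] (m : ℕ) (hm : ∀ v : M.Vertex, B.dep v ≤ m) :
    ∀ k : ℕ, ∀ v : M.Vertex, m < B.dep v + k → ∃ d₀ : D, M.vtx d₀ = v ∧
      (v ≠ B.r → d₀ = B.p v) ∧ ∀ d, B.Bag v d → B.Conn v d d₀ := by
  intro k
  induction k with
  | zero => intro v hv; have := hm v; omega
  | succ k ih =>
    intro v hv
    -- the reference dart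
    obtain ⟨d₀, hd₀, hd₀'⟩ : ∃ d₀ : D, M.vtx d₀ = v ∧ (v ≠ B.r → d₀ = B.p v) := by
      by_cases h : v = B.r
      · obtain ⟨d, hd⟩ := M.vtx_surj v
        exact ⟨d, hd, fun h' => absurd h h'⟩
      · exact ⟨B.p v, B.p_vtx v h, fun _ => rfl⟩
    refine ⟨d₀, hd₀, hd₀', ?_⟩
    -- children
    have hchild : ∀ c : M.Vertex, c ≠ B.r → M.vtx (M.α (B.p c)) = v →
        B.Anc v c ∧ ∀ d, B.Bag c d → B.Conn v d (B.p c) := by
      intro c hc hcv
      have hanc : B.Anc v c := ⟨1, by simp [B.par_of_ne hc, hcv]⟩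
      refine ⟨hanc, ?_⟩
      intro d hd
      have hdep : B.dep v + 1 = B.dep c := by rw [← hcv]; exact B.p_dep c hc
      obtain ⟨e, he, he', hconn⟩ := ih c (by omega)
      rw [he' hc] at hconn
      exact B.conn_mono hanc (hconn d hd)
    -- crossing
    have hcross : ∀ d, M.vtx d = v → d ≠ d₀ → B.Conn v d (M.α d) := by
      intro d hd hne
      by_cases ht : B.IsTree d
      · obtain ⟨c, hc, h | h⟩ := ht
        · exfalso
          apply hne
          have hcv : c = v := by rw [← hd, h, B.p_vtx c hc]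
          rw [hd₀' (hcv ▸ hc), h, hcv]
        · have hcv : M.vtx (M.α (B.p c)) = v := by rw [← h, hd]
          obtain ⟨h1, h2⟩ := hchild c hc hcv
          have h3 : B.Bag c d := B.bag_of_touch (Or.inr (Or.inl (by
            rw [h, M.invol, B.p_vtx c hc])))
          have h4 : M.α d = B.p c := by rw [h, M.invol]
          rw [h4]
          exact h2 d h3
      · exact B.conn_of_link (Or.inl ⟨rfl, ht⟩) (Or.inl hd.symm)
          (Or.inr (Or.inl (by rw [M.invol, hd])))
    -- one step of the rotation
    have hrot : ∀ d, M.vtx d = v → d ≠ d₀ → B.Conn v d (M.σ d) := by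
      intro d hd hne
      refine B.conn_trans (hcross d hd hne) ?_
      have h5 := B.conn_target (v := v) (M.α d) (by rw [M.invol, hd])
      rw [M.φ_α] at h5
      exact h5
    -- all the darts at `v`
    have hsrc : ∀ d, M.vtx d = v → B.Conn v d d₀ := by
      intro d hd
      have key : ∀ n : ℕ, ∀ d : D, M.vtx d = v → (M.σ ^ n) d = d₀ → B.Conn v d d₀ := by
        intro n
        induction n with
        | zero =>
          intro d _ h
          have : d = d₀ := by simpa using h
          rw [this]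
          exact B.conn_refl _ _
        | succ n ihn =>
          intro d hd h
          by_cases hne : d = d₀
          · rw [hne]; exact B.conn_refl _ _
          · refine B.conn_trans (hrot d hd hne) (ihn (M.σ d) (by rw [M.vtx_σ, hd]) ?_)
            rw [pow_succ] at h
            exact h
      have hs : M.σ.SameCycle d d₀ := by
        rw [← M.vtx_eq_iff, hd, hd₀]
      obtain ⟨n, hn⟩ := hs.exists_nat_pow_eq
      exact key n d hd hn
    -- all the nodes touching `v`
    have htouch : ∀ d, M.Touch v d → B.Conn v d d₀ := by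
      intro d hd
      rcases hd with h | h | h
      · exact hsrc d h.symm
      · exact B.conn_trans (B.conn_target d h.symm) (hsrc _ (by rw [M.vtx_φ, ← h]))
      · exact B.conn_trans (B.conn_symm (B.conn_base (M.face d) h.symm d rfl)) (hsrc _ h.symm)
    -- all nodes
    intro d hd
    obtain ⟨w, ⟨i, hi⟩, hw⟩ := hd
    have key : ∀ i : ℕ, ∀ w, B.par^[i] w = v → M.Touch w d → B.Conn v d d₀ := by
      intro i
      induction i with
      | zero =>
        intro w h hw
        have hwv : w = v := h
        rw [hwv] at hw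
        exact htouch d hw
      | succ i ihi =>
        intro w h hw
        rw [Function.iterate_succ_apply'] at h
        by_cases hc : B.par^[i] w = B.r
        · rw [hc, B.par_root] at h
          exact ihi w (by rw [hc, h]) hw
        · rw [B.par_of_ne hc] at h
          obtain ⟨h1, h2⟩ := hchild _ hc h
          refine B.conn_trans (h2 d ⟨w, ⟨i, rfl⟩, hw⟩) (htouch _ ?_)
          right; left
          exact h.symm
    exact key i w hi hw

end BFS

theorem bag_connected {D : Type} [Finite D] {M : CMap D} (B : BFS M) (v : M.Vertex) (d e : D)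
    (hd : B.Bag v d) (he : B.Bag v e) :
    Relation.ReflTransGen (fun a b => B.Link a b ∧ B.Bag v a ∧ B.Bag v b) d e := by
  obtain ⟨m, hm⟩ : ∃ m : ℕ, ∀ v : M.Vertex, B.dep v ≤ m := by
    have hfin : Finite M.Vertex := by
      unfold CMap.Vertex
      infer_instance
    have : (Set.range B.dep).Finite := Set.finite_range _
    obtain ⟨m, hm⟩ := this.bddAbove
    exact ⟨m, fun v => hm ⟨v, rfl⟩⟩
  obtain ⟨d₀, _, _, h⟩ := B.bag_connected_aux m hm (m + 1) v (by omega)
  exact B.conn_trans (h d hd) (B.conn_symm (h e he))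

end Pool.Agent.TFP
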