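import Pool.Agent.TFP.TreeDefs

/-!
# Breadth first search in a map
-/

set_option autoImplicit false

namespace Pool.Agent.TFP

namespace Bfs

variable {D : Type} (M : CMap D)

/-- The underlying simple graph of a map. -/
def gr : SimpleGraph M.Vertex :=
  SimpleGraph.fromRel (fun u v => ∃ d, M.vtx d = u ∧ M.vtx (M.α d) = v)

theorem gr_adj (u v : M.Vertex) :
    (gr M).Adj u v ↔ u ≠ v ∧ ∃ d, M.vtx d = u ∧ M.vtx (M.α d) = v := by
  unfold gr
  rw [SimpleGraph.fromRel_adj]
  constructor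
  · rintro ⟨hne, h | ⟨d, h1, h2⟩⟩
    · exact ⟨hne, h⟩
    · exact ⟨hne, M.α d, h2, by rw [M.invol]; exact h1⟩
  · rintro ⟨hne, h⟩
    exact ⟨hne, Or.inl h⟩

theorem reach_dart (d : D) : (gr M).Reachable (M.vtx d) (M.vtx (M.α d)) := by
  by_cases h : M.vtx d = M.vtx (M.α d)
  · rw [← h]
  · exact SimpleGraph.Adj.reachable ((gr_adj M _ _).2 ⟨h, d, rfl, rfl⟩)

theorem preconnected (hc : M.Connected) : (gr M).Preconnected := by
  intro u v
  obtain ⟨d, rfl⟩ := M.vtx_surj u
  obtain ⟨e, rfl⟩ := M.vtx_surj v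
  have h := hc d e
  induction h with
  | refl => exact SimpleGraph.Reachable.refl _
  | @tail b c _ hbc ih =>
    refine ih.trans ?_
    rcases hbc with rfl | rfl
    · rw [M.vtx_σ]
    · exact reach_dart M b

theorem step (hc : M.Connected) (r v : M.Vertex) (hv : v ≠ r) :
    ∃ d, M.vtx d = v ∧ (gr M).dist r (M.vtx (M.α d)) + 1 = (gr M).dist r v := by
  obtain ⟨p, hp⟩ := (preconnected M hc v r).exists_walk_length_eq_dist
  cases p with
  | nil => exact absurd rfl hv
  | @cons _ w _ h q =>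
    obtain ⟨hne, d, hd1, hd2⟩ := (gr_adj M _ _).1 h
    refine ⟨d, hd1, ?_⟩
    rw [hd2]
    rw [SimpleGraph.Walk.length_cons] at hp
    have h1 : (gr M).dist w r ≤ q.length := SimpleGraph.dist_le q
    have hcon : (gr M).Connected := by
      have : Nonempty M.Vertex := ⟨r⟩
      exact ⟨preconnected M hc⟩
    have h2 : (gr M).dist v r ≤ (gr M).dist v w + (gr M).dist w r := hcon.dist_triangle
    have h3 : (gr M).dist v w = 1 := SimpleGraph.dist_eq_one_iff_adj.2 h
    rw [SimpleGraph.dist_comm (u := r) (v := w), SimpleGraph.dist_comm (u := r) (v := v)]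
    omega

end Bfs

/-- C1. Breadth first search in a map. -/
theorem exists_bfs {D : Type} [Finite D] [Nonempty D] (M : CMap D) (hc : M.Connected) :
    Nonempty (BFS M) := by
  classical
  obtain ⟨d₀⟩ := (inferInstance : Nonempty D)
  set r := M.vtx d₀ with hr
  have hcon : (Bfs.gr M).Connected := by
    have : Nonempty M.Vertex := ⟨r⟩
    exact ⟨Bfs.preconnected M hc⟩
  have hstep : ∀ v : M.Vertex, ∃ d, v ≠ r → M.vtx d = v ∧
      (Bfs.gr M).dist r (M.vtx (M.α d)) + 1 = (Bfs.gr M).dist r v := by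
    intro v
    by_cases hv : v = r
    · exact ⟨d₀, fun h => absurd hv h⟩
    · obtain ⟨d, hd⟩ := Bfs.step M hc r v hv
      exact ⟨d, fun _ => hd⟩
  choose p hp using hstep
  refine ⟨{ r := r, dep := fun v => (Bfs.gr M).dist r v, p := p, dep_zero := ?_, dep_le := ?_,
            p_vtx := fun v hv => (hp v hv).1, p_dep := fun v hv => (hp v hv).2 }⟩
  · intro v
    constructor
    · intro h
      exact (((Bfs.preconnected M hc r v).dist_eq_zero_iff).1 h).symm
    · rintro rfl
      exact SimpleGraph.dist_self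
  · intro d
    show (Bfs.gr M).dist r (M.vtx (M.α d)) ≤ (Bfs.gr M).dist r (M.vtx d) + 1
    by_cases h : M.vtx d = M.vtx (M.α d)
    · rw [← h]; omega
    · have h3 : (Bfs.gr M).dist (M.vtx d) (M.vtx (M.α d)) = 1 :=
        SimpleGraph.dist_eq_one_iff_adj.2 ((Bfs.gr_adj M _ _).2 ⟨h, d, rfl, rfl⟩)
      have h2 : (Bfs.gr M).dist r (M.vtx (M.α d)) ≤
        (Bfs.gr M).dist r (M.vtx d) + (Bfs.gr M).dist (M.vtx d) (M.vtx (M.α d)) :=
        hcon.dist_triangle
      omega

end Pool.Agent.TFP
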