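import Pool.Agent.TFP.TreeDefs

/-!
# Few ancestors in a window of depths
-/

set_option autoImplicit false

namespace Pool.Agent.TFP

namespace CardBag

variable {D : Type} {M : CMap D} (B : BFS M)

theorem dep_par (v : M.Vertex) : B.dep (B.par v) = B.dep v - 1 := by
  by_cases hv : v = B.r
  · have h0 : B.dep B.r = 0 := (B.dep_zero B.r).2 rfl
    unfold BFS.par
    rw [if_pos hv, hv, h0]
  · unfold BFS.par
    rw [if_neg hv]
    have := B.p_dep v hv
    omega

theorem dep_iter (v : M.Vertex) (i : ℕ) : B.dep (B.par^[i] v) = B.dep v - i := by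
  induction i with
  | zero => rfl
  | succ i ih =>
    rw [Function.iterate_succ_apply', dep_par, ih]
    omega

theorem par_r : B.par B.r = B.r := by
  unfold BFS.par
  rw [if_pos rfl]

theorem iter_r (i : ℕ) : B.par^[i] B.r = B.r := by
  induction i with
  | zero => rfl
  | succ i ih => rw [Function.iterate_succ_apply, par_r, ih]

/-- Ancestors of the same depth are equal. -/
theorem anc_inj (c u v : M.Vertex) (hu : B.Anc u c) (hv : B.Anc v c) (h : B.dep u = B.dep v) :
    u = v := by
  obtain ⟨i, rfl⟩ := hu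
  obtain ⟨j, rfl⟩ := hv
  rw [dep_iter, dep_iter] at h
  by_cases hi : i = j
  · rw [hi]
  · -- both depths are zero
    have hz : B.dep c - i = 0 ∧ B.dep c - j = 0 := by omega
    have h1 : B.par^[i] c = B.r := (B.dep_zero _).1 (by rw [dep_iter]; exact hz.1)
    have h2 : B.par^[j] c = B.r := (B.dep_zero _).1 (by rw [dep_iter]; exact hz.2)
    rw [h1, h2]

end CardBag

/-- C2a. Few ancestors in a window of depths. -/
theorem card_bag {D : Type} [Finite D] {M : CMap D} (B : BFS M) (d : D) (a b : ℕ) :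
    Nat.card {v : M.Vertex // B.Bag v d ∧ a ≤ B.dep v ∧ B.dep v < b} ≤ 3 * (b - a) := by
  classical
  -- the three corners
  let cor : Fin 3 → M.Vertex := ![M.vtx d, M.vtx (M.α d), M.vtx (M.base (M.face d))]
  have hcor : ∀ v : {v : M.Vertex // B.Bag v d ∧ a ≤ B.dep v ∧ B.dep v < b},
      ∃ i : Fin 3, B.Anc v.1 (cor i) := by
    rintro ⟨v, ⟨w, hw, ht⟩, _⟩
    rcases ht with rfl | rfl | rfl
    · exact ⟨0, hw⟩
    · exact ⟨1, hw⟩
    · exact ⟨2, hw⟩
  choose f hf using hcor
  let g : {v : M.Vertex // B.Bag v d ∧ a ≤ B.dep v ∧ B.dep v < b} → Fin 3 × Fin (b - a) :=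
    fun v => (f v, ⟨B.dep v.1 - a, by have := v.2.2; omega⟩)
  have hg : Function.Injective g := by
    intro u v huv
    simp only [g, Prod.mk.injEq, Fin.mk.injEq] at huv
    have hu := u.2.2
    have hv := v.2.2
    apply Subtype.ext
    apply CardBag.anc_inj B (cor (f u)) u.1 v.1 (hf u) (by rw [huv.1]; exact hf v)
    omega
  have := Nat.card_le_card_of_injective g hg
  simpa using this

end Pool.Agent.TFP
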