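import Pool.Agent.TFP.Defs

/-!
# Contraction in combinatorial maps

For a dart `d` whose two ends are different vertices, replace `σ` by `swap d (σ (α d)) * σ`. The two
ends are merged and the dart `d` becomes a face of its own, so that Euler's formula is preserved.
Hence a graph with a model (connected branch sets) in a spherical map is planar.
-/

set_option autoImplicit false

namespace Pool.Agent.TFP

open Equiv Equiv.Perm

section Merge

variable {D : Type} [Finite D] [DecidableEq D] (σ : Perm D) (a b : D)

theorem merge_apply_of_ne {x : D} (ha : σ x ≠ a) (hb : σ x ≠ b) :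
    (swap a b * σ) x = σ x := by
  rw [Perm.mul_apply, swap_apply_of_ne_of_ne ha hb]

theorem merge_pow (h : ¬ σ.SameCycle a b) (k : ℕ) : (swap a b * σ).SameCycle a ((σ ^ k) a) := by
  induction k with
  | zero => exact SameCycle.refl _ _
  | succ k ih =>
    rw [pow_succ', Perm.mul_apply]
    by_cases h1 : σ ((σ ^ k) a) = a
    · rw [h1]
    · have h2 : σ ((σ ^ k) a) ≠ b := by
        intro h2
        apply h
        refine ⟨(k + 1 : ℕ), ?_⟩
        rw [zpow_natCast, pow_succ', Perm.mul_apply, h2]
      rw [← merge_apply_of_ne σ a b h1 h2]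
      exact sameCycle_apply_right.2 ih

theorem merge_ab (h : ¬ σ.SameCycle a b) : (swap a b * σ).SameCycle a b := by
  have h1 : σ.SameCycle a (σ⁻¹ a) := ⟨-1, by simp⟩
  obtain ⟨k, hk⟩ := h1.exists_nat_pow_eq
  have h2 := merge_pow σ a b h k
  rw [hk] at h2
  have h3 := sameCycle_apply_right.2 h2
  have h4 : σ (σ⁻¹ a) = a := by simp
  rwa [Perm.mul_apply, h4, swap_apply_left] at h3

theorem merge_step (h : ¬ σ.SameCycle a b) (x : D) : (swap a b * σ).SameCycle x (σ x) := by
  have hab := merge_ab σ a b h
  by_cases h1 : σ x = a
  · have h2 : (swap a b * σ).SameCycle x ((swap a b * σ) x) :=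
      sameCycle_apply_right.2 (SameCycle.refl _ _)
    rw [Perm.mul_apply, h1, swap_apply_left] at h2
    rw [h1]
    exact h2.trans hab.symm
  · by_cases h2 : σ x = b
    · have h3 : (swap a b * σ).SameCycle x ((swap a b * σ) x) :=
        sameCycle_apply_right.2 (SameCycle.refl _ _)
      rw [Perm.mul_apply, h2, swap_apply_right] at h3
      rw [h2]
      exact h3.trans hab
    · rw [← merge_apply_of_ne σ a b h1 h2]
      exact sameCycle_apply_right.2 (SameCycle.refl _ _)

theorem merge_of_same (h : ¬ σ.SameCycle a b) {x y : D} (hxy : σ.SameCycle x y) :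
    (swap a b * σ).SameCycle x y := by
  obtain ⟨k, rfl⟩ := hxy.exists_nat_pow_eq
  clear hxy
  induction k with
  | zero => exact SameCycle.refl _ _
  | succ k ih =>
    rw [pow_succ', Perm.mul_apply]
    exact ih.trans (merge_step σ a b h _)

/-- The cycles of `swap a b * σ`. -/
theorem merge_iff (h : ¬ σ.SameCycle a b) {x y : D} :
    (swap a b * σ).SameCycle x y ↔ σ.SameCycle x y ∨
      ((σ.SameCycle a x ∨ σ.SameCycle b x) ∧ (σ.SameCycle a y ∨ σ.SameCycle b y)) := by
  constructor
  · intro hxy
    obtain ⟨k, rfl⟩ := hxy.exists_nat_pow_eq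
    clear hxy
    induction k with
    | zero => exact Or.inl (SameCycle.refl _ _)
    | succ k ih =>
      rw [pow_succ', Perm.mul_apply]
      set z := ((swap a b * σ) ^ k) x with hz
      have hstep : σ.SameCycle z ((swap a b * σ) z) ∨
          ((σ.SameCycle a z ∨ σ.SameCycle b z) ∧
            (σ.SameCycle a ((swap a b * σ) z) ∨ σ.SameCycle b ((swap a b * σ) z))) := by
        by_cases h1 : σ z = a
        · right
          rw [Perm.mul_apply, h1, swap_apply_left]
          refine ⟨Or.inl ?_, Or.inr (SameCycle.refl _ _)⟩
          rw [← h1]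
          exact sameCycle_apply_left.2 (SameCycle.refl _ _)
        · by_cases h2 : σ z = b
          · right
            rw [Perm.mul_apply, h2, swap_apply_right]
            refine ⟨Or.inr ?_, Or.inl (SameCycle.refl _ _)⟩
            rw [← h2]
            exact sameCycle_apply_left.2 (SameCycle.refl _ _)
          · left
            rw [merge_apply_of_ne σ a b h1 h2]
            exact sameCycle_apply_right.2 (SameCycle.refl _ _)
      rcases ih with ih | ih
      · rcases hstep with hs | hs
        · exact Or.inl (ih.trans hs)
        · refine Or.inr ⟨?_, hs.2⟩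
          rcases hs.1 with h1 | h1
          · exact Or.inl (h1.trans ih.symm)
          · exact Or.inr (h1.trans ih.symm)
      · rcases hstep with hs | hs
        · refine Or.inr ⟨ih.1, ?_⟩
          rcases ih.2 with h1 | h1
          · exact Or.inl (h1.trans hs)
          · exact Or.inr (h1.trans hs)
        · exact Or.inr ⟨ih.1, hs.2⟩
  · have hab := merge_ab σ a b h
    rintro (hxy | ⟨h1, h2⟩)
    · exact merge_of_same σ a b h hxy
    · have h3 : (swap a b * σ).SameCycle a x := by
        rcases h1 with h1 | h1
        · exact merge_of_same σ a b h h1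
        · exact hab.trans (merge_of_same σ a b h h1)
      have h4 : (swap a b * σ).SameCycle a y := by
        rcases h2 with h2 | h2
        · exact merge_of_same σ a b h h2
        · exact hab.trans (merge_of_same σ a b h h2)
      exact h3.symm.trans h4

/-- Merging two cycles lowers the number of cycles by one. -/
theorem card_merge (h : ¬ σ.SameCycle a b) :
    Nat.card (Quotient (SameCycle.setoid σ)) =
      Nat.card (Quotient (SameCycle.setoid (swap a b * σ))) + 1 := by
  classical
  set Q := Quotient (SameCycle.setoid σ)
  set Q' := Quotient (SameCycle.setoid (swap a b * σ))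
  let B : Q := Quotient.mk (SameCycle.setoid σ) b
  let f : {q : Q // q ≠ B} → Q' := fun q =>
    Quotient.map' (s₁ := SameCycle.setoid σ) (s₂ := SameCycle.setoid (swap a b * σ)) id
      (fun x y hxy => merge_of_same σ a b h hxy) q.1
  have hf : Function.Bijective f := by
    constructor
    · rintro ⟨q, hq⟩ ⟨q', hq'⟩ hqq
      induction q using Quotient.inductionOn with | _ x => ?_
      induction q' using Quotient.inductionOn with | _ y => ?_
      have h1 : (swap a b * σ).SameCycle x y :=
        Quotient.exact (s := SameCycle.setoid (swap a b * σ)) hqq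
      rw [merge_iff σ a b h] at h1
      have hx : ¬ σ.SameCycle b x := fun hx => hq (Quotient.sound (s := SameCycle.setoid σ) hx.symm)
      have hy : ¬ σ.SameCycle b y := fun hy => hq' (Quotient.sound (s := SameCycle.setoid σ) hy.symm)
      apply Subtype.ext
      apply Quotient.sound (s := SameCycle.setoid σ)
      rcases h1 with h1 | ⟨h1, h2⟩
      · exact h1
      · exact (h1.resolve_right hx).symm.trans (h2.resolve_right hy)
    · intro q'
      induction q' using Quotient.inductionOn with | _ x => ?_
      by_cases hx : σ.SameCycle b x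
      · refine ⟨⟨Quotient.mk (SameCycle.setoid σ) a, ?_⟩, ?_⟩
        · intro hab
          exact h (Quotient.exact (s := SameCycle.setoid σ) hab)
        · apply Quotient.sound (s := SameCycle.setoid (swap a b * σ))
          exact (merge_iff σ a b h).2 (Or.inr ⟨Or.inl (SameCycle.refl _ _), Or.inr hx⟩)
      · refine ⟨⟨Quotient.mk (SameCycle.setoid σ) x, ?_⟩, rfl⟩
        intro hxb
        exact hx (Quotient.exact (s := SameCycle.setoid σ) hxb).symm
  rw [← Nat.card_congr (Equiv.ofBijective f hf)]
  haveI : Finite Q := Quotient.finite _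
  haveI := Fintype.ofFinite Q
  rw [Nat.card_eq_fintype_card, Nat.card_eq_fintype_card, Fintype.card_subtype_compl,
    Fintype.card_subtype_eq]
  have : 0 < Fintype.card Q := Fintype.card_pos_iff.2 ⟨B⟩
  omega

end Merge

namespace CMap

variable {D : Type} [Finite D] [DecidableEq D]

/-- Contract the dart `d`; it stays as a loop. -/
def merge (M : CMap D) (d : D) : CMap D where
  σ := swap d (M.σ (M.α d)) * M.σ
  α := M.α
  invol := M.invol
  ne := M.ne

variable (M : CMap D) (d : D)

theorem not_same (hd : M.vtx d ≠ M.vtx (M.α d)) : ¬ M.σ.SameCycle d (M.σ (M.α d)) := by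
  intro h
  apply hd
  rw [vtx_eq_iff]
  exact sameCycle_apply_right.1 h

theorem card_vertex_merge (hd : M.vtx d ≠ M.vtx (M.α d)) :
    Nat.card M.Vertex = Nat.card (M.merge d).Vertex + 1 :=
  card_merge M.σ _ _ (M.not_same d hd)

theorem φ_merge : (M.merge d).φ = swap d (M.φ d) * M.φ := by
  unfold φ merge
  simp only [Perm.mul_apply, mul_assoc]

theorem card_face_merge (hd : M.vtx d ≠ M.vtx (M.α d)) :
    Nat.card (M.merge d).Face = Nat.card M.Face + 1 := by
  have hne : M.φ d ≠ d := by
    intro h
    apply hd
    rw [← M.vtx_φ d, h]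
  have h1 : M.φ = swap d (M.φ d) * (M.merge d).φ := by
    rw [φ_merge, ← mul_assoc, swap_mul_self, one_mul]
  have h2 : ¬ (M.merge d).φ.SameCycle d (M.φ d) := by
    intro h
    have hfix : (M.merge d).φ d = d := by
      rw [φ_merge, Perm.mul_apply, swap_apply_right]
    obtain ⟨k, hk⟩ := h.exists_nat_pow_eq
    have : ((M.merge d).φ ^ k) d = d := by
      clear hk
      induction k with
      | zero => rfl
      | succ k ih => rw [pow_succ', Perm.mul_apply, ih, hfix]
    exact hne (hk.symm.trans this)
  have h3 := card_merge (M.merge d).φ d (M.φ d) h2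
  rw [← h1] at h3
  exact h3

theorem spherical_merge (hd : M.vtx d ≠ M.vtx (M.α d)) (hs : M.Spherical) :
    (M.merge d).Spherical := by
  unfold Spherical at hs ⊢
  have h1 := M.card_vertex_merge d hd
  have h2 := M.card_face_merge d hd
  omega

/-- Old rotation steps are paths in the new map, inside any set of darts which is invariant. -/
theorem path_merge (hd : M.vtx d ≠ M.vtx (M.α d)) (P : D → Prop)
    (hP : ∀ x, P x → P ((M.merge d).σ x)) (x : D) (hx : P x) :
    Relation.ReflTransGen (fun a b => (b = (M.merge d).σ a ∨ b = (M.merge d).α a) ∧ P b)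
      x (M.σ x) := by
  have h1 : (M.merge d).σ.SameCycle x (M.σ x) := merge_step M.σ _ _ (M.not_same d hd) x
  obtain ⟨k, hk⟩ := h1.exists_nat_pow_eq
  rw [← hk]
  clear hk h1
  have h2 : ∀ k : ℕ, P (((M.merge d).σ ^ k) x) ∧
      Relation.ReflTransGen (fun a b => (b = (M.merge d).σ a ∨ b = (M.merge d).α a) ∧ P b)
      x (((M.merge d).σ ^ k) x) := by
    intro k
    induction k with
    | zero => exact ⟨hx, Relation.ReflTransGen.refl⟩
    | succ k ih =>
      rw [pow_succ', Perm.mul_apply]
      exact ⟨hP _ ih.1, ih.2.tail ⟨Or.inl rfl, hP _ ih.1⟩⟩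
  exact (h2 k).2

theorem connected_merge (hd : M.vtx d ≠ M.vtx (M.α d)) (hc : M.Connected) :
    (M.merge d).Connected := by
  intro x y
  have h := hc x y
  induction h with
  | refl => exact Relation.ReflTransGen.refl
  | @tail b c _ hbc ih =>
    rcases hbc with rfl | rfl
    · refine ih.trans ?_
      have := M.path_merge d hd (fun _ => True) (fun _ _ => trivial) b trivial
      exact Relation.ReflTransGen.mono (fun a b hab => hab.1) _ _ this
    · exact ih.tail (Or.inr rfl)

end CMap

/-- A graph with a model in a connected spherical map is planar: `β x = some v` says that the dart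
`x` starts in the branch set of `v`. -/
theorem isPlanar_of_model {V D : Type} [Finite D] (M : CMap D) (hc : M.Connected)
    (hs : M.Spherical) (G : SimpleGraph V) (β : D → Option V) (h1 : ∀ x, β (M.σ x) = β x)
    (h2 : ∀ v, ∃ x, β x = some v)
    (h3 : ∀ v x y, β x = some v → β y = some v →
      Relation.ReflTransGen (fun a b => (b = M.σ a ∨ b = M.α a) ∧ β b = some v) x y)
    (h4 : ∀ u v, G.Adj u v → ∃ x, β x = some u ∧ β (M.α x) = some v) : IsPlanar G := by
  classical
  obtain ⟨n, hn⟩ : ∃ n, n = Nat.card M.Vertex := ⟨_, rfl⟩
  induction n using Nat.strong_induction_on generalizing M with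
  | _ n ih =>
    by_cases hex : ∃ x, β x = β (M.α x) ∧ (∃ v, β x = some v) ∧ M.vtx x ≠ M.vtx (M.α x)
    · obtain ⟨d, hd1, ⟨v, hv⟩, hd⟩ := hex
      have hinv : ∀ x, β ((M.merge d).σ x) = β x := by
        intro x
        change β ((swap d (M.σ (M.α d)) * M.σ) x) = β x
        rw [Perm.mul_apply]
        by_cases e1 : M.σ x = d
        · rw [e1, swap_apply_left, h1, ← hd1, ← e1, h1]
        · by_cases e2 : M.σ x = M.σ (M.α d)
          · rw [e2, swap_apply_right, hd1, ← h1 (M.α d), ← e2, h1]
          · rw [swap_apply_of_ne_of_ne e1 e2, h1]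
      refine ih (Nat.card (M.merge d).Vertex) ?_ (M.merge d) (M.connected_merge d hd hc)
        (M.spherical_merge d hd hs) hinv ?_ h4 rfl
      · rw [hn, M.card_vertex_merge d hd]; exact Nat.lt_succ_self _
      · intro w x y hx hy
        have h := h3 w x y hx hy
        have key : β y = some w ∧ Relation.ReflTransGen
            (fun a b => (b = (M.merge d).σ a ∨ b = (M.merge d).α a) ∧ β b = some w) x y := by
          clear hy
          induction h with
          | refl => exact ⟨hx, Relation.ReflTransGen.refl⟩
          | tail _ hbc ih' =>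
            obtain ⟨hb, hpath⟩ := ih'
            refine ⟨hbc.2, hpath.trans ?_⟩
            rcases hbc.1 with e | e
            · rw [e]
              exact M.path_merge d hd (fun z => β z = some w)
                (fun z hz => (hinv z).trans hz) _ hb
            · exact Relation.ReflTransGen.single ⟨Or.inr e, hbc.2⟩
        exact key.2
    · push Not at hex
      have hfib : ∀ v x y, β x = some v → β y = some v → M.vtx x = M.vtx y := by
        intro v x y hx hy
        have h := h3 v x y hx hy
        have key : β y = some v ∧ M.vtx x = M.vtx y := by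
          clear hy
          induction h with
          | refl => exact ⟨hx, rfl⟩
          | tail _ hbc ih' =>
            obtain ⟨hb, hv⟩ := ih'
            refine ⟨hbc.2, hv.trans ?_⟩
            rcases hbc.1 with e | e
            · rw [e, M.vtx_σ]
            · rw [e]
              refine hex _ ?_ ⟨v, hb⟩
              rw [hb, ← e, hbc.2]
        exact key.2
      choose xv hxv using h2
      refine ⟨D, inferInstance, M, hc, hs, fun v => M.vtx (xv v), ?_, ?_⟩
      · intro u v huv
        have h5 : M.σ.SameCycle (xv u) (xv v) := M.vtx_eq_iff.1 huv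
        have h6 : ∀ x y, M.σ.SameCycle x y → β x = β y := by
          intro x y hxy
          obtain ⟨k, rfl⟩ := hxy.exists_nat_pow_eq
          clear hxy
          induction k with
          | zero => rfl
          | succ k ih' => rw [pow_succ', Perm.mul_apply, h1]; exact ih'
        have h7 := h6 _ _ h5
        rw [hxv, hxv] at h7
        exact Option.some.inj h7
      · intro u v huv
        obtain ⟨x, hx1, hx2⟩ := h4 u v huv
        exact ⟨x, hfib u _ _ hx1 (hxv u), hfib v _ _ hx2 (hxv v)⟩

end Pool.Agent.TFP
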