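import Mathlib

/-!
# On the sphere every cycle is a sum of faces
-/

set_option autoImplicit false

open Finset

namespace Pool.Agent.TFP

namespace FaceLemma

section Dot

variable {D : Type} [Fintype D]

/-- The standard pairing of `D → ZMod 2` with itself. -/
noncomputable def dot : (D → ZMod 2) →ₗ[ZMod 2] (D → ZMod 2) →ₗ[ZMod 2] ZMod 2 :=
  LinearMap.mk₂ (ZMod 2) (fun x y => ∑ d, x d * y d)
    (by intro a b c; simp only [Pi.add_apply, add_mul, Finset.sum_add_distrib])
    (by intro a b c; simp only [Pi.smul_apply, smul_eq_mul, Finset.mul_sum, mul_assoc])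
    (by intro a b c; simp only [Pi.add_apply, mul_add, Finset.sum_add_distrib])
    (by
      intro a b c
      simp only [Pi.smul_apply, smul_eq_mul, Finset.mul_sum]
      apply Finset.sum_congr rfl
      intro d _
      ring)

theorem dot_apply (x y : D → ZMod 2) : dot x y = ∑ d, x d * y d := rfl

theorem dot_injective : Function.Injective (dot : (D → ZMod 2) →ₗ[ZMod 2] _) := by
  classical
  rw [injective_iff_map_eq_zero]
  intro x hx
  ext d
  have h := congrArg (fun f : (D → ZMod 2) →ₗ[ZMod 2] ZMod 2 => f (Pi.single d 1)) hx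
  simp only [dot_apply, LinearMap.zero_apply] at h
  rw [Finset.sum_eq_single d] at h
  · simpa using h
  · intro b _ hb
    simp [Pi.single_eq_of_ne hb]
  · intro h'
    exact absurd (Finset.mem_univ d) h'

/-- Orthogonal subspaces have total dimension at most the dimension of the space. -/
theorem finrank_add_le (Y Z : Submodule (ZMod 2) (D → ZMod 2))
    (h : ∀ y ∈ Y, ∀ z ∈ Z, ∑ d, y d * z d = 0) :
    Module.finrank (ZMod 2) Z + Module.finrank (ZMod 2) Y ≤ Fintype.card D := by
  have h1 : Module.finrank (ZMod 2) Z + Module.finrank (ZMod 2) Z.dualAnnihilator =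
      Fintype.card D := by
    rw [Subspace.finrank_add_finrank_dualAnnihilator_eq, Module.finrank_fintype_fun_eq_card]
  have h2 : Module.finrank (ZMod 2) Y ≤ Module.finrank (ZMod 2) Z.dualAnnihilator := by
    have h3 : Module.finrank (ZMod 2) (Y.map (dot (D := D))) = Module.finrank (ZMod 2) Y :=
      (LinearEquiv.finrank_eq (Submodule.equivMapOfInjective _ dot_injective Y)).symm
    rw [← h3]
    apply Submodule.finrank_mono
    rintro f ⟨y, hy, rfl⟩
    rw [Submodule.mem_dualAnnihilator]
    intro z hz
    rw [dot_apply]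
    exact h y hy z hz
  omega

end Dot

variable {D : Type} (σ α : Equiv.Perm D)

/-- `z ↦ z + z ∘ α`. -/
def T : (D → ZMod 2) →ₗ[ZMod 2] (D → ZMod 2) where
  toFun z := fun d => z d + z (α d)
  map_add' x y := by
    ext d
    simp only [Pi.add_apply]
    ring
  map_smul' c x := by
    ext d
    simp only [Pi.smul_apply, smul_eq_mul, RingHom.id_apply]
    ring

theorem T_apply (z : D → ZMod 2) (d : D) : T α z d = z d + z (α d) := rfl

theorem add_eq_zero_iff_eq' (a b : ZMod 2) : a + b = 0 ↔ a = b := by
  revert a b
  decide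

theorem mem_ker_T (z : D → ZMod 2) : z ∈ LinearMap.ker (T α) ↔ ∀ d, z (α d) = z d := by
  rw [LinearMap.mem_ker, funext_iff]
  constructor
  · intro h d
    have := h d
    rw [T_apply, Pi.zero_apply, add_eq_zero_iff_eq'] at this
    exact this.symm
  · intro h d
    rw [T_apply, Pi.zero_apply, add_eq_zero_iff_eq']
    exact (h d).symm

/-- Class functions of the permutation `σ`. -/
def classFun : (Quotient (Equiv.Perm.SameCycle.setoid σ) → ZMod 2) →ₗ[ZMod 2] (D → ZMod 2) where
  toFun c := fun d => c (Quotient.mk (Equiv.Perm.SameCycle.setoid σ) d)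
  map_add' x y := by
    ext d
    rfl
  map_smul' c x := by
    ext d
    rfl

theorem classFun_apply (c : Quotient (Equiv.Perm.SameCycle.setoid σ) → ZMod 2) (d : D) :
    classFun σ c d = c (Quotient.mk (Equiv.Perm.SameCycle.setoid σ) d) := rfl

theorem classFun_injective : Function.Injective (classFun σ) := by
  intro x y h
  ext q
  obtain ⟨d, rfl⟩ := Quotient.exists_rep q
  exact congrFun h d

theorem mk_σ (d : D) : Quotient.mk (Equiv.Perm.SameCycle.setoid σ) (σ d) =
    Quotient.mk (Equiv.Perm.SameCycle.setoid σ) d := by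
  apply Quotient.sound
  exact (Equiv.Perm.sameCycle_apply_left).2 (Equiv.Perm.SameCycle.refl _ _)

/-- invariant functions are constant -/
theorem const_of_inv (hconn : ∀ x y : D, Relation.ReflTransGen (fun a b => b = σ a ∨ b = α a) x y)
    (f : D → ZMod 2) (h1 : ∀ d, f (σ d) = f d) (h2 : ∀ d, f (α d) = f d) (x y : D) :
    f x = f y := by
  have h := hconn x y
  induction h with
  | refl => rfl
  | tail _ hbc ih =>
    rcases hbc with rfl | rfl
    · rw [h1]; exact ih
    · rw [h2]; exact ih

theorem finrank_const_le {E : Type} (Y : Submodule (ZMod 2) (E → ZMod 2))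
    (h : ∀ y ∈ Y, ∀ a b, y a = y b) : Module.finrank (ZMod 2) Y ≤ 1 := by
  by_cases hE : Nonempty E
  · obtain ⟨e⟩ := hE
    have hle : Y ≤ Submodule.span (ZMod 2) {(fun _ => 1 : E → ZMod 2)} := by
      intro y hy
      rw [Submodule.mem_span_singleton]
      refine ⟨y e, ?_⟩
      ext b
      simp only [Pi.smul_apply, smul_eq_mul, mul_one]
      exact h y hy e b
    have : Module.Finite (ZMod 2) (Submodule.span (ZMod 2) {(fun _ => 1 : E → ZMod 2)}) :=
      inferInstance
    refine (Submodule.finrank_mono hle).trans ?_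
    refine (finrank_span_le_card _).trans ?_
    simp
  · have : Subsingleton (E → ZMod 2) := ⟨fun a b => funext fun e => absurd ⟨e⟩ hE⟩
    have : Subsingleton Y := inferInstance
    rw [Module.finrank_zero_of_subsingleton]
    omega

end FaceLemma

open FaceLemma

/-- B1. On the sphere every cycle is a sum of faces. Stated symmetrically, so that it can also be
applied to the dual map (exchange `σ` and `φ`). -/
theorem face_lemma {D : Type} [Fintype D] [DecidableEq D] (σ α φ : Equiv.Perm D)
    (hinv : ∀ d, α (α d) = d) (hne : ∀ d, α d ≠ d) (hφ : ∀ d, φ d = σ (α d))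
    (hconn : ∀ x y : D, Relation.ReflTransGen (fun a b => b = σ a ∨ b = α a) x y)
    (heuler : 2 * (Nat.card (Quotient (Equiv.Perm.SameCycle.setoid σ)) +
      Nat.card (Quotient (Equiv.Perm.SameCycle.setoid φ))) = Nat.card D + 4)
    (z : D → ZMod 2) (hz : ∀ d, z (α d) = z d)
    (hv : ∀ d₀ : D, ∑ d ∈ univ.filter (fun d => σ.SameCycle d₀ d), z d = 0) :
    ∃ S : D → ZMod 2, (∀ d, S (φ d) = S d) ∧ ∀ d, z d = S d + S (α d) := by
  classical
  set n := Fintype.card D with hn
  set W := LinearMap.ker (T α) with hW
  -- n = 2 dim W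
  have hWT : W ≤ LinearMap.range (T α) := by
    intro w hw
    rw [hW, mem_ker_T] at hw
    let e := Fintype.equivFin D
    refine ⟨fun d => if e d < e (α d) then w d else 0, ?_⟩
    ext d
    rw [T_apply]
    simp only [hinv]
    have hed : e d ≠ e (α d) := fun h => hne d (e.injective h).symm
    rcases lt_or_gt_of_ne hed with h | h
    · rw [if_pos h, if_neg (not_lt.mpr h.le), add_zero]
    · rw [if_neg (not_lt.mpr h.le), if_pos h, zero_add, hw d]
  have hTW : LinearMap.range (T α) ≤ W := by
    rintro w ⟨y, rfl⟩
    rw [hW, mem_ker_T]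
    intro d
    rw [T_apply, T_apply, hinv, add_comm]
  have hdimW : 2 * Module.finrank (ZMod 2) W = n := by
    have h := LinearMap.finrank_range_add_finrank_ker (T α)
    rw [le_antisymm hTW hWT, ← hW, Module.finrank_fintype_fun_eq_card] at h
    omega
  -- the cycle space
  let Z : Submodule (ZMod 2) (D → ZMod 2) :=
    { carrier := {z | (∀ d, z (α d) = z d) ∧
        ∀ d₀ : D, ∑ d ∈ univ.filter (fun d => σ.SameCycle d₀ d), z d = 0}
      add_mem' := by
        rintro a b ⟨ha1, ha2⟩ ⟨hb1, hb2⟩
        refine ⟨fun d => by simp only [Pi.add_apply, ha1, hb1], fun d => ?_⟩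
        simp only [Pi.add_apply, Finset.sum_add_distrib, ha2, hb2, add_zero]
      zero_mem' := by
        refine ⟨fun d => rfl, fun d => ?_⟩
        simp
      smul_mem' := by
        rintro c a ⟨ha1, ha2⟩
        refine ⟨fun d => by simp only [Pi.smul_apply, ha1], fun d => ?_⟩
        simp only [Pi.smul_apply, smul_eq_mul, ← Finset.mul_sum, ha2, mul_zero] }
  have hZmem : ∀ y : D → ZMod 2, y ∈ Z ↔ (∀ d, y (α d) = y d) ∧
      ∀ d₀ : D, ∑ d ∈ univ.filter (fun d => σ.SameCycle d₀ d), y d = 0 := fun y => Iff.rfl
  have : Finite (Quotient (Equiv.Perm.SameCycle.setoid σ)) := Quotient.finite _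
  have : Finite (Quotient (Equiv.Perm.SameCycle.setoid φ)) := Quotient.finite _
  have := Fintype.ofFinite (Quotient (Equiv.Perm.SameCycle.setoid σ))
  have := Fintype.ofFinite (Quotient (Equiv.Perm.SameCycle.setoid φ))
  set V := Nat.card (Quotient (Equiv.Perm.SameCycle.setoid σ)) with hV
  set F := Nat.card (Quotient (Equiv.Perm.SameCycle.setoid φ)) with hF
  set C := LinearMap.range (classFun σ) with hC
  have hdimC : Module.finrank (ZMod 2) C = V := by
    rw [hC, LinearMap.finrank_range_of_inj (classFun_injective σ),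
      Module.finrank_fintype_fun_eq_card, hV, Nat.card_eq_fintype_card]
  have hWC : Module.finrank (ZMod 2) (W ⊓ C : Submodule (ZMod 2) (D → ZMod 2)) ≤ 1 := by
    apply finrank_const_le
    rintro y ⟨hy1, hy2⟩ a b
    rw [SetLike.mem_coe, hW, mem_ker_T] at hy1
    obtain ⟨c, rfl⟩ := hy2
    exact const_of_inv σ α hconn _ (fun d => by rw [classFun_apply, classFun_apply, mk_σ]) hy1 a b
  have hsup := Submodule.finrank_sup_add_finrank_inf_eq W C
  have horth : ∀ y ∈ (W ⊔ C : Submodule (ZMod 2) (D → ZMod 2)), ∀ x ∈ Z,
      ∑ d, y d * x d = 0 := by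
    intro y hy x hx
    rw [hZmem] at hx
    obtain ⟨u, hu, c, hc, rfl⟩ := Submodule.mem_sup.mp hy
    simp only [Pi.add_apply, add_mul, Finset.sum_add_distrib]
    have h1 : ∑ d, u d * x d = 0 := by
      rw [hW, mem_ker_T] at hu
      apply Finset.sum_involution (fun d _ => α d)
      · intro d _
        rw [hu, hx.1]
        exact CharTwo.add_self_eq_zero _
      · intro d _ _
        exact hne d
      · intro d _
        exact Finset.mem_univ _
      · intro d _
        exact hinv d
    have h2 : ∑ d, c d * x d = 0 := by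
      obtain ⟨c', rfl⟩ := hc
      rw [← Finset.sum_fiberwise (s := Finset.univ)
        (g := fun d => Quotient.mk (Equiv.Perm.SameCycle.setoid σ) d)]
      apply Finset.sum_eq_zero
      intro q _
      obtain ⟨d₀, rfl⟩ := Quotient.exists_rep q
      have h3 : ∑ d ∈ Finset.univ.filter (fun d => Quotient.mk (Equiv.Perm.SameCycle.setoid σ) d =
          Quotient.mk (Equiv.Perm.SameCycle.setoid σ) d₀), classFun σ c' d * x d =
          c' (Quotient.mk (Equiv.Perm.SameCycle.setoid σ) d₀) *
            ∑ d ∈ univ.filter (fun d => σ.SameCycle d₀ d), x d := by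
        rw [Finset.mul_sum]
        apply Finset.sum_congr
        · ext d
          simp only [Finset.mem_filter, Finset.mem_univ, true_and]
          rw [Quotient.eq (r := Equiv.Perm.SameCycle.setoid σ)]
          exact Equiv.Perm.sameCycle_comm
        · intro d hd
          simp only [Finset.mem_filter, Finset.mem_univ, true_and] at hd
          rw [classFun_apply]
          congr 2
          apply Quotient.sound
          exact hd.symm
      rw [h3, hx.2, mul_zero]
    rw [h1, h2, add_zero]
  have hle := finrank_add_le (W ⊔ C) Z horth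
  -- the face space
  set G := (T α).comp (classFun φ) with hG
  have hGZ : LinearMap.range G ≤ Z := by
    rintro y ⟨c, rfl⟩
    rw [hZmem]
    refine ⟨?_, ?_⟩
    · intro d
      rw [hG, LinearMap.comp_apply, T_apply, T_apply, hinv, add_comm]
    · intro d₀
      have hS : ∀ d, classFun φ c (φ d) = classFun φ c d := by
        intro d
        rw [classFun_apply, classFun_apply, mk_σ]
      have h1 : ∀ d, G c d = classFun φ c d + classFun φ c (σ d) := by
        intro d
        rw [hG, LinearMap.comp_apply, T_apply]
        congr 1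
        rw [← hS (α d), hφ, hinv]
      rw [Finset.sum_congr rfl (fun d _ => h1 d), Finset.sum_add_distrib]
      have h2 : ∑ d ∈ univ.filter (fun d => σ.SameCycle d₀ d), classFun φ c (σ d) =
          ∑ d ∈ univ.filter (fun d => σ.SameCycle d₀ d), classFun φ c d := by
        apply Finset.sum_equiv σ
        · intro d
          simp only [Finset.mem_filter, Finset.mem_univ, true_and]
          exact Equiv.Perm.sameCycle_apply_right.symm
        · intro d _
          rfl
      rw [h2]
      exact CharTwo.add_self_eq_zero _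
  have hkerG : Module.finrank (ZMod 2) (LinearMap.ker G) ≤ 1 := by
    apply finrank_const_le
    intro y hy a b
    obtain ⟨a', rfl⟩ := Quotient.exists_rep a
    obtain ⟨b', rfl⟩ := Quotient.exists_rep b
    rw [LinearMap.mem_ker, hG, LinearMap.comp_apply, ← LinearMap.mem_ker, mem_ker_T] at hy
    have hS : ∀ d, classFun φ y (φ d) = classFun φ y d := by
      intro d
      rw [classFun_apply, classFun_apply, mk_σ]
    have hσ : ∀ d, classFun φ y (σ d) = classFun φ y d := by
      intro d
      have h := hS (α d)
      rw [hφ, hinv, hy] at h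
      exact h
    exact const_of_inv σ α hconn _ hσ hy a' b'
  have hrn := LinearMap.finrank_range_add_finrank_ker G
  rw [Module.finrank_fintype_fun_eq_card, ← Nat.card_eq_fintype_card, ← hF] at hrn
  have hcard : Nat.card D = n := Nat.card_eq_fintype_card
  have heq : LinearMap.range G = Z := by
    apply Submodule.eq_of_le_of_finrank_le hGZ
    omega
  have hzZ : z ∈ Z := (hZmem z).mpr ⟨hz, hv⟩
  rw [← heq] at hzZ
  obtain ⟨c, hc⟩ := hzZ
  refine ⟨classFun φ c, ?_, ?_⟩
  · intro d
    rw [classFun_apply, classFun_apply, mk_σ]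
  · intro d
    rw [← hc, hG, LinearMap.comp_apply, T_apply]

end Pool.Agent.TFP
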