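import Mathlib

/-!
# Minimum weight T-joins and T-cuts

If every cut which is odd for `t` has `x`-value at least `1`, then some `t`-join has weight
at most `w . x`.
-/

set_option autoImplicit false

namespace Pool.Agent.TFP

section TJ

variable {F E : Type} [Fintype F] [DecidableEq F] [Fintype E] [DecidableEq E]

/-- the boundary of a set of edges (as a vector over `ZMod 2`) -/
def tjBd (p q : E → F) (j : E → ZMod 2) (f : F) : ZMod 2 :=
  ∑ e, j e * ((if p e = f then 1 else 0) + (if q e = f then 1 else 0))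

/-- the indicator of a vertex -/
def tjDl (a f : F) : ZMod 2 := if a = f then 1 else 0

/-- the weight of a set of edges -/
def tjW (w : E → ℝ) (j : E → ZMod 2) : ℝ := ∑ e, if j e ≠ 0 then w e else 0

omit [Fintype F] [DecidableEq E] in
theorem tjBd_add (p q : E → F) (j k : E → ZMod 2) (f : F) :
    tjBd p q (j + k) f = tjBd p q j f + tjBd p q k f := by
  unfold tjBd
  rw [← Finset.sum_add_distrib]
  exact Finset.sum_congr rfl fun e _ => by rw [Pi.add_apply, add_mul]

omit [Fintype F] in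
theorem tjBd_single (p q : E → F) (e : E) (f : F) :
    tjBd p q (Pi.single e 1) f = tjDl (p e) f + tjDl (q e) f := by
  unfold tjBd tjDl
  rw [Finset.sum_eq_single e]
  · rw [Pi.single_eq_same, one_mul]
  · intro b _ hb
    rw [Pi.single_eq_of_ne hb, zero_mul]
  · intro h
    exact absurd (Finset.mem_univ e) h

omit [Fintype F] [DecidableEq E] in
theorem tjBd_zero (p q : E → F) (f : F) : tjBd p q (0 : E → ZMod 2) f = 0 := by
  unfold tjBd
  simp

theorem tj_two (a : ZMod 2) : a + a = 0 := by revert a; decide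

theorem tj_ne (a : ZMod 2) (h : a ≠ 0) : a = 1 := by revert a; decide

omit [Fintype F] in
theorem tjDl_sum (a : F) (B : Finset F) : (∑ f ∈ B, tjDl a f) = if a ∈ B then 1 else 0 := by
  unfold tjDl
  rw [Finset.sum_ite_eq]

omit [Fintype F] [DecidableEq E] in
/-- the sum of the boundary over a set of vertices -/
theorem tjBd_sum (p q : E → F) (j : E → ZMod 2) (B : Finset F) :
    (∑ f ∈ B, tjBd p q j f) = ∑ e, if ¬ (p e ∈ B ↔ q e ∈ B) then j e else 0 := by
  unfold tjBd
  rw [Finset.sum_comm]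
  refine Finset.sum_congr rfl fun e _ => ?_
  rw [← Finset.mul_sum, Finset.sum_add_distrib, Finset.sum_ite_eq, Finset.sum_ite_eq]
  by_cases h1 : p e ∈ B <;> by_cases h2 : q e ∈ B <;> simp [h1, h2]
  exact Or.inr (by decide)

/-- adjacency through the edges in `A` -/
def tjAdj (p q : E → F) (A : E → Prop) (f g : F) : Prop :=
  ∃ e, A e ∧ ((p e = f ∧ q e = g) ∨ (p e = g ∧ q e = f))

/-- reachability through the edges in `A` -/
def tjReach (p q : E → F) (A : E → Prop) : F → F → Prop := Relation.ReflTransGen (tjAdj p q A)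

omit [Fintype F] [DecidableEq F] [Fintype E] [DecidableEq E] in
theorem tjReach_symm {p q : E → F} {A : E → Prop} {f g : F} (h : tjReach p q A f g) :
    tjReach p q A g f := by
  unfold tjReach at *
  induction h with
  | refl => exact Relation.ReflTransGen.refl
  | tail _ hbc ih =>
    obtain ⟨e, he, h⟩ := hbc
    exact Relation.ReflTransGen.head ⟨e, he, h.symm⟩ ih

omit [Fintype F] in
theorem tjReach_join {p q : E → F} {A : E → Prop} {f g : F} (h : tjReach p q A f g) :
    ∃ j : E → ZMod 2, (∀ e, j e ≠ 0 → A e) ∧ ∀ v, tjBd p q j v = tjDl f v + tjDl g v := by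
  unfold tjReach at h
  induction h with
  | refl => exact ⟨0, fun e he => absurd rfl he, fun v => by rw [tjBd_zero, tj_two]⟩
  | @tail b c _ hbc ih =>
    obtain ⟨j, h1, h2⟩ := ih
    obtain ⟨e, he, h⟩ := hbc
    refine ⟨j + Pi.single e 1, ?_, ?_⟩
    · intro e' he'
      by_cases hee : e' = e
      · rw [hee]; exact he
      · apply h1
        intro h0
        apply he'
        rw [Pi.add_apply, h0, Pi.single_eq_of_ne hee, add_zero]
    · intro v
      rw [tjBd_add, h2, tjBd_single]
      rcases h with ⟨h3, h4⟩ | ⟨h3, h4⟩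
      · rw [h3, h4]
        have := tj_two (tjDl b v)
        linear_combination this
      · rw [h3, h4]
        have := tj_two (tjDl b v)
        linear_combination this

omit [Fintype F] in
/-- existence of a join -/
theorem tj_exists [Finite F] (p q : E → F) (t : F → ZMod 2) (x : E → ℝ)
    (hcut : ∀ B : Finset F, (∑ f ∈ B, t f) = 1 →
      1 ≤ ∑ e, if ¬ (p e ∈ B ↔ q e ∈ B) then x e else 0) :
    ∃ j : E → ZMod 2, ∀ f, tjBd p q j f = t f := by
  classical
  have : Fintype F := Fintype.ofFinite F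
  obtain ⟨j, -, hj⟩ := Finset.exists_min_image (Finset.univ : Finset (E → ZMod 2))
    (fun j => (Finset.univ.filter fun f => tjBd p q j f ≠ t f).card) ⟨0, Finset.mem_univ _⟩
  refine ⟨j, ?_⟩
  by_contra hcon
  rw [not_forall] at hcon
  obtain ⟨f0, hf0⟩ := hcon
  set B : Finset F := Finset.univ.filter fun g => tjReach p q (fun _ => True) f0 g with hB
  have hmem : ∀ g, g ∈ B ↔ tjReach p q (fun _ => True) f0 g := fun g => by simp [hB]
  have hcl : ∀ e, p e ∈ B ↔ q e ∈ B := by
    intro e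
    rw [hmem, hmem]
    exact ⟨fun h => h.tail ⟨e, trivial, Or.inl ⟨rfl, rfl⟩⟩,
      fun h => h.tail ⟨e, trivial, Or.inr ⟨rfl, rfl⟩⟩⟩
  have h1 : (∑ f ∈ B, t f) = 0 := by
    by_contra h
    have h2 := hcut B (tj_ne _ h)
    rw [Finset.sum_eq_zero] at h2
    · linarith
    · intro e _
      rw [if_neg (not_not.2 (hcl e))]
  have h2 : (∑ f ∈ B, tjBd p q j f) = 0 := by
    rw [tjBd_sum]
    exact Finset.sum_eq_zero fun e _ => by rw [if_neg (not_not.2 (hcl e))]
  have hf0B : f0 ∈ B := (hmem f0).2 Relation.ReflTransGen.refl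
  have h3 : ∃ f1 ∈ B, f1 ≠ f0 ∧ tjBd p q j f1 ≠ t f1 := by
    by_contra h
    push Not at h
    have h4 : (∑ f ∈ B, (tjBd p q j f + t f)) = tjBd p q j f0 + t f0 := by
      rw [Finset.sum_eq_single f0]
      · intro b hb hb0
        rw [h b hb hb0, tj_two]
      · intro h; exact absurd hf0B h
    rw [Finset.sum_add_distrib, h1, h2, add_zero] at h4
    apply hf0
    have h5 := tj_two (t f0)
    linear_combination -h4 - h5
  obtain ⟨f1, hf1B, hf10, hf1⟩ := h3
  obtain ⟨k, -, hk⟩ := tjReach_join ((hmem f1).1 hf1B)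
  have h4 := hj (j + k) (Finset.mem_univ _)
  have h5 : (Finset.univ.filter fun f => tjBd p q (j + k) f ≠ t f) ⊂
      Finset.univ.filter fun f => tjBd p q j f ≠ t f := by
    rw [Finset.ssubset_iff_of_subset]
    · refine ⟨f0, by simpa using hf0, ?_⟩
      simp only [Finset.mem_filter, Finset.mem_univ, true_and, not_not]
      rw [tjBd_add, hk]
      have h6 : tjDl f0 f0 = 1 := by simp [tjDl]
      have h7 : tjDl f1 f0 = 0 := by simp [tjDl, hf10]
      rw [h6, h7]
      revert hf0
      generalize tjBd p q j f0 = a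
      generalize t f0 = b
      revert a b
      decide
    · intro f hf
      simp only [Finset.mem_filter, Finset.mem_univ, true_and] at hf ⊢
      intro hcon
      by_cases e0 : f0 = f
      · rw [← e0] at hcon; exact hf0 hcon
      · by_cases e1 : f1 = f
        · rw [← e1] at hcon; exact hf1 hcon
        · apply hf
          rw [tjBd_add, hk, hcon]
          simp [tjDl, e0, e1]
  exact absurd (Finset.card_lt_card h5) (not_lt.2 h4)

omit [Fintype F] [DecidableEq F] [DecidableEq E] in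
theorem tjW_nonneg {w : E → ℝ} (hw : ∀ e, 0 ≤ w e) (j : E → ZMod 2) : 0 ≤ tjW w j := by
  unfold tjW
  refine Finset.sum_nonneg fun e _ => ?_
  split_ifs
  · exact hw e
  · exact le_rfl

omit [Fintype F] [DecidableEq F] [DecidableEq E] in
/-- exchange identity -/
theorem tjW_exchange (w : E → ℝ) (J k C : E → ZMod 2)
    (h : ∀ e, C e ≠ 0 → w e = 0 ∨ J e + k e ≠ 0) :
    tjW w (J + C) + tjW w (k + C) = tjW w J + tjW w k := by
  unfold tjW
  rw [← Finset.sum_add_distrib, ← Finset.sum_add_distrib]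
  refine Finset.sum_congr rfl fun e _ => ?_
  rw [Pi.add_apply, Pi.add_apply]
  by_cases hC : C e = 0
  · rw [hC, add_zero, add_zero]
  · rcases h e hC with h1 | h1
    · simp [h1]
    · have h2 := tj_ne _ hC
      rw [h2]
      revert h1
      generalize J e = a
      generalize k e = b
      revert a b
      intro a b hab
      have h3 : ∀ a b : ZMod 2, a + b ≠ 0 →
          ((a + 1 ≠ 0 ∧ a = 0 ∧ b + 1 = 0 ∧ b ≠ 0) ∨ (a + 1 = 0 ∧ a ≠ 0 ∧ b + 1 ≠ 0 ∧ b = 0)) := by
        decide
      rcases h3 a b hab with ⟨ha, hb, hc, hd⟩ | ⟨ha, hb, hc, hd⟩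
      · simp [hb, hc, hd]
      · simp [ha, hb, hd]

omit [Fintype F] [DecidableEq F] [DecidableEq E] in
/-- adding a set of zero weight edges -/
theorem tjW_add_zero (w : E → ℝ) (k Q : E → ZMod 2) (h : ∀ e, Q e ≠ 0 → w e = 0) :
    tjW w (k + Q) = tjW w k := by
  unfold tjW
  refine Finset.sum_congr rfl fun e _ => ?_
  rw [Pi.add_apply]
  by_cases hQ : Q e = 0
  · rw [hQ, add_zero]
  · simp [h e hQ]

omit [Fintype F] [DecidableEq F] in
/-- flipping an edge which is present -/
theorem tjW_flip (w : E → ℝ) (k : E → ZMod 2) (e : E) (he : k e ≠ 0) :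
    tjW w (k + Pi.single e 1) = tjW w k - w e := by
  unfold tjW
  rw [← Finset.add_sum_erase _ _ (Finset.mem_univ e),
    ← Finset.add_sum_erase (Finset.univ) (fun e => if k e ≠ 0 then w e else 0) (Finset.mem_univ e)]
  have h1 : (k + Pi.single e 1 : E → ZMod 2) e = 0 := by
    rw [Pi.add_apply, Pi.single_eq_same, tj_ne _ he]
    decide
  have h2 : ∀ e' ∈ Finset.univ.erase e,
      (if (k + Pi.single e 1 : E → ZMod 2) e' ≠ 0 then w e' else 0) =
      if k e' ≠ 0 then w e' else 0 := by
    intro e' he'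
    rw [Pi.add_apply, Pi.single_eq_of_ne (Finset.ne_of_mem_erase he'), add_zero]
  rw [Finset.sum_congr rfl h2]
  simp only [h1, ne_eq, not_true_eq_false, if_false, he, not_false_eq_true, if_true]
  ring

/-- the key step: at a positive minimum there is an odd cut with positive weights which meets
every minimum join at most once -/
theorem tj_key (p q : E → F) (t : F → ZMod 2) (w : E → ℝ) (hw : ∀ e, 0 ≤ w e)
    (m : ℝ) (hm : 0 < m) (J0 : E → ZMod 2) (hJ0 : ∀ f, tjBd p q J0 f = t f) (hJ0m : tjW w J0 = m)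
    (hmin : ∀ j : E → ZMod 2, (∀ f, tjBd p q j f = t f) → m ≤ tjW w j) :
    ∃ B : Finset F, (∑ f ∈ B, t f) = 1 ∧ (∀ e, ¬ (p e ∈ B ↔ q e ∈ B) → 0 < w e) ∧
      ∀ j : E → ZMod 2, (∀ f, tjBd p q j f = t f) → tjW w j = m →
        ∀ e e', ¬ (p e ∈ B ↔ q e ∈ B) → ¬ (p e' ∈ B ↔ q e' ∈ B) → j e ≠ 0 → j e' ≠ 0 → e = e' := by
  classical
  -- an edge of positive weight in `J0`
  obtain ⟨e0, he0, hwe0⟩ : ∃ e, J0 e ≠ 0 ∧ 0 < w e := by
    by_contra hcon
    push Not at hcon
    have : tjW w J0 = 0 := by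
      unfold tjW
      refine Finset.sum_eq_zero fun e _ => ?_
      split_ifs with h
      · exact le_antisymm (hcon e h) (hw e)
      · rfl
    linarith
  -- the family
  let Fam : Finset ((E → ZMod 2) × F × F) := Finset.univ.filter fun x =>
    ∀ f, tjBd p q x.1 f = t f + tjDl x.2.1 f + tjDl x.2.2 f
  have hFam : ∀ k a b, (k, a, b) ∈ Fam ↔ ∀ f, tjBd p q k f = t f + tjDl a f + tjDl b f := by
    intro k a b
    simp [Fam]
  obtain ⟨⟨k, a, b⟩, hkab, hk⟩ := Finset.exists_min_image Fam (fun x => tjW w x.1)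
    ⟨(J0 + Pi.single e0 1, p e0, q e0), by
      rw [hFam]
      intro f
      rw [tjBd_add, hJ0, tjBd_single, add_assoc]⟩
  rw [hFam] at hkab
  replace hk : ∀ k' a' b', (∀ f, tjBd p q k' f = t f + tjDl a' f + tjDl b' f) →
      tjW w k ≤ tjW w k' := fun k' a' b' h => hk (k', a', b') ((hFam k' a' b').2 h)
  have hkm : tjW w k < m := by
    have h1 := hk (J0 + Pi.single e0 1) (p e0) (q e0) (fun f => by
      rw [tjBd_add, hJ0, tjBd_single, add_assoc])
    rw [tjW_flip w J0 e0 he0, hJ0m] at h1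
    linarith
  set B : Finset F := Finset.univ.filter fun g => tjReach p q (fun e => w e = 0) b g with hB
  have hmem : ∀ g, g ∈ B ↔ tjReach p q (fun e => w e = 0) b g := fun g => by simp [hB]
  have hbB : b ∈ B := (hmem b).2 Relation.ReflTransGen.refl
  have hpos : ∀ e, ¬ (p e ∈ B ↔ q e ∈ B) → 0 < w e := by
    intro e he
    rcases (hw e).lt_or_eq with h | h
    · exact h
    · exfalso
      apply he
      rw [hmem, hmem]
      exact ⟨fun h' => h'.tail ⟨e, h.symm, Or.inl ⟨rfl, rfl⟩⟩,
        fun h' => h'.tail ⟨e, h.symm, Or.inr ⟨rfl, rfl⟩⟩⟩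
  -- the two ends of an edge of the cut
  have hends : ∀ e, ¬ (p e ∈ B ↔ q e ∈ B) → ∃ u v, u ∈ B ∧ v ∉ B ∧
      (∀ f, tjDl (p e) f + tjDl (q e) f = tjDl u f + tjDl v f) ∧
      ((p e = u ∧ q e = v) ∨ (p e = v ∧ q e = u)) := by
    intro e he
    by_cases h1 : p e ∈ B
    · have h2 : q e ∉ B := fun h => he ⟨fun _ => h, fun _ => h1⟩
      exact ⟨p e, q e, h1, h2, fun f => rfl, Or.inl ⟨rfl, rfl⟩⟩
    · have h2 : q e ∈ B := by
        by_contra h2
        exact he ⟨fun h => absurd h h1, fun h => absurd h h2⟩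
      exact ⟨q e, p e, h2, h1, fun f => add_comm _ _, Or.inr ⟨rfl, rfl⟩⟩
  -- (1)
  have hcutk : ∀ k', (∀ f, tjBd p q k' f = t f + tjDl a f + tjDl b f) → tjW w k' = tjW w k →
      ∀ e, ¬ (p e ∈ B ↔ q e ∈ B) → k' e = 0 := by
    intro k' hk' hw' e he
    by_contra hne
    obtain ⟨u, v, hu, hv, huv, -⟩ := hends e he
    obtain ⟨Q, hQ1, hQ2⟩ := tjReach_join ((hmem u).1 hu)
    have h1 := hk (k' + Pi.single e 1 + Q) a v (by
      intro f
      rw [tjBd_add, tjBd_add, hk', tjBd_single, hQ2, huv]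
      have h2 := tj_two (tjDl b f)
      have h3 := tj_two (tjDl u f)
      linear_combination h2 + h3)
    rw [tjW_add_zero w _ Q hQ1, tjW_flip w k' e hne, hw'] at h1
    linarith [hpos e he]
  -- (2)
  have haB : a ∉ B := by
    intro ha
    obtain ⟨Q, hQ1, hQ2⟩ := tjReach_join ((hmem a).1 ha)
    have h1 := hmin (k + Q) (by
      intro f
      rw [tjBd_add, hkab, hQ2]
      have h2 := tj_two (tjDl b f)
      have h3 := tj_two (tjDl a f)
      linear_combination h2 + h3)
    rw [tjW_add_zero w _ Q hQ1] at h1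
    linarith
  -- (3)
  have htB : (∑ f ∈ B, t f) = 1 := by
    have h1 : (∑ f ∈ B, tjBd p q k f) = 0 := by
      rw [tjBd_sum]
      refine Finset.sum_eq_zero fun e _ => ?_
      by_cases h : (p e ∈ B ↔ q e ∈ B)
      · rw [if_neg (not_not.2 h)]
      · rw [if_pos h]
        exact hcutk k hkab rfl e h
    rw [Finset.sum_congr rfl fun f _ => hkab f, Finset.sum_add_distrib, Finset.sum_add_distrib,
      tjDl_sum, tjDl_sum, if_neg haB, if_pos hbB] at h1
    have h2 : (1 : ZMod 2) + 1 = 0 := by decide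
    linear_combination h1 - h2
  refine ⟨B, htB, hpos, ?_⟩
  intro J hJ hJm e1 e2 he1 he2 hJe1 hJe2
  by_contra hne
  -- edges of `J + k` outside `B`
  set A : E → Prop := fun e => J e + k e ≠ 0 ∧ p e ∉ B ∧ q e ∉ B with hA
  -- Case I is impossible
  have hI : ∀ e e', e ≠ e' → ¬ (p e ∈ B ↔ q e ∈ B) → ¬ (p e' ∈ B ↔ q e' ∈ B) → J e ≠ 0 →
      J e' ≠ 0 → ∀ v v', v ∉ B → v' ∉ B → (p e = v ∨ q e = v) → (p e' = v' ∨ q e' = v') →
      ¬ tjReach p q A v v' := by
    intro e e' hee he he' hJe hJe' v v' hv hv' hev hev' hreach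
    obtain ⟨u, v1, hu, hv1, huv, h1⟩ := hends e he
    obtain ⟨u', v1', hu', hv1', huv', h1'⟩ := hends e' he'
    have hvv : v1 = v := by
      rcases h1 with ⟨h2, h3⟩ | ⟨h2, h3⟩ <;> rcases hev with h4 | h4
      · exact absurd hu (by rw [← h2, h4]; exact hv)
      · rw [← h3, h4]
      · rw [← h2, h4]
      · exact absurd hu (by rw [← h3, h4]; exact hv)
    have hvv' : v1' = v' := by
      rcases h1' with ⟨h2, h3⟩ | ⟨h2, h3⟩ <;> rcases hev' with h4 | h4
      · exact absurd hu' (by rw [← h2, h4]; exact hv')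
      · rw [← h3, h4]
      · rw [← h2, h4]
      · exact absurd hu' (by rw [← h3, h4]; exact hv')
    subst hvv hvv'
    obtain ⟨P, hP1, hP2⟩ := tjReach_join hreach
    have hub : tjReach p q (fun e => w e = 0) u u' :=
      (tjReach_symm ((hmem u).1 hu)).trans ((hmem u').1 hu')
    obtain ⟨Q, hQ1, hQ2⟩ := tjReach_join hub
    set C : E → ZMod 2 := Pi.single e 1 + Pi.single e' 1 + P + Q with hC
    have hC0 : ∀ f, tjBd p q C f = 0 := by
      intro f
      rw [hC, tjBd_add, tjBd_add, tjBd_add, tjBd_single, tjBd_single, hP2, hQ2, huv, huv']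
      have a1 := tj_two (tjDl u f)
      have a2 := tj_two (tjDl u' f)
      have a3 := tj_two (tjDl v1 f)
      have a4 := tj_two (tjDl v1' f)
      linear_combination a1 + a2 + a3 + a4
    have hke : k e = 0 := hcutk k hkab rfl e he
    have hke' : k e' = 0 := hcutk k hkab rfl e' he'
    have hsupp : ∀ g, C g ≠ 0 → w g = 0 ∨ J g + k g ≠ 0 := by
      intro g hg
      by_cases hQg : Q g = 0
      · by_cases hPg : P g = 0
        · right
          rw [hC] at hg
          simp only [Pi.add_apply, hQg, hPg, add_zero] at hg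
          by_cases hge : g = e
          · rw [hge, hke, add_zero]; exact hJe
          · by_cases hge' : g = e'
            · rw [hge', hke', add_zero]; exact hJe'
            · rw [Pi.single_eq_of_ne hge, Pi.single_eq_of_ne hge', add_zero] at hg
              exact absurd rfl hg
        · exact Or.inr (hP1 g hPg).1
      · exact Or.inl (hQ1 g hQg)
    have hex := tjW_exchange w J k C hsupp
    have h2 := hmin (J + C) (fun f => by rw [tjBd_add, hJ, hC0, add_zero])
    have h3 := hk (k + C) a b (fun f => by rw [tjBd_add, hkab, hC0, add_zero])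
    have h4 : tjW w (k + C) = tjW w k := by linarith
    have h5 := hcutk (k + C) (fun f => by rw [tjBd_add, hkab, hC0, add_zero]) h4 e he
    have hPe : P e = 0 := by
      by_contra h
      have := (hP1 e h).2
      exact he ⟨fun h' => absurd h' this.1, fun h' => absurd h' this.2⟩
    have hQe : Q e = 0 := by
      by_contra h
      exact absurd (hQ1 e h) (hpos e he).ne'
    rw [Pi.add_apply, hke, hC] at h5
    simp only [Pi.add_apply, Pi.single_eq_same, Pi.single_eq_of_ne hee, hPe, hQe, add_zero,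
      zero_add] at h5
    exact absurd h5 (by decide)
  -- Case II: `a` is reachable from the outer end of every edge of the cut in `J`
  have hII : ∀ e, ¬ (p e ∈ B ↔ q e ∈ B) → J e ≠ 0 → ∃ v, v ∉ B ∧ (p e = v ∨ q e = v) ∧
      tjReach p q A v a := by
    intro e he hJe
    obtain ⟨u, v, hu, hv, huv, h1⟩ := hends e he
    have hev : p e = v ∨ q e = v := by
      rcases h1 with ⟨h2, h3⟩ | ⟨h2, h3⟩
      · exact Or.inr h3
      · exact Or.inl h2
    refine ⟨v, hv, hev, ?_⟩
    set D : Finset F := Finset.univ.filter fun g => tjReach p q A v g with hD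
    have hmD : ∀ g, g ∈ D ↔ tjReach p q A v g := fun g => by simp [hD]
    have hDB : ∀ g, g ∈ D → g ∉ B := by
      intro g hg
      rw [hmD] at hg
      unfold tjReach at hg
      induction hg with
      | refl => exact hv
      | tail _ hbc _ =>
        obtain ⟨e', he', h⟩ := hbc
        rcases h with ⟨h2, h3⟩ | ⟨h2, h3⟩
        · rw [← h3]; exact he'.2.2
        · rw [← h2]; exact he'.2.1
    by_contra hna
    rw [← hmD] at hna
    have hbD : b ∉ D := fun h => hDB b h hbB
    have hs : (∑ f ∈ D, tjBd p q (J + k) f) = 0 := by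
      rw [Finset.sum_congr rfl fun f _ => by rw [tjBd_add, hJ, hkab], ]
      have : ∀ f ∈ D, t f + (t f + tjDl a f + tjDl b f) = tjDl a f + tjDl b f := by
        intro f _
        have := tj_two (t f)
        linear_combination this
      rw [Finset.sum_congr rfl this, Finset.sum_add_distrib, tjDl_sum, tjDl_sum, if_neg hna,
        if_neg hbD, add_zero]
    rw [tjBd_sum, Finset.sum_eq_single e] at hs
    · have hvD : v ∈ D := (hmD v).2 Relation.ReflTransGen.refl
      have huD : u ∉ D := fun h => hDB u h hu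
      have hcut : ¬ (p e ∈ D ↔ q e ∈ D) := by
        rcases h1 with ⟨h2, h3⟩ | ⟨h2, h3⟩
        · rw [h2, h3]; exact fun h => huD (h.2 hvD)
        · rw [h2, h3]; exact fun h => huD (h.1 hvD)
      rw [if_pos hcut, Pi.add_apply, hcutk k hkab rfl e he, add_zero] at hs
      exact hJe hs
    · intro g _ hge
      by_cases hg : (p g ∈ D ↔ q g ∈ D)
      · rw [if_neg (not_not.2 hg)]
      · rw [if_pos hg]
        by_contra hgne
        rw [Pi.add_apply] at hgne
        -- the end of `g` in `D` and the other end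
        have key : ∀ c d, (p g = c ∧ q g = d) ∨ (p g = d ∧ q g = c) → c ∈ D → d ∉ D → False := by
          intro c d hcd hc hd
          have hcB := hDB c hc
          by_cases hdB : d ∈ B
          · have hg' : ¬ (p g ∈ B ↔ q g ∈ B) := by
              rcases hcd with ⟨h2, h3⟩ | ⟨h2, h3⟩
              · rw [h2, h3]; exact fun h => hcB (h.2 hdB)
              · rw [h2, h3]; exact fun h => hcB (h.1 hdB)
            have hJg : J g ≠ 0 := by
              rw [hcutk k hkab rfl g hg', add_zero] at hgne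
              exact hgne
            refine hI e g (Ne.symm hge) he hg' hJe hJg v c hv hcB hev ?_ ((hmD c).1 hc)
            rcases hcd with ⟨h2, _⟩ | ⟨_, h3⟩
            · exact Or.inl h2
            · exact Or.inr h3
          · apply hd
            rw [hmD] at hc ⊢
            refine hc.tail ⟨g, ⟨hgne, ?_⟩, hcd⟩
            rcases hcd with ⟨h2, h3⟩ | ⟨h2, h3⟩
            · rw [h2, h3]; exact ⟨hcB, hdB⟩
            · rw [h2, h3]; exact ⟨hdB, hcB⟩
        by_cases h2 : p g ∈ D
        · exact key (p g) (q g) (Or.inl ⟨rfl, rfl⟩) h2 (fun h => hg ⟨fun _ => h, fun _ => h2⟩)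
        · refine key (q g) (p g) (Or.inr ⟨rfl, rfl⟩) ?_ h2
          by_contra h3
          exact hg ⟨fun h => absurd h h2, fun h => absurd h h3⟩
    · intro h; exact absurd (Finset.mem_univ e) h
  obtain ⟨v1, hv1, hev1, hr1⟩ := hII e1 he1 hJe1
  obtain ⟨v2, hv2, hev2, hr2⟩ := hII e2 he2 hJe2
  exact hI e1 e2 hne he1 he2 hJe1 hJe2 v1 v2 hv1 hv2 hev1 hev2 (hr1.trans (tjReach_symm hr2))

theorem tj_eps {ι : Type} [Finite ι] (g : ι → ℝ) (P : ι → Prop) (h : ∀ i, P i → 0 < g i) :
    ∃ ε : ℝ, 0 < ε ∧ ∀ i, P i → ε ≤ g i := by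
  classical
  have : Fintype ι := Fintype.ofFinite ι
  by_cases hne : (Finset.univ.filter P).Nonempty
  · obtain ⟨i, hi, hmin⟩ := Finset.exists_min_image (Finset.univ.filter P) g hne
    rw [Finset.mem_filter] at hi
    exact ⟨g i, h i hi.2, fun j hj => hmin j (by simpa using hj)⟩
  · refine ⟨1, one_pos, fun i hi => ?_⟩
    exact absurd ⟨i, by simpa using hi⟩ hne

theorem tjoin (p q : E → F) (t : F → ZMod 2) (w x : E → ℝ) (hw : ∀ e, 0 ≤ w e)
    (hx : ∀ e, 0 ≤ x e)
    (hcut : ∀ B : Finset F, (∑ f ∈ B, t f) = 1 → 1 ≤ ∑ e with ¬ (p e ∈ B ↔ q e ∈ B), x e) :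
    ∃ j : E → ZMod 2,
      (∀ f, ∑ e, j e * ((if p e = f then 1 else 0) + (if q e = f then 1 else 0)) = t f) ∧
      ∑ e with j e ≠ 0, w e ≤ ∑ e, w e * x e := by
  classical
  have hcut' : ∀ B : Finset F, (∑ f ∈ B, t f) = 1 →
      1 ≤ ∑ e, if ¬ (p e ∈ B ↔ q e ∈ B) then x e else 0 := by
    intro B hB
    rw [← Finset.sum_filter]
    exact hcut B hB
  by_contra hcon
  push Not at hcon
  have hcon' : ∀ j : E → ZMod 2, (∀ f, tjBd p q j f = t f) → ∑ e, w e * x e < tjW w j := by
    intro j hj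
    have := hcon j hj
    rw [Finset.sum_filter] at this
    exact this
  obtain ⟨j0, hj0⟩ := tj_exists p q t x hcut'
  -- the gap
  obtain ⟨j1, hj1, hj1min⟩ := Finset.exists_min_image
    (Finset.univ.filter fun j : E → ZMod 2 => ∀ f, tjBd p q j f = t f) (fun j => tjW w j)
    ⟨j0, by simpa using hj0⟩
  rw [Finset.mem_filter] at hj1
  set c : ℝ := tjW w j1 - ∑ e, w e * x e with hc
  have hcpos : 0 < c := sub_pos.2 (hcon' j1 hj1.2)
  let S : Set (E → ℝ) := Set.Icc 0 w ∩ {u | ∀ j : E → ZMod 2, (∀ f, tjBd p q j f = t f) →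
    c + ∑ e, u e * x e ≤ tjW u j}
  have hScl : IsCompact S := by
    refine isCompact_Icc.inter_right ?_
    have : {u : E → ℝ | ∀ j : E → ZMod 2, (∀ f, tjBd p q j f = t f) →
        c + ∑ e, u e * x e ≤ tjW u j} = ⋂ j : E → ZMod 2, ⋂ _ : (∀ f, tjBd p q j f = t f),
        {u : E → ℝ | c + ∑ e, u e * x e ≤ tjW u j} := by
      ext u
      simp
    rw [this]
    refine isClosed_iInter fun j => isClosed_iInter fun _ => ?_
    apply isClosed_le
    · exact continuous_const.add (continuous_finsetSum _ fun e _ =>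
        (continuous_apply e).mul continuous_const)
    · unfold tjW
      refine continuous_finsetSum _ fun e _ => ?_
      split_ifs
      · exact continuous_apply e
      · exact continuous_const
  have hSne : S.Nonempty := by
    refine ⟨w, ⟨fun e => hw e, le_rfl⟩, ?_⟩
    intro j hj
    have h1 := hj1min j (by simpa using hj)
    rw [hc]
    linarith
  obtain ⟨u, hu, humin⟩ := hScl.exists_isMinOn hSne
    (f := fun u : E → ℝ => ∑ e, u e)
    (continuous_finsetSum _ fun e _ => continuous_apply e).continuousOn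
  obtain ⟨⟨hu0, huw⟩, huS⟩ := hu
  replace hu0 : ∀ e, 0 ≤ u e := fun e => hu0 e
  obtain ⟨J0, hJ0, hJ0min⟩ := Finset.exists_min_image
    (Finset.univ.filter fun j : E → ZMod 2 => ∀ f, tjBd p q j f = t f) (fun j => tjW u j)
    ⟨j0, by simpa using hj0⟩
  rw [Finset.mem_filter] at hJ0
  set m : ℝ := tjW u J0 with hm
  have hux : 0 ≤ ∑ e, u e * x e := Finset.sum_nonneg fun e _ => mul_nonneg (hu0 e) (hx e)
  have hcm : c + ∑ e, u e * x e ≤ m := huS J0 hJ0.2
  have hmpos : 0 < m := by linarith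
  have hmin' : ∀ j : E → ZMod 2, (∀ f, tjBd p q j f = t f) → m ≤ tjW u j :=
    fun j hj => hJ0min j (by simpa using hj)
  obtain ⟨B, hB1, hB2, hB3⟩ := tj_key p q t u hu0 m hmpos J0 hJ0.2 hm.symm hmin'
  have hxB := hcut' B hB1
  -- the decrement
  obtain ⟨ε1, hε1, hε1'⟩ := tj_eps u (fun e => ¬ (p e ∈ B ↔ q e ∈ B)) hB2
  obtain ⟨ε2, hε2, hε2'⟩ := tj_eps (fun j : E → ZMod 2 => tjW u j - m)
    (fun j => (∀ f, tjBd p q j f = t f) ∧ tjW u j ≠ m)
    (fun j hj => sub_pos.2 (lt_of_le_of_ne (hmin' j hj.1) (Ne.symm hj.2)))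
  have hcard : (0 : ℝ) < (Fintype.card E : ℝ) + 1 := by positivity
  set ε : ℝ := min ε1 (ε2 / ((Fintype.card E : ℝ) + 1)) with hε
  have hεpos : 0 < ε := lt_min hε1 (div_pos hε2 hcard)
  have hεE : ε * (Fintype.card E : ℝ) ≤ ε2 := by
    have h1 : ε ≤ ε2 / ((Fintype.card E : ℝ) + 1) := min_le_right _ _
    rw [le_div_iff₀ hcard] at h1
    nlinarith
  let u1 : E → ℝ := fun e => u e - if ¬ (p e ∈ B ↔ q e ∈ B) then ε else 0
  have hu1x : ∑ e, u1 e * x e ≤ ∑ e, u e * x e - ε := by
    have h1 : ∑ e, u1 e * x e =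
        ∑ e, u e * x e - ε * ∑ e, (if ¬ (p e ∈ B ↔ q e ∈ B) then x e else 0) := by
      rw [Finset.mul_sum, ← Finset.sum_sub_distrib]
      refine Finset.sum_congr rfl fun e _ => ?_
      simp only [u1]
      by_cases h : (p e ∈ B ↔ q e ∈ B)
      · rw [if_neg (not_not.2 h), if_neg (not_not.2 h)]; ring
      · rw [if_pos h, if_pos h]; ring
    rw [h1]
    nlinarith
  have hu1W : ∀ j : E → ZMod 2, tjW u1 j =
      tjW u j - ε * ∑ e, (if ¬ (p e ∈ B ↔ q e ∈ B) ∧ j e ≠ 0 then 1 else 0) := by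
    intro j
    unfold tjW
    rw [Finset.mul_sum, ← Finset.sum_sub_distrib]
    refine Finset.sum_congr rfl fun e _ => ?_
    simp only [u1]
    by_cases h : (p e ∈ B ↔ q e ∈ B) <;> by_cases h' : j e = 0 <;> simp [h, h']
  have hu1S : u1 ∈ S := by
    refine ⟨⟨?_, ?_⟩, ?_⟩
    · intro e
      simp only [u1, Pi.zero_apply]
      by_cases h : (p e ∈ B ↔ q e ∈ B)
      · rw [if_neg (not_not.2 h), sub_zero]; exact hu0 e
      · rw [if_pos h]
        have h1 := hε1' e h
        have h2 : ε ≤ ε1 := min_le_left _ _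
        linarith
    · intro e
      have h1 := huw e
      simp only [u1]
      split_ifs
      · linarith
      · linarith
    · intro j hj
      rw [hu1W]
      by_cases hjm : tjW u j = m
      · have hN : ∑ e, (if ¬ (p e ∈ B ↔ q e ∈ B) ∧ j e ≠ 0 then (1 : ℝ) else 0) ≤ 1 := by
          rw [← Finset.sum_filter, Finset.sum_const, nsmul_eq_mul, mul_one]
          have : (Finset.univ.filter fun e => ¬ (p e ∈ B ↔ q e ∈ B) ∧ j e ≠ 0).card ≤ 1 := by
            rw [Finset.card_le_one]
            intro e he e' he'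
            simp only [Finset.mem_filter, Finset.mem_univ, true_and] at he he'
            exact hB3 j hj hjm e e' he.1 he'.1 he.2 he'.2
          exact_mod_cast this
        rw [hjm]
        nlinarith
      · have h1 := hε2' j ⟨hj, hjm⟩
        have hN : ∑ e, (if ¬ (p e ∈ B ↔ q e ∈ B) ∧ j e ≠ 0 then (1 : ℝ) else 0) ≤
            (Fintype.card E : ℝ) := by
          calc ∑ e, (if ¬ (p e ∈ B ↔ q e ∈ B) ∧ j e ≠ 0 then (1 : ℝ) else 0)
              ≤ ∑ _e : E, (1 : ℝ) := Finset.sum_le_sum fun e _ => by split_ifs <;> norm_num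
            _ = (Fintype.card E : ℝ) := by simp
        nlinarith
  have h1 := humin hu1S
  simp only at h1
  have h2 : ∑ e, u1 e = ∑ e, u e - ∑ e, (if ¬ (p e ∈ B ↔ q e ∈ B) then ε else 0) := by
    rw [← Finset.sum_sub_distrib]
  have h3 : 0 < ∑ e, (if ¬ (p e ∈ B ↔ q e ∈ B) then ε else 0) := by
    obtain ⟨e, he⟩ : ∃ e, ¬ (p e ∈ B ↔ q e ∈ B) := by
      by_contra h
      push Not at h
      rw [Finset.sum_eq_zero] at hxB
      · linarith
      · intro e _
        rw [if_neg (not_not.2 (h e))]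
    refine Finset.sum_pos' (fun e _ => ?_) ⟨e, Finset.mem_univ e, by rw [if_pos he]; exact hεpos⟩
    by_cases h : (p e ∈ B ↔ q e ∈ B)
    · rw [if_neg (not_not.2 h)]
    · rw [if_pos h]; exact hεpos.le
  have h4 : ∑ e, u e ≤ ∑ e, u1 e := h1
  linarith

end TJ

end Pool.Agent.TFP
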