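import Pool.Agent.TFP.EvenSet
import Pool.Agent.TFP.TJoin
import Pool.Agent.TFP.FaceLemma

/-!
# Light bipartizing edge sets of triangle-free planar graphs
-/

set_option autoImplicit false

namespace Pool.Agent.TFP

open Finset

/-- a function with exactly one value `1` on each pair `{d, α d}` -/
theorem exists_half {D : Type} [Finite D] (α : D → D) (hinv : ∀ d, α (α d) = d)
    (hne : ∀ d, α d ≠ d) : ∃ j : D → ZMod 2, ∀ d, j d + j (α d) = 1 := by
  classical
  obtain ⟨n, ⟨e⟩⟩ := Finite.exists_equiv_fin D
  refine ⟨fun d => if e d < e (α d) then 1 else 0, fun d => ?_⟩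
  have hd : e d ≠ e (α d) := fun h => hne d (e.injective h).symm
  simp only [hinv]
  rcases lt_or_gt_of_ne hd with h | h
  · rw [if_pos h, if_neg (not_lt.2 h.le), add_zero]
  · rw [if_neg (not_lt.2 h.le), if_pos h, zero_add]

theorem zmod2_cases (x : ZMod 2) : x = 0 ∨ x = 1 := by
  revert x
  decide

/-- sum over an involution -/
theorem sum_half {D : Type} [Fintype D] (α : Equiv.Perm D) (j f : D → ZMod 2)
    (hinv : ∀ d, α (α d) = d) (hj : ∀ d, j d + j (α d) = 1) :
    ∑ d, j d * (f d + f (α d)) = ∑ d, f d := by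
  have h1 : ∑ d, j d * f (α d) = ∑ d, j (α d) * f d := by
    rw [← Equiv.sum_comp α (fun d => j (α d) * f d)]
    refine Finset.sum_congr rfl fun d _ => ?_
    rw [hinv]
  calc ∑ d, j d * (f d + f (α d)) = ∑ d, j d * f d + ∑ d, j d * f (α d) := by
        rw [← Finset.sum_add_distrib]
        exact Finset.sum_congr rfl fun d _ => mul_add _ _ _
    _ = ∑ d, f d := by
        rw [h1, ← Finset.sum_add_distrib]
        refine Finset.sum_congr rfl fun d _ => ?_
        rw [← add_mul, hj, one_mul]

/-- The support of `f + f ∘ α` consists of an odd number of pairs when `f` has odd sum. -/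
theorem card_pairs {D : Type} [Fintype D] [DecidableEq D] (α : Equiv.Perm D) (f : D → ZMod 2)
    (hinv : ∀ d, α (α d) = d) (hne : ∀ d, α d ≠ d) (hf : ∑ d, f d = 1) :
    ∃ m : ℕ, Odd m ∧ (univ.filter (fun d => f d + f (α d) ≠ 0)).card = 2 * m := by
  obtain ⟨j, hj⟩ := exists_half (fun d => α d) hinv hne
  set A := univ.filter (fun d => f d + f (α d) ≠ 0) with hA
  have hjα : ∀ d, j (α d) = 1 ↔ ¬ j d = 1 := by
    intro d
    have := hj d
    rcases zmod2_cases (j d) with h | h <;> rcases zmod2_cases (j (α d)) with h' | h' <;>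
      rw [h, h'] at this <;> rw [h, h'] <;> revert this <;> decide
  have h1 : (A.filter (fun d => j d = 1)).card = (A.filter (fun d => ¬ j d = 1)).card := by
    refine Finset.card_nbij' (fun d => α d) (fun d => α d) ?_ ?_ ?_ ?_
    · intro d hd
      simp only [hA, coe_filter, mem_filter, mem_univ, true_and, Set.mem_ofPred_eq] at hd ⊢
      refine ⟨?_, ?_⟩
      · rw [hinv, add_comm]
        exact hd.1
      · rw [hjα, not_not]
        exact hd.2
    · intro d hd
      simp only [hA, coe_filter, mem_filter, mem_univ, true_and, Set.mem_ofPred_eq] at hd ⊢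
      refine ⟨?_, ?_⟩
      · rw [hinv, add_comm]
        exact hd.1
      · rw [hjα]
        exact hd.2
    · intro d _
      exact hinv d
    · intro d _
      exact hinv d
  refine ⟨(A.filter (fun d => j d = 1)).card, ?_, ?_⟩
  · have h3 : ∑ d, j d * (f d + f (α d)) = 1 := (sum_half α j f hinv hj).trans hf
    have h2 : ((A.filter (fun d => j d = 1)).card : ZMod 2) = 1 := by
      refine Eq.trans ?_ h3
      rw [Finset.card_filter, Nat.cast_sum, hA, Finset.sum_filter]
      refine Finset.sum_congr rfl fun d _ => ?_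
      rcases zmod2_cases (j d) with h | h <;>
        rcases zmod2_cases (f d + f (α d)) with h' | h' <;> rw [h, h'] <;> simp
    rwa [ZMod.natCast_eq_one_iff_odd] at h2
  · have := Finset.card_filter_add_card_filter_not (s := A) (fun d => j d = 1)
    omega

/-- the darts of a vertex, counted with the indicator of a set of faces, on both sides -/
theorem sum_vertex {D : Type} [Fintype D] (M : CMap D) (b : M.Face → ZMod 2) (x : M.Vertex)
    [DecidableEq M.Vertex] :
    ∑ d with M.vtx d = x, (b (M.face d) + b (M.face (M.α d))) = 0 := by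
  have h1 : ∀ d, M.face (M.α d) = M.face (M.σ d) := by
    intro d
    rw [← M.face_φ (M.α d), M.φ_α]
  simp only [h1]
  rw [Finset.sum_add_distrib]
  have h2 : ∑ d with M.vtx d = x, b (M.face (M.σ d)) = ∑ d with M.vtx d = x, b (M.face d) := by
    refine Finset.sum_nbij' (fun d => M.σ d) (fun d => M.σ.symm d) ?_ ?_ ?_ ?_ ?_
    · intro d hd
      simp only [mem_filter, mem_univ, true_and] at hd ⊢
      rw [M.vtx_σ, hd]
    · intro d hd
      simp only [mem_filter, mem_univ, true_and] at hd ⊢
      rw [← hd, ← M.vtx_σ (M.σ.symm d), Equiv.apply_symm_apply]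
    · intro d _
      exact Equiv.symm_apply_apply _ _
    · intro d _
      exact Equiv.apply_symm_apply _ _
    · intro d _
      rfl
  rw [h2]
  exact CharTwo.add_self_eq_zero _

section

variable {V : Type} [Fintype V] {G : SimpleGraph V} {D : Type} [Fintype D] {M : CMap D}
  {ι : V → M.Vertex} {δ : V → V → D}

omit [Fintype V] [Fintype D] in
theorem delta_inj (hι : Function.Injective ι)
    (hδ : ∀ u v, G.Adj u v → M.vtx (δ u v) = ι u ∧ δ v u = M.α (δ u v)) {u v u' v' : V}
    (h : G.Adj u v) (h' : G.Adj u' v') (he : δ u v = δ u' v') : u = u' ∧ v = v' := by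
  refine ⟨hι ?_, hι ?_⟩
  · rw [← (hδ u v h).1, ← (hδ u' v' h').1, he]
  · rw [← (hδ v u h.symm).1, ← (hδ v' u' h'.symm).1, (hδ u v h).2, (hδ u' v' h').2, he]

open Classical in
/-- the cut condition -/
theorem cut_ge (hG : G.CliqueFree 3) (hι : Function.Injective ι)
    (hδ : ∀ u v, G.Adj u v → M.vtx (δ u v) = ι u ∧ δ v u = M.α (δ u v))
    (B : Finset M.Face) (hB : ∑ d, (if M.face d ∈ B then (1 : ZMod 2) else 0) = 1) :
    (1 : ℝ) ≤ ∑ d with ¬ (M.face d ∈ B ↔ M.face (M.α d) ∈ B),
      (if ∃ u v, G.Adj u v ∧ δ u v = d then 1 / 10 else 1 / 2) := by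
  set b : M.Face → ZMod 2 := fun f => if f ∈ B then 1 else 0 with hb
  have hβ : ∀ d, b (M.face d) + b (M.face (M.α d)) ≠ 0 ↔
      ¬ (M.face d ∈ B ↔ M.face (M.α d) ∈ B) := by
    intro d
    by_cases h : M.face d ∈ B <;> by_cases h' : M.face (M.α d) ∈ B <;>
      simp [hb, h, h', CharTwo.add_self_eq_zero]
  set A : Finset D := univ.filter (fun d => ¬ (M.face d ∈ B ↔ M.face (M.α d) ∈ B)) with hA
  have hAβ : A = univ.filter (fun d => b (M.face d) + b (M.face (M.α d)) ≠ 0) := by
    ext d
    simp only [hA, mem_filter, mem_univ, true_and, hβ]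
  have hpos : ∀ d : D, (0 : ℝ) ≤ (if ∃ u v, G.Adj u v ∧ δ u v = d then 1 / 10 else 1 / 2) := by
    intro d
    split_ifs <;> norm_num
  by_cases hc : ∃ d ∈ A, ¬ ∃ u v, G.Adj u v ∧ δ u v = d
  · obtain ⟨d, hd, hn⟩ := hc
    have hd' : M.α d ∈ A := by
      simp only [hA, mem_filter, mem_univ, true_and] at hd ⊢
      rw [M.invol]
      exact fun h => hd h.symm
    have hn' : ¬ ∃ u v, G.Adj u v ∧ δ u v = M.α d := by
      rintro ⟨u, v, h, he⟩
      refine hn ⟨v, u, h.symm, ?_⟩
      rw [(hδ u v h).2, he, M.invol]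
    have hsub : ({d, M.α d} : Finset D) ⊆ A := by
      intro x hx
      simp only [mem_insert, mem_singleton] at hx
      rcases hx with rfl | rfl
      · exact hd
      · exact hd'
    refine le_trans ?_ (Finset.sum_le_sum_of_subset_of_nonneg hsub fun x _ _ => hpos x)
    rw [Finset.sum_pair (M.ne d).symm, if_neg hn, if_neg hn']
    norm_num
  · push Not at hc
    obtain ⟨m, hm, hcard⟩ := card_pairs M.α (fun d => b (M.face d)) M.invol M.ne hB
    rw [← hAβ] at hcard
    have hs : ∑ d ∈ A, (if ∃ u v, G.Adj u v ∧ δ u v = d then (1 / 10 : ℝ) else 1 / 2) =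
        A.card * (1 / 10) := by
      rw [Finset.sum_congr rfl fun d hd => if_pos (hc d hd), Finset.sum_const, nsmul_eq_mul]
    rw [hs]
    -- the even set
    set z : V → V → ZMod 2 := fun u v =>
      if G.Adj u v then b (M.face (δ u v)) + b (M.face (M.α (δ u v))) else 0 with hz
    have hsymm : ∀ u v, z u v = z v u := by
      intro u v
      simp only [hz]
      by_cases h : G.Adj u v
      · rw [if_pos h, if_pos h.symm, (hδ u v h).2, M.invol, add_comm]
      · rw [if_neg h, if_neg fun h' => h h'.symm]
    have hadj : ∀ u v, z u v ≠ 0 → G.Adj u v := by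
      intro u v h
      by_contra h'
      exact h (if_neg h')
    have hrow : ∀ u, ∑ v, z u v = 0 := by
      intro u
      rw [← sum_vertex M b (ι u)]
      refine Finset.sum_bij_ne_zero (fun v _ _ => δ u v) ?_ ?_ ?_ ?_
      · intro v _ hv
        simp only [mem_filter, mem_univ, true_and]
        exact (hδ u v (hadj u v hv)).1
      · intro v _ hv v' _ hv' he
        exact (delta_inj hι hδ (hadj u v hv) (hadj u v' hv') he).2
      · intro d hd hd0
        have hdA : d ∈ A := by
          rw [hAβ, mem_filter]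
          exact ⟨mem_univ _, hd0⟩
        obtain ⟨u', v, h, he⟩ := hc d hdA
        simp only [mem_filter, mem_univ, true_and] at hd
        have hu : u' = u := hι (by rw [← hd, ← he, (hδ u' v h).1])
        subst hu
        refine ⟨v, mem_univ _, ?_, he⟩
        simp only [hz]
        rw [if_pos h, he]
        exact hd0
      · intro v _ hv
        simp only [hz]
        rw [if_pos (hadj u v hv)]
    have hne : ∃ u v, z u v ≠ 0 := by
      have hpos : 0 < A.card := by
        have := hm.pos
        omega
      obtain ⟨d, hd⟩ := Finset.card_pos.1 hpos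
      obtain ⟨u, v, h, he⟩ := hc d hd
      refine ⟨u, v, ?_⟩
      simp only [hz]
      rw [if_pos h, he]
      rw [hAβ, mem_filter] at hd
      exact hd.2
    have h8 := even_set G hG z hsymm hadj hrow hne
    have hle : (univ.filter (fun p : V × V => z p.1 p.2 ≠ 0)).card ≤ A.card := by
      refine Finset.card_le_card_of_injOn (fun p => δ p.1 p.2) ?_ ?_
      · intro p hp
        simp only [coe_filter, mem_univ, true_and, Set.mem_ofPred_eq] at hp
        have h := hadj _ _ hp
        rw [hAβ]
        simp only [coe_filter, mem_univ, true_and, Set.mem_ofPred_eq]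
        simp only [hz] at hp
        rw [if_pos h] at hp
        exact hp
      · intro p hp p' hp' he
        simp only [coe_filter, mem_univ, true_and, Set.mem_ofPred_eq] at hp hp'
        have := delta_inj hι hδ (hadj _ _ hp) (hadj _ _ hp') he
        exact Prod.ext this.1 this.2
    have h10 : 10 ≤ A.card := by
      obtain ⟨r, hr⟩ := hm
      omega
    have : (10 : ℝ) ≤ (A.card : ℝ) := by exact_mod_cast h10
    linarith

open Classical in
/-- exchanging the sums over the darts and over the pairs of vertices -/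
theorem sum_darts (w : V → V → ℝ) (g : D → ℝ) :
    ∑ d, g d * (∑ u, ∑ v, if G.Adj u v ∧ δ u v = d then w u v else 0) =
      ∑ u, ∑ v, if G.Adj u v then g (δ u v) * w u v else 0 := by
  simp_rw [Finset.mul_sum]
  rw [Finset.sum_comm]
  refine Finset.sum_congr rfl fun u _ => ?_
  rw [Finset.sum_comm]
  refine Finset.sum_congr rfl fun v _ => ?_
  by_cases h : G.Adj u v
  · simp [h]
  · simp [h]

end

theorem const_cycle {D : Type} (σ : Equiv.Perm D) (S : D → ZMod 2) (h : ∀ d, S (σ d) = S d)
    {a b : D} (hab : σ.SameCycle a b) : S b = S a := by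
  obtain ⟨i, rfl⟩ := hab
  induction i using Int.induction_on with
  | zero => simp
  | succ n ih => rw [add_comm, zpow_one_add, Equiv.Perm.mul_apply, h, ih]
  | pred n ih =>
    rw [← h, ← Equiv.Perm.mul_apply, ← zpow_one_add, show (1 : ℤ) + (-(n : ℤ) - 1) = -n by ring,
      ih]

theorem hasCuts_of_planar {V : Type} [Fintype V] (G : SimpleGraph V) (hp : IsPlanar G)
    (ht : G.CliqueFree 3) : HasCuts G := by
  classical
  intro w hw hsymm hsupp
  obtain ⟨D, hD, M, hc, hs, ι, hι, hadj⟩ := hp
  have := Fintype.ofFinite D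
  by_cases hne : ∃ u v, G.Adj u v
  swap
  · refine ⟨fun _ => true, ?_⟩
    have : ∀ u v, w u v = 0 := fun u v => hsupp u v fun h => hne ⟨u, v, h⟩
    simp [this]
  obtain ⟨u₀, v₀, h₀⟩ := hne
  have : Nonempty D := ⟨(hadj u₀ v₀ h₀).choose⟩
  obtain ⟨δ, hδ⟩ := exists_darts hι hadj
  have : Finite M.Face := Quotient.finite _
  have := Fintype.ofFinite M.Face
  set W : D → ℝ := fun d => ∑ u, ∑ v, if G.Adj u v ∧ δ u v = d then w u v else 0 with hW
  set X : D → ℝ := fun d => if ∃ u v, G.Adj u v ∧ δ u v = d then 1 / 10 else 1 / 2 with hX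
  have hW0 : ∀ d, 0 ≤ W d := by
    intro d
    refine Finset.sum_nonneg fun u _ => Finset.sum_nonneg fun v _ => ?_
    split_ifs
    · exact hw u v
    · exact le_rfl
  have hX0 : ∀ d, 0 ≤ X d := by
    intro d
    simp only [hX]
    split_ifs <;> norm_num
  have hWX : ∑ d, W d * X d = (1 / 10) * ∑ u, ∑ v, w u v := by
    have h1 : ∑ d, W d * X d = ∑ d, X d * W d := Finset.sum_congr rfl fun d _ => mul_comm _ _
    rw [h1, hW, sum_darts w X, Finset.mul_sum]
    refine Finset.sum_congr rfl fun u _ => ?_
    rw [Finset.mul_sum]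
    refine Finset.sum_congr rfl fun v _ => ?_
    by_cases h : G.Adj u v
    · rw [if_pos h]
      simp only [hX]
      rw [if_pos ⟨u, v, h, rfl⟩]
    · rw [if_neg h, hsupp u v h, mul_zero]
  set t : M.Face → ZMod 2 := fun f => ∑ d, if M.face d = f then 1 else 0 with ht'
  have hcut : ∀ B : Finset M.Face, (∑ f ∈ B, t f) = 1 →
      1 ≤ ∑ d with ¬ (M.face d ∈ B ↔ M.face (M.α d) ∈ B), X d := by
    intro B hB
    refine cut_ge ht hι hδ B (Eq.trans ?_ hB)
    simp only [ht']
    rw [Finset.sum_comm]
    refine Finset.sum_congr rfl fun d _ => ?_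
    rw [Finset.sum_ite_eq]
  obtain ⟨j, hj, hjw⟩ := tjoin M.face (fun d => M.face (M.α d)) t W X hW0 hX0 hcut
  -- the colouring
  have hface : ∀ f : M.Face, ∑ d with M.face d = f, (1 + (j d + j (M.α d))) = 0 := by
    intro f
    have h1 : ∑ d with M.face d = f, (1 : ZMod 2) = t f := by
      simp only [ht']
      rw [Finset.sum_filter]
    have h2 : ∑ d with M.face d = f, (j d + j (M.α d)) = t f := by
      rw [← hj f]
      simp only [mul_add]
      rw [Finset.sum_add_distrib, Finset.sum_add_distrib]
      congr 1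
      · rw [Finset.sum_filter]
        refine Finset.sum_congr rfl fun d _ => ?_
        split_ifs <;> simp
      · rw [Finset.sum_filter, ← Equiv.sum_comp M.α]
        refine Finset.sum_congr rfl fun d _ => ?_
        rw [M.invol]
        split_ifs <;> simp
    rw [Finset.sum_add_distrib, h1, h2]
    exact CharTwo.add_self_eq_zero _
  obtain ⟨S, hS, hzS⟩ := face_lemma M.φ M.α M.σ M.invol M.ne (fun d => (M.φ_α d).symm)
    (by
      intro x y
      refine Relation.ReflTransGen.trans_induction_on (hc x y) (fun a => .refl) ?_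
        (fun _ _ h1 h2 => h1.trans h2)
      rintro a b (h | h)
      · refine Relation.ReflTransGen.trans (Relation.ReflTransGen.single (Or.inr rfl))
          (Relation.ReflTransGen.single (Or.inl ?_))
        rw [M.φ_α, h]
      · exact Relation.ReflTransGen.single (Or.inr h))
    (by
      have := hs
      unfold CMap.Spherical CMap.Vertex CMap.Face at this
      rw [← this, add_comm])
    (fun d => 1 + (j d + j (M.α d))) (by
      intro d
      rw [M.invol, add_comm (j (M.α d))])
    (by
      intro d₀
      rw [← hface (M.face d₀)]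
      refine Finset.sum_congr ?_ fun _ _ => rfl
      ext d
      simp only [mem_filter, mem_univ, true_and]
      rw [← M.face_eq_iff, eq_comm])
  have hcst : ∀ a b, M.vtx a = M.vtx b → S a = S b := by
    intro a b h
    exact (const_cycle M.σ S hS (M.vtx_eq_iff.1 h)).symm
  have hrep : ∀ u, ∃ d, M.vtx d = ι u := fun u => M.vtx_surj (ι u)
  choose r hr using hrep
  refine ⟨fun u => decide (S (r u) = 1), ?_⟩
  have hkey : ∀ u v, G.Adj u v → decide (S (r u) = 1) = decide (S (r v) = 1) →
      j (δ u v) ≠ 0 ∨ j (δ v u) ≠ 0 := by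
    intro u v h hcol
    by_contra hcon
    push Not at hcon
    have h1 : S (r u) = S (δ u v) := hcst _ _ (by rw [hr, (hδ u v h).1])
    have h2 : S (r v) = S (δ v u) := hcst _ _ (by rw [hr, (hδ v u h.symm).1])
    have h3 := hzS (δ u v)
    rw [← (hδ u v h).2, hcon.1, hcon.2] at h3
    rw [h1, h2] at hcol
    rcases zmod2_cases (S (δ u v)) with h4 | h4 <;> rcases zmod2_cases (S (δ v u)) with h5 | h5 <;>
      rw [h4, h5] at h3 hcol <;> revert h3 hcol <;> decide
  set g : D → ℝ := fun d => if j d ≠ 0 then 1 else 0 with hg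
  have hjg : ∑ d with j d ≠ 0, W d = ∑ u, ∑ v, if G.Adj u v then g (δ u v) * w u v else 0 := by
    rw [← sum_darts w g, Finset.sum_filter]
    refine Finset.sum_congr rfl fun d _ => ?_
    simp only [hg]
    split_ifs
    · rw [one_mul]
    · rw [zero_mul]
  have hsw : ∑ u, ∑ v, (if G.Adj u v then g (δ u v) * w u v else 0) =
      ∑ u, ∑ v, (if G.Adj u v then g (δ v u) * w u v else 0) := by
    rw [Finset.sum_comm]
    refine Finset.sum_congr rfl fun u _ => Finset.sum_congr rfl fun v _ => ?_
    by_cases h : G.Adj u v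
    · rw [if_pos h, if_pos h.symm, hsymm]
    · rw [if_neg h, if_neg fun h' => h h'.symm]
  have hle : ∑ u, ∑ v, (if decide (S (r u) = 1) = decide (S (r v) = 1) then w u v else 0) ≤
      ∑ u, ∑ v, ((if G.Adj u v then g (δ u v) * w u v else 0) +
        (if G.Adj u v then g (δ v u) * w u v else 0)) := by
    refine Finset.sum_le_sum fun u _ => Finset.sum_le_sum fun v _ => ?_
    have hg0 : ∀ d, 0 ≤ g d := by
      intro d
      simp only [hg]
      split_ifs <;> norm_num
    by_cases h : G.Adj u v
    · rw [if_pos h, if_pos h]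
      have h1 := mul_nonneg (hg0 (δ u v)) (hw u v)
      have h2 := mul_nonneg (hg0 (δ v u)) (hw u v)
      split_ifs with hcol
      · rcases hkey u v h hcol with h3 | h3
        · have : g (δ u v) = 1 := by
            simp only [hg]
            rw [if_pos h3]
          rw [this, one_mul]
          linarith
        · have : g (δ v u) = 1 := by
            simp only [hg]
            rw [if_pos h3]
          rw [this, one_mul]
          linarith
      · linarith
    · rw [if_neg h, if_neg h, hsupp u v h]
      simp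
  simp_rw [Finset.sum_add_distrib] at hle
  rw [← hsw, ← hjg] at hle
  calc _ ≤ _ := hle
    _ ≤ (1 / 5) * ∑ u, ∑ v, w u v := by linarith

end Pool.Agent.TFP
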