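import Pool.Agent.TFP.Defs

/-! Cuts are hereditary. -/

set_option autoImplicit false

namespace Pool.Agent.TFP

theorem hasCuts_comap {V W : Type} [Fintype V] [Fintype W] (G : SimpleGraph V) (hG : HasCuts G)
    (f : W → V) (hf : Function.Injective f) : HasCuts (G.comap f) := by
  classical
  intro w hw hs h0
  -- the extension of `w` by zero
  let w' : V → V → ℝ := fun a b => ∑ u, ∑ v, if f u = a ∧ f v = b then w u v else 0
  have hw' : ∀ a b, 0 ≤ w' a b := by
    intro a b
    refine Finset.sum_nonneg (fun u _ => Finset.sum_nonneg (fun v _ => ?_))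
    split_ifs
    · exact hw u v
    · exact le_refl _
  have hval : ∀ u v, w' (f u) (f v) = w u v := by
    intro u v
    show ∑ u', ∑ v', (if f u' = f u ∧ f v' = f v then w u' v' else 0) = w u v
    rw [Finset.sum_eq_single u, Finset.sum_eq_single v]
    · rw [if_pos ⟨rfl, rfl⟩]
    · intro b _ hb
      rw [if_neg]
      rintro ⟨_, h⟩
      exact hb (hf h)
    · intro h; exact absurd (Finset.mem_univ _) h
    · intro b _ hb
      refine Finset.sum_eq_zero (fun v' _ => ?_)
      rw [if_neg]
      rintro ⟨h, _⟩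
      exact hb (hf h)
    · intro h; exact absurd (Finset.mem_univ _) h
  have hs' : ∀ a b, w' a b = w' b a := by
    intro a b
    show ∑ u, ∑ v, (if f u = a ∧ f v = b then w u v else 0) =
      ∑ u, ∑ v, (if f u = b ∧ f v = a then w u v else 0)
    rw [Finset.sum_comm]
    refine Finset.sum_congr rfl (fun u _ => Finset.sum_congr rfl (fun v _ => ?_))
    rw [hs v u]
    simp only [and_comm]
  have hne : ∀ a b, w' a b ≠ 0 → ∃ u v, f u = a ∧ f v = b ∧ w u v ≠ 0 := by
    intro a b h
    obtain ⟨u, _, hu⟩ := Finset.exists_ne_zero_of_sum_ne_zero h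
    obtain ⟨v, _, hv⟩ := Finset.exists_ne_zero_of_sum_ne_zero hu
    by_cases hc : f u = a ∧ f v = b
    · rw [if_pos hc] at hv
      exact ⟨u, v, hc.1, hc.2, hv⟩
    · rw [if_neg hc] at hv
      exact absurd rfl hv
  have h0' : ∀ a b, ¬ G.Adj a b → w' a b = 0 := by
    intro a b hab
    by_contra h
    obtain ⟨u, v, hu, hv, huv⟩ := hne a b h
    exact huv (h0 u v (by rw [SimpleGraph.comap_adj, hu, hv]; exact hab))
  obtain ⟨c, hc⟩ := hG w' hw' hs' h0'
  refine ⟨fun u => c (f u), ?_⟩
  -- transport of the sums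
  have htr : ∀ g : V → V → ℝ, (∀ a b, g a b ≠ 0 → w' a b ≠ 0) →
      ∑ a, ∑ b, g a b = ∑ u, ∑ v, g (f u) (f v) := by
    intro g hg
    have h1 : ∀ a, a ∉ Set.range f → ∀ b, g a b = 0 := by
      intro a ha b
      by_contra h
      obtain ⟨u, v, hu, _, _⟩ := hne a b (hg a b h)
      exact ha ⟨u, hu⟩
    have h2 : ∀ b, b ∉ Set.range f → ∀ a, g a b = 0 := by
      intro b hb a
      by_contra h
      obtain ⟨u, v, _, hv, _⟩ := hne a b (hg a b h)
      exact hb ⟨v, hv⟩
    have h3 : ∀ k : V → ℝ, (∀ a, a ∉ Set.range f → k a = 0) → ∑ a, k a = ∑ u, k (f u) := by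
      intro k hk
      rw [← Finset.sum_image (s := Finset.univ) (g := f) (f := k) (fun x _ y _ h => hf h)]
      refine (Finset.sum_subset (Finset.subset_univ _) ?_).symm
      intro a _ ha
      apply hk
      rintro ⟨u, hu⟩
      exact ha (Finset.mem_image.2 ⟨u, Finset.mem_univ _, hu⟩)
    rw [h3 _ (fun a ha => Finset.sum_eq_zero (fun b _ => h1 a ha b))]
    refine Finset.sum_congr rfl (fun u _ => ?_)
    exact h3 _ (fun b hb => h2 b hb (f u))
  have e1 := htr (fun a b => if c a = c b then w' a b else 0) (by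
    intro a b h
    by_contra h'
    apply h
    simp [h'])
  have e2 := htr w' (fun a b h => h)
  simp only [hval] at e1 e2
  rw [e1, e2] at hc
  exact hc

end Pool.Agent.TFP
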