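import Mathlib

/-!
# Triangle-free planar graphs and multiple list colouring: definitions

* `CMap D` : combinatorial maps (rotation systems) on the set of darts `D`;
* `IsPlanar G` : `G` embeds in the underlying graph of a connected map on the sphere;
* `Choosable G a b` : `G` is `(a, b)`-choosable;
* `StronglyChoosable G r` : `G` is strongly fractional `r`-choosable;
* `chfs G` : the strong fractional choice number.
-/

set_option autoImplicit false

namespace Pool.Agent.TFP

/-- A combinatorial map: a set `D` of darts, the rotation `σ` of the darts around their vertices,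
and a fixed-point-free involution `α` which exchanges the two darts of each edge. -/
structure CMap (D : Type) where
  σ : Equiv.Perm D
  α : Equiv.Perm D
  invol : ∀ d, α (α d) = d
  ne : ∀ d, α d ≠ d

namespace CMap

variable {D : Type} (M : CMap D)

/-- The face permutation. -/
def φ : Equiv.Perm D := M.σ * M.α

theorem φ_apply (d : D) : M.φ d = M.σ (M.α d) := rfl

/-- The vertices are the cycles of `σ`. -/
def Vertex : Type := Quotient (Equiv.Perm.SameCycle.setoid M.σ)

/-- The faces are the cycles of `φ`. -/
def Face : Type := Quotient (Equiv.Perm.SameCycle.setoid M.φ)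

/-- The vertex at which a dart starts. -/
def vtx (d : D) : M.Vertex := Quotient.mk (Equiv.Perm.SameCycle.setoid M.σ) d

/-- The face of a dart. -/
def face (d : D) : M.Face := Quotient.mk (Equiv.Perm.SameCycle.setoid M.φ) d

/-- The map is connected: `σ` and `α` act transitively on the darts. -/
def Connected : Prop :=
  ∀ x y : D, Relation.ReflTransGen (fun a b => b = M.σ a ∨ b = M.α a) x y

/-- Euler's formula `V - E + F = 2`; the number of edges is half the number of darts. -/
def Spherical : Prop :=
  2 * (Nat.card M.Vertex + Nat.card M.Face) = Nat.card D + 4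

theorem vtx_eq_iff {a b : D} : M.vtx a = M.vtx b ↔ M.σ.SameCycle a b := by
  unfold vtx
  exact Quotient.eq (r := Equiv.Perm.SameCycle.setoid M.σ)

theorem face_eq_iff {a b : D} : M.face a = M.face b ↔ M.φ.SameCycle a b := by
  unfold face
  exact Quotient.eq (r := Equiv.Perm.SameCycle.setoid M.φ)

theorem vtx_σ (d : D) : M.vtx (M.σ d) = M.vtx d := by
  rw [vtx_eq_iff]
  exact (Equiv.Perm.sameCycle_apply_left).2 (Equiv.Perm.SameCycle.refl _ _)

theorem face_φ (d : D) : M.face (M.φ d) = M.face d := by
  rw [face_eq_iff]
  exact (Equiv.Perm.sameCycle_apply_left).2 (Equiv.Perm.SameCycle.refl _ _)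

/-- the end of `d` is the start of `φ d` -/
theorem vtx_φ (d : D) : M.vtx (M.φ d) = M.vtx (M.α d) := by
  rw [φ_apply, vtx_σ]

theorem φ_α (d : D) : M.φ (M.α d) = M.σ d := by
  rw [φ_apply, M.invol]

theorem vtx_surj (v : M.Vertex) : ∃ d, M.vtx d = v := Quotient.exists_rep v

theorem face_surj (f : M.Face) : ∃ d, M.face d = f := Quotient.exists_rep f

end CMap

/-- A graph is planar when it is (isomorphic to) a subgraph of the underlying graph of a finite
connected combinatorial map satisfying Euler's formula, i.e. of a connected graph drawn on the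
sphere. -/
def IsPlanar {V : Type} (G : SimpleGraph V) : Prop :=
  ∃ (D : Type) (_ : Finite D) (M : CMap D), M.Connected ∧ M.Spherical ∧
    ∃ ι : V → M.Vertex, Function.Injective ι ∧
      ∀ u v, G.Adj u v → ∃ d, M.vtx d = ι u ∧ M.vtx (M.α d) = ι v

theorem IsPlanar.comap {V W : Type} {G : SimpleGraph V} (hG : IsPlanar G) (f : W → V)
    (hf : Function.Injective f) : IsPlanar (G.comap f) := by
  obtain ⟨D, hD, M, hc, hs, ι, hι, hadj⟩ := hG
  exact ⟨D, hD, M, hc, hs, ι ∘ f, hι.comp hf, fun u v h => hadj _ _ h⟩

/-- `G` is `(a, b)`-choosable: for all lists of `a` colours there is a `b`-fold colouring. -/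
def Choosable {V : Type} (G : SimpleGraph V) (a b : ℕ) : Prop :=
  ∀ L : V → Finset ℕ, (∀ v, (L v).card = a) →
    ∃ c : V → Finset ℕ, (∀ v, c v ⊆ L v ∧ (c v).card = b) ∧
      ∀ u v, G.Adj u v → Disjoint (c u) (c v)

/-- `G` is strongly fractional `r`-choosable: `G` is `(⌈r m⌉, m)`-choosable for all `m ≥ 1`. -/
def StronglyChoosable {V : Type} (G : SimpleGraph V) (r : ℝ) : Prop :=
  ∀ m : ℕ, 1 ≤ m → Choosable G ⌈r * m⌉₊ m

/-- The strong fractional choice number of a graph. -/
noncomputable def chfs {V : Type} (G : SimpleGraph V) : ℝ :=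
  sInf {r : ℝ | 0 < r ∧ StronglyChoosable G r}

/-- The strong fractional choice number of the class of triangle-free planar graphs. -/
noncomputable def chfsQ : ℝ :=
  sSup {r : ℝ | ∃ (n : ℕ) (G : SimpleGraph (Fin n)), IsPlanar G ∧ G.CliqueFree 3 ∧ r = chfs G}

/-- Every symmetric nonnegative weighting supported on the edges of `G` has a bipartition of the
vertices for which the edges inside the two parts have at most a fifth of the total weight. -/
def HasCuts {V : Type} [Fintype V] (G : SimpleGraph V) : Prop :=
  ∀ w : V → V → ℝ, (∀ u v, 0 ≤ w u v) → (∀ u v, w u v = w v u) → (∀ u v, ¬ G.Adj u v → w u v = 0) →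
    ∃ c : V → Bool, ∑ u, ∑ v, (if c u = c v then w u v else 0) ≤ (1 / 5) * ∑ u, ∑ v, w u v

/-- The number of ordered pairs of adjacent vertices with at least one member in `X`
(twice the number of edges meeting `X`). -/
noncomputable def meet {V : Type} [Fintype V] (G : SimpleGraph V) (X : Finset V) : ℕ :=
  Nat.card {p : V × V // G.Adj p.1 p.2 ∧ (p.1 ∈ X ∨ p.2 ∈ X)}

/-- The number of ordered pairs of adjacent vertices inside `X`
(twice the number of edges inside `X`). -/
noncomputable def inner {V : Type} (G : SimpleGraph V) (X : Finset V) : ℕ :=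
  Nat.card {p : V × V // G.Adj p.1 p.2 ∧ p.1 ∈ X ∧ p.2 ∈ X}

/-- The number of ordered pairs `(v, w)` of adjacent vertices with `v ∈ S` and `w ∉ X`. -/
noncomputable def outer {V : Type} (G : SimpleGraph V) (X S : Finset V) : ℕ :=
  Nat.card {p : V × V // G.Adj p.1 p.2 ∧ p.1 ∈ S ∧ p.2 ∉ X}

end Pool.Agent.TFP
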