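import Pool.Agent.TFP.EvenSet
import Pool.Agent.TFP.FaceLemma

/-!
# Euler's bound for triangle-free planar graphs

`edges_lt` : a triangle-free planar graph with `n ≥ 1` vertices has fewer than `2 n` edges.
-/

set_option autoImplicit false
set_option linter.unusedSectionVars false

namespace Pool.Agent.TFP

open Finset

namespace Euler

theorem add_self2 (a : ZMod 2) : a + a = 0 := by revert a; decide

theorem eq_of_add_eq_zero2 (a b : ZMod 2) (h : a + b = 0) : a = b := by
  revert a b; decide

section

variable {V D : Type} [Fintype V] [DecidableEq V] [Fintype D] [DecidableEq D]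
  (G : SimpleGraph V) (M : CMap D) (ι : V → M.Vertex) (δ : V → V → D)

/-- The dart belongs to an edge of the graph. -/
def IsG (d : D) : Prop := ∃ u v, G.Adj u v ∧ d = δ u v

/-- The generating relation of the classes. -/
def rel (a b : D) : Prop := b = M.φ a ∨ (b = M.α a ∧ ¬ IsG G δ a)

open Classical in
/-- The dart function of a function on pairs. -/
noncomputable def dartFun (z : V → V → ZMod 2) (d : D) : ZMod 2 :=
  ∑ p : V × V, if G.Adj p.1 p.2 ∧ δ p.1 p.2 = d then z p.1 p.2 else 0

variable (hδ : ∀ u v, G.Adj u v → M.vtx (δ u v) = ι u ∧ δ v u = M.α (δ u v))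

include hδ

theorem dart_inj (hι : Function.Injective ι) {u v u' v' : V} (h : G.Adj u v) (h' : G.Adj u' v')
    (he : δ u v = δ u' v') : u = u' ∧ v = v' := by
  have h1 := (hδ u v h).1
  have h2 := (hδ u' v' h').1
  have h3 := (hδ v u h.symm).1
  have h4 := (hδ v' u' h'.symm).1
  rw [(hδ u v h).2] at h3
  rw [(hδ u' v' h').2] at h4
  rw [he] at h1 h3
  exact ⟨hι (h1.symm.trans h2), hι (h3.symm.trans h4)⟩

theorem dartFun_dart (hι : Function.Injective ι) (z : V → V → ZMod 2) {u v : V}
    (h : G.Adj u v) : dartFun G δ z (δ u v) = z u v := by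
  classical
  unfold dartFun
  rw [Finset.sum_eq_single (u, v)]
  · simp [h]
  · rintro ⟨a, b⟩ _ hne
    rw [if_neg]
    rintro ⟨h1, h2⟩
    obtain ⟨h3, h4⟩ := dart_inj G M ι δ hδ hι h1 h h2
    exact hne (Prod.ext h3 h4)
  · intro h
    exact absurd (Finset.mem_univ _) h

omit hδ in
theorem dartFun_eq_zero (z : V → V → ZMod 2) {d : D} (h : ¬ IsG G δ d) :
    dartFun G δ z d = 0 := by
  classical
  unfold dartFun
  refine Finset.sum_eq_zero fun p _ => ?_
  rw [if_neg]
  rintro ⟨h1, h2⟩
  exact h ⟨p.1, p.2, h1, h2.symm⟩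

theorem dartFun_alpha (z : V → V → ZMod 2) (hs : ∀ u v, z u v = z v u) (d : D) :
    dartFun G δ z (M.α d) = dartFun G δ z d := by
  classical
  unfold dartFun
  refine Fintype.sum_equiv (Equiv.prodComm V V) _ _ ?_
  rintro ⟨a, b⟩
  change (if G.Adj a b ∧ δ a b = M.α d then z a b else 0) =
    (if G.Adj b a ∧ δ b a = d then z b a else 0)
  have : (G.Adj a b ∧ δ a b = M.α d) ↔ (G.Adj b a ∧ δ b a = d) := by
    constructor
    · rintro ⟨h1, h2⟩
      refine ⟨h1.symm, ?_⟩
      rw [(hδ a b h1).2, h2, M.invol]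
    · rintro ⟨h1, h2⟩
      refine ⟨h1.symm, ?_⟩
      rw [(hδ b a h1).2, h2]
  rw [hs a b]
  by_cases hh : G.Adj b a ∧ δ b a = d
  · rw [if_pos (this.2 hh), if_pos hh]
  · rw [if_neg (fun h' => hh (this.1 h')), if_neg hh]

theorem dartFun_vertex (z : V → V → ZMod 2) (hrow : ∀ u, ∑ v, z u v = 0)
    (hz : ∀ u v, ¬ G.Adj u v → z u v = 0)
    (d₀ : D) (s : Finset D) (hs : ∀ d, d ∈ s ↔ M.σ.SameCycle d₀ d) :
    ∑ d ∈ s, dartFun G δ z d = 0 := by
  classical
  unfold dartFun
  rw [Finset.sum_comm]
  have h1 : ∀ p : V × V, (∑ d ∈ s, if G.Adj p.1 p.2 ∧ δ p.1 p.2 = d then z p.1 p.2 else 0) =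
      if ι p.1 = M.vtx d₀ then z p.1 p.2 else 0 := by
    intro p
    by_cases hp : G.Adj p.1 p.2
    · simp only [hp, true_and]
      rw [Finset.sum_ite_eq]
      have h2 : δ p.1 p.2 ∈ s ↔ ι p.1 = M.vtx d₀ := by
        rw [hs, ← M.vtx_eq_iff, ← (hδ p.1 p.2 hp).1]
        exact eq_comm
      simp only [h2]
    · simp [hp, hz _ _ hp]
  rw [Finset.sum_congr rfl (fun p _ => h1 p), ← Finset.univ_product_univ, Finset.sum_product]
  refine Finset.sum_eq_zero fun u _ => ?_
  by_cases hu : ι u = M.vtx d₀
  · simp [hu, hrow u]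
  · simp [hu]

/-! ### The upper bound for the cycle space -/

open Classical in
/-- The function on pairs of a function on edges. -/
noncomputable def pairFun (f : G.edgeSet → ZMod 2) (u v : V) : ZMod 2 :=
  if h : G.Adj u v then f ⟨s(u, v), h⟩ else 0

omit hδ [Fintype V] [DecidableEq V] in
theorem pairFun_symm (f : G.edgeSet → ZMod 2) (u v : V) : pairFun G f u v = pairFun G f v u := by
  unfold pairFun
  by_cases h : G.Adj u v
  · rw [dif_pos h, dif_pos h.symm]
    congr 1
    exact Subtype.ext (Sym2.eq_swap)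
  · rw [dif_neg h, dif_neg (fun h' => h h'.symm)]

omit hδ [Fintype V] [DecidableEq V] in
theorem pairFun_zero (f : G.edgeSet → ZMod 2) (u v : V) (h : ¬ G.Adj u v) :
    pairFun G f u v = 0 := by
  unfold pairFun
  rw [dif_neg h]

omit hδ [DecidableEq V] in
theorem pairFun_total (f : G.edgeSet → ZMod 2) : ∑ u, ∑ v, pairFun G f u v = 0 := by
  classical
  have h1 : ∑ u, ∑ v, pairFun G f u v = ∑ p : V × V, pairFun G f p.1 p.2 := by
    rw [← Finset.univ_product_univ, Finset.sum_product]
  rw [h1]
  refine Finset.sum_involution (fun p _ => p.swap) ?_ ?_ ?_ ?_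
  · rintro ⟨a, b⟩ _
    simp only [Prod.swap_prod_mk]
    rw [pairFun_symm G f b a]
    exact add_self2 _
  · rintro ⟨a, b⟩ _ hne heq
    simp only [Prod.swap_prod_mk, Prod.mk.injEq] at heq
    apply hne
    apply pairFun_zero
    rw [heq.1]
    exact G.loopless.irrefl _
  · intro a _
    exact Finset.mem_univ _
  · rintro ⟨a, b⟩ _
    rfl

/-- The edge functions which are even at all vertices but `u₀`. -/
def Ev (u₀ : V) : Type := {f : G.edgeSet → ZMod 2 // ∀ u, u ≠ u₀ → ∑ v, pairFun G f u v = 0}

omit hδ in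
theorem Ev.row {u₀ : V} (f : Ev G u₀) (u : V) : ∑ v, pairFun G f.1 u v = 0 := by
  by_cases hu : u = u₀
  · have h1 := pairFun_total G f.1
    rw [Finset.sum_eq_single u₀] at h1
    · rw [hu]; exact h1
    · intro b _ hb
      exact f.2 b hb
    · intro h
      exact absurd (Finset.mem_univ _) h
  · exact f.2 u hu

omit hδ in
open Classical in
theorem card_Ev_lower (u₀ : V) :
    2 ^ Fintype.card G.edgeSet ≤ Nat.card (Ev G u₀) * 2 ^ (Fintype.card V - 1) := by
  classical
  let R : (G.edgeSet → ZMod 2) →ₗ[ZMod 2] ({u : V // u ≠ u₀} → ZMod 2) :=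
    { toFun := fun f u => ∑ v, pairFun G f u.1 v
      map_add' := by
        intro f g
        funext u
        simp only [Pi.add_apply]
        rw [← Finset.sum_add_distrib]
        refine Finset.sum_congr rfl fun v _ => ?_
        unfold pairFun
        by_cases h : G.Adj u.1 v
        · simp [h]
        · simp [h]
      map_smul' := by
        intro c f
        funext u
        simp only [Pi.smul_apply, smul_eq_mul, RingHom.id_apply]
        rw [Finset.mul_sum]
        refine Finset.sum_congr rfl fun v _ => ?_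
        unfold pairFun
        by_cases h : G.Adj u.1 v
        · simp [h]
        · simp [h] }
  have hker : Nat.card (Ev G u₀) = Nat.card (LinearMap.ker R) := by
    apply Nat.card_congr
    refine Equiv.subtypeEquivRight ?_
    intro f
    rw [LinearMap.mem_ker]
    constructor
    · intro h
      funext u
      exact h u.1 u.2
    · intro h u hu
      exact congrFun h ⟨u, hu⟩
  have h1 := LinearMap.finrank_range_add_finrank_ker R
  have h2 : Module.finrank (ZMod 2) (G.edgeSet → ZMod 2) = Fintype.card G.edgeSet :=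
    Module.finrank_fintype_fun_eq_card (ZMod 2)
  have h3 : Module.finrank (ZMod 2) (LinearMap.range R) ≤ Fintype.card V - 1 := by
    refine (Submodule.finrank_le _).trans ?_
    rw [Module.finrank_fintype_fun_eq_card]
    rw [Fintype.card_subtype_compl]
    simp
  have h4 : Nat.card (LinearMap.ker R) = 2 ^ Module.finrank (ZMod 2) (LinearMap.ker R) := by
    rw [Nat.card_eq_fintype_card, Module.card_eq_pow_finrank (K := ZMod 2), ZMod.card]
  rw [hker, h4, ← pow_add]
  apply Nat.pow_le_pow_right (by norm_num)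
  omega

theorem card_Ev_upper [Nonempty D] (hι : Function.Injective ι) (hconn : M.Connected)
    (hsph : M.Spherical) (u₀ : V) :
    Nat.card (Ev G u₀) * 2 ≤ 2 ^ Nat.card (Quot (rel G M δ)) := by
  classical
  have hface : ∀ f : Ev G u₀, ∃ S : D → ZMod 2, (∀ d, S (M.φ d) = S d) ∧
      ∀ d, dartFun G δ (pairFun G f.1) d = S d + S (M.α d) := by
    intro f
    refine face_lemma M.σ M.α M.φ M.invol M.ne (fun d => rfl) hconn hsph
      (dartFun G δ (pairFun G f.1)) (dartFun_alpha G M ι δ hδ _ (pairFun_symm G f.1)) ?_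
    intro d₀
    refine dartFun_vertex G M ι δ hδ _ (Ev.row G f) (pairFun_zero G f.1) d₀ _ ?_
    intro d
    simp
  choose S hSφ hSz using hface
  have hrel : ∀ (f : Ev G u₀) (a b : D), rel G M δ a b → S f a = S f b := by
    intro f a b hab
    rcases hab with h | ⟨h, hn⟩
    · rw [h, hSφ]
    · have h1 := hSz f a
      rw [dartFun_eq_zero G δ _ hn] at h1
      rw [h]
      exact eq_of_add_eq_zero2 _ _ h1.symm
  have : Finite (Ev G u₀) := by
    unfold Ev
    infer_instance
  have : Fintype (Ev G u₀) := Fintype.ofFinite _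
  have : Fintype (Quot (rel G M δ)) := Fintype.ofFinite _
  let Φ : Ev G u₀ × ZMod 2 → (Quot (rel G M δ) → ZMod 2) :=
    fun p => Quot.lift (fun d => S p.1 d + p.2) (fun a b h => by rw [hrel p.1 a b h])
  have hΦ : Function.Injective Φ := by
    rintro ⟨f, s⟩ ⟨g, t⟩ h
    have h1 : ∀ d, S f d + s = S g d + t := fun d => congrFun h (Quot.mk _ d)
    have h2 : ∀ d, dartFun G δ (pairFun G f.1) d = dartFun G δ (pairFun G g.1) d := by
      intro d
      rw [hSz, hSz]
      have h3 := h1 d
      have h4 := h1 (M.α d)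
      have h5 : S f d + S f (M.α d) = (S f d + s) + (S f (M.α d) + s) := by
        have := add_self2 s
        linear_combination -this
      have h6 : S g d + S g (M.α d) = (S g d + t) + (S g (M.α d) + t) := by
        have := add_self2 t
        linear_combination -this
      rw [h5, h6, h3, h4]
    have h7 : f = g := by
      apply Subtype.ext
      funext e
      obtain ⟨e, he⟩ := e
      induction e using Sym2.ind with
      | _ u v =>
        have hadj : G.Adj u v := he
        have h8 := h2 (δ u v)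
        rw [dartFun_dart G M ι δ hδ hι _ hadj, dartFun_dart G M ι δ hδ hι _ hadj] at h8
        unfold pairFun at h8
        rw [dif_pos hadj, dif_pos hadj] at h8
        exact h8
    subst h7
    have h9 := h1 (Classical.arbitrary D)
    rw [add_left_cancel h9]
  have := Fintype.card_le_of_injective Φ hΦ
  rw [Fintype.card_prod, ZMod.card, Fintype.card_fun, ZMod.card] at this
  rw [Nat.card_eq_fintype_card, Nat.card_eq_fintype_card]
  exact this

/-! ### The classes are large -/

open Classical in
/-- The indicator of a class. -/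
noncomputable def ind (C : Quot (rel G M δ)) (d : D) : ZMod 2 :=
  if Quot.mk (rel G M δ) d = C then 1 else 0

open Classical in
/-- The boundary of a class. -/
noncomputable def bdy (C : Quot (rel G M δ)) (u v : V) : ZMod 2 :=
  if G.Adj u v then ind G M δ C (δ u v) + ind G M δ C (δ v u) else 0

omit hδ [Fintype V] [DecidableEq V] [Fintype D] [DecidableEq D] in
theorem ind_phi (C : Quot (rel G M δ)) (d : D) : ind G M δ C (M.φ d) = ind G M δ C d := by
  unfold ind
  have : Quot.mk (rel G M δ) d = Quot.mk (rel G M δ) (M.φ d) := Quot.sound (Or.inl rfl)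
  rw [this]

omit hδ [Fintype V] [DecidableEq V] [Fintype D] [DecidableEq D] in
theorem ind_alpha (C : Quot (rel G M δ)) (d : D) (h : ¬ IsG G δ d) :
    ind G M δ C (M.α d) = ind G M δ C d := by
  unfold ind
  have : Quot.mk (rel G M δ) d = Quot.mk (rel G M δ) (M.α d) := Quot.sound (Or.inr ⟨rfl, h⟩)
  rw [this]

omit hδ [Fintype V] [DecidableEq V] [Fintype D] [DecidableEq D] in
theorem bdy_symm (C : Quot (rel G M δ)) (u v : V) : bdy G M δ C u v = bdy G M δ C v u := by
  unfold bdy
  by_cases h : G.Adj u v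
  · rw [if_pos h, if_pos h.symm, add_comm]
  · rw [if_neg h, if_neg (fun h' => h h'.symm)]

omit [DecidableEq V] in
theorem bdy_row (hι : Function.Injective ι) (C : Quot (rel G M δ)) (u : V) :
    ∑ v, bdy G M δ C u v = 0 := by
  classical
  set s : Finset D := univ.filter (fun d => M.vtx d = ι u) with hs
  have h1 : ∑ d ∈ s, (ind G M δ C d + ind G M δ C (M.σ d)) = 0 := by
    rw [Finset.sum_add_distrib]
    have h2 : ∑ d ∈ s, ind G M δ C (M.σ d) = ∑ d ∈ s, ind G M δ C d := by
      refine Finset.sum_equiv M.σ ?_ (fun _ _ => rfl)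
      intro d
      simp only [hs, Finset.mem_filter, Finset.mem_univ, true_and]
      rw [M.vtx_σ]
    rw [h2]
    exact add_self2 _
  have h3 : ∀ d, ind G M δ C (M.σ d) = ind G M δ C (M.α d) := by
    intro d
    rw [← M.φ_α, ind_phi]
  simp only [h3] at h1
  have h4 : ∑ v, bdy G M δ C u v =
      ∑ v ∈ univ.filter (fun v => G.Adj u v),
        (ind G M δ C (δ u v) + ind G M δ C (M.α (δ u v))) := by
    rw [Finset.sum_filter]
    refine Finset.sum_congr rfl fun v _ => ?_
    unfold bdy
    by_cases h : G.Adj u v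
    · rw [if_pos h, if_pos h, (hδ u v h).2]
    · rw [if_neg h, if_neg h]
  rw [h4, ← h1]
  rw [← Finset.sum_image (s := univ.filter (fun v => G.Adj u v)) (g := fun v => δ u v)
    (f := fun d => ind G M δ C d + ind G M δ C (M.α d))]
  · refine Finset.sum_subset ?_ ?_
    · intro d hd
      rw [Finset.mem_image] at hd
      obtain ⟨v, hv, rfl⟩ := hd
      rw [Finset.mem_filter] at hv
      simp only [hs, Finset.mem_filter, Finset.mem_univ, true_and]
      exact (hδ u v hv.2).1
    · intro d hd hnd
      have h5 : ¬ IsG G δ d := by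
        rintro ⟨a, b, hab, rfl⟩
        apply hnd
        simp only [hs, Finset.mem_filter, Finset.mem_univ, true_and] at hd
        rw [(hδ a b hab).1] at hd
        have := hι hd
        subst this
        rw [Finset.mem_image]
        exact ⟨b, by simp [hab], rfl⟩
      rw [ind_alpha G M δ C d h5]
      exact add_self2 _
  · intro a ha b hb hab
    simp only [Finset.coe_filter, Finset.mem_univ, true_and, Set.mem_ofPred_eq] at ha hb
    exact (dart_inj G M ι δ hδ hι ha hb hab).2

omit [Fintype V] [DecidableEq V] [Fintype D] [DecidableEq D] in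
theorem bdy_ne_zero (hconn : M.Connected) (C C' : Quot (rel G M δ)) (hne : C ≠ C') :
    ∃ u v, bdy G M δ C u v ≠ 0 := by
  classical
  by_contra hcon
  push Not at hcon
  have h1 : ∀ d, ind G M δ C (M.α d) = ind G M δ C d := by
    intro d
    by_cases h : IsG G δ d
    · obtain ⟨u, v, huv, rfl⟩ := h
      have h2 := hcon u v
      unfold bdy at h2
      rw [if_pos huv, (hδ u v huv).2] at h2
      exact (eq_of_add_eq_zero2 _ _ h2).symm
    · exact ind_alpha G M δ C d h
  have h2 : ∀ d, ind G M δ C (M.σ d) = ind G M δ C d := by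
    intro d
    rw [← M.φ_α, ind_phi, h1]
  have h3 : ∀ x y : D, ind G M δ C x = ind G M δ C y := by
    intro x y
    induction hconn x y with
    | refl => rfl
    | tail _ hab ih =>
      rcases hab with h | h
      · rw [h, h2]; exact ih
      · rw [h, h1]; exact ih
  obtain ⟨x, hx⟩ := Quot.exists_rep C
  obtain ⟨y, hy⟩ := Quot.exists_rep C'
  have h4 := h3 x y
  unfold ind at h4
  rw [if_pos hx, if_neg (by rw [hy]; exact hne.symm)] at h4
  exact one_ne_zero h4

omit hδ [DecidableEq D] in
open Classical in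
theorem count_le (p : V × V) [Fintype (Quot (rel G M δ))] :
    (univ.filter (fun C : Quot (rel G M δ) => bdy G M δ C p.1 p.2 ≠ 0)).card ≤
      if G.Adj p.1 p.2 then 2 else 0 := by
  by_cases h : G.Adj p.1 p.2
  · rw [if_pos h]
    refine le_trans (Finset.card_le_card (t := {Quot.mk _ (δ p.1 p.2), Quot.mk _ (δ p.2 p.1)}) ?_)
      Finset.card_le_two
    intro C hC
    rw [Finset.mem_filter] at hC
    by_contra hn
    simp only [Finset.mem_insert, Finset.mem_singleton, not_or] at hn
    apply hC.2
    unfold bdy ind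
    rw [if_pos h, if_neg (fun h' => hn.1 h'.symm), if_neg (fun h' => hn.2 h'.symm), add_zero]
  · rw [if_neg h]
    have : univ.filter (fun C : Quot (rel G M δ) => bdy G M δ C p.1 p.2 ≠ 0) = ∅ := by
      refine Finset.filter_eq_empty_iff.2 ?_
      intro C _
      unfold bdy
      rw [if_neg h]
      simp
    rw [this]
    simp

open Classical in
theorem classes_le (hι : Function.Injective ι) (hconn : M.Connected) (ht : G.CliqueFree 3)
    (hc : 2 ≤ Nat.card (Quot (rel G M δ))) :
    4 * Nat.card (Quot (rel G M δ)) ≤ (univ.filter (fun p : V × V => G.Adj p.1 p.2)).card := by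
  have : Fintype (Quot (rel G M δ)) := Fintype.ofFinite _
  rw [Nat.card_eq_fintype_card] at hc ⊢
  have h1 : ∀ C : Quot (rel G M δ),
      8 ≤ (univ.filter (fun p : V × V => bdy G M δ C p.1 p.2 ≠ 0)).card := by
    intro C
    have hnt : Nontrivial (Quot (rel G M δ)) := Fintype.one_lt_card_iff_nontrivial.1 (by omega)
    obtain ⟨C', hC'⟩ := exists_ne C
    refine even_set G ht (bdy G M δ C) (bdy_symm G M δ C) ?_ (bdy_row G M ι δ hδ hι C)
      (bdy_ne_zero G M ι δ hδ hconn C C' hC'.symm)
    intro u v h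
    by_contra hn
    apply h
    unfold bdy
    rw [if_neg hn]
  have h2 : ∑ C : Quot (rel G M δ),
      (univ.filter (fun p : V × V => bdy G M δ C p.1 p.2 ≠ 0)).card =
      ∑ p : V × V, (univ.filter (fun C : Quot (rel G M δ) => bdy G M δ C p.1 p.2 ≠ 0)).card := by
    simp only [Finset.card_filter]
    rw [Finset.sum_comm]
  have h3 : ∑ p : V × V, (univ.filter (fun C : Quot (rel G M δ) =>
      bdy G M δ C p.1 p.2 ≠ 0)).card ≤ ∑ p : V × V, (if G.Adj p.1 p.2 then 2 else 0) :=
    Finset.sum_le_sum fun p _ => count_le G M δ p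
  have h4 : ∑ p : V × V, (if G.Adj p.1 p.2 then 2 else 0) =
      2 * (univ.filter (fun p : V × V => G.Adj p.1 p.2)).card := by
    rw [Finset.card_filter, Finset.mul_sum]
    refine Finset.sum_congr rfl fun p _ => ?_
    by_cases h : G.Adj p.1 p.2
    · simp [h]
    · simp [h]
  have h5 : Fintype.card (Quot (rel G M δ)) * 8 ≤ ∑ C : Quot (rel G M δ),
      (univ.filter (fun p : V × V => bdy G M δ C p.1 p.2 ≠ 0)).card := by
    have := Finset.card_nsmul_le_sum (univ : Finset (Quot (rel G M δ)))
      (fun C => (univ.filter (fun p : V × V => bdy G M δ C p.1 p.2 ≠ 0)).card) 8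
      (fun C _ => h1 C)
    simpa [Finset.card_univ, smul_eq_mul] using this
  rw [h2] at h5
  omega

end

end Euler

/-- B3. Euler's bound. -/
theorem edges_lt {V : Type} [Fintype V] [Nonempty V] (G : SimpleGraph V) (hp : IsPlanar G)
    (ht : G.CliqueFree 3) : meet G univ < 4 * Fintype.card V := by
  classical
  have hm : meet G univ = (univ.filter (fun p : V × V => G.Adj p.1 p.2)).card := by
    unfold meet
    rw [Nat.card_eq_fintype_card, Fintype.card_subtype]
    congr 1
    ext p
    simp
  have hn : 0 < Fintype.card V := Fintype.card_pos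
  rw [hm]
  by_cases hE : ∃ u v, G.Adj u v
  swap
  · push Not at hE
    have : univ.filter (fun p : V × V => G.Adj p.1 p.2) = ∅ :=
      Finset.filter_eq_empty_iff.2 fun p _ => hE _ _
    rw [this]
    simp only [Finset.card_empty]
    omega
  obtain ⟨u₁, v₁, h₁⟩ := hE
  obtain ⟨D, hD, M, hconn, hsph, ι, hι, hadj⟩ := hp
  have : Fintype D := Fintype.ofFinite D
  have : Nonempty D := by
    obtain ⟨d, _⟩ := hadj u₁ v₁ h₁
    exact ⟨d⟩
  obtain ⟨δ, hδ⟩ := exists_darts hι hadj
  have hlow := Euler.card_Ev_lower G u₁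
  have hup := Euler.card_Ev_upper G M ι δ hδ hι hconn hsph u₁
  have hedge : (univ.filter (fun p : V × V => G.Adj p.1 p.2)).card =
      2 * Fintype.card G.edgeSet := by
    have h1 := G.dart_card_eq_twice_card_edges
    have h2 : Fintype.card G.Dart = (univ.filter (fun p : V × V => G.Adj p.1 p.2)).card := by
      rw [← Fintype.card_subtype]
      refine Fintype.card_congr ⟨fun d => ⟨d.toProd, d.adj⟩, fun p => ⟨p.1, p.2⟩, ?_, ?_⟩
      · intro d; rfl
      · intro p; rfl
    rw [← h2, h1, SimpleGraph.edgeFinset, Set.toFinset_card]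
  set e := Fintype.card G.edgeSet with he
  set n := Fintype.card V with hn'
  set c := Nat.card (Quot (Euler.rel G M δ)) with hc
  have h1 : 2 ^ (e + 1) ≤ 2 ^ (c + (n - 1)) := by
    rw [pow_succ, pow_add]
    calc 2 ^ e * 2 ≤ (Nat.card (Euler.Ev G u₁) * 2 ^ (n - 1)) * 2 := Nat.mul_le_mul_right 2 hlow
      _ = (Nat.card (Euler.Ev G u₁) * 2) * 2 ^ (n - 1) := by ring
      _ ≤ 2 ^ c * 2 ^ (n - 1) := Nat.mul_le_mul_right _ hup
  have h2 : e + 1 ≤ c + (n - 1) := (Nat.pow_le_pow_iff_right (by norm_num)).1 h1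
  rcases Nat.lt_or_ge c 2 with hc2 | hc2
  · omega
  · have h3 := Euler.classes_le G M ι δ hδ hι hconn ht hc2
    rw [hedge] at h3 ⊢
    omega

end Pool.Agent.TFP
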