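import Pool.Agent.TFP.Defs

/-!
# Darts for the edges of a planar graph; nonempty even sets of edges
-/

set_option autoImplicit false

namespace Pool.Agent.TFP

open Finset

/-- B0. Darts for the edges of a planar graph. -/
theorem exists_darts {V : Type} {G : SimpleGraph V} {D : Type} {M : CMap D} {ι : V → M.Vertex}
    (hι : Function.Injective ι)
    (hadj : ∀ u v, G.Adj u v → ∃ d, M.vtx d = ι u ∧ M.vtx (M.α d) = ι v) [Nonempty D] :
    ∃ δ : V → V → D, ∀ u v, G.Adj u v → M.vtx (δ u v) = ι u ∧ δ v u = M.α (δ u v) := by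
  classical
  have _ := hι
  obtain ⟨r, hr⟩ : ∃ r : V → V → Prop, IsWellOrder V r := ⟨WellOrderingRel, inferInstance⟩
  choose f hf using hadj
  refine ⟨fun u v => if h : G.Adj u v then (if r u v then f u v h else M.α (f v u h.symm))
    else Classical.arbitrary D, ?_⟩
  intro u v h
  have huv : u ≠ v := h.ne
  have h' := h.symm
  rcases trichotomous_of r u v with h1 | h1 | h1
  · have h2 : ¬ r v u := asymm h1
    simp only [h, h', h1, h2, dif_pos, if_true, if_false]
    exact ⟨(hf u v h).1, trivial⟩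
  · exact absurd h1 huv
  · have h2 : ¬ r u v := asymm h1
    simp only [h, h', h1, h2, dif_pos, if_true, if_false]
    exact ⟨(hf v u h').2, (M.invol _).symm⟩

/-- In `ZMod 2`, a vanishing sum with a nonzero term has another nonzero term. -/
theorem exists_other {V : Type} [Fintype V] [DecidableEq V] (z : V → ZMod 2)
    (h : ∑ v, z v = 0) (a : V) (ha : z a ≠ 0) : ∃ b, b ≠ a ∧ z b ≠ 0 := by
  by_contra hcon
  push Not at hcon
  rw [Finset.sum_eq_single a (fun b _ hb => hcon b hb) (by simp)] at h
  exact ha h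

/-- B2. A nonempty even set of edges of a triangle-free graph has at least four members. -/
theorem even_set {V : Type} [Fintype V] [DecidableEq V] (G : SimpleGraph V) (hG : G.CliqueFree 3)
    (z : V → V → ZMod 2) (hsymm : ∀ u v, z u v = z v u) (hadj : ∀ u v, z u v ≠ 0 → G.Adj u v)
    (hrow : ∀ u, ∑ v, z u v = 0) (hz : ∃ u v, z u v ≠ 0) :
    8 ≤ (univ.filter (fun p : V × V => z p.1 p.2 ≠ 0)).card := by
  obtain ⟨u, v, huv⟩ := hz
  obtain ⟨a, hav, hua⟩ := exists_other (z u) (hrow u) v huv
  have hvu : z v u ≠ 0 := by rwa [hsymm]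
  have hau : z a u ≠ 0 := by rwa [hsymm]
  obtain ⟨b, hbu, hvb⟩ := exists_other (z v) (hrow v) u hvu
  obtain ⟨c, hcu, hac⟩ := exists_other (z a) (hrow a) u hau
  have hbv : z b v ≠ 0 := by rwa [hsymm]
  have hca : z c a ≠ 0 := by rwa [hsymm]
  have Auv := hadj _ _ huv
  have Aua := hadj _ _ hua
  have Avb := hadj _ _ hvb
  have Aac := hadj _ _ hac
  have tri : ∀ x y w : V, G.Adj x y → G.Adj x w → G.Adj y w → False := by
    intro x y w h1 h2 h3
    exact hG {x, y, w} (SimpleGraph.is3Clique_triple_iff.mpr ⟨h1, h2, h3⟩)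
  have hab : a ≠ b := by
    rintro rfl
    exact tri u v a Auv Aua Avb
  have hcv : c ≠ v := by
    rintro rfl
    exact tri u c a Auv Aua Aac.symm
  have huv' : u ≠ v := Auv.ne
  have hua' : u ≠ a := Aua.ne
  have hvb' : v ≠ b := Avb.ne
  have hac' : a ≠ c := Aac.ne
  obtain ⟨T, hT⟩ : ∃ T : Finset (V × V), T = {(u, v), (v, u), (u, a), (a, u), (v, b), (b, v),
      (a, c), (c, a)} := ⟨_, rfl⟩
  have hcard : T.card = 8 := by
    rw [hT]
    rw [card_insert_of_notMem, card_insert_of_notMem, card_insert_of_notMem,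
      card_insert_of_notMem, card_insert_of_notMem, card_insert_of_notMem,
      card_insert_of_notMem, card_singleton]
    all_goals
      simp [huv', hua', hvb', hac', hav, hbu, hcu, hab, hcv, huv'.symm, hua'.symm, hvb'.symm,
        hac'.symm, hav.symm, hbu.symm, hcu.symm, hab.symm, hcv.symm]
  rw [← hcard]
  refine card_le_card ?_
  intro p hp
  rw [hT] at hp
  simp only [mem_insert, mem_singleton] at hp
  simp only [mem_filter, mem_univ, true_and]
  rcases hp with rfl | rfl | rfl | rfl | rfl | rfl | rfl | rfl <;> assumption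

end Pool.Agent.TFP
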