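import Pool.Agent.TFP.Key0

/-!
# The weighted inequality for lists of about `4 m` colours
-/

set_option autoImplicit false

namespace Pool.Agent.TFP

open Finset

theorem expl_out_le {V : Type} [Fintype V] (G : SimpleGraph V) (out : V → ℕ)
    (hout : ∀ S : Finset V,
      (inner G S : ℝ) + 2 * ∑ v ∈ S, (out v : ℝ) ≤ (4 + 2 / 5) * S.card) (v : V) :
    out v ≤ 2 := by
  have h := hout {v}
  simp only [sum_singleton, card_singleton, Nat.cast_one, mul_one] at h
  have h0 : (0 : ℝ) ≤ (inner G {v} : ℝ) := Nat.cast_nonneg _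
  have h1 : (out v : ℝ) < 3 := by linarith
  have h2 : out v < 3 := by exact_mod_cast h1
  omega

theorem expl_stable {V : Type} [Fintype V] (G : SimpleGraph V) (out : V → ℕ)
    (hout : ∀ S : Finset V,
      (inner G S : ℝ) + 2 * ∑ v ∈ S, (out v : ℝ) ≤ (4 + 2 / 5) * S.card) (u v : V)
    (hu : out u = 2) (hv : out v = 2) : ¬ G.Adj u v := by
  classical
  intro h
  have hne := h.ne
  have h1 := hout {u, v}
  rw [inner_eq_sum, sum_pair hne, card_pair hne, sum_pair hne, sum_pair hne, sum_pair hne] at h1
  rw [if_pos h, if_pos h.symm, hu, hv] at h1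
  have h2 : (0 : ℝ) ≤ (if G.Adj u u then (1 : ℝ) else 0) := by split_ifs <;> norm_num
  have h3 : (0 : ℝ) ≤ (if G.Adj v v then (1 : ℝ) else 0) := by split_ifs <;> norm_num
  push_cast at h1
  linarith

/-- X5a. The weighted inequality (`s = ⌊m / 1600⌋`). -/
theorem explicit_bound {V : Type} [Fintype V] (G : SimpleGraph V) (hG : HasCuts G)
    (hE : ∀ S : Finset V, (inner G S : ℝ) ≤ 4 * S.card) (out : V → ℕ)
    (hout : ∀ S : Finset V,
      (inner G S : ℝ) + 2 * ∑ v ∈ S, (out v : ℝ) ≤ (4 + 2 / 5) * S.card)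
    (m s : ℕ) (hs : 1600 * s ≤ m) (L : V → Finset ℕ)
    (hL : ∀ v, (L v).card + out v * m + s = 4 * m) (y : V → ℝ) (hy : ∀ v, 0 ≤ y v) :
    ∃ c : V → Finset ℕ, IsPartialColoring G L c ∧
      (1 + 455 / 10000) * m * ∑ v, y v ≤ ∑ v, y v * ((c v).card : ℝ) := by
  classical
  have hout2 : ∀ v, out v ≤ 2 := expl_out_le G out hout
  have hmr : (0 : ℝ) ≤ m := Nat.cast_nonneg _
  have hsr : (0 : ℝ) ≤ s := Nat.cast_nonneg _
  have hsm : 1600 * (s : ℝ) ≤ m := by exact_mod_cast hs
  have hLr : ∀ v, ((L v).card : ℝ) = 4 * m - out v * m - s := by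
    intro v
    have := hL v
    have h2 : (((L v).card + out v * m + s : ℕ) : ℝ) = ((4 * m : ℕ) : ℝ) := by rw [this]
    push_cast at h2
    linarith
  choose Ist hsub hst hIst using fun S : Finset V => half_stable G hG y hy S
  let S : ℕ → Finset V := fun c => univ.filter fun v => c ∈ L v
  let W : ℕ → Finset V := fun c => (S c).filter fun v => out v = 2
  -- the better of the two stable sets
  have hbest : ∀ x, ∃ I : Finset V, I ⊆ S x ∧ (∀ u ∈ I, ∀ v ∈ I, ¬ G.Adj u v) ∧
      (9 / 109) * ∑ v ∈ W x, y v + (100 / 109) * ∑ v ∈ Ist (S x), y v ≤ ∑ v ∈ I, y v := by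
    intro x
    rcases le_total (∑ v ∈ W x, y v) (∑ v ∈ Ist (S x), y v) with h | h
    · exact ⟨Ist (S x), hsub _, hst _, by linarith⟩
    · refine ⟨W x, filter_subset _ _, ?_, by linarith⟩
      intro u hu v hv
      exact expl_stable G out hout u v (mem_filter.1 hu).2 (mem_filter.1 hv).2
  choose J hJ1 hJ2 hJ3 using hbest
  let c : V → Finset ℕ := fun v => (univ.biUnion L).filter fun x => v ∈ J x
  have hcpc : IsPartialColoring G L c := by
    constructor
    · intro v x hx
      have h1 := hJ1 _ (mem_filter.1 hx).2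
      exact (mem_filter.1 h1).2
    · intro u v huv
      rw [disjoint_left]
      intro x hx hx'
      exact hJ2 _ u (mem_filter.1 hx).2 v (mem_filter.1 hx').2 huv
  refine ⟨c, hcpc, ?_⟩
  have hweight : ∑ v, y v * ((c v).card : ℝ) = ∑ x ∈ univ.biUnion L, ∑ v ∈ J x, y v := by
    have h1 : ∀ v, y v * ((c v).card : ℝ) =
        ∑ x ∈ univ.biUnion L, if v ∈ J x then y v else 0 := by
      intro v
      rw [← sum_filter, sum_const, nsmul_eq_mul, mul_comm]
    rw [sum_congr rfl fun v _ => h1 v, sum_comm]
    refine sum_congr rfl fun x _ => ?_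
    rw [← sum_filter]
    congr 1; ext; simp
  rw [hweight]
  set A : V → V → ℝ := fun u v => if G.Adj u v then min (y u) (y v) else 0 with hA
  have hA0 : ∀ u v, 0 ≤ A u v := by
    intro u v; simp only [hA]; split_ifs
    · exact le_min (hy u) (hy v)
    · exact le_refl _
  set h : V → ℝ := fun v => 4 + 2 / 5 - 2 * out v with hh
  have hlayer : ∀ X : Finset V, ∑ u ∈ X, ∑ v ∈ X, A u v ≤ ∑ v ∈ X, y v * h v := by
    intro X
    refine layer_cake_aux G h ?_ X y (fun v _ => hy v)
    intro S
    have := hout S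
    rw [inner_eq_sum] at this
    simp only [hh, sum_sub_distrib, sum_const, nsmul_eq_mul]
    rw [← mul_sum]
    linarith
  have hlayer4 : ∀ X : Finset V, ∑ u ∈ X, ∑ v ∈ X, A u v ≤ ∑ v ∈ X, y v * 4 := by
    intro X
    refine layer_cake_aux G (fun _ => 4) ?_ X y (fun v _ => hy v)
    intro S
    have := hE S
    rw [inner_eq_sum] at this
    simp only [sum_const, nsmul_eq_mul]
    linarith
  have hsum := sum_le_sum (s := univ.biUnion L) (fun x _ => hIst (S x))
  rw [← mul_sum, sum_sub_distrib, ← mul_sum, sum_colours L y] at hsum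
  have hS : ∀ x, ∑ u, ∑ v, (if u ∈ S x ∧ v ∈ S x then A u v else 0) =
      ∑ u, ∑ v, (if x ∈ L u ∧ x ∈ L v then A u v else 0) := by
    intro x
    refine sum_congr rfl fun u _ => sum_congr rfl fun v _ => ?_
    simp only [S, mem_filter, mem_univ, true_and]
  have hsum2 : ∑ x ∈ univ.biUnion L, ∑ u, ∑ v, (if u ∈ S x ∧ v ∈ S x then
        (open Classical in if G.Adj u v then min (y u) (y v) else 0) else 0) =
      ∑ u, ∑ v, ((L u ∩ L v).card : ℝ) * A u v := by
    rw [← sum_colours₂ L A]
    exact sum_congr rfl fun x _ => hS x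
  rw [hsum2] at hsum
  -- the vertices with `out = 2`
  have hW : ∑ x ∈ univ.biUnion L, ∑ v ∈ W x, y v =
      ∑ v, ((L v).card : ℝ) * (if out v = 2 then y v else 0) := by
    rw [← sum_colours L (fun v => if out v = 2 then y v else 0)]
    refine sum_congr rfl fun x _ => ?_
    simp only [W, S, sum_filter]
  have hsum3 := sum_le_sum (s := univ.biUnion L) (fun x _ => hJ3 x)
  rw [sum_add_distrib, ← mul_sum, ← mul_sum, hW] at hsum3
  have hpair : ∑ u, ∑ v, ((L u ∩ L v).card : ℝ) * A u v ≤
      ∑ v, y v * ((2 * m - s) * h v + (if out v ≤ 1 then m * h v else 0) +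
        (if out v = 0 then (m : ℝ) * 4 else 0)) := by
    have h1 : ∀ u v, ((L u ∩ L v).card : ℝ) * A u v ≤
        (2 * m - s) * A u v + m * (if out u ≤ 1 ∧ out v ≤ 1 then A u v else 0) +
          m * (if out u = 0 ∧ out v = 0 then A u v else 0) := by
      intro u v
      have hu := hout2 u
      have hv := hout2 v
      have c1 : ((L u ∩ L v).card : ℝ) ≤ (L u).card := by
        exact_mod_cast card_le_card inter_subset_left
      have c2 : ((L u ∩ L v).card : ℝ) ≤ (L v).card := by
        exact_mod_cast card_le_card inter_subset_right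
      rw [hLr] at c1 c2
      have hA := hA0 u v
      have key : ((L u ∩ L v).card : ℝ) ≤ (2 * m - s) +
          m * (if out u ≤ 1 ∧ out v ≤ 1 then 1 else 0) +
          m * (if out u = 0 ∧ out v = 0 then 1 else 0) := by
        interval_cases hou : out u <;> interval_cases hov : out v <;>
          norm_num at c1 c2 ⊢ <;> linarith
      have := mul_le_mul_of_nonneg_right key hA
      refine this.trans (le_of_eq ?_)
      split_ifs <;> ring
    refine (sum_le_sum fun u _ => sum_le_sum fun v _ => h1 u v).trans ?_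
    have e1 : ∀ (P : V → Prop) [DecidablePred P],
        ∑ u ∈ univ.filter P, ∑ v ∈ univ.filter P, A u v =
        ∑ u, ∑ v, (if P u ∧ P v then A u v else 0) := by
      intro P _
      rw [sum_filter]
      refine sum_congr rfl fun u _ => ?_
      by_cases hu : P u
      · simp only [hu, if_true, true_and]
        exact sum_filter _ _
      · simp [hu]
    have h2 : ∑ u, ∑ v, ((2 * m - s) * A u v + m * (if out u ≤ 1 ∧ out v ≤ 1 then A u v else 0) +
          m * (if out u = 0 ∧ out v = 0 then A u v else 0)) =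
        (2 * m - s) * ∑ u, ∑ v, A u v +
          m * ∑ u ∈ univ.filter (fun v => out v ≤ 1), ∑ v ∈ univ.filter (fun v => out v ≤ 1),
            A u v +
          m * ∑ u ∈ univ.filter (fun v => out v = 0), ∑ v ∈ univ.filter (fun v => out v = 0),
            A u v := by
      rw [e1, e1]
      simp only [sum_add_distrib, mul_sum]
    rw [h2]
    have l1 := hlayer univ
    have l2 := hlayer (univ.filter (fun v => out v ≤ 1))
    have l3 := hlayer4 (univ.filter (fun v => out v = 0))
    rw [show ∑ v ∈ univ.filter (fun v => out v ≤ 1), y v * h v =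
      ∑ v, (if out v ≤ 1 then y v * h v else 0) from sum_filter _ _] at l2
    rw [show ∑ v ∈ univ.filter (fun v => out v = 0), y v * 4 =
      ∑ v, (if out v = 0 then y v * 4 else 0) from sum_filter _ _] at l3
    have h3 : ∑ v, y v * ((2 * m - s) * h v + (if out v ≤ 1 then m * h v else 0) +
        (if out v = 0 then (m : ℝ) * 4 else 0)) =
        (2 * m - s) * ∑ v, y v * h v + m * ∑ v, (if out v ≤ 1 then y v * h v else 0) +
          m * ∑ v, (if out v = 0 then y v * 4 else 0) := by
      rw [mul_sum, mul_sum, mul_sum, ← sum_add_distrib, ← sum_add_distrib]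
      refine sum_congr rfl fun v _ => ?_
      split_ifs <;> ring
    rw [h3]
    have hms : (0 : ℝ) ≤ 2 * m - s := by linarith
    have := mul_le_mul_of_nonneg_left l1 hms
    have := mul_le_mul_of_nonneg_left l2 hmr
    have := mul_le_mul_of_nonneg_left l3 hmr
    linarith
  have hfin : (1 + 455 / 10000) * m * ∑ v, y v ≤
      ∑ v, ((9 / 109) * (((L v).card : ℝ) * (if out v = 2 then y v else 0)) +
        (50 / 109) * (((L v).card : ℝ) * y v) -
        (5 / 109) * (y v * ((2 * m - s) * h v + (if out v ≤ 1 then m * h v else 0) +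
        (if out v = 0 then (m : ℝ) * 4 else 0)))) := by
    rw [mul_sum]
    refine sum_le_sum fun v _ => ?_
    have hv := hout2 v
    have hyv := hy v
    rw [hLr]
    have key : (1 + 455 / 10000) * (m : ℝ) ≤
        (9 / 109) * ((4 * m - out v * m - s) * (if out v = 2 then 1 else 0)) +
        (50 / 109) * (4 * m - out v * m - s) -
        (5 / 109) * ((2 * m - s) * h v + (if out v ≤ 1 then m * h v else 0) +
        (if out v = 0 then (m : ℝ) * 4 else 0)) := by
      simp only [hh]
      interval_cases hov : out v <;> norm_num <;> linarith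
    have := mul_le_mul_of_nonneg_right key hyv
    refine this.trans (le_of_eq ?_)
    split_ifs <;> ring
  rw [sum_sub_distrib, sum_add_distrib, ← mul_sum, ← mul_sum, ← mul_sum] at hfin
  linarith

end Pool.Agent.TFP
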