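import Mathlib

/-!
# Rounding by the exponential moment method (package X2 of MP_143092_co, helper84)
-/

set_option autoImplicit false

namespace Pool.Agent.TFP

open Finset MeasureTheory ProbabilityTheory

/-- Hoeffding's lemma for a finite distribution -/
theorem hoeffding_finite {ι : Type} [Fintype ι] (w u : ι → ℝ) (hw0 : ∀ i, 0 ≤ w i)
    (hw1 : ∑ i, w i = 1) (hu : ∀ i, 0 ≤ u i ∧ u i ≤ 1) (l : ℝ) :
    ∑ i, w i * Real.exp (l * (∑ j, w j * u j - u i)) ≤ Real.exp (l ^ 2 / 8) := by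
  classical
  let _ : MeasurableSpace ι := ⊤
  let P : PMF ι := PMF.ofFintype (fun i => ENNReal.ofReal (w i)) (by
    rw [← ENNReal.ofReal_sum_of_nonneg (fun i _ => hw0 i), hw1, ENNReal.ofReal_one])
  have hP : ∀ i, (P i).toReal = w i := fun i => by
    show (ENNReal.ofReal (w i)).toReal = w i
    exact ENNReal.toReal_ofReal (hw0 i)
  have hint : ∀ f : ι → ℝ, ∫ a, f a ∂P.toMeasure = ∑ i, w i * f i := by
    intro f
    rw [PMF.integral_eq_sum]
    apply Finset.sum_congr rfl
    intro i _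
    rw [hP, smul_eq_mul]
  have hsub := hasSubgaussianMGF_of_mem_Icc (μ := P.toMeasure) (X := u) (a := 0) (b := 1)
    (measurable_of_finite u).aemeasurable (Filter.Eventually.of_forall fun i => hu i)
  have hm := hsub.mgf_le (-l)
  rw [mgf, hint] at hm
  rw [hint] at hm
  refine le_trans (le_of_eq ?_) (hm.trans (le_of_eq ?_))
  · apply Finset.sum_congr rfl
    intro i _
    congr 2
    ring
  · congr 1
    simp
    ring

/-- X2. Rounding by the exponential moment method. -/
theorem hoeffding_round {V C ι : Type} [Fintype V] [Fintype C] [Fintype ι]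
    (u : C → ι → V → ℝ) (hu : ∀ c i v, 0 ≤ u c i v ∧ u c i v ≤ 1)
    (w : C → ι → ℝ) (hw0 : ∀ c i, 0 ≤ w c i) (hw1 : ∀ c, ∑ i, w c i = 1)
    (N : ℕ) (hN0 : 0 < N) (hN : Fintype.card C ≤ N) (t : ℝ) (ht : 0 ≤ t)
    (h : (Fintype.card V : ℝ) * Real.exp (-(2 * t ^ 2 / N)) < 1) :
    ∃ f : C → ι, (∀ c, w c (f c) ≠ 0) ∧
      ∀ v, ∑ c, ∑ i, w c i * u c i v - t ≤ ∑ c, u c (f c) v := by
  classical
  have hNr : (0 : ℝ) < N := by exact_mod_cast hN0
  obtain ⟨l, hl⟩ : ∃ l : ℝ, l = 4 * t / N := ⟨_, rfl⟩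
  have hl0 : 0 ≤ l := by rw [hl]; positivity
  obtain ⟨F, hF⟩ : ∃ F : (C → ι) → V → ℝ, ∀ f v, F f v =
      Real.exp (l * (∑ c, ∑ i, w c i * u c i v - ∑ c, u c (f c) v)) := ⟨_, fun _ _ => rfl⟩
  have hFprod : ∀ f v, F f v = ∏ c, Real.exp (l * (∑ i, w c i * u c i v - u c (f c) v)) := by
    intro f v
    rw [hF, ← Real.exp_sum, ← Finset.mul_sum, Finset.sum_sub_distrib]
  -- total weight
  have hW : ∑ f : C → ι, ∏ c, w c (f c) = 1 := by
    have h1 := Finset.prod_univ_sum (fun _ : C => (univ : Finset ι)) (fun c i => w c i)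
    rw [Fintype.piFinset_univ] at h1
    rw [← h1]
    simp [hw1]
  have hW0 : ∀ f : C → ι, 0 ≤ ∏ c, w c (f c) := fun f => Finset.prod_nonneg fun c _ => hw0 c _
  -- the average
  have hav : ∀ v, ∑ f : C → ι, (∏ c, w c (f c)) * F f v ≤ Real.exp (N * (l ^ 2 / 8)) := by
    intro v
    have h1 := Finset.prod_univ_sum (fun _ : C => (univ : Finset ι))
      (fun c i => w c i * Real.exp (l * (∑ j, w c j * u c j v - u c i v)))
    rw [Fintype.piFinset_univ] at h1
    have h2 : ∑ f : C → ι, (∏ c, w c (f c)) * F f v =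
        ∏ c, ∑ i, w c i * Real.exp (l * (∑ j, w c j * u c j v - u c i v)) := by
      rw [h1]
      apply Finset.sum_congr rfl
      intro f _
      rw [hFprod, ← Finset.prod_mul_distrib]
    rw [h2]
    calc ∏ c, ∑ i, w c i * Real.exp (l * (∑ j, w c j * u c j v - u c i v))
        ≤ ∏ _c : C, Real.exp (l ^ 2 / 8) := by
          apply Finset.prod_le_prod
          · intro c _
            exact Finset.sum_nonneg fun i _ => mul_nonneg (hw0 c i) (Real.exp_nonneg _)
          · intro c _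
            exact hoeffding_finite (w c) (fun i => u c i v) (hw0 c) (hw1 c)
              (fun i => hu c i v) l
      _ = Real.exp (Fintype.card C * (l ^ 2 / 8)) := by
          rw [Finset.prod_const, ← Real.exp_nat_mul, Finset.card_univ]
      _ ≤ Real.exp (N * (l ^ 2 / 8)) := by
          apply Real.exp_le_exp.2
          apply mul_le_mul_of_nonneg_right _ (by positivity)
          exact_mod_cast hN
  -- a good choice
  have hex : ∃ f : C → ι, ∏ c, w c (f c) ≠ 0 ∧
      ∑ v, F f v ≤ Fintype.card V * Real.exp (N * (l ^ 2 / 8)) := by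
    by_contra hcon
    push Not at hcon
    have h1 : ∑ f : C → ι, (∏ c, w c (f c)) * ∑ v, F f v ≤
        Fintype.card V * Real.exp (N * (l ^ 2 / 8)) := by
      have h2 : ∑ f : C → ι, (∏ c, w c (f c)) * ∑ v, F f v =
          ∑ v, ∑ f : C → ι, (∏ c, w c (f c)) * F f v := by
        rw [Finset.sum_comm]
        apply Finset.sum_congr rfl
        intro f _
        rw [Finset.mul_sum]
      rw [h2]
      calc ∑ v, ∑ f : C → ι, (∏ c, w c (f c)) * F f v
          ≤ ∑ _v : V, Real.exp (N * (l ^ 2 / 8)) := Finset.sum_le_sum fun v _ => hav v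
        _ = _ := by rw [Finset.sum_const, Finset.card_univ, nsmul_eq_mul]
    have h3 : ∑ f : C → ι, (∏ c, w c (f c)) * (Fintype.card V * Real.exp (N * (l ^ 2 / 8))) =
        Fintype.card V * Real.exp (N * (l ^ 2 / 8)) := by
      rw [← Finset.sum_mul, hW, one_mul]
    have h4 : ∑ f : C → ι, (∏ c, w c (f c)) * (Fintype.card V * Real.exp (N * (l ^ 2 / 8))) <
        ∑ f : C → ι, (∏ c, w c (f c)) * ∑ v, F f v := by
      obtain ⟨f₀, hf₀⟩ : ∃ f : C → ι, ∏ c, w c (f c) ≠ 0 := by
        by_contra hno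
        push Not at hno
        rw [Finset.sum_eq_zero (fun f _ => hno f)] at hW
        exact zero_ne_one hW
      apply Finset.sum_lt_sum
      · intro f _
        by_cases hf : ∏ c, w c (f c) = 0
        · rw [hf]; simp
        · exact mul_le_mul_of_nonneg_left (hcon f hf).le (hW0 f)
      · refine ⟨f₀, mem_univ _, ?_⟩
        exact mul_lt_mul_of_pos_left (hcon f₀ hf₀) (lt_of_le_of_ne (hW0 f₀) (Ne.symm hf₀))
    rw [h3] at h4
    exact absurd h1 (not_le.2 h4)
  obtain ⟨f, hf0, hf⟩ := hex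
  refine ⟨f, fun c hc => hf0 (Finset.prod_eq_zero (mem_univ c) hc), ?_⟩
  intro v
  have h1 : F f v ≤ Fintype.card V * Real.exp (N * (l ^ 2 / 8)) := by
    refine le_trans ?_ hf
    apply Finset.single_le_sum (f := fun v => F f v) (fun v _ => ?_) (mem_univ v)
    show 0 ≤ F f v
    rw [hF]; exact Real.exp_nonneg _
  have h2 : (Fintype.card V : ℝ) * Real.exp (N * (l ^ 2 / 8)) < Real.exp (l * t) := by
    have e1 : N * (l ^ 2 / 8) = 2 * t ^ 2 / N := by
      rw [hl]; field_simp; ring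
    have e2 : l * t = 2 * t ^ 2 / N + 2 * t ^ 2 / N := by
      rw [hl]; field_simp; ring
    rw [e1, e2, Real.exp_add]
    have h3 := Real.exp_pos (2 * t ^ 2 / N)
    have h4 : (Fintype.card V : ℝ) < Real.exp (2 * t ^ 2 / N) := by
      rw [Real.exp_neg, ← div_eq_mul_inv, div_lt_one h3] at h
      exact h
    exact mul_lt_mul_of_pos_right h4 h3
  have h5 := lt_of_le_of_lt h1 h2
  rw [hF, Real.exp_lt_exp] at h5
  rcases eq_or_lt_of_le hl0 with h6 | h6
  · rw [← h6] at h5
    simp at h5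
  · have := lt_of_mul_lt_mul_left h5 hl0
    linarith

end Pool.Agent.TFP
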