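import Mathlib

/-!
# The Shapley-Folkman lemma, finite form
-/

set_option autoImplicit false

namespace Pool.Agent.TFP

open Finset

private lemma sf_move {P : Type} [Fintype P] (w δ : P → ℝ) (hw : ∀ p, 0 ≤ w p)
    (hδ : ∀ p, w p = 0 → δ p = 0) (hneg : ∃ p, δ p < 0) :
    ∃ t : ℝ, (∀ p, 0 ≤ w p + t * δ p) ∧ ∃ p, w p ≠ 0 ∧ w p + t * δ p = 0 := by
  classical
  obtain ⟨p₁, hp₁⟩ := hneg
  obtain ⟨p₀, hp₀, hmin⟩ := (univ.filter fun p => δ p < 0).exists_min_image
    (fun p => w p / (-δ p)) ⟨p₁, by simp [hp₁]⟩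
  rw [mem_filter] at hp₀
  have hd₀ : 0 < -δ p₀ := by linarith [hp₀.2]
  refine ⟨w p₀ / (-δ p₀), fun p => ?_, p₀, fun h => ?_, ?_⟩
  · have ht : 0 ≤ w p₀ / (-δ p₀) := div_nonneg (hw _) hd₀.le
    rcases lt_or_ge (δ p) 0 with h | h
    · have h1 := hmin p (by simp [h])
      rw [le_div_iff₀ (by linarith)] at h1
      linarith
    · have := hw p
      positivity
  · have := hδ _ h
    linarith
  · have h1 : w p₀ / (-δ p₀) * (-δ p₀) = w p₀ := div_mul_cancel₀ _ hd₀.ne'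
    linarith

/-- X1. Shapley-Folkman, finite form. -/
theorem shapley_folkman {V C ι : Type} [Fintype V] [Fintype C] [Fintype ι]
    (u : C → ι → V → ℝ) (w : C → ι → ℝ) (hw0 : ∀ c i, 0 ≤ w c i) (hw1 : ∀ c, ∑ i, w c i = 1) :
    ∃ w' : C → ι → ℝ, (∀ c i, 0 ≤ w' c i) ∧ (∀ c, ∑ i, w' c i = 1) ∧
      (∀ v, ∑ c, ∑ i, w' c i * u c i v = ∑ c, ∑ i, w c i * u c i v) ∧
      (∀ c i, w' c i ≠ 0 → w c i ≠ 0) ∧
      Nat.card {c : C // ∀ i, w' c i ≠ 1} ≤ Fintype.card V := by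
  classical
  let Q : (C → ι → ℝ) → Prop := fun w' => (∀ c i, 0 ≤ w' c i) ∧ (∀ c, ∑ i, w' c i = 1) ∧
      (∀ v, ∑ c, ∑ i, w' c i * u c i v = ∑ c, ∑ i, w c i * u c i v) ∧
      (∀ c i, w' c i ≠ 0 → w c i ≠ 0)
  let N : (C → ι → ℝ) → ℕ := fun w' => (univ.filter fun p : C × ι => w' p.1 p.2 ≠ 0).card
  have hex : ∃ n, ∃ w', Q w' ∧ N w' = n :=
    ⟨_, w, ⟨hw0, hw1, fun v => rfl, fun c i h => h⟩, rfl⟩
  obtain ⟨w', hQ, hN⟩ := Nat.find_spec hex
  have hmin : ∀ w'', Q w'' → N w' ≤ N w'' := by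
    intro w'' h
    rw [hN]
    exact Nat.find_min' hex ⟨w'', h, rfl⟩
  obtain ⟨h0, h1, h2, h3⟩ := hQ
  refine ⟨w', h0, h1, h2, h3, ?_⟩
  by_contra hcard
  rw [not_le, Nat.card_eq_fintype_card] at hcard
  -- two indices of the support
  have hij : ∀ c : {c : C // ∀ i, w' c i ≠ 1}, ∃ i j, i ≠ j ∧ 0 < w' c.1 i ∧ 0 < w' c.1 j := by
    rintro ⟨c, hc⟩
    obtain ⟨i, hi⟩ : ∃ i, 0 < w' c i := by
      by_contra hcon
      push Not at hcon
      have : ∑ i, w' c i ≤ 0 := Finset.sum_nonpos fun i _ => hcon i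
      rw [h1 c] at this
      linarith
    obtain ⟨j, hji, hj⟩ : ∃ j, j ≠ i ∧ 0 < w' c j := by
      by_contra hcon
      push Not at hcon
      have h4 : ∑ i, w' c i = w' c i := by
        refine Finset.sum_eq_single i (fun j _ hj => ?_) (fun h => absurd (mem_univ i) h)
        exact le_antisymm (hcon j hj) (h0 c j)
      rw [h1 c] at h4
      exact hc i h4.symm
    exact ⟨i, j, hji.symm, hi, hj⟩
  choose I J hIJ hI hJ using hij
  have hli : ¬ LinearIndependent ℝ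
      (fun c : {c : C // ∀ i, w' c i ≠ 1} => u c.1 (I c) - u c.1 (J c)) := by
    intro h
    have h4 := h.fintype_card_le_finrank
    rw [Module.finrank_fintype_fun_eq_card] at h4
    omega
  rw [Fintype.not_linearIndependent_iff] at hli
  obtain ⟨a, ha, c₀, hc₀⟩ := hli
  let δ : C → ι → ℝ := fun c i => if h : ∀ i, w' c i ≠ 1 then
    a ⟨c, h⟩ * ((if i = I ⟨c, h⟩ then 1 else 0) - (if i = J ⟨c, h⟩ then 1 else 0)) else 0
  have hδsum : ∀ (c : C) (g : ι → ℝ), ∑ i, δ c i * g i =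
      if h : ∀ i, w' c i ≠ 1 then a ⟨c, h⟩ * (g (I ⟨c, h⟩) - g (J ⟨c, h⟩)) else 0 := by
    intro c g
    by_cases h : ∀ i, w' c i ≠ 1
    · simp only [δ, dif_pos h, mul_assoc, sub_mul, ite_mul, one_mul, zero_mul, mul_sub]
      rw [Finset.sum_sub_distrib]
      simp [Finset.sum_ite_eq', mul_ite]
    · simp only [δ, dif_neg h, zero_mul, Finset.sum_const_zero]
  have hδ0 : ∀ c, ∑ i, δ c i = 0 := by
    intro c
    have h4 := hδsum c fun _ => 1
    simp only [mul_one, sub_self, mul_zero] at h4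
    rw [h4]
    split_ifs <;> rfl
  have hδu : ∀ v, ∑ c, ∑ i, δ c i * u c i v = 0 := by
    intro v
    have h4 : ∀ c, ∑ i, δ c i * u c i v =
        if h : ∀ i, w' c i ≠ 1 then a ⟨c, h⟩ * (u c (I ⟨c, h⟩) v - u c (J ⟨c, h⟩) v) else 0 :=
      fun c => hδsum c fun i => u c i v
    simp only [h4]
    have h5 := congrFun ha v
    simp only [Finset.sum_apply, Pi.smul_apply, Pi.sub_apply, smul_eq_mul, Pi.zero_apply] at h5
    let φ : C → ℝ := fun c =>
      if h : ∀ i, w' c i ≠ 1 then a ⟨c, h⟩ * (u c (I ⟨c, h⟩) v - u c (J ⟨c, h⟩) v) else 0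
    have h6 : ∑ c, φ c = ∑ c : {c : C // ∀ i, w' c i ≠ 1}, φ c.1 := by
      rw [← Finset.sum_filter_of_ne (p := fun c => ∀ i, w' c i ≠ 1) (s := univ) (f := φ)]
      · exact Finset.sum_subtype _ (fun c => by simp only [mem_filter, mem_univ, true_and]) φ
      · intro c _ hc
        by_contra hcon
        exact hc (dif_neg hcon)
    have h7 : ∑ c, φ c = 0 := by
      rw [h6, ← h5]
      exact Finset.sum_congr rfl fun c _ => dif_pos c.2
    exact h7
  have hδw : ∀ p : C × ι, w' p.1 p.2 = 0 → δ p.1 p.2 = 0 := by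
    rintro ⟨c, i⟩ h
    simp only at h
    by_cases hc : ∀ i, w' c i ≠ 1
    · have hi : i ≠ I ⟨c, hc⟩ := by
        rintro rfl
        have := hI ⟨c, hc⟩
        simp only at this
        linarith
      have hj : i ≠ J ⟨c, hc⟩ := by
        rintro rfl
        have := hJ ⟨c, hc⟩
        simp only at this
        linarith
      simp only [δ, dif_pos hc, if_neg hi, if_neg hj, sub_self, mul_zero]
    · simp only [δ, dif_neg hc]
  have hδc : ∀ i, δ c₀.1 i = a c₀ * ((if i = I c₀ then 1 else 0) - (if i = J c₀ then 1 else 0)) :=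
    fun i => dif_pos c₀.2
  have hneg : ∃ p : C × ι, δ p.1 p.2 < 0 := by
    rcases lt_or_gt_of_ne hc₀ with h | h
    · refine ⟨(c₀.1, I c₀), ?_⟩
      show δ c₀.1 (I c₀) < 0
      rw [hδc, if_pos rfl, if_neg (hIJ c₀)]
      linarith
    · refine ⟨(c₀.1, J c₀), ?_⟩
      show δ c₀.1 (J c₀) < 0
      rw [hδc, if_pos rfl, if_neg (hIJ c₀).symm]
      linarith
  obtain ⟨t, ht0, ⟨c₁, i₁⟩, hp1, hp2⟩ := sf_move (fun p : C × ι => w' p.1 p.2)
    (fun p => δ p.1 p.2) (fun p => h0 _ _) hδw hneg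
  have hQ' : Q (fun c i => w' c i + t * δ c i) := by
    refine ⟨fun c i => ht0 (c, i), fun c => ?_, fun v => ?_, fun c i h => ?_⟩
    · rw [Finset.sum_add_distrib, ← Finset.mul_sum, hδ0, h1, mul_zero, add_zero]
    · rw [← h2 v]
      have h6 : ∀ c, ∑ i, (w' c i + t * δ c i) * u c i v =
          (∑ i, w' c i * u c i v) + t * ∑ i, δ c i * u c i v := by
        intro c
        rw [Finset.mul_sum, ← Finset.sum_add_distrib]
        refine Finset.sum_congr rfl fun i _ => ?_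
        ring
      simp only [h6]
      rw [Finset.sum_add_distrib, ← Finset.mul_sum, hδu, mul_zero, add_zero]
    · refine h3 c i fun h7 => h ?_
      show w' c i + t * δ c i = 0
      rw [h7, hδw (c, i) h7, mul_zero, add_zero]
  have hlt : N (fun c i => w' c i + t * δ c i) < N w' := by
    apply Finset.card_lt_card
    rw [Finset.ssubset_iff_of_subset]
    · refine ⟨(c₁, i₁), ?_, ?_⟩
      · simp only [mem_filter, mem_univ, true_and]
        exact hp1
      · simp only [mem_filter, mem_univ, true_and, not_not]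
        exact hp2
    · rintro ⟨c, i⟩ h
      simp only [mem_filter, mem_univ, true_and] at h ⊢
      intro h7
      apply h
      rw [h7, hδw (c, i) h7, mul_zero, add_zero]
  exact absurd (hmin _ hQ') (not_le.2 hlt)

end Pool.Agent.TFP
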