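import Pool.Agent.TFP.Rounding
import Pool.Agent.TFP.ShapleyFolkman
import Pool.Agent.TFP.HoeffdingRound

/-!
# Duality and sharp rounding

If for every weighting of the vertices some partial list colouring has large weight, then an
honest partial colouring gives every vertex many colours; the loss `t` only has to satisfy
`N exp (-2 t² / N) < 1`, where `N ≥ |V|`.
-/

set_option autoImplicit false

namespace Pool.Agent.TFP

open Finset

open Classical in
/-- X3. Duality and sharp rounding. -/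
theorem sharp_rounding {V : Type} [Fintype V] (G : SimpleGraph V) (L : V → Finset ℕ) (M t : ℝ)
    (N : ℕ) (hN0 : 0 < N) (hN : Fintype.card V ≤ N) (ht : 0 ≤ t)
    (hexp : (N : ℝ) * Real.exp (-(2 * t ^ 2 / N)) < 1)
    (h : ∀ y : V → ℝ, (∀ v, 0 ≤ y v) → ∃ c : V → Finset ℕ, IsPartialColoring G L c ∧
      M * ∑ v, y v ≤ ∑ v, y v * ((c v).card : ℝ)) :
    ∃ c : V → Finset ℕ, IsPartialColoring G L c ∧ ∀ v, M - t ≤ ((c v).card : ℝ) := by
  -- the finite set of partial colourings
  set 𝒞 : Finset (V → Finset ℕ) :=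
    (Fintype.piFinset (fun v => (L v).powerset)).filter (IsPartialColoring G L) with h𝒞
  have hmem : ∀ c, IsPartialColoring G L c → c ∈ 𝒞 := by
    intro c hc
    rw [h𝒞, mem_filter, Fintype.mem_piFinset]
    exact ⟨fun v => mem_powerset.2 (hc.1 v), hc⟩
  obtain ⟨w, hw0, hw1, hwM⟩ := rounding_farkas (V := V) (ι := {c // c ∈ 𝒞})
    (fun c v => ((c.1 v).card : ℝ)) M (by
      intro y hy
      obtain ⟨c, hc, hcM⟩ := h y hy
      exact ⟨⟨c, hmem c hc⟩, hcM⟩)
  -- colours and classes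
  set 𝒦 : Finset ℕ := univ.biUnion L with h𝒦
  set I : (V → Finset ℕ) → ℕ → Finset V := fun c k => univ.filter (fun v => k ∈ c v) with hI
  set W : {k // k ∈ 𝒦} → Finset V → ℝ := fun k J =>
    ∑ c : {c // c ∈ 𝒞}, (if I c.1 k = J then w c else 0) with hW
  set u : {k // k ∈ 𝒦} → Finset V → V → ℝ := fun _ J v => if v ∈ J then 1 else 0 with hu
  have hW0 : ∀ k J, 0 ≤ W k J := by
    intro k J
    refine sum_nonneg fun c _ => ?_
    split_ifs
    · exact hw0 c
    · exact le_refl 0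
  have hW1 : ∀ k, ∑ J, W k J = 1 := by
    intro k
    rw [hW]
    simp only
    rw [sum_comm, ← hw1]
    refine sum_congr rfl fun c _ => ?_
    rw [sum_ite_eq univ (I c.1 k) (fun _ => w c)]
    simp
  have hWgood : ∀ k J, W k J ≠ 0 → (∀ v ∈ J, (k : ℕ) ∈ L v) ∧ ∀ a ∈ J, ∀ b ∈ J, ¬ G.Adj a b := by
    intro k J hkJ
    obtain ⟨c, -, hc⟩ := exists_ne_zero_of_sum_ne_zero hkJ
    have hcJ : I c.1 k = J := by
      by_contra hne
      exact hc (if_neg hne)
    have hcc : IsPartialColoring G L c.1 := (mem_filter.1 c.2).2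
    subst hcJ
    constructor
    · intro v hv
      exact hcc.1 v (mem_filter.1 hv).2
    · intro a ha b hb hab
      exact (disjoint_left.1 (hcc.2 a b hab)) (mem_filter.1 ha).2 (mem_filter.1 hb).2
  have hWsum : ∀ v, M ≤ ∑ k, ∑ J, W k J * u k J v := by
    intro v
    refine (hwM v).trans (le_of_eq ?_)
    have h1 : ∀ k : {k // k ∈ 𝒦}, ∑ J, W k J * u k J v =
        ∑ c : {c // c ∈ 𝒞}, w c * (if (k : ℕ) ∈ c.1 v then 1 else 0) := by
      intro k
      rw [hW]
      simp only [sum_mul]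
      rw [sum_comm]
      refine sum_congr rfl fun c _ => ?_
      have h2 : ∀ J : Finset V, (if I c.1 k = J then w c else 0) * u k J v =
          if I c.1 k = J then w c * (if (k : ℕ) ∈ c.1 v then 1 else 0) else 0 := by
        intro J
        by_cases hJ : I c.1 k = J
        · subst hJ
          rw [if_pos rfl, if_pos rfl]
          congr 1
          rw [hu, hI]
          simp
        · rw [if_neg hJ, if_neg hJ, zero_mul]
      rw [sum_congr rfl fun J _ => h2 J, sum_ite_eq univ (I c.1 k)]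
      simp
    rw [sum_congr rfl fun k _ => h1 k, sum_comm]
    refine sum_congr rfl fun c _ => ?_
    rw [← mul_sum]
    congr 1
    have hcc : IsPartialColoring G L c.1 := (mem_filter.1 c.2).2
    rw [sum_coe_sort 𝒦 (fun k => if k ∈ c.1 v then (1 : ℝ) else 0), sum_ite, sum_const_zero,
      add_zero, sum_const, nsmul_eq_mul, mul_one]
    congr 2
    ext k
    simp only [mem_filter]
    constructor
    · intro hk
      exact ⟨mem_biUnion.2 ⟨v, mem_univ v, hcc.1 v hk⟩, hk⟩
    · exact fun hk => hk.2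
  -- few fractional colours
  obtain ⟨W', hW'0, hW'1, hW's, hW'W, hcard⟩ := shapley_folkman u W hW0 hW1
  -- round them
  obtain ⟨f, hf, hfs⟩ := hoeffding_round (V := V)
    (C := {k : {k // k ∈ 𝒦} // ∀ J, W' k J ≠ 1}) (ι := Finset V)
    (fun k => u k.1) (by
      intro k J v
      rw [hu]
      simp only
      split_ifs <;> norm_num) (fun k => W' k.1) (fun k => hW'0 k.1) (fun k => hW'1 k.1) N hN0
    (by
      rw [← Nat.card_eq_fintype_card]
      exact hcard.trans hN) t ht (by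
      refine lt_of_le_of_lt ?_ hexp
      exact mul_le_mul_of_nonneg_right (by exact_mod_cast hN) (Real.exp_pos _).le)
  -- the class of each colour
  have hex : ∀ k : {k // k ∈ 𝒦}, ∃ J, W' k J ≠ 0 ∧
      ((∃ J', W' k J' = 1) → W' k J = 1) ∧
      ∀ hk : ∀ J', W' k J' ≠ 1, J = f ⟨k, hk⟩ := by
    intro k
    by_cases hk : ∀ J', W' k J' ≠ 1
    · refine ⟨f ⟨k, hk⟩, hf ⟨k, hk⟩, ?_, fun _ => rfl⟩
      rintro ⟨J', hJ'⟩
      exact absurd hJ' (hk J')
    · have hk' := hk
      push Not at hk'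
      obtain ⟨J, hJ⟩ := hk'
      exact ⟨J, by rw [hJ]; exact one_ne_zero, fun _ => hJ, fun hk2 => absurd hk2 hk⟩
  choose g hg0 hg1 hg2 using hex
  have hgood : ∀ k, (∀ v ∈ g k, (k : ℕ) ∈ L v) ∧ ∀ a ∈ g k, ∀ b ∈ g k, ¬ G.Adj a b :=
    fun k => hWgood k (g k) (hW'W k (g k) (hg0 k))
  have hsum : ∀ v, ∑ k, ∑ J, W' k J * u k J v - t ≤ ∑ k, u k (g k) v := by
    intro v
    have h1 : ∀ F : {k // k ∈ 𝒦} → ℝ, ∑ k, F k =
        ∑ k ∈ univ.filter (fun k => ∀ J, W' k J ≠ 1), F k +
        ∑ k ∈ univ.filter (fun k => ¬ ∀ J, W' k J ≠ 1), F k :=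
      fun F => (sum_filter_add_sum_filter_not univ _ F).symm
    have h2 : ∀ F : {k // k ∈ 𝒦} → ℝ,
        ∑ k ∈ univ.filter (fun k => ∀ J, W' k J ≠ 1), F k =
        ∑ k : {k : {k // k ∈ 𝒦} // ∀ J, W' k J ≠ 1}, F k.1 := by
      intro F
      rw [← sum_subtype_eq_sum_filter, subtype_univ]
    have h3 : ∑ k ∈ univ.filter (fun k => ¬ ∀ J, W' k J ≠ 1), ∑ J, W' k J * u k J v =
        ∑ k ∈ univ.filter (fun k => ¬ ∀ J, W' k J ≠ 1), u k (g k) v := by
      refine sum_congr rfl fun k hk => ?_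
      have hk1 : W' k (g k) = 1 := by
        apply hg1
        have := (mem_filter.1 hk).2
        push Not at this
        exact this
      have hk2 : ∀ J, J ≠ g k → W' k J = 0 := by
        intro J hJ
        have h4 : W' k (g k) + W' k J ≤ ∑ J, W' k J := by
          rw [← sum_pair (Ne.symm hJ)]
          exact sum_le_sum_of_subset_of_nonneg (subset_univ _) fun i _ _ => hW'0 k i
        rw [hW'1, hk1] at h4
        exact le_antisymm (by linarith) (hW'0 k J)
      rw [sum_eq_single (g k)]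
      · rw [hk1, one_mul]
      · intro J _ hJ
        rw [hk2 J hJ, zero_mul]
      · intro hJ
        exact absurd (mem_univ _) hJ
    have h4 := hfs v
    have h5 : ∑ k : {k : {k // k ∈ 𝒦} // ∀ J, W' k J ≠ 1}, u k.1 (f k) v =
        ∑ k : {k : {k // k ∈ 𝒦} // ∀ J, W' k J ≠ 1}, u k.1 (g k.1) v :=
      sum_congr rfl fun k _ => by rw [hg2 k.1 k.2]
    rw [h1 (fun k => ∑ J, W' k J * u k J v), h1 (fun k => u k (g k) v), h3,
      h2 (fun k => ∑ J, W' k J * u k J v), h2 (fun k => u k (g k) v), ← h5]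
    linarith
  -- the colouring
  refine ⟨fun v => (L v).filter (fun k => ∃ hk : k ∈ 𝒦, v ∈ g ⟨k, hk⟩),
    ⟨fun v => filter_subset _ _, ?_⟩, ?_⟩
  · intro a b hab
    rw [disjoint_left]
    intro k hka hkb
    obtain ⟨-, hk, ha⟩ := mem_filter.1 hka
    obtain ⟨-, hk', hb⟩ := mem_filter.1 hkb
    exact (hgood ⟨k, hk⟩).2 a ha b hb hab
  · intro v
    have h1 : ∑ k, u k (g k) v =
        (((L v).filter (fun k => ∃ hk : k ∈ 𝒦, v ∈ g ⟨k, hk⟩)).card : ℝ) := by
      have h2 : ∀ k : {k // k ∈ 𝒦}, u k (g k) v =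
          (fun j : ℕ => if ∃ hk : j ∈ 𝒦, v ∈ g ⟨j, hk⟩ then (1 : ℝ) else 0) k := by
        intro k
        rw [hu]
        simp only
        congr 1
        apply propext
        constructor
        · intro hv
          exact ⟨k.2, hv⟩
        · rintro ⟨hk, hv⟩
          exact hv
      rw [sum_congr rfl fun k _ => h2 k,
        sum_coe_sort 𝒦 (fun j : ℕ => if ∃ hk : j ∈ 𝒦, v ∈ g ⟨j, hk⟩ then (1 : ℝ) else 0),
        sum_ite, sum_const_zero, add_zero, sum_const, nsmul_eq_mul, mul_one]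
      congr 2
      ext k
      simp only [mem_filter]
      constructor
      · rintro ⟨hk, hk', hv⟩
        exact ⟨(hgood ⟨k, hk⟩).1 v hv, hk, hv⟩
      · rintro ⟨-, hk, hv⟩
        exact ⟨hk, hk, hv⟩
    have h2 := hWsum v
    have h3 := hW's v
    have h4 := hsum v
    rw [h3, h1] at h4
    linarith

end Pool.Agent.TFP
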