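import Pool.Agent.TFP.ExplicitBound
import Pool.Agent.TFP.SharpRounding

/-!
# The explicit key lemma
-/

set_option autoImplicit false

namespace Pool.Agent.TFP

open Finset

theorem expl_exp {t : ℝ} (ht : 728 / 10 ≤ t) :
    ((1386 : ℕ) : ℝ) * Real.exp (-(2 * t ^ 2 / (1386 : ℕ))) < 1 := by
  have h1 : (76 / 10 : ℝ) ≤ 2 * t ^ 2 / (1386 : ℕ) := by
    rw [le_div_iff₀ (by norm_num)]
    push_cast
    nlinarith
  have h2 : Real.exp (-(2 * t ^ 2 / (1386 : ℕ))) ≤ Real.exp (-(76 / 10 : ℝ)) :=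
    Real.exp_le_exp.2 (by linarith)
  have h3 : (1386 : ℝ) < Real.exp (76 / 10 : ℝ) := by
    have h4 : Real.exp (76 / 10 : ℝ) = Real.exp 1 ^ 7 * Real.exp (6 / 10) := by
      rw [← Real.exp_nat_mul, ← Real.exp_add]
      norm_num
    have h5 : (2.7 : ℝ) < Real.exp 1 := by
      have := Real.exp_one_gt_d9
      linarith
    have h6 : (2.7 : ℝ) ^ 7 ≤ Real.exp 1 ^ 7 := pow_le_pow_left₀ (by norm_num) h5.le 7
    have h7 : (16 / 10 : ℝ) ≤ Real.exp (6 / 10) := by
      have := Real.add_one_le_exp (6 / 10 : ℝ)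
      linarith
    rw [h4]
    calc (1386 : ℝ) < 2.7 ^ 7 * (16 / 10) := by norm_num
      _ ≤ Real.exp 1 ^ 7 * Real.exp (6 / 10) :=
        mul_le_mul h6 h7 (by norm_num) (by positivity)
  have h8 : Real.exp (-(76 / 10 : ℝ)) = (Real.exp (76 / 10))⁻¹ := Real.exp_neg _
  calc ((1386 : ℕ) : ℝ) * Real.exp (-(2 * t ^ 2 / (1386 : ℕ)))
      ≤ ((1386 : ℕ) : ℝ) * Real.exp (-(76 / 10 : ℝ)) :=
        mul_le_mul_of_nonneg_left h2 (by norm_num)
    _ < 1 := by
      rw [h8, ← div_eq_mul_inv, div_lt_one (Real.exp_pos _)]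
      exact_mod_cast h3

/-- X5b. The explicit key lemma. -/
theorem explicit_key {V : Type} [Fintype V] (G : SimpleGraph V) (hG : HasCuts G)
    (hE : ∀ S : Finset V, (inner G S : ℝ) ≤ 4 * S.card) (hV : Fintype.card V ≤ 1386)
    (out : V → ℕ)
    (hout : ∀ S : Finset V,
      (inner G S : ℝ) + 2 * ∑ v ∈ S, (out v : ℝ) ≤ (4 + 2 / 5) * S.card)
    (m : ℕ) (hm : 1600 ≤ m) (L : V → Finset ℕ)
    (hL : ∀ v, (4 - 1 / 1600 - out v) * (m : ℝ) ≤ ((L v).card : ℝ)) :
    ∃ c : V → Finset ℕ, (∀ v, c v ⊆ L v ∧ (c v).card = m) ∧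
      ∀ u v, G.Adj u v → Disjoint (c u) (c v) := by
  have hout2 : ∀ v, out v ≤ 2 := expl_out_le G out hout
  set s : ℕ := m / 1600 with hs
  have hs1 : 1600 * s ≤ m := Nat.mul_div_le m 1600
  have hs2 : m < 1600 * (s + 1) := by
    have := Nat.lt_mul_div_succ m (by norm_num : 0 < 1600)
    exact this
  have hsize : ∀ v, 4 * m - out v * m - s ≤ (L v).card := by
    intro v
    have h1 := hL v
    have h2 := hout2 v
    have h3 : ((4 * m - out v * m - s : ℕ) : ℝ) < ((L v).card : ℝ) + 1 := by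
      have h4 : out v * m ≤ 2 * m := Nat.mul_le_mul_right _ h2
      have h5 : out v * m ≤ 4 * m := by omega
      have h6 : s ≤ 4 * m - out v * m := by omega
      rw [Nat.cast_sub h6, Nat.cast_sub h5]
      push_cast
      have h7 : (m : ℝ) < 1600 * (s + 1) := by exact_mod_cast hs2
      linarith
    have h8 : 4 * m - out v * m - s < (L v).card + 1 := by exact_mod_cast h3
    omega
  choose L' hL'1 hL'2 using fun v => exists_subset_card_eq (hsize v)
  have hL'3 : ∀ v, (L' v).card + out v * m + s = 4 * m := by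
    intro v
    rw [hL'2 v]
    have h4 : out v * m ≤ 2 * m := Nat.mul_le_mul_right _ (hout2 v)
    omega
  have hmr : (1600 : ℝ) ≤ m := by exact_mod_cast hm
  obtain ⟨c, hc, hcM⟩ := sharp_rounding G L' ((1 + 455 / 10000) * m) (455 / 10000 * m) 1386
    (by norm_num) hV (by positivity) (expl_exp (by linarith))
    (fun y hy => explicit_bound G hG hE out hout m s hs1 L' hL'3 y hy)
  have hcm : ∀ v, m ≤ (c v).card := by
    intro v
    have h1 := hcM v
    have h2 : (m : ℝ) ≤ ((c v).card : ℝ) := by linarith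
    exact_mod_cast h2
  choose c' hc'1 hc'2 using fun v => exists_subset_card_eq (hcm v)
  refine ⟨c', fun v => ⟨(hc'1 v).trans ((hc.1 v).trans (hL'1 v)), hc'2 v⟩, fun u v huv => ?_⟩
  exact disjoint_of_subset_left (hc'1 u) (disjoint_of_subset_right (hc'1 v) (hc.2 u v huv))

end Pool.Agent.TFP
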