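import Pool.Agent.TFP.Defs
import Pool.Agent.TFP.Euler

/-!
# Triangle-free planar graphs are `(4m, m)`-choosable
-/

set_option autoImplicit false

namespace Pool.Agent.TFP

open Finset

/-- `meet G univ` is the sum of the degrees. -/
theorem meet_univ_eq {V : Type} [Fintype V] (G : SimpleGraph V) [DecidableRel G.Adj] :
    meet G univ = ∑ v, G.degree v := by
  unfold meet
  have e : {p : V × V // G.Adj p.1 p.2 ∧ (p.1 ∈ (univ : Finset V) ∨ p.2 ∈ (univ : Finset V))} ≃
      (Σ v : V, G.neighborSet v) :=
    { toFun := fun p => ⟨p.1.1, ⟨p.1.2, p.2.1⟩⟩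
      invFun := fun q => ⟨(q.1, q.2.1), q.2.2, Or.inl (mem_univ _)⟩
      left_inv := fun p => rfl
      right_inv := fun q => rfl }
  rw [Nat.card_congr e, Nat.card_eq_fintype_card, Fintype.card_sigma]
  refine Finset.sum_congr rfl fun v _ => ?_
  exact G.card_neighborSet_eq_degree v

/-- A triangle-free planar graph has a vertex of degree at most `3`. -/
theorem exists_degree_le_three {V : Type} [Fintype V] [Nonempty V] (G : SimpleGraph V)
    [DecidableRel G.Adj] (hp : IsPlanar G) (ht : G.CliqueFree 3) : ∃ v, G.degree v ≤ 3 := by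
  by_contra hcon
  push Not at hcon
  have h1 := edges_lt G hp ht
  rw [meet_univ_eq] at h1
  have h2 : ∑ _v : V, 4 ≤ ∑ v, G.degree v := Finset.sum_le_sum fun v _ => hcon v
  rw [Finset.sum_const, Finset.card_univ, smul_eq_mul] at h2
  omega

/-- E3. Three-degeneracy. -/
theorem choosable_four (m : ℕ) (V : Type) [Fintype V] (G : SimpleGraph V)
    (hp : IsPlanar G) (ht : G.CliqueFree 3) : Choosable G (4 * m) m := by
  classical
  obtain ⟨n, hn⟩ : ∃ n, n = Fintype.card V := ⟨_, rfl⟩
  induction n generalizing V with
  | zero =>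
    intro L hL
    have : IsEmpty V := Fintype.card_eq_zero_iff.1 hn.symm
    exact ⟨fun _ => ∅, fun v => (this.false v).elim, fun u => (this.false u).elim⟩
  | succ n ih =>
    intro L hL
    have hne : Nonempty V := Fintype.card_pos_iff.1 (by omega)
    obtain ⟨v, hv⟩ := exists_degree_le_three G hp ht
    have hcard : n = Fintype.card {w : V // w ≠ v} := by
      have h1 := Fintype.card_subtype_compl (fun w : V => w = v)
      rw [Fintype.card_subtype_eq] at h1
      have h2 : Fintype.card {w : V // w ≠ v} = Fintype.card {w : V // ¬ w = v} := rfl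
      omega
    have hp' : IsPlanar (G.comap (Subtype.val : {w : V // w ≠ v} → V)) :=
      hp.comap _ Subtype.val_injective
    have ht' : (G.comap (Subtype.val : {w : V // w ≠ v} → V)).CliqueFree 3 :=
      ht.comap ⟨(SimpleGraph.Embedding.comap (Function.Embedding.subtype (fun w : V => w ≠ v)) G).toCopy⟩
    obtain ⟨c, hc1, hc2⟩ := ih _ _ hp' ht' hcard (fun w => L w.1) (fun w => hL w.1)
    let cc : V → Finset ℕ := fun w => if h : w = v then ∅ else c ⟨w, h⟩
    have hcc : ∀ w, (h : w ≠ v) → cc w = c ⟨w, h⟩ := fun w h => dif_neg h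
    have hccard : ∀ w, (cc w).card ≤ m := by
      intro w
      by_cases h : w = v
      · simp [cc, h]
      · rw [hcc w h, (hc1 ⟨w, h⟩).2]
    let B : Finset ℕ := (G.neighborFinset v).biUnion cc
    have hB : B.card ≤ 3 * m := by
      calc B.card ≤ ∑ w ∈ G.neighborFinset v, (cc w).card := Finset.card_biUnion_le
        _ ≤ ∑ _w ∈ G.neighborFinset v, m := Finset.sum_le_sum fun w _ => hccard w
        _ = G.degree v * m := by rw [Finset.sum_const, smul_eq_mul, G.card_neighborFinset_eq_degree]
        _ ≤ 3 * m := Nat.mul_le_mul_right _ hv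
    have hLB : m ≤ (L v \ B).card := by
      have h1 := Finset.le_card_sdiff B (L v)
      rw [hL v] at h1
      omega
    obtain ⟨T, hT1, hT2⟩ := Finset.exists_subset_card_eq hLB
    refine ⟨fun w => if h : w = v then T else c ⟨w, h⟩, ?_, ?_⟩
    · intro w
      by_cases h : w = v
      · subst h
        simp only [dite_true]
        exact ⟨hT1.trans Finset.sdiff_subset, hT2⟩
      · simp only [dif_neg h]
        exact hc1 ⟨w, h⟩
    · have key : ∀ w, G.Adj v w → (h : w ≠ v) → Disjoint T (c ⟨w, h⟩) := by
        intro w hw h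
        have h1 : c ⟨w, h⟩ ⊆ B := by
          rw [← hcc w h]
          exact Finset.subset_biUnion_of_mem cc ((G.mem_neighborFinset v w).2 hw)
        exact Finset.disjoint_of_subset_left hT1
          (Finset.disjoint_of_subset_right h1 Finset.sdiff_disjoint)
      intro u w huw
      by_cases hu : u = v
      · by_cases hw : w = v
        · exact (G.ne_of_adj huw (hu.trans hw.symm)).elim
        · simp only [dif_pos hu, dif_neg hw]
          exact key w (hu ▸ huw) hw
      · by_cases hw : w = v
        · simp only [dif_neg hu, dif_pos hw]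
          exact (key u (hw ▸ huw.symm) hu).symm
        · simp only [dif_neg hu, dif_neg hw]
          exact hc2 ⟨u, hu⟩ ⟨w, hw⟩ huw

end Pool.Agent.TFP
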