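import Pool.Agent.TFP.Defs

/-!
# A small set of vertices meeting few edges: the averaging argument
-/

set_option autoImplicit false

namespace Pool.Agent.TFP

open Finset

theorem meet_eq_card {V : Type} [Fintype V] (G : SimpleGraph V) (X : Finset V)
    [DecidablePred (fun p : V × V => G.Adj p.1 p.2 ∧ (p.1 ∈ X ∨ p.2 ∈ X))] :
    meet G X = ((univ : Finset (V × V)).filter
      (fun p => G.Adj p.1 p.2 ∧ (p.1 ∈ X ∨ p.2 ∈ X))).card := by
  unfold meet
  rw [Nat.card_eq_fintype_card, Fintype.card_subtype]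

theorem meet_mono {V : Type} [Fintype V] (G : SimpleGraph V) {X Y : Finset V} (h : X ⊆ Y) :
    meet G X ≤ meet G Y := by
  classical
  rw [meet_eq_card, meet_eq_card]
  apply Finset.card_le_card
  intro p hp
  rw [Finset.mem_filter] at hp ⊢
  refine ⟨hp.1, hp.2.1, ?_⟩
  rcases hp.2.2 with h1 | h1
  · exact Or.inl (h h1)
  · exact Or.inr (h h1)

/-- two disjoint sets without edges between them -/
theorem meet_add_le {V : Type} [Fintype V] [DecidableEq V] (G : SimpleGraph V) {A B Y : Finset V}
    (hA : A ⊆ Y) (hB : B ⊆ Y) (hd : Disjoint A B)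
    (he : ∀ a ∈ A, ∀ b ∈ B, ¬ G.Adj a b) :
    meet G A + meet G B ≤ meet G Y := by
  classical
  rw [meet_eq_card, meet_eq_card, meet_eq_card, ← Finset.card_union_of_disjoint]
  · apply Finset.card_le_card
    intro p hp
    rw [Finset.mem_union, Finset.mem_filter, Finset.mem_filter] at hp
    rw [Finset.mem_filter]
    rcases hp with hp | hp
    · refine ⟨hp.1, hp.2.1, ?_⟩
      rcases hp.2.2 with h1 | h1
      · exact Or.inl (hA h1)
      · exact Or.inr (hA h1)
    · refine ⟨hp.1, hp.2.1, ?_⟩
      rcases hp.2.2 with h1 | h1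
      · exact Or.inl (hB h1)
      · exact Or.inr (hB h1)
  · rw [Finset.disjoint_left]
    intro p hp hq
    rw [Finset.mem_filter] at hp hq
    obtain ⟨-, hadj, h1⟩ := hp
    obtain ⟨-, -, h2⟩ := hq
    rcases h1 with h1 | h1 <;> rcases h2 with h2 | h2
    · exact (Finset.disjoint_left.1 hd) h1 h2
    · exact he _ h1 _ h2 hadj
    · exact he _ h1 _ h2 hadj.symm
    · exact (Finset.disjoint_left.1 hd) h1 h2

theorem exists_piece_core (δ : ℝ) (hδ : 0 < δ) (K : ℕ) {V : Type} [Fintype V] [DecidableEq V]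
    [Nonempty V] (G : SimpleGraph V) (hE : meet G univ < 4 * Fintype.card V)
    (R : Finset V) (hR : (R.card : ℝ) ≤ δ / (4 + δ) * Fintype.card V)
    (hC : ∀ u, u ∉ R → ∃ C : Finset V, Disjoint C R ∧ u ∈ C ∧ C.card ≤ K ∧
        ∀ v ∈ C, ∀ w, w ∉ R → G.Adj v w → w ∈ C) :
    ∃ X : Finset V, X.Nonempty ∧ X.card ≤ K ∧ (meet G X : ℝ) < (4 + δ) * X.card := by
  classical
  by_contra hcon
  have key : ∀ X : Finset V, X.Nonempty → X.card ≤ K → (4 + δ) * (X.card : ℝ) ≤ (meet G X : ℝ) := by
    intro X h1 h2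
    by_contra h3
    exact hcon ⟨X, h1, h2, not_le.1 h3⟩
  have main : ∀ n : ℕ, ∀ Y : Finset V, Y.card = n → Disjoint Y R →
      (∀ v ∈ Y, ∀ w, w ∉ R → G.Adj v w → w ∈ Y) →
      (4 + δ) * (Y.card : ℝ) ≤ (meet G Y : ℝ) := by
    intro n
    induction n using Nat.strong_induction_on with
    | _ n ih =>
      intro Y hYn hYR hY
      rcases Finset.eq_empty_or_nonempty Y with rfl | ⟨u, hu⟩
      · simp
      · have huR : u ∉ R := (Finset.disjoint_left.1 hYR) hu
        obtain ⟨C, hCR, huC, hCK, hCc⟩ := hC u huR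
        have hAK : (Y ∩ C).card ≤ K := (Finset.card_le_card Finset.inter_subset_right).trans hCK
        have hAne : (Y ∩ C).Nonempty := ⟨u, Finset.mem_inter.2 ⟨hu, huC⟩⟩
        have h1 := key _ hAne hAK
        have hcard : (Y ∩ C).card + (Y \ C).card = Y.card := by
          rw [add_comm]; exact Finset.card_sdiff_add_card_inter Y C
        have hlt : (Y \ C).card < n := by
          have : 0 < (Y ∩ C).card := Finset.card_pos.2 hAne
          omega
        have h2 := ih _ hlt (Y \ C) rfl
          (Finset.disjoint_of_subset_left Finset.sdiff_subset hYR) (by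
            intro v hv w hw hvw
            rw [Finset.mem_sdiff] at hv ⊢
            refine ⟨hY v hv.1 w hw hvw, ?_⟩
            intro hwC
            exact hv.2 (hCc w hwC v ((Finset.disjoint_left.1 hYR) hv.1) hvw.symm))
        have h3 : meet G (Y ∩ C) + meet G (Y \ C) ≤ meet G Y := by
          apply meet_add_le G Finset.inter_subset_left Finset.sdiff_subset
          · rw [Finset.disjoint_left]
            intro x hx hx'
            exact (Finset.mem_sdiff.1 hx').2 (Finset.mem_inter.1 hx).2
          · intro a ha b hb hab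
            rw [Finset.mem_inter] at ha
            rw [Finset.mem_sdiff] at hb
            exact hb.2 (hCc a ha.2 b ((Finset.disjoint_left.1 hYR) hb.1) hab)
        have h3' : (meet G (Y ∩ C) : ℝ) + (meet G (Y \ C) : ℝ) ≤ (meet G Y : ℝ) := by
          exact_mod_cast h3
        have hcard' : ((Y ∩ C).card : ℝ) + ((Y \ C).card : ℝ) = (Y.card : ℝ) := by
          exact_mod_cast hcard
        rw [← hcard']
        nlinarith
  have hfin := main _ (univ \ R) rfl Finset.sdiff_disjoint (by
    intro v _ w hw _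
    exact Finset.mem_sdiff.2 ⟨Finset.mem_univ _, hw⟩)
  have hmono : (meet G (univ \ R) : ℝ) ≤ (meet G univ : ℝ) := by
    exact_mod_cast meet_mono G (Finset.subset_univ _)
  have hE' : (meet G univ : ℝ) < 4 * (Fintype.card V : ℝ) := by exact_mod_cast hE
  have hcard : ((univ \ R : Finset V).card : ℝ) = (Fintype.card V : ℝ) - (R.card : ℝ) := by
    rw [Finset.card_sdiff_of_subset (Finset.subset_univ R), Nat.cast_sub
      (Finset.card_le_card (Finset.subset_univ R)), Finset.card_univ]
  rw [hcard] at hfin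
  have h4 : (0 : ℝ) < 4 + δ := by linarith
  have h5 : (4 + δ) * (R.card : ℝ) ≤ δ * Fintype.card V := by
    calc (4 + δ) * (R.card : ℝ) ≤ (4 + δ) * (δ / (4 + δ) * Fintype.card V) :=
          mul_le_mul_of_nonneg_left hR h4.le
      _ = δ * Fintype.card V := by
          field_simp
  nlinarith

end Pool.Agent.TFP
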