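import Pool.Agent.TFP.Defs

/-!
# Triangle-free planar graphs: a reducible set (package E1)
-/

set_option autoImplicit false

namespace Pool.Agent.TFP

open Finset

section Red

set_option linter.unusedSectionVars false

variable {V : Type} [Fintype V] [DecidableEq V] (G : SimpleGraph V)

open Classical in
/-- The number of ordered adjacent pairs with first member in `A` and second member in `B`. -/
noncomputable def eR (A B : Finset V) : ℝ := ∑ u ∈ A, ∑ v ∈ B, if G.Adj u v then (1 : ℝ) else 0

theorem eR_union_left {A A' : Finset V} (h : Disjoint A A') (B : Finset V) :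
    eR G (A ∪ A') B = eR G A B + eR G A' B := by
  unfold eR
  rw [Finset.sum_union h]

theorem eR_union_right {B B' : Finset V} (h : Disjoint B B') (A : Finset V) :
    eR G A (B ∪ B') = eR G A B + eR G A B' := by
  unfold eR
  rw [← Finset.sum_add_distrib]
  refine Finset.sum_congr rfl fun u _ => ?_
  rw [Finset.sum_union h]

theorem eR_comm (A B : Finset V) : eR G A B = eR G B A := by
  unfold eR
  rw [Finset.sum_comm]
  refine Finset.sum_congr rfl fun u _ => Finset.sum_congr rfl fun v _ => ?_
  by_cases h : G.Adj u v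
  · rw [if_pos h, if_pos h.symm]
  · rw [if_neg h, if_neg (fun h' => h h'.symm)]

theorem card_pairs_eq (A B : Finset V) :
    (Nat.card {p : V × V // G.Adj p.1 p.2 ∧ p.1 ∈ A ∧ p.2 ∈ B} : ℝ) = eR G A B := by
  classical
  rw [Nat.card_eq_fintype_card, Fintype.card_subtype]
  unfold eR
  rw [← Finset.sum_product', ← Finset.sum_filter, Finset.sum_const, nsmul_eq_mul, mul_one]
  congr 2
  ext p
  simp only [mem_filter, mem_univ, true_and, mem_product]
  tauto

theorem inner_eq (S : Finset V) : (inner G S : ℝ) = eR G S S := card_pairs_eq G S S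

theorem outer_eq (X S : Finset V) : (outer G X S : ℝ) = eR G S Xᶜ := by
  rw [← card_pairs_eq]
  simp only [outer, mem_compl]

theorem meet_eq (X : Finset V) : (meet G X : ℝ) = eR G X X + 2 * eR G X Xᶜ := by
  classical
  have h1 : (meet G X : ℝ) = eR G X univ + eR G Xᶜ X := by
    rw [← card_pairs_eq, ← card_pairs_eq, ← Nat.cast_add]
    congr 1
    unfold meet
    rw [Nat.card_eq_fintype_card, Nat.card_eq_fintype_card, Nat.card_eq_fintype_card,
      Fintype.card_subtype, Fintype.card_subtype, Fintype.card_subtype, ← Finset.card_union_of_disjoint]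
    · congr 1
      ext p
      simp only [mem_filter, mem_univ, true_and, mem_union, mem_compl]
      tauto
    · rw [Finset.disjoint_left]
      intro p hp hp'
      simp only [mem_filter, mem_univ, true_and, mem_compl] at hp hp'
      tauto
  have h2 : eR G X univ = eR G X X + eR G X Xᶜ := by
    rw [← eR_union_right G disjoint_compl_right, Finset.union_compl]
  rw [h1, h2, eR_comm G Xᶜ X]
  ring

end Red

/-- E1 (with C5 `exists_piece` as hypothesis). A reducible set. -/
theorem exists_reducible_of (δ : ℝ)
    (piece : ∃ K : ℕ, ∀ (V : Type) [Fintype V] [DecidableEq V]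
      [Nonempty V] (G : SimpleGraph V), IsPlanar G → G.CliqueFree 3 →
      ∃ X : Finset V, X.Nonempty ∧ X.card ≤ K ∧ (meet G X : ℝ) < (4 + δ) * X.card) :
    ∃ K : ℕ, ∀ (V : Type) [Fintype V] [DecidableEq V]
    [Nonempty V] (G : SimpleGraph V), IsPlanar G → G.CliqueFree 3 →
    ∃ H : Finset V, H.Nonempty ∧ H.card ≤ K ∧
      ∀ S : Finset V, S ⊆ H →
        (inner G S : ℝ) + 2 * (outer G H S : ℝ) ≤ (4 + δ) * S.card := by
  obtain ⟨K, hK⟩ := piece
  refine ⟨K, ?_⟩
  intro V _ _ _ G hp ht
  obtain ⟨X, hX, hXK, hm⟩ := hK V G hp ht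
  set Psi : Finset V → ℝ := fun S => eR G S S + 2 * eR G S Xᶜ - (4 + δ) * S.card with hPsi
  obtain ⟨U₀, hU₀, hmax⟩ := Finset.exists_max_image X.powerset Psi ⟨∅, by simp⟩
  rw [Finset.mem_powerset] at hU₀
  refine ⟨X \ U₀, ?_, (Finset.card_le_card Finset.sdiff_subset).trans hXK, ?_⟩
  · by_contra hne
    rw [Finset.not_nonempty_iff_eq_empty, Finset.sdiff_eq_empty_iff_subset] at hne
    have hUX : U₀ = X := Finset.Subset.antisymm hU₀ hne
    have h0 := hmax ∅ (by simp)
    rw [hUX] at h0
    have he : Psi ∅ = 0 := by simp [hPsi, eR]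
    rw [he] at h0
    simp only [hPsi] at h0
    rw [meet_eq] at hm
    linarith
  · intro S hS
    have hSX : S ⊆ X := hS.trans Finset.sdiff_subset
    have hd : Disjoint U₀ S := by
      rw [Finset.disjoint_left]
      intro a ha hb
      exact (Finset.mem_sdiff.1 (hS hb)).2 ha
    have h1 := hmax (U₀ ∪ S) (by rw [Finset.mem_powerset]; exact Finset.union_subset hU₀ hSX)
    have hc : (X \ U₀)ᶜ = U₀ ∪ Xᶜ := by
      ext a
      simp only [mem_compl, mem_sdiff, mem_union]
      tauto
    have hd2 : Disjoint U₀ Xᶜ := by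
      rw [Finset.disjoint_left]
      intro a ha hb
      exact (Finset.mem_compl.1 hb) (hU₀ ha)
    rw [inner_eq, outer_eq, hc, eR_union_right G hd2]
    simp only [hPsi] at h1
    rw [eR_union_left G hd, eR_union_right G hd, eR_union_right G hd, eR_union_left G hd,
      Finset.card_union_of_disjoint hd, eR_comm G U₀ S] at h1
    push_cast at h1
    linarith

end Pool.Agent.TFP
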