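import Pool.Agent.TFP.Hyper
import Pool.Agent.TFP.PieceCore
import Pool.Agent.TFP.ReducibleOf
import Pool.Agent.TFP.Euler

/-!
# Explicit hyperfiniteness and an explicit reducible set
-/

set_option autoImplicit false

namespace Pool.Agent.TFP

open Finset

/-- A block has at most `k - 1` depths. -/
theorem block_width {k i j : ℕ} (hi : i < k) :
    ((j + 1) * k - (k - i)) - (j * k + 1 - (k - i)) ≤ k - 1 := by
  have e1 : (j + 1) * k = k * j + k := by ring
  have e2 : j * k = k * j := by ring
  rw [e1, e2]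
  omega

/-- X4a. Explicit hyperfiniteness. -/
theorem hyperfinite_explicit (k K : ℕ) (hk : 2 ≤ k) (hK : 1 ≤ K) {V : Type} [Fintype V]
    [DecidableEq V] (G : SimpleGraph V) (hG : IsPlanar G) :
    ∃ R : Finset V, (R.card : ℝ) ≤ (1 / (k : ℝ) + 3 * ((k : ℝ) - 1) / K) * Fintype.card V ∧
      ∀ u, u ∉ R → ∃ C : Finset V, Disjoint C R ∧ u ∈ C ∧ C.card ≤ K ∧
        ∀ v ∈ C, ∀ w, w ∉ R → G.Adj v w → w ∈ C := by
  have hk1 : 1 ≤ k := by omega
  have hK1 : 1 ≤ K := hK
  obtain ⟨D, hD, M, hc, hs, ι, hι, hadj⟩ := hG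
  rcases isEmpty_or_nonempty D with hDe | hDn
  · have hV : IsEmpty V := ⟨fun v => by
      obtain ⟨d, _⟩ := M.vtx_surj (ι v)
      exact hDe.elim d⟩
    refine ⟨∅, by simp, fun u => hV.elim u⟩
  obtain ⟨dep, N, x₀, np, nd, t1, t2, t3, t4, t5, t0, t6⟩ := tree_decomposition M hc hs
  obtain ⟨i, hik, hi⟩ := exists_residue (fun v => dep (ι v)) k hk1
  have hfinV : Finite M.Vertex := by
    unfold CMap.Vertex
    infer_instance
  -- blocks
  let blk : V → ℕ := fun v => (dep (ι v) + (k - i)) / k
  let A : ℕ → Finset V := fun j => univ.filter (fun v => dep (ι v) % k ≠ i ∧ blk v = j)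
  let R1 : Finset V := univ.filter (fun v => dep (ι v) % k = i)
  have hsplit : ∀ j, ∃ R : Finset V, R ⊆ A j ∧ R.card * K ≤ (3 * (k - 1)) * (A j).card ∧
      ∀ u ∈ A j \ R, ∃ C : Finset V, C ⊆ A j \ R ∧ u ∈ C ∧ C.card ≤ K ∧
        ∀ v ∈ C, ∀ w ∈ A j \ R, (∃ y, N (ι v) y ∧ N (ι w) y) → w ∈ C := by
    intro j
    refine split np nd x₀ t4 t5 t0 (fun u x => N (ι u) x) ?_ ?_ (3 * (k - 1)) K hK1 (A j) ?_
    · intro u
      obtain ⟨d, hd⟩ := M.vtx_surj (ι u)
      exact ⟨d, by rw [← hd]; exact (t2 d).1⟩
    · intro u x h1 h2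
      exact t6 (ι u) x h1 h2
    · intro x B hB hBx
      have hle := t3 x (j * k + 1 - (k - i)) ((j + 1) * k - (k - i))
      have hcard : B.card ≤ Nat.card {v : M.Vertex // N v x ∧ (j * k + 1 - (k - i)) ≤ dep v ∧
          dep v < ((j + 1) * k - (k - i))} := by
        have : B.card = Nat.card {v // v ∈ B} := by simp
        rw [this]
        refine Nat.card_le_card_of_injective (fun v => ⟨ι v.1, hBx _ v.2, ?_⟩) ?_
        · have hv := hB v.2
          simp only [A, mem_filter, mem_univ, true_and] at hv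
          have := block_depth hik hv.1 hv.2
          exact ⟨this.1, this.2.1⟩
        · intro v w hvw
          simp only [Subtype.mk.injEq] at hvw
          exact Subtype.ext (hι hvw)
      rcases B.eq_empty_or_nonempty with hBe | ⟨v, hv⟩
      · subst hBe; simp
      · have hv := hB hv
        simp only [A, mem_filter, mem_univ, true_and] at hv
        have := block_width (j := j) hik
        omega
  choose Rj hR1 hR2 hR3 using hsplit
  let J : Finset ℕ := univ.image blk
  refine ⟨R1 ∪ J.biUnion Rj, ?_, ?_⟩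
  · -- cardinality
    have c1 : ((R1 ∪ J.biUnion Rj).card : ℝ) ≤ R1.card + ∑ j ∈ J, ((Rj j).card : ℝ) := by
      have h1 := Finset.card_union_le R1 (J.biUnion Rj)
      have h2 : (J.biUnion Rj).card ≤ ∑ j ∈ J, (Rj j).card := Finset.card_biUnion_le
      have : (R1 ∪ J.biUnion Rj).card ≤ R1.card + ∑ j ∈ J, (Rj j).card := by omega
      exact_mod_cast this
    have c2 : (∑ j ∈ J, (Rj j).card) * K ≤ (3 * (k - 1)) * Fintype.card V := by
      rw [Finset.sum_mul]
      calc ∑ j ∈ J, (Rj j).card * K ≤ ∑ j ∈ J, (3 * (k - 1)) * (A j).card :=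
            Finset.sum_le_sum (fun j _ => hR2 j)
        _ = (3 * (k - 1)) * ∑ j ∈ J, (A j).card := by rw [Finset.mul_sum]
        _ ≤ (3 * (k - 1)) * Fintype.card V := by
            apply Nat.mul_le_mul_left
            rw [← Finset.card_univ]
            have : ∑ j ∈ J, (A j).card ≤ ∑ j ∈ J, (univ.filter (fun v => blk v = j)).card := by
              apply Finset.sum_le_sum
              intro j _
              apply Finset.card_le_card
              intro v hv
              simp only [A, mem_filter, mem_univ, true_and] at hv ⊢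
              exact hv.2
            refine this.trans ?_
            rw [← Finset.card_eq_sum_card_fiberwise]
            intro v _
            simp [J]
    have c3 : (∑ j ∈ J, ((Rj j).card : ℝ)) * K ≤ ((3 * (k - 1) : ℕ) : ℝ) * Fintype.card V := by
      exact_mod_cast c2
    have c4 : (k : ℝ) * R1.card ≤ Fintype.card V := by exact_mod_cast hi
    have hkpos : (0 : ℝ) < k := by exact_mod_cast hk1
    have hKpos : (0 : ℝ) < K := by exact_mod_cast hK1
    have hcast : ((3 * (k - 1) : ℕ) : ℝ) = 3 * ((k : ℝ) - 1) := by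
      push_cast [Nat.cast_sub hk1]
      ring
    rw [hcast] at c3
    have c5 : (R1.card : ℝ) ≤ 1 / (k : ℝ) * Fintype.card V := by
      rw [div_mul_eq_mul_div, one_mul, le_div_iff₀ hkpos]
      linarith
    have c6 : (∑ j ∈ J, ((Rj j).card : ℝ)) ≤ 3 * ((k : ℝ) - 1) / K * Fintype.card V := by
      rw [div_mul_eq_mul_div, le_div_iff₀ hKpos]
      exact c3
    rw [add_mul]
    linarith
  · intro u hu
    simp only [mem_union, mem_biUnion, not_or, not_exists, not_and] at hu
    obtain ⟨hu1, hu2⟩ := hu
    have hmemJ : ∀ v, blk v ∈ J := fun v => by simp [J]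
    have hmem : ∀ w, w ∉ R1 ∪ J.biUnion Rj → w ∈ A (blk w) \ Rj (blk w) := by
      intro w hw
      simp only [mem_union, mem_biUnion, not_or, not_exists, not_and] at hw
      refine mem_sdiff.2 ⟨?_, hw.2 _ (hmemJ w)⟩
      simp only [A, mem_filter, mem_univ, true_and, and_true]
      intro h
      exact hw.1 (by simp only [R1, mem_filter, mem_univ, true_and]; exact h)
    have huA : u ∈ A (blk u) \ Rj (blk u) := by
      apply hmem
      simp only [mem_union, mem_biUnion, not_or, not_exists, not_and]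
      exact ⟨hu1, hu2⟩
    obtain ⟨C, hC1, hC2, hC3, hC4⟩ := hR3 (blk u) u huA
    have hblk : ∀ v ∈ C, dep (ι v) % k ≠ i ∧ blk v = blk u := by
      intro v hv
      have := (mem_sdiff.1 (hC1 hv)).1
      simpa only [A, mem_filter, mem_univ, true_and] using this
    refine ⟨C, ?_, hC2, hC3, ?_⟩
    · rw [Finset.disjoint_left]
      intro v hv hvR
      rcases mem_union.1 hvR with h | h
      · simp only [R1, mem_filter, mem_univ, true_and] at h
        exact (hblk v hv).1 h
      · obtain ⟨j, _, hj⟩ := mem_biUnion.1 h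
        have hvA := hR1 j hj
        simp only [A, mem_filter, mem_univ, true_and] at hvA
        have : j = blk u := by rw [← hvA.2]; exact (hblk v hv).2
        subst this
        exact (mem_sdiff.1 (hC1 hv)).2 hj
    · intro v hv w hw hvw
      obtain ⟨d, hd1, hd2⟩ := hadj v w hvw
      have hwA := hmem w hw
      have hw' := (mem_sdiff.1 hwA).1
      simp only [A, mem_filter, mem_univ, true_and, and_true] at hw'
      have hle1 : dep (ι w) ≤ dep (ι v) + 1 := by
        have := t1 d
        rw [hd1, hd2] at this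
        exact this
      have hle2 : dep (ι v) ≤ dep (ι w) + 1 := by
        have := t1 (M.α d)
        rw [M.invol, hd1, hd2] at this
        exact this
      have hb : blk v = blk w := block_eq hik (hblk v hv).1 hw' hle1 hle2
      have hb' : blk w = blk u := by rw [← hb]; exact (hblk v hv).2
      rw [hb'] at hwA
      refine hC4 v hv w hwA ⟨d, ?_, ?_⟩
      · rw [← hd1]; exact (t2 d).1
      · rw [← hd2]; exact (t2 d).2

/-- X4b. An explicit reducible set (take `k = 21`, `K = 1386`, `δ = 2 / 5`). -/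
theorem reducible_explicit {V : Type} [Fintype V] [DecidableEq V] [Nonempty V]
    (G : SimpleGraph V) (hp : IsPlanar G) (ht : G.CliqueFree 3) :
    ∃ H : Finset V, H.Nonempty ∧ H.card ≤ 1386 ∧
      ∀ S : Finset V, S ⊆ H →
        (inner G S : ℝ) + 2 * (outer G H S : ℝ) ≤ (4 + 2 / 5) * S.card := by
  obtain ⟨R, hR, hC⟩ := hyperfinite_explicit 21 1386 (by norm_num) (by norm_num) G hp
  have hR' : (R.card : ℝ) ≤ (2 / 5) / (4 + 2 / 5) * Fintype.card V := by
    refine hR.trans (le_of_eq ?_)
    norm_num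
  obtain ⟨X, hX, hXK, hm⟩ := exists_piece_core (2 / 5) (by norm_num) 1386 G (edges_lt G hp ht)
    R hR' hC
  set Psi : Finset V → ℝ := fun S => eR G S S + 2 * eR G S Xᶜ - (4 + 2 / 5) * S.card with hPsi
  obtain ⟨U₀, hU₀, hmax⟩ := Finset.exists_max_image X.powerset Psi ⟨∅, by simp⟩
  rw [Finset.mem_powerset] at hU₀
  refine ⟨X \ U₀, ?_, (Finset.card_le_card Finset.sdiff_subset).trans hXK, ?_⟩
  · by_contra hne
    rw [Finset.not_nonempty_iff_eq_empty, Finset.sdiff_eq_empty_iff_subset] at hne
    have hUX : U₀ = X := Finset.Subset.antisymm hU₀ hne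
    have h0 := hmax ∅ (by simp)
    rw [hUX] at h0
    have he : Psi ∅ = 0 := by simp [hPsi, eR]
    rw [he] at h0
    simp only [hPsi] at h0
    rw [meet_eq] at hm
    linarith
  · intro S hS
    have hSX : S ⊆ X := hS.trans Finset.sdiff_subset
    have hd : Disjoint U₀ S := by
      rw [Finset.disjoint_left]
      intro a ha hb
      exact (Finset.mem_sdiff.1 (hS hb)).2 ha
    have h1 := hmax (U₀ ∪ S) (by rw [Finset.mem_powerset]; exact Finset.union_subset hU₀ hSX)
    have hc : (X \ U₀)ᶜ = U₀ ∪ Xᶜ := by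
      ext a
      simp only [mem_compl, mem_sdiff, mem_union]
      tauto
    have hd2 : Disjoint U₀ Xᶜ := by
      rw [Finset.disjoint_left]
      intro a ha hb
      exact (Finset.mem_compl.1 hb) (hU₀ ha)
    rw [inner_eq, outer_eq, hc, eR_union_right G hd2]
    simp only [hPsi] at h1
    rw [eR_union_left G hd, eR_union_right G hd, eR_union_right G hd, eR_union_left G hd,
      Finset.card_union_of_disjoint hd, eR_comm G U₀ S] at h1
    push_cast at h1
    linarith

end Pool.Agent.TFP
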