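import Pool.Agent.TFP.LargeAux
import Pool.Agent.TFP.Euler
import Pool.Agent.TFP.Four
import Pool.Agent.TFP.Cuts
import Pool.Agent.TFP.ExplicitKey
import Pool.Agent.TFP.HyperExplicit

/-!
# The explicit bound `4 - 1 / 1600`
-/

set_option autoImplicit false

namespace Pool.Agent.TFP

open Finset

/-- The induction, for a general first number and a general property of the pieces. -/
theorem choosable_of_key_gen (α δ : ℝ) (K : ℕ) (m : ℕ)
    (Q : ∀ (U : Type) [Fintype U], SimpleGraph U → Prop)
    (hkey : ∀ (U : Type) [Fintype U] (H : SimpleGraph U), Fintype.card U ≤ K → Q U H →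
      ∀ out : U → ℕ,
      (∀ S : Finset U, (inner H S : ℝ) + 2 * ∑ v ∈ S, (out v : ℝ) ≤ (4 + δ) * S.card) →
      ∀ L : U → Finset ℕ, (∀ v, (α - out v) * (m : ℝ) ≤ ((L v).card : ℝ)) →
      ∃ c : U → Finset ℕ, (∀ v, c v ⊆ L v ∧ (c v).card = m) ∧
        ∀ u v, H.Adj u v → Disjoint (c u) (c v))
    (hred : ∀ (V : Type) [Fintype V] [Nonempty V] (G : SimpleGraph V), IsPlanar G →
      G.CliqueFree 3 → ∃ H : Finset V, H.Nonempty ∧ H.card ≤ K ∧
      ∀ S : Finset V, S ⊆ H →
        (inner G S : ℝ) + 2 * (outer G H S : ℝ) ≤ (4 + δ) * S.card)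
    (hcuts : ∀ (V : Type) [Fintype V] (G : SimpleGraph V), IsPlanar G → G.CliqueFree 3 →
      Q V G) :
    ∀ (n : ℕ) (V : Type) [Fintype V] (G : SimpleGraph V), Fintype.card V = n →
      IsPlanar G → G.CliqueFree 3 →
      ∀ L : V → Finset ℕ, (∀ v, (α) * (m : ℝ) ≤ ((L v).card : ℝ)) →
      ∃ c : V → Finset ℕ, (∀ v, c v ⊆ L v ∧ (c v).card = m) ∧
        ∀ u v, G.Adj u v → Disjoint (c u) (c v) := by
  classical
  intro n
  induction n using Nat.strong_induction_on with
  | _ n ih =>
    intro V _ G hn hp ht L hL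
    rcases isEmpty_or_nonempty V with hV | hV
    · exact ⟨fun v => (hV.false v).elim, fun v => (hV.false v).elim, fun u => (hV.false u).elim⟩
    obtain ⟨H, hH, hHK, hS⟩ := hred V G hp ht
    -- colour the rest
    have hcf : ∀ (P : V → Prop), (G.comap (Subtype.val : {v // P v} → V)).CliqueFree 3 := by
      intro P
      exact ht.comap (SimpleGraph.Embedding.comap (Function.Embedding.subtype P) G).toCopy.isContained
    have hpl : ∀ (P : V → Prop), IsPlanar (G.comap (Subtype.val : {v // P v} → V)) :=
      fun P => hp.comap _ Subtype.val_injective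
    have hW : Fintype.card {w // w ∉ H} < n := by
      rw [← hn]
      obtain ⟨v, hv⟩ := hH
      exact Fintype.card_subtype_lt (x := v) (by simpa using hv)
    obtain ⟨c', hc', hd'⟩ := ih _ hW {w // w ∉ H} (G.comap Subtype.val) rfl (hpl _) (hcf _)
      (fun w => L w.1) (fun w => hL w.1)
    -- the lists of the vertices of `H`
    let N : {v // v ∈ H} → Finset {w // w ∉ H} := fun v => univ.filter (fun w => G.Adj v.1 w.1)
    let L' : {v // v ∈ H} → Finset ℕ := fun v => L v.1 \ (N v).biUnion c'
    have hN : ∀ v, Nat.card {w : {w // w ∉ H} // G.Adj v.1 w.1} = (N v).card := by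
      intro v
      rw [Nat.card_eq_fintype_card, Fintype.card_subtype]
    have hL' : ∀ v, (α - ((N v).card : ℕ)) * (m : ℝ) ≤ ((L' v).card : ℝ) := by
      intro v
      have h1 : ((N v).biUnion c').card ≤ (N v).card * m := by
        refine Finset.card_biUnion_le.trans ?_
        rw [Finset.sum_congr rfl (fun w _ => (hc' w).2)]
        simp
      have h2 : (L v.1).card ≤ (L' v).card + ((N v).biUnion c').card := by
        have := Finset.le_card_sdiff ((N v).biUnion c') (L v.1)
        change _ ≤ (L' v).card at this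
        omega
      have h3 : ((L v.1).card : ℝ) ≤ (L' v).card + ((N v).card : ℝ) * m := by
        have : (L v.1).card ≤ (L' v).card + (N v).card * m := by omega
        exact_mod_cast this
      have h4 := hL v.1
      nlinarith [h3, h4]
    obtain ⟨c'', hc'', hd''⟩ := hkey {v // v ∈ H} (G.comap Subtype.val)
      (by simpa using hHK) (hcuts _ _ (hpl _) (hcf _)) (fun v => (N v).card) (by
        intro S
        have h1 := hS (S.map (Function.Embedding.subtype _)) (by
          intro x hx
          obtain ⟨y, hy, rfl⟩ := Finset.mem_map.1 hx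
          exact y.2)
        rw [← la_inner_comap, outer_eq_sum, Finset.card_map] at h1
        rw [Finset.sum_congr rfl (fun v _ => hN v)] at h1
        push_cast at h1
        exact h1) L' hL'
    refine ⟨fun v => if h : v ∈ H then c'' ⟨v, h⟩ else c' ⟨v, h⟩, ?_, ?_⟩
    · intro v
      by_cases h : v ∈ H
      · simp only [h, dif_pos]
        exact ⟨(hc'' ⟨v, h⟩).1.trans Finset.sdiff_subset, (hc'' ⟨v, h⟩).2⟩
      · simp only [h, dif_neg, not_false_iff]
        exact hc' ⟨v, h⟩
    · -- disjointness across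
      have key : ∀ (u v : V) (hu : u ∈ H) (hv : v ∉ H), G.Adj u v →
          Disjoint (c'' ⟨u, hu⟩) (c' ⟨v, hv⟩) := by
        intro u v hu hv hadj
        rw [Finset.disjoint_left]
        intro x hx hx'
        have h1 := (hc'' ⟨u, hu⟩).1 hx
        simp only [L', Finset.mem_sdiff, Finset.mem_biUnion, not_exists, not_and] at h1
        exact h1.2 ⟨v, hv⟩ (by simp [N, hadj]) hx'
      intro u v hadj
      by_cases hu : u ∈ H <;> by_cases hv : v ∈ H
      · simp only [hu, hv, dif_pos]
        exact hd'' ⟨u, hu⟩ ⟨v, hv⟩ hadj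
      · simp only [hu, hv, dif_pos, dif_neg, not_false_iff]
        exact key u v hu hv hadj
      · simp only [hu, hv, dif_pos, dif_neg, not_false_iff]
        exact (key v u hv hu hadj.symm).symm
      · simp only [hu, hv, dif_neg, not_false_iff]
        exact hd' ⟨u, hu⟩ ⟨v, hv⟩ hadj

/-- Triangle-free planar graphs are sparse. -/
theorem inner_le_of_planar {V : Type} [Fintype V] (G : SimpleGraph V) (hp : IsPlanar G)
    (ht : G.CliqueFree 3) (S : Finset V) : (inner G S : ℝ) ≤ 4 * S.card := by
  rcases S.eq_empty_or_nonempty with rfl | hne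
  · have : inner G ∅ = 0 := by
      unfold inner
      rw [Nat.card_eq_zero]
      left
      exact ⟨fun p => by simpa using p.2.2.1⟩
    rw [this]
    simp
  · have hpl : IsPlanar (G.comap (Subtype.val : {v // v ∈ S} → V)) :=
      hp.comap _ Subtype.val_injective
    have hcf : (G.comap (Subtype.val : {v // v ∈ S} → V)).CliqueFree 3 :=
      ht.comap (SimpleGraph.Embedding.comap (Function.Embedding.subtype _) G).toCopy.isContained
    have hn : Nonempty {v // v ∈ S} := by
      obtain ⟨v, hv⟩ := hne
      exact ⟨⟨v, hv⟩⟩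
    have h1 := edges_lt _ hpl hcf
    have h2 : meet (G.comap (Subtype.val : {v // v ∈ S} → V)) univ = inner G S := by
      have h3 := la_inner_comap G S univ
      have h4 : (univ : Finset {v // v ∈ S}).map (Function.Embedding.subtype _) = S := by
        ext v
        simp
      rw [h4] at h3
      rw [← h3]
      unfold meet inner
      apply Nat.card_congr
      refine ⟨fun p => ⟨p.1, p.2.1, mem_univ _, mem_univ _⟩,
        fun p => ⟨p.1, p.2.1, Or.inl (mem_univ _)⟩, fun p => rfl, fun p => rfl⟩
    rw [h2, Fintype.card_coe] at h1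
    exact_mod_cast h1.le

/-- Large `m`. -/
theorem explicit_large (m : ℕ) (hm : 1600 ≤ m) (V : Type) [Fintype V] (G : SimpleGraph V)
    (hp : IsPlanar G) (ht : G.CliqueFree 3) :
    Choosable G ⌈(4 - 1 / 1600 : ℝ) * (m : ℝ)⌉₊ m := by
  classical
  intro L hL
  refine choosable_of_key_gen (4 - 1 / 1600) (2 / 5) 1386 m
    (fun U _ H => HasCuts H ∧ ∀ S : Finset U, (inner H S : ℝ) ≤ 4 * S.card)
    ?_ ?_ ?_ _ V G rfl hp ht L ?_
  · intro U _ H hU hQ out hs L' hL'
    exact explicit_key H hQ.1 hQ.2 hU out hs m hm L' hL'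
  · intro V _ _ G hp ht
    exact reducible_explicit G hp ht
  · intro V _ G hp ht
    exact ⟨hasCuts_of_planar G hp ht, inner_le_of_planar G hp ht⟩
  · intro v
    rw [hL v]
    exact Nat.le_ceil _

/-- X6a. -/
theorem explicit_strongly (V : Type) [Fintype V] (G : SimpleGraph V)
    (hp : IsPlanar G) (ht : G.CliqueFree 3) : StronglyChoosable G (4 - 1 / 1600) := by
  intro m hm
  rcases le_or_gt 1600 m with h | h
  · exact explicit_large m h V G hp ht
  · have h1 : ⌈(4 - 1 / 1600 : ℝ) * (m : ℝ)⌉₊ = 4 * m := by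
      rw [Nat.ceil_eq_iff (by omega)]
      have h2 : (m : ℝ) < 1600 := by exact_mod_cast h
      have h3 : (1 : ℝ) ≤ m := by exact_mod_cast hm
      constructor
      · rw [Nat.cast_sub (by omega)]
        push_cast
        linarith
      · push_cast
        linarith
    rw [h1]
    exact choosable_four m V G hp ht

/-- X6b. -/
theorem explicit_chfsQ : chfsQ ≤ 4 - 1 / 1600 := by
  unfold chfsQ
  apply Real.sSup_le
  · rintro r ⟨n, G, hp, ht, rfl⟩
    unfold chfs
    apply csInf_le
    · exact ⟨0, fun r hr => hr.1.le⟩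
    · exact ⟨by norm_num, explicit_strongly _ G hp ht⟩
  · norm_num

end Pool.Agent.TFP
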