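import Pool.Agent.TFP.Defs

/-!
# Drawings in the plane and grids: definitions
-/

set_option autoImplicit false

namespace Pool.Agent.TFP

/-- Adjacency in the grid `ℤ × ℤ`. -/
def GridAdj (a b : ℤ × ℤ) : Prop :=
  (a.1 = b.1 ∧ (a.2 = b.2 + 1 ∨ b.2 = a.2 + 1)) ∨ (a.2 = b.2 ∧ (a.1 = b.1 + 1 ∨ b.1 = a.1 + 1))

/-- The box `[0, N) × [0, N)`. -/
def InBox (N : ℕ) (z : ℤ × ℤ) : Prop := 0 ≤ z.1 ∧ z.1 < N ∧ 0 ≤ z.2 ∧ z.2 < N

/-- A topological drawing of `G` in the plane. -/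
def IsDrawing {V : Type} (G : SimpleGraph V) (p : V → ℝ × ℝ)
    (γ : V → V → unitInterval → ℝ × ℝ) : Prop :=
  Function.Injective p ∧
    (∀ u v, G.Adj u v →
      Continuous (γ u v) ∧ Function.Injective (γ u v) ∧
      γ u v 0 = p u ∧ γ u v 1 = p v ∧
      (∀ t, γ u v t ∈ Set.range p → t = 0 ∨ t = 1)) ∧
    (∀ u v x y, G.Adj u v → G.Adj x y →
      Sym2.mk (u, v) ≠ Sym2.mk (x, y) →
      ∀ s t, γ u v s = γ x y t → s = 0 ∨ s = 1)

/-- Well separated pieces of the arcs of a drawing: `O` is an orientation of `G`, the arc `c u v`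
(for `O u v`) goes from the `r`-ball of `p u` to the `r`-ball of `p v`, stays far from the other
vertices, and different arcs are at distance at least `ρ`. -/
structure ArcSystem {V : Type} (G : SimpleGraph V) (p : V → ℝ × ℝ) (r ρ : ℝ)
    (O : V → V → Prop) (c : V → V → unitInterval → ℝ × ℝ) : Prop where
  r_pos : 0 < r
  rho_pos : 0 < ρ
  sep : ∀ u v, u ≠ v → 4 * r < dist (p u) (p v)
  adj : ∀ u v, G.Adj u v → O u v ∨ O v u
  ne : ∀ u v, O u v → u ≠ v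
  cont : ∀ u v, O u v → Continuous (c u v)
  start : ∀ u v, O u v → dist (c u v 0) (p u) ≤ r
  fin : ∀ u v, O u v → dist (c u v 1) (p v) ≤ r
  far : ∀ u v, O u v → ∀ w, w ≠ u → w ≠ v → ∀ t, 3 * r < dist (c u v t) (p w)
  disj : ∀ u v x y, O u v → O x y → (u, v) ≠ (x, y) → ∀ s t, ρ ≤ dist (c u v s) (c x y t)

/-- A model of `G` as a minor of the grid `[0, N) × [0, N)`. -/
structure GridModel {V : Type} (G : SimpleGraph V) (N : ℕ) (B : V → Set (ℤ × ℤ)) : Prop where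
  box : ∀ v, ∀ a ∈ B v, InBox N a
  nonempty : ∀ v, (B v).Nonempty
  disj : ∀ u v, u ≠ v → Disjoint (B u) (B v)
  conn : ∀ v, ∀ a ∈ B v, ∀ b ∈ B v,
    Relation.ReflTransGen (fun x y => y ∈ B v ∧ GridAdj x y) a b
  adj : ∀ u v, G.Adj u v → ∃ a ∈ B u, ∃ b ∈ B v, GridAdj a b

end Pool.Agent.TFP
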