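import Pool.Agent.TFP.GridDefs

/-!
# An explicit spherical map which contains a grid

The darts of a cylinder `ZMod n × {1, …, m}` with two poles. `up i k` and `down i k` are the two
darts of the vertical edge in column `i` between the rows `k` and `k + 1` (row `0` is the south
pole and row `m + 1` the north pole); `east i j` and `west i j` start at the vertex in column `i`
and row `j + 1`.
-/

set_option autoImplicit false

namespace Pool.Agent.TFP

/-- Darts of the cylinder with poles. -/
inductive CylDart (n m : ℕ) : Type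
  | up (i : ZMod n) (k : Fin (m + 1)) : CylDart n m
  | down (i : ZMod n) (k : Fin (m + 1)) : CylDart n m
  | east (i : ZMod n) (j : Fin m) : CylDart n m
  | west (i : ZMod n) (j : Fin m) : CylDart n m

namespace CylDart

variable {n m : ℕ}

/-- The rotation. -/
def sig : CylDart n m → CylDart n m
  | up i k => Fin.cases (motive := fun _ => CylDart n m) (up (i - 1) 0) (fun j => west i j) k
  | down i k => Fin.lastCases (motive := fun _ => CylDart n m) (down (i + 1) (Fin.last m))
      (fun j => east i j) k
  | east i j => up i j.succ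
  | west i j => down i j.castSucc

/-- The inverse rotation. -/
def sigInv : CylDart n m → CylDart n m
  | up i k => Fin.cases (motive := fun _ => CylDart n m) (up (i + 1) 0) (fun j => east i j) k
  | down i k => Fin.lastCases (motive := fun _ => CylDart n m) (down (i - 1) (Fin.last m))
      (fun j => west i j) k
  | east i j => down i j.castSucc
  | west i j => up i j.succ

/-- The edge involution. -/
def alp : CylDart n m → CylDart n m
  | up i k => down i k
  | down i k => up i k
  | east i j => west (i + 1) j
  | west i j => east (i - 1) j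

@[simp] theorem sig_up_zero (i : ZMod n) : sig (up i (0 : Fin (m + 1))) = up (i - 1) 0 := rfl

@[simp] theorem sig_up_succ (i : ZMod n) (j : Fin m) : sig (up i j.succ) = west i j := rfl

@[simp] theorem sig_down_last (i : ZMod n) :
    sig (down i (Fin.last m)) = down (i + 1) (Fin.last m) := by
  simp [sig]

@[simp] theorem sig_down_castSucc (i : ZMod n) (j : Fin m) :
    sig (down i j.castSucc) = east i j := by
  simp [sig]

@[simp] theorem sig_east (i : ZMod n) (j : Fin m) : sig (east i j) = up i j.succ := rfl

@[simp] theorem sig_west (i : ZMod n) (j : Fin m) : sig (west i j) = down i j.castSucc := rfl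

@[simp] theorem sigInv_up_zero (i : ZMod n) : sigInv (up i (0 : Fin (m + 1))) = up (i + 1) 0 := rfl

@[simp] theorem sigInv_up_succ (i : ZMod n) (j : Fin m) : sigInv (up i j.succ) = east i j := rfl

@[simp] theorem sigInv_down_last (i : ZMod n) :
    sigInv (down i (Fin.last m)) = down (i - 1) (Fin.last m) := by
  simp [sigInv]

@[simp] theorem sigInv_down_castSucc (i : ZMod n) (j : Fin m) :
    sigInv (down i j.castSucc) = west i j := by
  simp [sigInv]

@[simp] theorem sigInv_east (i : ZMod n) (j : Fin m) :
    sigInv (east i j) = down i j.castSucc := rfl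

@[simp] theorem sigInv_west (i : ZMod n) (j : Fin m) : sigInv (west i j) = up i j.succ := rfl

@[simp] theorem alp_up (i : ZMod n) (k : Fin (m + 1)) : alp (up i k) = down i k := rfl
@[simp] theorem alp_down (i : ZMod n) (k : Fin (m + 1)) : alp (down i k) = up i k := rfl
@[simp] theorem alp_east (i : ZMod n) (j : Fin m) : alp (east i j) = west (i + 1) j := rfl
@[simp] theorem alp_west (i : ZMod n) (j : Fin m) : alp (west i j) = east (i - 1) j := rfl

/-- Case distinction on darts. -/
theorem cases_up {P : CylDart n m → Prop} (i : ZMod n) (k : Fin (m + 1)) (h0 : P (up i 0))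
    (hs : ∀ j : Fin m, P (up i j.succ)) : P (up i k) :=
  Fin.cases (motive := fun k => P (up i k)) h0 hs k

theorem cases_down {P : CylDart n m → Prop} (i : ZMod n) (k : Fin (m + 1))
    (h0 : P (down i (Fin.last m))) (hs : ∀ j : Fin m, P (down i j.castSucc)) : P (down i k) :=
  Fin.lastCases (motive := fun k => P (down i k)) h0 hs k

theorem sigInv_sig (d : CylDart n m) : sigInv (sig d) = d := by
  cases d with
  | up i k => exact cases_up (P := fun d => sigInv (sig d) = d) i k (by simp) (by simp)
  | down i k => exact cases_down (P := fun d => sigInv (sig d) = d) i k (by simp) (by simp)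
  | east i j => simp
  | west i j => simp

theorem sig_sigInv (d : CylDart n m) : sig (sigInv d) = d := by
  cases d with
  | up i k => exact cases_up (P := fun d => sig (sigInv d) = d) i k (by simp) (by simp)
  | down i k => exact cases_down (P := fun d => sig (sigInv d) = d) i k (by simp) (by simp)
  | east i j => simp
  | west i j => simp

theorem alp_alp (d : CylDart n m) : alp (alp d) = d := by
  cases d <;> simp

theorem alp_ne (d : CylDart n m) : alp d ≠ d := by
  cases d <;> simp

/-- The cylinder map. -/
def cyl (n m : ℕ) : CMap (CylDart n m) where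
  σ := ⟨sig, sigInv, sigInv_sig, sig_sigInv⟩
  α := ⟨alp, alp, alp_alp, alp_alp⟩
  invol := alp_alp
  ne := alp_ne

@[simp] theorem cyl_σ (d : CylDart n m) : (cyl n m).σ d = sig d := rfl
@[simp] theorem cyl_α (d : CylDart n m) : (cyl n m).α d = alp d := rfl
theorem cyl_φ (d : CylDart n m) : (cyl n m).φ d = sig (alp d) := rfl

/-- Face labels. -/
def fl : CylDart n m → ZMod n × Fin (m + 1)
  | up i k => (i, k)
  | down i k => (i - 1, k)
  | east i j => (i, j.castSucc)
  | west i j => (i - 1, j.succ)

/-- Vertex labels. -/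
def vl : CylDart n m → (ZMod n × Fin m) ⊕ Bool
  | up i k => Fin.cases (motive := fun _ => (ZMod n × Fin m) ⊕ Bool) (Sum.inr false)
      (fun j => Sum.inl (i, j)) k
  | down i k => Fin.lastCases (motive := fun _ => (ZMod n × Fin m) ⊕ Bool) (Sum.inr true)
      (fun j => Sum.inl (i, j)) k
  | east i j => Sum.inl (i, j)
  | west i j => Sum.inl (i, j)

@[simp] theorem vl_up_zero (i : ZMod n) : vl (up i (0 : Fin (m + 1))) = Sum.inr false := rfl
@[simp] theorem vl_up_succ (i : ZMod n) (j : Fin m) : vl (up i j.succ) = Sum.inl (i, j) := rfl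
@[simp] theorem vl_down_last (i : ZMod n) : vl (down i (Fin.last m)) = Sum.inr true := by
  simp [vl]
@[simp] theorem vl_down_castSucc (i : ZMod n) (j : Fin m) :
    vl (down i j.castSucc) = Sum.inl (i, j) := by
  simp [vl]
@[simp] theorem vl_east (i : ZMod n) (j : Fin m) : vl (east i j) = Sum.inl (i, j) := rfl
@[simp] theorem vl_west (i : ZMod n) (j : Fin m) : vl (west i j) = Sum.inl (i, j) := rfl

theorem vl_sig (d : CylDart n m) : vl (sig d) = vl d := by
  cases d with
  | up i k => exact cases_up (P := fun d => vl (sig d) = vl d) i k (by simp) (by simp)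
  | down i k => exact cases_down (P := fun d => vl (sig d) = vl d) i k (by simp) (by simp)
  | east i j => simp
  | west i j => simp

theorem fl_phi (d : CylDart n m) : fl (sig (alp d)) = fl d := by
  cases d with
  | up i k =>
    refine Fin.lastCases (motive := fun k => fl (sig (alp (up i k))) = fl (up i k)) ?_ ?_ k
    · simp [fl]
    · intro j
      simp [fl]
  | down i k =>
    refine Fin.cases (motive := fun k => fl (sig (alp (down i k))) = fl (down i k)) ?_ ?_ k
    · simp [fl]
    · intro j
      simp [fl]
  | east i j => simp [fl]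
  | west i j => simp [fl]

open Equiv.Perm

theorem step_φ (d : CylDart n m) : (cyl n m).φ.SameCycle d (sig (alp d)) :=
  (sameCycle_apply_right (f := (cyl n m).φ)).2 (SameCycle.refl _ _)

theorem step_σ (d : CylDart n m) : (cyl n m).σ.SameCycle d (sig d) :=
  (sameCycle_apply_right (f := (cyl n m).σ)).2 (SameCycle.refl _ _)

/-- Every dart is in the face of `up` of its label. -/
theorem same_φ (d : CylDart n m) : (cyl n m).φ.SameCycle d (up (fl d).1 (fl d).2) := by
  have hdown : ∀ (i : ZMod n) (k : Fin (m + 1)),
      (cyl n m).φ.SameCycle (down i k) (up (i - 1) k) := by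
    intro i k
    refine cases_down (P := fun d => True) i k trivial (fun _ => trivial) |> fun _ => ?_
    refine Fin.cases (motive := fun k => (cyl n m).φ.SameCycle (down i k) (up (i - 1) k)) ?_ ?_ k
    · have h := step_φ (n := n) (m := m) (down i 0)
      simpa using h
    · intro j
      have h1 := step_φ (n := n) (m := m) (down i j.succ)
      have h2 := step_φ (n := n) (m := m) (west i j)
      simp only [alp_down, sig_up_succ] at h1
      simp only [alp_west, sig_east] at h2
      exact h1.trans h2
  cases d with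
  | up i k => exact SameCycle.refl _ _
  | down i k => exact hdown i k
  | east i j =>
    have h1 := step_φ (n := n) (m := m) (east i j)
    simp only [alp_east, sig_west] at h1
    have h2 := hdown (i + 1) j.castSucc
    simp only [add_sub_cancel_right] at h2
    exact h1.trans h2
  | west i j =>
    have h2 := step_φ (n := n) (m := m) (west i j)
    simp only [alp_west, sig_east] at h2
    exact h2

theorem same_pole_up [NeZero n] (i : ZMod n) : (cyl n m).σ.SameCycle (up i 0) (up 0 0) := by
  have h : ∀ k : ℕ, (cyl n m).σ.SameCycle (up i 0) (up (i - k) 0) := by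
    intro k
    induction k with
    | zero => simpa using SameCycle.refl _ _
    | succ k ih =>
      have h1 := step_σ (n := n) (m := m) (up (i - k) 0)
      rw [sig_up_zero] at h1
      have h2 : i - ((k + 1 : ℕ) : ZMod n) = i - k - 1 := by
        push_cast
        ring
      rw [h2]
      exact ih.trans h1
  have h1 := h i.val
  rwa [ZMod.natCast_zmod_val, sub_self] at h1

theorem same_pole_down [NeZero n] (i : ZMod n) :
    (cyl n m).σ.SameCycle (down i (Fin.last m)) (down 0 (Fin.last m)) := by
  have h : ∀ k : ℕ, (cyl n m).σ.SameCycle (down 0 (Fin.last m)) (down (k : ZMod n)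
      (Fin.last m)) := by
    intro k
    induction k with
    | zero => simpa using SameCycle.refl _ _
    | succ k ih =>
      have h1 := step_σ (n := n) (m := m) (down (k : ZMod n) (Fin.last m))
      rw [sig_down_last] at h1
      rw [Nat.cast_succ]
      exact ih.trans h1
  have h1 := h i.val
  rw [ZMod.natCast_zmod_val] at h1
  exact h1.symm

theorem same_up_succ (i : ZMod n) (j : Fin m) :
    (cyl n m).σ.SameCycle (up i j.succ) (east i j) := by
  have h := step_σ (n := n) (m := m) (east i j)
  rw [sig_east] at h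
  exact h.symm

theorem same_west (i : ZMod n) (j : Fin m) : (cyl n m).σ.SameCycle (west i j) (east i j) := by
  have h := step_σ (n := n) (m := m) (up i j.succ)
  rw [sig_up_succ] at h
  exact h.symm.trans (same_up_succ i j)

theorem same_down_castSucc (i : ZMod n) (j : Fin m) :
    (cyl n m).σ.SameCycle (down i j.castSucc) (east i j) := by
  have h := step_σ (n := n) (m := m) (down i j.castSucc)
  rwa [sig_down_castSucc] at h

/-- The representative of a vertex label. -/
def vrep : (ZMod n × Fin m) ⊕ Bool → CylDart n m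
  | Sum.inl z => east z.1 z.2
  | Sum.inr false => up 0 0
  | Sum.inr true => down 0 (Fin.last m)

theorem vl_vrep (x : (ZMod n × Fin m) ⊕ Bool) : vl (vrep x) = x := by
  rcases x with ⟨i, j⟩ | (_ | _) <;> simp [vrep]

theorem same_σ [NeZero n] (d : CylDart n m) : (cyl n m).σ.SameCycle d (vrep (vl d)) := by
  cases d with
  | up i k =>
    exact cases_up (P := fun d => (cyl n m).σ.SameCycle d (vrep (vl d))) i k
      (by simpa [vrep] using same_pole_up i) (fun j => by simpa [vrep] using same_up_succ i j)
  | down i k =>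
    exact cases_down (P := fun d => (cyl n m).σ.SameCycle d (vrep (vl d))) i k
      (by simpa [vrep] using same_pole_down i)
      (fun j => by simpa [vrep] using same_down_castSucc i j)
  | east i j => exact SameCycle.refl _ _
  | west i j => simpa [vrep] using same_west i j

/-- Invariants are constant on cycles. -/
theorem inv_of_same {D X : Type} (π : Equiv.Perm D) (l : D → X) (h : ∀ d, l (π d) = l d)
    {a b : D} (hab : π.SameCycle a b) : l a = l b := by
  obtain ⟨k, rfl⟩ := hab
  have h1 : ∀ (j : ℕ) (d : D), l ((π ^ j) d) = l d := by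
    intro j
    induction j with
    | zero => intro d; simp
    | succ j ih =>
      intro d
      rw [pow_succ, Equiv.Perm.mul_apply, ih, h]
  rcases Int.eq_nat_or_neg k with ⟨j, rfl | rfl⟩
  · rw [zpow_natCast, h1]
  · have h2 := h1 j ((π ^ (-(j : ℤ))) a)
    rw [← zpow_natCast, ← Equiv.Perm.mul_apply, ← zpow_add, add_neg_cancel, zpow_zero,
      Equiv.Perm.one_apply] at h2
    exact h2

/-- The number of cycles from a system of labels. -/
theorem card_cycles {D X : Type} (π : Equiv.Perm D) (l : D → X) (rep : X → D)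
    (h : ∀ d, l (π d) = l d) (hl : ∀ x, l (rep x) = x) (hr : ∀ d, π.SameCycle d (rep (l d))) :
    Nat.card (Quotient (SameCycle.setoid π)) = Nat.card X := by
  apply Nat.card_congr
  refine ⟨Quotient.lift l (fun a b hab => inv_of_same π l h hab), fun x => Quotient.mk _ (rep x),
    ?_, ?_⟩
  · intro q
    refine Quotient.inductionOn q fun d => ?_
    exact Quotient.sound (hr d).symm
  · intro x
    exact hl x

theorem card_vertex [NeZero n] : Nat.card (cyl n m).Vertex = n * m + 2 := by
  unfold CMap.Vertex
  rw [card_cycles (cyl n m).σ vl vrep vl_sig vl_vrep same_σ]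
  rw [Nat.card_sum, Nat.card_prod, Nat.card_zmod, Nat.card_eq_fintype_card,
    Nat.card_eq_fintype_card, Fintype.card_fin, Fintype.card_bool]

theorem card_face [NeZero n] : Nat.card (cyl n m).Face = n * (m + 1) := by
  unfold CMap.Face
  rw [card_cycles (cyl n m).φ fl (fun z => up z.1 z.2) (fun d => fl_phi d) (fun _ => rfl)
    (fun d => same_φ d)]
  rw [Nat.card_prod, Nat.card_zmod, Nat.card_eq_fintype_card, Fintype.card_fin]

/-- The darts as a sum type. -/
def equivSum : CylDart n m ≃ ((ZMod n × Fin (m + 1)) ⊕ (ZMod n × Fin (m + 1))) ⊕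
    ((ZMod n × Fin m) ⊕ (ZMod n × Fin m)) where
  toFun
    | up i k => Sum.inl (Sum.inl (i, k))
    | down i k => Sum.inl (Sum.inr (i, k))
    | east i j => Sum.inr (Sum.inl (i, j))
    | west i j => Sum.inr (Sum.inr (i, j))
  invFun
    | Sum.inl (Sum.inl z) => up z.1 z.2
    | Sum.inl (Sum.inr z) => down z.1 z.2
    | Sum.inr (Sum.inl z) => east z.1 z.2
    | Sum.inr (Sum.inr z) => west z.1 z.2
  left_inv d := by cases d <;> rfl
  right_inv x := by rcases x with (_ | _) | (_ | _) <;> rfl

instance [NeZero n] : Finite (CylDart n m) := Finite.of_equiv _ equivSum.symm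

theorem card_dart [NeZero n] : Nat.card (CylDart n m) = 2 * (n * (m + 1)) + 2 * (n * m) := by
  rw [Nat.card_congr (equivSum (n := n) (m := m))]
  simp only [Nat.card_sum, Nat.card_prod, Nat.card_zmod, Nat.card_fin]
  ring

theorem cyl_spherical [NeZero n] : (cyl n m).Spherical := by
  unfold CMap.Spherical
  rw [card_vertex, card_face, card_dart]
  ring

/-! ### Connectivity -/

/-- Reachability by `σ` and `α`. -/
def Reach {D : Type} (M : CMap D) (x y : D) : Prop :=
  Relation.ReflTransGen (fun a b => b = M.σ a ∨ b = M.α a) x y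

theorem Reach.of_same_σ {D : Type} [Finite D] (M : CMap D) {x y : D} (h : M.σ.SameCycle x y) :
    Reach M x y := by
  obtain ⟨k, hk⟩ := h.exists_pow_eq''
  obtain ⟨-, -, rfl⟩ := hk
  clear h
  induction k with
  | zero => exact Relation.ReflTransGen.refl
  | succ k ih =>
    rw [pow_succ', Equiv.Perm.mul_apply]
    exact ih.tail (Or.inl rfl)

theorem Reach.of_α {D : Type} (M : CMap D) (x : D) : Reach M x (M.α x) :=
  Relation.ReflTransGen.single (Or.inr rfl)

theorem Reach.symm {D : Type} [Finite D] (M : CMap D) {x y : D} (h : Reach M x y) :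
    Reach M y x := by
  induction h with
  | refl => exact Relation.ReflTransGen.refl
  | tail _ hbc ih =>
    rename_i b c _
    refine Relation.ReflTransGen.trans ?_ ih
    rcases hbc with rfl | rfl
    · exact Reach.of_same_σ M ((sameCycle_apply_left (f := M.σ)).2 (SameCycle.refl _ _))
    · have h1 := Reach.of_α M (M.α b)
      rwa [M.invol] at h1

theorem Reach.trans {D : Type} (M : CMap D) {x y z : D} (h : Reach M x y) (h' : Reach M y z) :
    Reach M x z := Relation.ReflTransGen.trans h h'

theorem cyl_connected [NeZero n] : (cyl n m).Connected := by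
  have h0 : ∀ i : ZMod n, Reach (cyl n m) (up i 0) (up 0 0) := fun i =>
    Reach.of_same_σ _ (same_pole_up i)
  have hα : ∀ (i : ZMod n) (k : Fin (m + 1)), Reach (cyl n m) (down i k) (up i k) := fun i k =>
    Reach.of_α (cyl n m) (down i k)
  have hup : ∀ (i : ZMod n) (k : Fin (m + 1)), Reach (cyl n m) (up i k) (up 0 0) := by
    intro i k
    refine Fin.induction (motive := fun k => Reach (cyl n m) (up i k) (up 0 0)) (h0 i) ?_ k
    intro j ih
    have h1 : Reach (cyl n m) (up i j.succ) (down i j.castSucc) :=
      Reach.of_same_σ _ ((same_up_succ i j).trans (same_down_castSucc i j).symm)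
    exact Reach.trans _ h1 (Reach.trans _ (hα i j.castSucc) ih)
  have hall : ∀ d : CylDart n m, Reach (cyl n m) d (up 0 0) := by
    intro d
    cases d with
    | up i k => exact hup i k
    | down i k => exact Reach.trans _ (hα i k) (hup i k)
    | east i j =>
      exact Reach.trans _ (Reach.of_same_σ _ (same_up_succ i j).symm) (hup i j.succ)
    | west i j =>
      exact Reach.trans _ (Reach.of_same_σ _ ((same_west i j).trans (same_up_succ i j).symm))
        (hup i j.succ)
  intro x y
  exact Reach.trans _ (hall x) (Reach.symm _ (hall y))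

/-! ### The grid inside the cylinder -/

/-- The vertex of a grid point. -/
noncomputable def gv (n m : ℕ) (z : ℤ × ℤ) : (cyl n m).Vertex :=
  open Classical in
  if h : 0 ≤ z.2 ∧ z.2 < m then
    (cyl n m).vtx (east (z.1 : ZMod n) ⟨z.2.toNat, by omega⟩)
  else (cyl n m).vtx (up 0 0)

theorem gv_of {z : ℤ × ℤ} (h : 0 ≤ z.2 ∧ z.2 < m) : gv n m z =
    (cyl n m).vtx (east (z.1 : ZMod n) ⟨z.2.toNat, by omega⟩) := by
  unfold gv
  rw [dif_pos h]

end CylDart

open CylDart in
/-- A spherical map whose graph contains the grid. -/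
theorem grid_map (N : ℕ) : ∃ (D : Type) (_ : Finite D) (M : CMap D), M.Connected ∧
    M.Spherical ∧ ∃ ι : ℤ × ℤ → M.Vertex, Set.InjOn ι {z | InBox N z} ∧
      ∀ a b, InBox N a → InBox N b → GridAdj a b →
        ∃ d, M.vtx d = ι a ∧ M.vtx (M.α d) = ι b := by
  refine ⟨CylDart (N + 1) N, inferInstance, cyl (N + 1) N, cyl_connected, cyl_spherical,
    gv (N + 1) N, ?_, ?_⟩
  · rintro ⟨x, y⟩ ⟨hx0, hxN, hy0, hyN⟩ ⟨x', y'⟩ ⟨hx0', hxN', hy0', hyN'⟩ h
    simp only at hx0 hxN hy0 hyN hx0' hxN' hy0' hyN'
    rw [gv_of (z := (x, y)) ⟨hy0, hyN⟩, gv_of (z := (x', y')) ⟨hy0', hyN'⟩, CMap.vtx_eq_iff] at h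
    have h1 := inv_of_same _ vl vl_sig h
    simp only [vl_east, Sum.inl.injEq, Prod.mk.injEq, Fin.mk.injEq] at h1
    obtain ⟨h2, h3⟩ := h1
    rw [ZMod.intCast_eq_intCast_iff_dvd_sub] at h2
    obtain ⟨k, hk⟩ := h2
    have h4 : k = 0 := by
      by_contra hk0
      have h5 : ((N + 1 : ℕ) : ℤ) ≤ |((N + 1 : ℕ) : ℤ) * k| := by
        rw [abs_mul, abs_of_nonneg (by positivity : (0 : ℤ) ≤ ((N + 1 : ℕ) : ℤ))]
        have h6 : 1 ≤ |k| := Int.one_le_abs hk0
        nlinarith
      rw [← hk] at h5
      have h6 : |x' - x| < N := by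
        rw [abs_lt]
        constructor <;> omega
      push_cast at h5
      omega
    rw [h4, mul_zero] at hk
    have h5 : x = x' := by omega
    have h6 : y = y' := by omega
    rw [h5, h6]
  · -- east and north edges
    have heast : ∀ x y : ℤ, 0 ≤ y ∧ y < N → ∃ d, (cyl (N + 1) N).vtx d = gv (N + 1) N (x, y) ∧
        (cyl (N + 1) N).vtx ((cyl (N + 1) N).α d) = gv (N + 1) N (x + 1, y) := by
      intro x y hy
      refine ⟨east (x : ZMod (N + 1)) ⟨y.toNat, by omega⟩, ?_, ?_⟩
      · rw [gv_of (z := (x, y)) hy]
      · rw [gv_of (z := (x + 1, y)) hy, CMap.vtx_eq_iff, cyl_α, alp_east]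
        have h1 := same_west (n := N + 1) ((x : ZMod (N + 1)) + 1)
          (⟨y.toNat, by omega⟩ : Fin N)
        simpa using h1
    have hnorth : ∀ x y : ℤ, 0 ≤ y ∧ y + 1 < N → ∃ d,
        (cyl (N + 1) N).vtx d = gv (N + 1) N (x, y) ∧
        (cyl (N + 1) N).vtx ((cyl (N + 1) N).α d) = gv (N + 1) N (x, y + 1) := by
      intro x y hy
      refine ⟨up (x : ZMod (N + 1)) (Fin.succ ⟨y.toNat, by omega⟩), ?_, ?_⟩
      · rw [gv_of (z := (x, y)) ⟨hy.1, by simp only; omega⟩, CMap.vtx_eq_iff]
        exact same_up_succ _ _
      · rw [gv_of (z := (x, y + 1)) ⟨by simp only; omega, by simp only; omega⟩,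
          CMap.vtx_eq_iff, cyl_α, alp_up]
        have h1 := same_down_castSucc (n := N + 1) (x : ZMod (N + 1))
          (⟨(y + 1).toNat, by omega⟩ : Fin N)
        have h2 : (Fin.castSucc (⟨(y + 1).toNat, by omega⟩ : Fin N)) =
            Fin.succ (⟨y.toNat, by omega⟩ : Fin N) := by
          ext
          simp only [Fin.val_castSucc, Fin.val_succ]
          omega
        rw [h2] at h1
        exact h1
    have hrev : ∀ a b : ℤ × ℤ, (∃ d, (cyl (N + 1) N).vtx d = gv (N + 1) N a ∧
        (cyl (N + 1) N).vtx ((cyl (N + 1) N).α d) = gv (N + 1) N b) →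
        ∃ d, (cyl (N + 1) N).vtx d = gv (N + 1) N b ∧
        (cyl (N + 1) N).vtx ((cyl (N + 1) N).α d) = gv (N + 1) N a := by
      rintro a b ⟨d, h1, h2⟩
      exact ⟨(cyl (N + 1) N).α d, h2, by rw [(cyl (N + 1) N).invol]; exact h1⟩
    rintro ⟨x, y⟩ ⟨x', y'⟩ ⟨hx0, hxN, hy0, hyN⟩ ⟨hx0', hxN', hy0', hyN'⟩ hadj
    simp only at hx0 hxN hy0 hyN hx0' hxN' hy0' hyN'
    unfold GridAdj at hadj
    simp only at hadj
    rcases hadj with ⟨h1, h2 | h2⟩ | ⟨h1, h2 | h2⟩
    · subst h1 h2
      exact hrev _ _ (hnorth x y' ⟨hy0', by omega⟩)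
    · subst h1 h2
      exact hnorth x y ⟨hy0, by omega⟩
    · subst h1 h2
      exact hrev _ _ (heast x' y ⟨hy0, hyN⟩)
    · subst h1 h2
      exact heast x y ⟨hy0, hyN⟩

end Pool.Agent.TFP
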