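import Mathlib

/-!
# Cutting a tree decomposition into small pieces
-/

set_option autoImplicit false

open Finset

namespace Pool.Agent.TFP

/-- C3. Cutting a tree decomposition into small pieces. -/
theorem split {D U : Type} [Finite D] [DecidableEq U] (np : D → D) (nd : D → ℕ) (x₀ : D)
    (hnp : ∀ x, x ≠ x₀ → nd (np x) + 1 = nd x) (hroot : ∀ y, ∃ i, np^[i] y = x₀)
    (hr : np x₀ = x₀)
    (N : U → D → Prop) (hne : ∀ u, ∃ y, N u y)
    (hconn : ∀ u x, (∃ y, N u y ∧ ∃ i, np^[i] y = x) → (∃ y, N u y ∧ ∀ i, np^[i] y ≠ x) →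
        N u x ∧ N u (np x))
    (s K : ℕ) (hK : 1 ≤ K) (A : Finset U)
    (hs : ∀ x (B : Finset U), B ⊆ A → (∀ u ∈ B, N u x) → B.card ≤ s) :
    ∃ R : Finset U, R ⊆ A ∧ R.card * K ≤ s * A.card ∧
      ∀ u ∈ A \ R, ∃ C : Finset U, C ⊆ A \ R ∧ u ∈ C ∧ C.card ≤ K ∧
        ∀ v ∈ C, ∀ w ∈ A \ R, (∃ y, N v y ∧ N w y) → w ∈ C := by
  classical
  induction hcard : A.card using Nat.strong_induction_on generalizing A with
  | _ n ih =>
  subst hcard
  set P : U → D → Prop := fun u x => ∃ y, N u y ∧ ∃ i, np^[i] y = x with hP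
  by_cases hex : ∃ x, K < (A.filter fun u => P u x).card
  · obtain ⟨x, hx, hmax⟩ := Set.exists_max_image {x | K < (A.filter fun u => P u x).card} nd
      (Set.toFinite _) hex
    have hx' : K < (A.filter fun u => P u x).card := hx
    set Ax := A.filter fun u => P u x with hAx
    set B := A.filter fun u => N u x with hB
    have hBAx : B ⊆ Ax := by
      intro u hu
      rw [hB, mem_filter] at hu
      rw [hAx, mem_filter]
      exact ⟨hu.1, x, hu.2, 0, rfl⟩
    have hBs : B.card ≤ s := hs x B (filter_subset _ _) fun u hu => (mem_filter.1 hu).2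
    set A' := A \ Ax with hA'
    have hAxA : Ax ⊆ A := filter_subset _ _
    have hcA' : A'.card + Ax.card = A.card := card_sdiff_add_card_eq_card hAxA
    obtain ⟨R', hR'A, hR'c, hR'⟩ := ih A'.card (by omega) A'
      (fun x B hB hN => hs x B (hB.trans sdiff_subset) hN) rfl
    refine ⟨B ∪ R', union_subset (filter_subset _ _) (hR'A.trans sdiff_subset), ?_, ?_⟩
    · have h1 : (B ∪ R').card ≤ B.card + R'.card := card_union_le _ _
      have h2 : B.card * K ≤ s * Ax.card := Nat.mul_le_mul hBs hx'.le
      calc (B ∪ R').card * K ≤ (B.card + R'.card) * K := Nat.mul_le_mul_right _ h1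
        _ = B.card * K + R'.card * K := Nat.add_mul _ _ _
        _ ≤ s * Ax.card + s * A'.card := Nat.add_le_add h2 hR'c
        _ = s * A.card := by rw [← Nat.mul_add, ← hcA', Nat.add_comm A'.card]
    · intro u hu
      rw [mem_sdiff, mem_union, not_or] at hu
      obtain ⟨huA, huB, huR'⟩ := hu
      by_cases huAx : u ∈ Ax
      · -- a node below `x`
        have hNx : ¬ N u x := fun h => huB (mem_filter.2 ⟨huA, h⟩)
        obtain ⟨y, hy, hyi⟩ := (mem_filter.1 huAx).2
        have hmin := Nat.find_spec hyi
        set i := Nat.find hyi with hi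
        have hi0 : i ≠ 0 := by
          intro h0
          rw [h0] at hmin
          exact hNx (hmin ▸ hy)
        obtain ⟨j, hj⟩ := Nat.exists_eq_succ_of_ne_zero hi0
        set c := np^[j] y with hc
        have hnpc : np c = x := by
          rw [hj, Function.iterate_succ_apply'] at hmin
          exact hmin
        have hcx : c ≠ x := by
          intro h
          have := Nat.find_min' hyi h
          omega
        have hc0 : c ≠ x₀ := by
          intro h
          apply hcx
          rw [h] at hnpc ⊢
          exact hr.symm.trans hnpc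
        have hndc : nd x < nd c := by
          have := hnp c hc0
          rw [hnpc] at this
          omega
        have hAc : (A.filter fun u => P u c).card ≤ K := by
          by_contra hcon
          push Not at hcon
          have := hmax c hcon
          omega
        have hsub : ∀ v, P v c → P v x := by
          rintro v ⟨z, hz, k, hk⟩
          refine ⟨z, hz, k + 1, ?_⟩
          rw [Function.iterate_succ_apply', hk, hnpc]
        refine ⟨(A.filter fun u => P u c) \ B, ?_, ?_, (card_le_card sdiff_subset).trans hAc, ?_⟩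
        · intro v hv
          rw [mem_sdiff, mem_filter] at hv
          rw [mem_sdiff, mem_union, not_or]
          refine ⟨hv.1.1, hv.2, fun h => ?_⟩
          have h2 := hR'A h
          rw [hA', mem_sdiff] at h2
          exact h2.2 (mem_filter.2 ⟨hv.1.1, hsub v hv.1.2⟩)
        · exact mem_sdiff.2 ⟨mem_filter.2 ⟨huA, y, hy, j, rfl⟩, huB⟩
        · intro v hv w hw hvw
          obtain ⟨z, hvz, hwz⟩ := hvw
          rw [mem_sdiff, mem_filter] at hv
          rw [mem_sdiff, mem_union, not_or] at hw
          rw [mem_sdiff, mem_filter]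
          refine ⟨⟨hw.1, ?_⟩, hw.2.1⟩
          by_contra hcon
          have hz : ∀ i, np^[i] z ≠ c := fun i hi => hcon ⟨z, hwz, i, hi⟩
          have h3 := (hconn v c hv.1.2 ⟨z, hvz, hz⟩).2
          rw [hnpc] at h3
          exact hv.2 (mem_filter.2 ⟨hv.1.1, h3⟩)
      · -- a node in the rest
        have huA' : u ∈ A' \ R' := mem_sdiff.2 ⟨mem_sdiff.2 ⟨huA, huAx⟩, huR'⟩
        obtain ⟨C, hCs, huC, hCK, hCc⟩ := hR' u huA'
        refine ⟨C, ?_, huC, hCK, ?_⟩
        · intro v hv
          have h1 := mem_sdiff.1 (hCs hv)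
          have h2 := mem_sdiff.1 h1.1
          rw [mem_sdiff, mem_union, not_or]
          exact ⟨h2.1, fun h => h2.2 (hBAx h), h1.2⟩
        · intro v hv w hw hvw
          rw [mem_sdiff, mem_union, not_or] at hw
          by_cases hwx : w ∈ Ax
          · exfalso
            obtain ⟨z, hvz, hwz⟩ := hvw
            have h1 := mem_sdiff.1 (mem_sdiff.1 (hCs hv)).1
            apply h1.2
            rw [hAx, mem_filter]
            refine ⟨h1.1, ?_⟩
            by_contra hcon
            have hz : ∀ i, np^[i] z ≠ x := fun i hi => hcon ⟨z, hvz, i, hi⟩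
            have h3 := (hconn w x (mem_filter.1 hwx).2 ⟨z, hwz, hz⟩).1
            exact hw.2.1 (mem_filter.2 ⟨hw.1, h3⟩)
          · exact hCc v hv w (mem_sdiff.2 ⟨mem_sdiff.2 ⟨hw.1, hwx⟩, hw.2.2⟩) hvw
  · push Not at hex
    refine ⟨∅, empty_subset _, by simp, ?_⟩
    intro u hu
    rw [sdiff_empty] at hu ⊢
    refine ⟨A, Subset.refl _, hu, ?_, fun _ _ w hw _ => hw⟩
    have h1 := hex x₀
    have h2 : (A.filter fun u => P u x₀) = A := by
      apply filter_true_of_mem
      intro v _
      obtain ⟨y, hy⟩ := hne v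
      exact ⟨y, hy, hroot y⟩
    rwa [h2] at h1

end Pool.Agent.TFP
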