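import Pool.Agent.TFP.TreeDecomp
import Pool.Agent.TFP.Split

set_option autoImplicit false

namespace Pool.Agent.TFP

open Finset

/-- A residue class with few members. -/
theorem exists_residue {V : Type} [Fintype V] (f : V → ℕ) (k : ℕ) (hk : 1 ≤ k) :
    ∃ i, i < k ∧ k * (univ.filter (fun v => f v % k = i)).card ≤ Fintype.card V := by
  by_contra hcon
  push Not at hcon
  have h1 : ∑ i ∈ range k, (univ.filter (fun v => f v % k = i)).card = Fintype.card V := by
    rw [← Finset.card_univ]
    symm
    apply Finset.card_eq_sum_card_fiberwise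
    intro v _
    simp only [coe_range, Set.mem_Iio]
    exact Nat.mod_lt _ hk
  have h2 : ∑ _i ∈ range k, Fintype.card V <
      ∑ i ∈ range k, k * (univ.filter (fun v => f v % k = i)).card := by
    apply Finset.sum_lt_sum_of_nonempty
    · exact ⟨0, by simp; omega⟩
    · intro i hi
      exact hcon i (by simpa using hi)
  rw [← Finset.mul_sum, h1] at h2
  simp at h2

/-- Depths in a block. -/
theorem block_depth {k i j t : ℕ} (hi : i < k) (h1 : t % k ≠ i) (h2 : (t + (k - i)) / k = j) :
    j * k + 1 - (k - i) ≤ t ∧ t < (j + 1) * k - (k - i) ∧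
      ((j + 1) * k - (k - i)) - (j * k + 1 - (k - i)) ≤ k := by
  have hk : 0 < k := by omega
  have h3 : k * ((t + (k - i)) / k) + (t + (k - i)) % k = t + (k - i) := Nat.div_add_mod _ _
  have h4 : (t + (k - i)) % k < k := Nat.mod_lt _ hk
  have h5 : (t + (k - i)) % k ≠ 0 := by
    intro h0
    apply h1
    have h6 : k ∣ t + (k - i) := Nat.dvd_of_mod_eq_zero h0
    obtain ⟨c, hc⟩ := h6
    have hc1 : 1 ≤ c := by
      rcases Nat.eq_zero_or_pos c with h | h
      · subst h; omega
      · exact h
    obtain ⟨c', rfl⟩ : ∃ c', c = c' + 1 := ⟨c - 1, by omega⟩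
    have : t = k * c' + i := by
      have : k * (c' + 1) = k * c' + k := by ring
      omega
    rw [this, Nat.mul_add_mod, Nat.mod_eq_of_lt hi]
  rw [h2] at h3
  have e1 : (j + 1) * k = k * j + k := by ring
  have e2 : j * k = k * j := by ring
  rw [e1, e2]
  omega

/-- Adjacent remaining vertices are in the same block. -/
theorem block_eq {k i t t' : ℕ} (hi : i < k) (h1 : t % k ≠ i) (h1' : t' % k ≠ i)
    (h : t' ≤ t + 1) (h' : t ≤ t' + 1) : (t + (k - i)) / k = (t' + (k - i)) / k := by
  obtain ⟨a1, a2, a3⟩ := block_depth hi h1 rfl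
  obtain ⟨b1, b2, b3⟩ := block_depth hi h1' rfl
  have hk : 0 < k := by omega
  generalize (t + (k - i)) / k = j at *
  generalize (t' + (k - i)) / k = j' at *
  by_contra hne
  rcases Nat.lt_or_ge j j' with hlt | hge
  · have : (j + 1) * k ≤ j' * k := Nat.mul_le_mul_right _ (by omega)
    omega
  · have : (j' + 1) * k ≤ j * k := Nat.mul_le_mul_right _ (by omega)
    omega

/-- C4. Planar graphs are hyperfinite. -/
theorem hyperfinite (η : ℝ) (hη : 0 < η) : ∃ K : ℕ, ∀ (V : Type) [Fintype V] [DecidableEq V]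
    (G : SimpleGraph V), IsPlanar G →
    ∃ R : Finset V, (R.card : ℝ) ≤ η * Fintype.card V ∧
      ∀ u, u ∉ R → ∃ C : Finset V, Disjoint C R ∧ u ∈ C ∧ C.card ≤ K ∧
        ∀ v ∈ C, ∀ w, w ∉ R → G.Adj v w → w ∈ C := by
  obtain ⟨k, hk1, hk⟩ : ∃ k : ℕ, 1 ≤ k ∧ 2 / η ≤ k := by
    refine ⟨⌈2 / η⌉₊ + 1, by omega, ?_⟩
    push_cast
    have := Nat.le_ceil (2 / η)
    linarith
  obtain ⟨K, hK1, hK⟩ : ∃ K : ℕ, 1 ≤ K ∧ 2 * ((3 * k : ℕ) : ℝ) / η ≤ K := by
    refine ⟨⌈2 * ((3 * k : ℕ) : ℝ) / η⌉₊ + 1, by omega, ?_⟩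
    push_cast
    have := Nat.le_ceil (2 * ((3 * k : ℕ) : ℝ) / η)
    push_cast at this
    linarith
  refine ⟨K, ?_⟩
  intro V _ _ G hG
  obtain ⟨D, hD, M, hc, hs, ι, hι, hadj⟩ := hG
  rcases isEmpty_or_nonempty D with hDe | hDn
  · have hV : IsEmpty V := ⟨fun v => by
      obtain ⟨d, _⟩ := M.vtx_surj (ι v)
      exact hDe.elim d⟩
    refine ⟨∅, by simp, fun u => hV.elim u⟩
  obtain ⟨dep, N, x₀, np, nd, t1, t2, t3, t4, t5, t0, t6⟩ := tree_decomposition M hc hs
  obtain ⟨i, hik, hi⟩ := exists_residue (fun v => dep (ι v)) k hk1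
  have hfinV : Finite M.Vertex := by
    unfold CMap.Vertex
    infer_instance
  -- blocks
  let blk : V → ℕ := fun v => (dep (ι v) + (k - i)) / k
  let A : ℕ → Finset V := fun j => univ.filter (fun v => dep (ι v) % k ≠ i ∧ blk v = j)
  let R1 : Finset V := univ.filter (fun v => dep (ι v) % k = i)
  have hsplit : ∀ j, ∃ R : Finset V, R ⊆ A j ∧ R.card * K ≤ (3 * k) * (A j).card ∧
      ∀ u ∈ A j \ R, ∃ C : Finset V, C ⊆ A j \ R ∧ u ∈ C ∧ C.card ≤ K ∧
        ∀ v ∈ C, ∀ w ∈ A j \ R, (∃ y, N (ι v) y ∧ N (ι w) y) → w ∈ C := by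
    intro j
    refine split np nd x₀ t4 t5 t0 (fun u x => N (ι u) x) ?_ ?_ (3 * k) K hK1 (A j) ?_
    · intro u
      obtain ⟨d, hd⟩ := M.vtx_surj (ι u)
      exact ⟨d, by rw [← hd]; exact (t2 d).1⟩
    · intro u x h1 h2
      exact t6 (ι u) x h1 h2
    · intro x B hB hBx
      have hle := t3 x (j * k + 1 - (k - i)) ((j + 1) * k - (k - i))
      have hcard : B.card ≤ Nat.card {v : M.Vertex // N v x ∧ (j * k + 1 - (k - i)) ≤ dep v ∧
          dep v < ((j + 1) * k - (k - i))} := by
        have : B.card = Nat.card {v // v ∈ B} := by simp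
        rw [this]
        refine Nat.card_le_card_of_injective (fun v => ⟨ι v.1, hBx _ v.2, ?_⟩) ?_
        · have hv := hB v.2
          simp only [A, mem_filter, mem_univ, true_and] at hv
          have := block_depth hik hv.1 hv.2
          exact ⟨this.1, this.2.1⟩
        · intro v w hvw
          simp only [Subtype.mk.injEq] at hvw
          exact Subtype.ext (hι hvw)
      rcases B.eq_empty_or_nonempty with hBe | ⟨v, hv⟩
      · subst hBe; simp
      · have hv := hB hv
        simp only [A, mem_filter, mem_univ, true_and] at hv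
        have := (block_depth hik hv.1 hv.2).2.2
        omega
  choose Rj hR1 hR2 hR3 using hsplit
  let J : Finset ℕ := univ.image blk
  refine ⟨R1 ∪ J.biUnion Rj, ?_, ?_⟩
  · -- cardinality
    have c1 : ((R1 ∪ J.biUnion Rj).card : ℝ) ≤ R1.card + ∑ j ∈ J, ((Rj j).card : ℝ) := by
      have h1 := Finset.card_union_le R1 (J.biUnion Rj)
      have h2 : (J.biUnion Rj).card ≤ ∑ j ∈ J, (Rj j).card := Finset.card_biUnion_le
      have : (R1 ∪ J.biUnion Rj).card ≤ R1.card + ∑ j ∈ J, (Rj j).card := by omega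
      exact_mod_cast this
    have c2 : (∑ j ∈ J, (Rj j).card) * K ≤ (3 * k) * Fintype.card V := by
      rw [Finset.sum_mul]
      calc ∑ j ∈ J, (Rj j).card * K ≤ ∑ j ∈ J, (3 * k) * (A j).card :=
            Finset.sum_le_sum (fun j _ => hR2 j)
        _ = (3 * k) * ∑ j ∈ J, (A j).card := by rw [Finset.mul_sum]
        _ ≤ (3 * k) * Fintype.card V := by
            apply Nat.mul_le_mul_left
            rw [← Finset.card_univ]
            have : ∑ j ∈ J, (A j).card ≤ ∑ j ∈ J, (univ.filter (fun v => blk v = j)).card := by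
              apply Finset.sum_le_sum
              intro j _
              apply Finset.card_le_card
              intro v hv
              simp only [A, mem_filter, mem_univ, true_and] at hv ⊢
              exact hv.2
            refine this.trans ?_
            rw [← Finset.card_eq_sum_card_fiberwise]
            intro v _
            simp [J]
    have c3 : (∑ j ∈ J, ((Rj j).card : ℝ)) * K ≤ ((3 * k : ℕ) : ℝ) * Fintype.card V := by
      exact_mod_cast c2
    have c4 : (k : ℝ) * R1.card ≤ Fintype.card V := by exact_mod_cast hi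
    have hkpos : (0 : ℝ) < k := by exact_mod_cast hk1
    have hKpos : (0 : ℝ) < K := by exact_mod_cast hK1
    have hk' : 2 ≤ k * η := by
      rw [div_le_iff₀ hη] at hk
      exact hk
    have hK' : 2 * ((3 * k : ℕ) : ℝ) ≤ K * η := by
      rw [div_le_iff₀ hη] at hK
      exact hK
    have hn : (0 : ℝ) ≤ Fintype.card V := by positivity
    have c5 : (R1.card : ℝ) ≤ η / 2 * Fintype.card V := by
      have : (k : ℝ) * R1.card ≤ k * (η / 2 * Fintype.card V) := by nlinarith
      exact le_of_mul_le_mul_left this hkpos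
    have c6 : (∑ j ∈ J, ((Rj j).card : ℝ)) ≤ η / 2 * Fintype.card V := by
      have : (K : ℝ) * (∑ j ∈ J, ((Rj j).card : ℝ)) ≤ K * (η / 2 * Fintype.card V) := by
        nlinarith
      exact le_of_mul_le_mul_left this hKpos
    linarith
  · intro u hu
    simp only [mem_union, mem_biUnion, not_or, not_exists, not_and] at hu
    obtain ⟨hu1, hu2⟩ := hu
    have hmemJ : ∀ v, blk v ∈ J := fun v => by simp [J]
    have hmem : ∀ w, w ∉ R1 ∪ J.biUnion Rj → w ∈ A (blk w) \ Rj (blk w) := by
      intro w hw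
      simp only [mem_union, mem_biUnion, not_or, not_exists, not_and] at hw
      refine mem_sdiff.2 ⟨?_, hw.2 _ (hmemJ w)⟩
      simp only [A, mem_filter, mem_univ, true_and, and_true]
      intro h
      exact hw.1 (by simp only [R1, mem_filter, mem_univ, true_and]; exact h)
    have huA : u ∈ A (blk u) \ Rj (blk u) := by
      apply hmem
      simp only [mem_union, mem_biUnion, not_or, not_exists, not_and]
      exact ⟨hu1, hu2⟩
    obtain ⟨C, hC1, hC2, hC3, hC4⟩ := hR3 (blk u) u huA
    have hblk : ∀ v ∈ C, dep (ι v) % k ≠ i ∧ blk v = blk u := by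
      intro v hv
      have := (mem_sdiff.1 (hC1 hv)).1
      simpa only [A, mem_filter, mem_univ, true_and] using this
    refine ⟨C, ?_, hC2, hC3, ?_⟩
    · rw [Finset.disjoint_left]
      intro v hv hvR
      rcases mem_union.1 hvR with h | h
      · simp only [R1, mem_filter, mem_univ, true_and] at h
        exact (hblk v hv).1 h
      · obtain ⟨j, _, hj⟩ := mem_biUnion.1 h
        have hvA := hR1 j hj
        simp only [A, mem_filter, mem_univ, true_and] at hvA
        have : j = blk u := by rw [← hvA.2]; exact (hblk v hv).2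
        subst this
        exact (mem_sdiff.1 (hC1 hv)).2 hj
    · intro v hv w hw hvw
      obtain ⟨d, hd1, hd2⟩ := hadj v w hvw
      have hwA := hmem w hw
      have hw' := (mem_sdiff.1 hwA).1
      simp only [A, mem_filter, mem_univ, true_and, and_true] at hw'
      have hle1 : dep (ι w) ≤ dep (ι v) + 1 := by
        have := t1 d
        rw [hd1, hd2] at this
        exact this
      have hle2 : dep (ι v) ≤ dep (ι w) + 1 := by
        have := t1 (M.α d)
        rw [M.invol, hd1, hd2] at this
        exact this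
      have hb : blk v = blk w := block_eq hik (hblk v hv).1 hw' hle1 hle2
      have hb' : blk w = blk u := by rw [← hb]; exact (hblk v hv).2
      rw [hb'] at hwA
      refine hC4 v hv w hwA ⟨d, ?_, ?_⟩
      · rw [← hd1]; exact (t2 d).1
      · rw [← hd2]; exact (t2 d).2

end Pool.Agent.TFP
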