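import Pool.Agent.TFP.LayerDefs

/-!
# Duality and rounding

If for every weighting of the vertices some partial list colouring has large weight, then some
convex combination of partial colourings gives every vertex many colours; rounding down the
numbers of colours of each type gives an honest partial colouring.
-/

set_option autoImplicit false

namespace Pool.Agent.TFP

open Finset

/-- Duality (a finite minimax statement). -/
theorem rounding_farkas {V ι : Type} [Fintype V] [Fintype ι] (u : ι → V → ℝ) (M : ℝ)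
    (h : ∀ y : V → ℝ, (∀ v, 0 ≤ y v) → ∃ i, M * ∑ v, y v ≤ ∑ v, y v * u i v) :
    ∃ w : ι → ℝ, (∀ i, 0 ≤ w i) ∧ ∑ i, w i = 1 ∧ ∀ v, M ≤ ∑ i, w i * u i v := by
  classical
  by_contra hcon
  push Not at hcon
  let T : (ι → ℝ) →ₗ[ℝ] (V → ℝ) :=
    { toFun := fun w v => ∑ i, w i * u i v
      map_add' := by
        intro a b
        funext v
        simp only [Pi.add_apply, add_mul, sum_add_distrib]
      map_smul' := by
        intro a b
        funext v
        simp only [Pi.smul_apply, smul_eq_mul, RingHom.id_apply, mul_sum, mul_assoc] }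
  have hTc : Continuous T := LinearMap.continuous_of_finiteDimensional T
  set A : Set (V → ℝ) := T '' stdSimplex ℝ ι with hA
  have hAc : IsCompact A := (isCompact_stdSimplex ℝ ι).image hTc
  have hAconv : Convex ℝ A := (convex_stdSimplex ℝ ι).linear_image T
  set B : Set (V → ℝ) := {z | ∀ v, M ≤ z v} with hB
  have hBc : IsClosed B := by
    have : B = ⋂ v, {z : V → ℝ | M ≤ z v} := by
      ext z
      simp [hB]
    rw [this]
    exact isClosed_iInter fun v => isClosed_le continuous_const (continuous_apply v)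
  have hBconv : Convex ℝ B := by
    intro a ha b hb s t hs ht hst v
    have h1 := ha v
    have h2 := hb v
    simp only [Pi.add_apply, Pi.smul_apply, smul_eq_mul]
    calc M = s * M + t * M := by rw [← add_mul, hst, one_mul]
      _ ≤ s * a v + t * b v := add_le_add (mul_le_mul_of_nonneg_left h1 hs)
          (mul_le_mul_of_nonneg_left h2 ht)
  have hdisj : Disjoint A B := by
    rw [Set.disjoint_left]
    rintro z ⟨w, hw, rfl⟩ hz
    obtain ⟨v, hv⟩ := hcon w hw.1 hw.2
    exact absurd (hz v) (not_le.2 hv)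
  obtain ⟨f, s, t, hfA, hst, hfB⟩ := geometric_hahn_banach_compact_closed hAconv hAc hBconv hBc
    hdisj
  -- coefficients
  set y : V → ℝ := fun v => f (Pi.single v 1) with hy
  have hf : ∀ z : V → ℝ, f z = ∑ v, y v * z v := by
    intro z
    have h1 : z = ∑ v, z v • (Pi.single v (1 : ℝ) : V → ℝ) := by
      funext a
      rw [Finset.sum_apply]
      simp [Pi.single_apply]
    conv_lhs => rw [h1]
    rw [map_sum]
    refine sum_congr rfl fun v _ => ?_
    rw [map_smul, smul_eq_mul, mul_comm]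
  have hy0 : ∀ v, 0 ≤ y v := by
    intro v
    by_contra hneg
    push Not at hneg
    -- move far in the direction of `v`
    have h1 : ∀ r : ℝ, 0 ≤ r → t < ∑ a, y a * M + y v * r := by
      intro r hr
      have h2 := hfB (fun a => M + if a = v then r else 0) (by
        intro a
        dsimp only
        split_ifs <;> linarith)
      rw [hf] at h2
      have h3 : ∑ a, y a * (M + if a = v then r else 0) = ∑ a, y a * M + y v * r := by
        simp only [mul_add, sum_add_distrib]
        congr 1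
        rw [sum_eq_single v]
        · simp
        · intro b _ hb
          simp [hb]
        · intro hv
          exact absurd (mem_univ v) hv
      rw [h3] at h2
      exact h2
    have h4 := h1 (|∑ a, y a * M - t| / (-(y v))) (div_nonneg (abs_nonneg _) (by linarith))
    have hne : y v ≠ 0 := hneg.ne
    have h5 : y v * (|∑ a, y a * M - t| / (-(y v))) = -|∑ a, y a * M - t| := by
      generalize |∑ a, y a * M - t| = X
      field_simp
    rw [h5] at h4
    have h6 := le_abs_self (∑ a, y a * M - t)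
    linarith
  obtain ⟨i, hi⟩ := h y hy0
  have h1 : f (T (Pi.single i 1)) < s := by
    apply hfA
    exact ⟨Pi.single i 1, single_mem_stdSimplex ℝ i, rfl⟩
  have h2 : T (Pi.single i 1) = u i := by
    funext v
    change ∑ j, (Pi.single i (1 : ℝ) : ι → ℝ) j * u j v = u i v
    rw [sum_eq_single i]
    · simp
    · intro b _ hb
      simp [hb]
    · intro hv
      exact absurd (mem_univ i) hv
  rw [h2, hf] at h1
  have h3 := hfB (fun _ => M) (fun v => le_refl M)
  rw [hf, ← sum_mul, mul_comm] at h3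
  linarith

open Classical in
/-- Duality and rounding: if for every weighting `y ≥ 0` some partial colouring has weight at
least `M y(V)`, then some partial colouring gives every vertex at least `M - 4 ^ |V|` colours. -/
theorem rounding {V : Type} [Fintype V] (G : SimpleGraph V) (L : V → Finset ℕ) (M : ℝ)
    (h : ∀ y : V → ℝ, (∀ v, 0 ≤ y v) → ∃ c : V → Finset ℕ, IsPartialColoring G L c ∧
      M * ∑ v, y v ≤ ∑ v, y v * ((c v).card : ℝ)) :
    ∃ c : V → Finset ℕ, IsPartialColoring G L c ∧
      ∀ v, M - 4 ^ Fintype.card V ≤ ((c v).card : ℝ) := by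
  -- the finite set of partial colourings
  set 𝒞 : Finset (V → Finset ℕ) :=
    (Fintype.piFinset (fun v => (L v).powerset)).filter (IsPartialColoring G L) with h𝒞
  have hmem : ∀ c, IsPartialColoring G L c → c ∈ 𝒞 := by
    intro c hc
    rw [h𝒞, mem_filter, Fintype.mem_piFinset]
    exact ⟨fun v => mem_powerset.2 (hc.1 v), hc⟩
  obtain ⟨w, hw0, hw1, hwM⟩ := rounding_farkas (V := V) (ι := {c // c ∈ 𝒞})
    (fun c v => ((c.1 v).card : ℝ)) M (by
      intro y hy
      obtain ⟨c, hc, hcM⟩ := h y hy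
      exact ⟨⟨c, hmem c hc⟩, hcM⟩)
  -- colours and types
  set 𝒦 : Finset ℕ := univ.biUnion L with h𝒦
  set τ : ℕ → Finset V := fun k => univ.filter (fun v => k ∈ L v) with hτ
  set I : (V → Finset ℕ) → ℕ → Finset V := fun c k => univ.filter (fun v => k ∈ c v) with hI
  set a : Finset V → Finset V → ℝ := fun S J =>
    ∑ c : {c // c ∈ 𝒞}, w c * ((𝒦.filter (fun k => τ k = S ∧ I c.1 k = J)).card : ℝ) with ha
  have ha0 : ∀ S J, 0 ≤ a S J := fun S J =>
    sum_nonneg fun c _ => mul_nonneg (hw0 c) (Nat.cast_nonneg _)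
  set b : Finset V → Finset V → ℕ := fun S J => ⌊a S J⌋₊ with hb
  -- the number of colours of type `S`
  have hsum : ∀ S, ∑ J, a S J = ((𝒦.filter (fun k => τ k = S)).card : ℝ) := by
    intro S
    rw [ha]
    simp only
    rw [sum_comm]
    have h1 : ∀ c : {c // c ∈ 𝒞}, ∑ J, w c *
        ((𝒦.filter (fun k => τ k = S ∧ I c.1 k = J)).card : ℝ) =
        w c * ((𝒦.filter (fun k => τ k = S)).card : ℝ) := by
      intro c
      rw [← mul_sum]
      congr 1
      rw [← Nat.cast_sum]
      congr 1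
      rw [card_eq_sum_card_fiberwise (f := fun k => I c.1 k) (t := univ)
        (fun _ _ => mem_coe.2 (mem_univ _))]
      refine sum_congr rfl fun J _ => ?_
      rw [filter_filter]
    rw [sum_congr rfl fun c _ => h1 c, ← sum_mul, hw1, one_mul]
  have hbsum : ∀ S, ∑ J, b S J ≤ (𝒦.filter (fun k => τ k = S)).card := by
    intro S
    have h1 : ((∑ J, b S J : ℕ) : ℝ) ≤ ((𝒦.filter (fun k => τ k = S)).card : ℝ) := by
      rw [← hsum S, Nat.cast_sum]
      exact sum_le_sum fun J _ => Nat.floor_le (ha0 S J)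
    exact_mod_cast h1
  -- embeddings
  have hemb : ∀ S, Nonempty ((Σ J : Finset V, Fin (b S J)) ↪
      {k // k ∈ 𝒦.filter (fun k => τ k = S)}) := by
    intro S
    apply Function.Embedding.nonempty_of_card_le
    rw [Fintype.card_sigma, Fintype.card_coe]
    simpa using hbsum S
  obtain ⟨e⟩ : Nonempty (∀ S, (Σ J : Finset V, Fin (b S J)) ↪
      {k // k ∈ 𝒦.filter (fun k => τ k = S)}) := ⟨fun S => Classical.choice (hemb S)⟩
  have he𝒦 : ∀ S x, (e S x : ℕ) ∈ 𝒦 ∧ τ (e S x : ℕ) = S := fun S x => mem_filter.1 (e S x).2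
  -- used pairs are good
  have hgood : ∀ S J, (Fin (b S J)) → J ⊆ S ∧ ∀ u ∈ J, ∀ v ∈ J, ¬ G.Adj u v := by
    intro S J j
    have hpos : 0 < a S J := by
      by_contra h0
      have h1 : a S J = 0 := le_antisymm (not_lt.1 h0) (ha0 S J)
      have h2 : b S J = 0 := by rw [hb]; simp [h1]
      have h3 := j.2
      omega
    obtain ⟨c, -, hc⟩ := exists_ne_zero_of_sum_ne_zero hpos.ne'
    have h3 : ((𝒦.filter (fun k => τ k = S ∧ I c.1 k = J)).card : ℝ) ≠ 0 :=
      fun h0 => hc (by rw [h0, mul_zero])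
    have h4 : (𝒦.filter (fun k => τ k = S ∧ I c.1 k = J)).Nonempty := by
      rw [← card_pos]
      exact Nat.pos_of_ne_zero (by exact_mod_cast h3)
    obtain ⟨k, hk⟩ := h4
    obtain ⟨-, hk1, hk2⟩ := mem_filter.1 hk
    have hcc : IsPartialColoring G L c.1 := (mem_filter.1 c.2).2
    subst hk1 hk2
    constructor
    · intro v hv
      exact mem_filter.2 ⟨mem_univ v, hcc.1 v (mem_filter.1 hv).2⟩
    · intro u hu v hv huv
      exact (disjoint_left.1 (hcc.2 u v huv)) (mem_filter.1 hu).2 (mem_filter.1 hv).2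
  -- the colouring
  refine ⟨fun v => (L v).filter (fun k => ∃ x : Σ J : Finset V, Fin (b (τ k) J),
    v ∈ x.1 ∧ (e (τ k) x : ℕ) = k), ⟨fun v => filter_subset _ _, ?_⟩, ?_⟩
  · intro u v huv
    rw [disjoint_left]
    intro k hku hkv
    obtain ⟨-, x, hx, hxk⟩ := mem_filter.1 hku
    obtain ⟨-, y, hy, hyk⟩ := mem_filter.1 hkv
    have hxy : x = y := (e (τ k)).injective (Subtype.ext (hxk.trans hyk.symm))
    subst hxy
    exact (hgood (τ k) x.1 x.2).2 u hx v hy huv
  · intro v
    -- lower bound by an injection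
    set P : Finset (Finset V × Finset V) := univ.filter (fun p => v ∈ p.2) with hP
    have h1 : ∑ p ∈ P, b p.1 p.2 ≤ ((L v).filter (fun k => ∃ x : Σ J : Finset V,
        Fin (b (τ k) J), v ∈ x.1 ∧ (e (τ k) x : ℕ) = k)).card := by
      have h2 : ∑ p ∈ P, b p.1 p.2 = Fintype.card (Σ p : {p // p ∈ P}, Fin (b p.1.1 p.1.2)) := by
        rw [Fintype.card_sigma]
        simp only [Fintype.card_fin]
        exact (sum_coe_sort P (fun p => b p.1 p.2)).symm
      have hin : ∀ z : (Σ p : {p // p ∈ P}, Fin (b p.1.1 p.1.2)),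
          (e z.1.1.1 ⟨z.1.1.2, z.2⟩ : ℕ) ∈ (L v).filter (fun k => ∃ x : Σ J : Finset V,
            Fin (b (τ k) J), v ∈ x.1 ∧ (e (τ k) x : ℕ) = k) := by
        intro z
        obtain ⟨h3, h4⟩ := he𝒦 z.1.1.1 ⟨z.1.1.2, z.2⟩
        have hvJ : v ∈ z.1.1.2 := (mem_filter.1 z.1.2).2
        have h5 := (hgood z.1.1.1 z.1.1.2 z.2).1 hvJ
        rw [← h4] at h5
        refine mem_filter.2 ⟨(mem_filter.1 h5).2, ?_⟩
        rw [h4]
        exact ⟨⟨z.1.1.2, z.2⟩, hvJ, rfl⟩
      rw [h2, ← Fintype.card_coe]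
      apply Fintype.card_le_of_injective
        (fun z => (⟨(e z.1.1.1 ⟨z.1.1.2, z.2⟩ : ℕ), hin z⟩ : {k // k ∈ (L v).filter
          (fun k => ∃ x : Σ J : Finset V, Fin (b (τ k) J), v ∈ x.1 ∧ (e (τ k) x : ℕ) = k)}))
      rintro ⟨⟨⟨S, J⟩, hp⟩, j⟩ ⟨⟨⟨S', J'⟩, hp'⟩, j'⟩ hzz
      have hzz' : (e S ⟨J, j⟩ : ℕ) = e S' ⟨J', j'⟩ := congrArg Subtype.val hzz
      have hS : S = S' := by
        rw [← (he𝒦 S ⟨J, j⟩).2, ← (he𝒦 S' ⟨J', j'⟩).2, hzz']
      subst hS
      have h3 : (⟨J, j⟩ : Σ J : Finset V, Fin (b S J)) = ⟨J', j'⟩ :=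
        (e S).injective (Subtype.ext hzz')
      cases h3
      rfl
    -- the real count
    have h2 : M ≤ ∑ p ∈ P, a p.1 p.2 := by
      refine (hwM v).trans (le_of_eq ?_)
      rw [ha]
      simp only
      rw [sum_comm]
      refine sum_congr rfl fun c _ => ?_
      rw [← mul_sum]
      congr 1
      rw [← Nat.cast_sum]
      congr 1
      have hcc : IsPartialColoring G L c.1 := (mem_filter.1 c.2).2
      rw [card_eq_sum_card_fiberwise (s := c.1 v) (f := fun k => (τ k, I c.1 k)) (t := P)]
      · refine sum_congr rfl fun p hp => ?_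
        congr 1
        ext k
        simp only [mem_filter]
        constructor
        · rintro ⟨hk, rfl⟩
          exact ⟨mem_biUnion.2 ⟨v, mem_univ v, hcc.1 v hk⟩, rfl, rfl⟩
        · rintro ⟨-, hk1, hk2⟩
          refine ⟨?_, Prod.ext hk1 hk2⟩
          have hv : v ∈ p.2 := (mem_filter.1 hp).2
          rw [← hk2] at hv
          exact (mem_filter.1 hv).2
      · intro k hk
        exact mem_coe.2 (mem_filter.2 ⟨mem_univ _, mem_filter.2 ⟨mem_univ v, hk⟩⟩)
    have h3 : ∑ p ∈ P, a p.1 p.2 - 4 ^ Fintype.card V ≤ ∑ p ∈ P, (b p.1 p.2 : ℝ) := by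
      have h4 : ∑ p ∈ P, (a p.1 p.2 - 1) ≤ ∑ p ∈ P, (b p.1 p.2 : ℝ) :=
        sum_le_sum fun p _ => (Nat.sub_one_lt_floor _).le
      have h5 : (P.card : ℝ) ≤ 4 ^ Fintype.card V := by
        have h6 : P.card ≤ Fintype.card (Finset V × Finset V) := card_le_univ P
        have h7 : Fintype.card (Finset V × Finset V) = 4 ^ Fintype.card V := by
          rw [Fintype.card_prod, Fintype.card_finset, ← mul_pow]
          norm_num
        rw [h7] at h6
        exact_mod_cast h6
      rw [sum_sub_distrib, sum_const, nsmul_eq_mul, mul_one] at h4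
      linarith
    have h4 : (∑ p ∈ P, (b p.1 p.2 : ℝ)) ≤ (((L v).filter (fun k => ∃ x : Σ J : Finset V,
        Fin (b (τ k) J), v ∈ x.1 ∧ (e (τ k) x : ℕ) = k)).card : ℝ) := by
      exact_mod_cast h1
    linarith

end Pool.Agent.TFP
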