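import Pool.Agent.TFP.LayerDefs
import Pool.Agent.TFP.Rounding

/-!
# Two stable sets, the layer-cake inequality, and the key lemma when `out ≤ 1`
-/

set_option autoImplicit false

namespace Pool.Agent.TFP

open Finset

open Classical in
/-- The number of ordered adjacent pairs inside `X` as a double sum. -/
theorem inner_eq_sum {V : Type} [Fintype V] (G : SimpleGraph V) (X : Finset V) :
    (inner G X : ℝ) = ∑ u ∈ X, ∑ v ∈ X, if G.Adj u v then (1 : ℝ) else 0 := by
  unfold inner
  rw [Nat.card_eq_fintype_card, Fintype.card_subtype]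
  have h : (univ.filter fun p : V × V => G.Adj p.1 p.2 ∧ p.1 ∈ X ∧ p.2 ∈ X) =
      (X ×ˢ X).filter (fun p => G.Adj p.1 p.2) := by
    ext p; simp only [mem_filter, mem_univ, true_and, mem_product]; tauto
  rw [h, card_filter, sum_product]
  push_cast
  rfl

open Classical in
theorem layer_cake_aux {V : Type} (G : SimpleGraph V) (h : V → ℝ)
    (hh : ∀ S : Finset V, (∑ u ∈ S, ∑ v ∈ S, if G.Adj u v then (1 : ℝ) else 0) ≤ ∑ v ∈ S, h v)
    (X : Finset V) :
    ∀ y : V → ℝ, (∀ v ∈ X, 0 ≤ y v) →
      ∑ u ∈ X, ∑ v ∈ X, (if G.Adj u v then min (y u) (y v) else 0) ≤ ∑ v ∈ X, y v * h v := by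
  induction X using Finset.strongInduction with
  | H X ih =>
    intro y hy
    rcases X.eq_empty_or_nonempty with rfl | hne
    · simp
    obtain ⟨v₀, hv₀, hmin⟩ := exists_min_image X y hne
    set t := y v₀ with ht
    have key := ih (X.erase v₀) (erase_ssubset hv₀) (fun v => y v - t) (by
      intro v hv
      have := hmin v (mem_of_mem_erase hv)
      linarith)
    have h1 : ∑ u ∈ X, ∑ v ∈ X, (if G.Adj u v then min (y u) (y v) else 0) =
        t * (∑ u ∈ X, ∑ v ∈ X, if G.Adj u v then (1 : ℝ) else 0) +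
        ∑ u ∈ X, ∑ v ∈ X, (if G.Adj u v then min (y u - t) (y v - t) else 0) := by
      rw [mul_sum, ← sum_add_distrib]
      refine sum_congr rfl fun u _ => ?_
      rw [mul_sum, ← sum_add_distrib]
      refine sum_congr rfl fun v _ => ?_
      by_cases ha : G.Adj u v
      · simp only [ha, if_true]
        rw [min_sub_sub_right]; ring
      · simp [ha]
    have h2 : ∑ u ∈ X, ∑ v ∈ X, (if G.Adj u v then min (y u - t) (y v - t) else 0) =
        ∑ u ∈ X.erase v₀, ∑ v ∈ X.erase v₀,
          (if G.Adj u v then min (y u - t) (y v - t) else 0) := by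
      rw [← add_sum_erase X _ hv₀]
      have h3 : ∑ v ∈ X, (if G.Adj v₀ v then min (y v₀ - t) (y v - t) else 0) = 0 := by
        refine sum_eq_zero fun v hv => ?_
        split_ifs
        · have := hmin v hv
          rw [min_eq_left (by linarith), ← ht, sub_self]
        · rfl
      rw [h3, zero_add]
      refine sum_congr rfl fun u hu => ?_
      rw [← add_sum_erase X _ hv₀]
      have h4 : (if G.Adj u v₀ then min (y u - t) (y v₀ - t) else 0) = 0 := by
        split_ifs
        · have := hmin u (mem_of_mem_erase hu)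
          rw [min_eq_right (by linarith), ← ht, sub_self]
        · rfl
      rw [h4, zero_add]
    have h5 : ∑ v ∈ X, y v * h v = t * ∑ v ∈ X, h v + ∑ v ∈ X.erase v₀, (y v - t) * h v := by
      have : ∑ v ∈ X.erase v₀, (y v - t) * h v = ∑ v ∈ X, (y v - t) * h v := by
        rw [← add_sum_erase X _ hv₀, ← ht, sub_self, zero_mul, zero_add]
      rw [this, mul_sum, ← sum_add_distrib]
      refine sum_congr rfl fun v _ => ?_
      ring
    rw [h1, h2, h5]
    have ht0 : 0 ≤ t := hy v₀ hv₀
    have := mul_le_mul_of_nonneg_left (hh X) ht0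
    linarith

/-- D2. Layer-cake lemma. -/
theorem layer_cake {V : Type} [Fintype V] (G : SimpleGraph V) (b : V → ℝ)
    (hb : ∀ U : Finset V, (inner G U : ℝ) ≤ 2 * ∑ u ∈ U, b u) (y : V → ℝ) (hy : ∀ v, 0 ≤ y v) :
    ∑ u, ∑ v, (open Classical in if G.Adj u v then min (y u) (y v) else 0) ≤
      2 * ∑ v, b v * y v := by
  classical
  have h := layer_cake_aux G (fun v => 2 * b v) (fun S => by
    have := hb S
    rw [inner_eq_sum] at this
    rw [← mul_sum]
    exact this) univ y (fun v _ => hy v)
  refine h.trans (le_of_eq ?_)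
  rw [mul_sum]
  refine sum_congr rfl fun v _ => ?_
  ring

/-- D1. Two stable sets, from a light bipartizing set: delete the lighter end of each edge inside
a part. -/
theorem two_stable {V : Type} [Fintype V] (G : SimpleGraph V) (hG : HasCuts G) (y : V → ℝ)
    (hy : ∀ v, 0 ≤ y v) :
    ∃ A B : Finset V, (∀ u ∈ A, ∀ v ∈ A, ¬ G.Adj u v) ∧ (∀ u ∈ B, ∀ v ∈ B, ¬ G.Adj u v) ∧
      ∑ v, y v - (1 / 10) * ∑ u, ∑ v, (open Classical in if G.Adj u v then min (y u) (y v) else 0)
        ≤ ∑ v ∈ A, y v + ∑ v ∈ B, y v := by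
  classical
  set w : V → V → ℝ := fun u v => if G.Adj u v then min (y u) (y v) else 0 with hw
  have hw0 : ∀ u v, 0 ≤ w u v := by
    intro u v; simp only [hw]; split_ifs
    · exact le_min (hy u) (hy v)
    · exact le_refl _
  have hws : ∀ u v, w u v = w v u := by
    intro u v; simp only [hw]
    by_cases h : G.Adj u v
    · rw [if_pos h, if_pos h.symm, min_comm]
    · rw [if_neg h, if_neg (fun h' => h h'.symm)]
  obtain ⟨c, hcut⟩ := hG w hw0 hws (by
    intro u v h; simp only [hw]; rw [if_neg h])
  let e := Fintype.equivFin V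
  let beats : V → V → Prop := fun u v => y v < y u ∨ (y v = y u ∧ e v < e u)
  have hbeats_tri : ∀ u v, u ≠ v → beats u v ∨ beats v u := by
    intro u v huv
    rcases lt_trichotomy (y u) (y v) with h | h | h
    · exact Or.inr (Or.inl h)
    · rcases lt_trichotomy (e u) (e v) with h' | h' | h'
      · exact Or.inr (Or.inr ⟨h, h'⟩)
      · exact absurd (e.injective h') huv
      · exact Or.inl (Or.inr ⟨h.symm, h'⟩)
    · exact Or.inl (Or.inl h)
  have hbeats_asymm : ∀ u v, beats u v → ¬ beats v u := by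
    intro u v h h'
    rcases h with h | ⟨h, h2⟩ <;> rcases h' with h' | ⟨h', h2'⟩
    · linarith
    · linarith
    · linarith
    · exact lt_asymm h2 h2'
  have hbeats_min : ∀ u v, beats u v → min (y u) (y v) = y v := by
    intro u v h
    rcases h with h | ⟨h, _⟩
    · exact min_eq_right h.le
    · exact min_eq_right h.le
  let I : Bool → Finset V := fun b =>
    univ.filter (fun v => c v = b ∧ ∀ u, G.Adj u v → c u = b → ¬ beats u v)
  have hIstab : ∀ b, ∀ u ∈ I b, ∀ v ∈ I b, ¬ G.Adj u v := by
    intro b u hu v hv ha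
    simp only [I, mem_filter, mem_univ, true_and] at hu hv
    rcases hbeats_tri u v ha.ne with h | h
    · exact hv.2 u ha hu.1 h
    · exact hu.2 v ha.symm hv.1 h
  have hloss : ∑ v, y v ≤ ∑ v ∈ I true, y v + ∑ v ∈ I false, y v +
      ∑ u, ∑ v, (if c u = c v ∧ beats u v then w u v else 0) := by
    have h1 : ∀ v, y v ≤ (if v ∈ I true then y v else 0) + (if v ∈ I false then y v else 0) +
        ∑ u, (if c u = c v ∧ beats u v then w u v else 0) := by
      intro v
      have hnn : 0 ≤ ∑ u, (if c u = c v ∧ beats u v then w u v else 0) := by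
        refine sum_nonneg fun u _ => ?_
        split_ifs
        · exact hw0 _ _
        · exact le_refl _
      have hn1 : (0 : ℝ) ≤ (if v ∈ I true then y v else 0) := by
        split_ifs
        · exact hy v
        · exact le_refl _
      have hn2 : (0 : ℝ) ≤ (if v ∈ I false then y v else 0) := by
        split_ifs
        · exact hy v
        · exact le_refl _
      by_cases hI : v ∈ I (c v)
      · have hcv : c v = true ∨ c v = false := by cases c v <;> simp
        rcases hcv with hcv | hcv
        · rw [hcv] at hI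
          have h0 : (if v ∈ I true then y v else 0) = y v := if_pos hI
          linarith
        · rw [hcv] at hI
          have h0 : (if v ∈ I false then y v else 0) = y v := if_pos hI
          linarith
      · have hI' : ¬ ∀ u, G.Adj u v → c u = c v → ¬ beats u v := by
          intro h
          exact hI (mem_filter.2 ⟨mem_univ _, rfl, h⟩)
        push Not at hI'
        obtain ⟨u, ha, hcu, hb⟩ := hI'
        have hle : w u v ≤ ∑ u, (if c u = c v ∧ beats u v then w u v else 0) := by
          have := single_le_sum (f := fun u => if c u = c v ∧ beats u v then w u v else 0)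
            (s := univ) (by
              intro x _; split_ifs
              · exact hw0 _ _
              · exact le_refl _) (mem_univ u)
          simpa [hcu, hb] using this
        have hwuv : w u v = y v := by
          simp only [hw]; rw [if_pos ha, hbeats_min u v hb]
        linarith
    have h2 := sum_le_sum (s := univ) (fun v _ => h1 v)
    rw [sum_add_distrib, sum_add_distrib] at h2
    have h3 : ∀ b, ∑ v, (if v ∈ I b then y v else 0) = ∑ v ∈ I b, y v := by
      intro b
      rw [← sum_filter]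
      refine sum_congr ?_ fun _ _ => rfl
      ext v; simp
    rw [h3, h3] at h2
    rw [sum_comm (s := univ) (t := univ)
      (f := fun u v => if c u = c v ∧ beats u v then w u v else 0)]
    linarith
  have hhalf : 2 * ∑ u, ∑ v, (if c u = c v ∧ beats u v then w u v else 0) ≤
      ∑ u, ∑ v, (if c u = c v then w u v else 0) := by
    have h1 : ∑ u, ∑ v, (if c u = c v ∧ beats u v then w u v else 0) =
        ∑ u, ∑ v, (if c u = c v ∧ beats v u then w u v else 0) := by
      rw [sum_comm]
      refine sum_congr rfl fun u _ => sum_congr rfl fun v _ => ?_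
      by_cases h : c v = c u ∧ beats v u
      · rw [if_pos h, if_pos ⟨h.1.symm, h.2⟩, hws]
      · rw [if_neg h, if_neg (fun h' => h ⟨h'.1.symm, h'.2⟩)]
    calc 2 * ∑ u, ∑ v, (if c u = c v ∧ beats u v then w u v else 0)
        = ∑ u, ∑ v, (if c u = c v ∧ beats u v then w u v else 0) +
          ∑ u, ∑ v, (if c u = c v ∧ beats v u then w u v else 0) := by rw [← h1]; ring
      _ = ∑ u, ∑ v, ((if c u = c v ∧ beats u v then w u v else 0) +
          (if c u = c v ∧ beats v u then w u v else 0)) := by
          simp only [sum_add_distrib]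
      _ ≤ ∑ u, ∑ v, (if c u = c v then w u v else 0) := by
          refine sum_le_sum fun u _ => sum_le_sum fun v _ => ?_
          by_cases hcc : c u = c v
          · by_cases hb : beats u v
            · have := hbeats_asymm u v hb
              simp [hcc, hb, this]
            · by_cases hb' : beats v u
              · simp [hcc, hb, hb']
              · simp only [hcc, hb, hb', and_false, if_false, if_true, add_zero]
                exact hw0 _ _
          · simp [hcc]
  refine ⟨I true, I false, hIstab _, hIstab _, ?_⟩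
  have hfin : ∑ u, ∑ v, w u v = ∑ u, ∑ v, (if G.Adj u v then min (y u) (y v) else 0) := rfl
  rw [← hfin]
  linarith

/-- The set of the vertices whose list contains a given colour. -/
theorem sum_colours {V : Type} [Fintype V] [DecidableEq V] (L : V → Finset ℕ) (A : V → ℝ) :
    ∑ c ∈ univ.biUnion L, ∑ v ∈ univ.filter (fun v => c ∈ L v), A v =
      ∑ v, ((L v).card : ℝ) * A v := by
  classical
  have h1 : ∀ c ∈ univ.biUnion L, ∑ v ∈ univ.filter (fun v => c ∈ L v), A v =
      ∑ v, if c ∈ L v then A v else 0 := fun c _ => sum_filter _ _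
  rw [sum_congr rfl h1, sum_comm]
  refine sum_congr rfl fun v _ => ?_
  rw [← sum_filter, sum_const, nsmul_eq_mul]
  congr 2
  congr 1
  ext c
  simp only [mem_filter, mem_biUnion, mem_univ, true_and]
  exact ⟨fun h => h.2, fun h => ⟨⟨v, h⟩, h⟩⟩

theorem sum_colours₂ {V : Type} [Fintype V] [DecidableEq V] (L : V → Finset ℕ)
    (A : V → V → ℝ) :
    ∑ c ∈ univ.biUnion L, ∑ u, ∑ v, (if c ∈ L u ∧ c ∈ L v then A u v else 0) =
      ∑ u, ∑ v, ((L u ∩ L v).card : ℝ) * A u v := by
  classical
  rw [sum_comm]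
  refine sum_congr rfl fun u _ => ?_
  rw [sum_comm]
  refine sum_congr rfl fun v _ => ?_
  rw [← sum_filter, sum_const, nsmul_eq_mul]
  congr 2
  congr 1
  ext c
  simp only [mem_filter, mem_biUnion, mem_univ, true_and, mem_inter]
  exact ⟨fun h => h.2, fun h => ⟨⟨u, h.1⟩, h⟩⟩

/-- Restriction of a weighting to the vertices whose list contains a colour, and the better of the
two stable sets. -/
theorem half_stable {V : Type} [Fintype V] [DecidableEq V] (G : SimpleGraph V) (hG : HasCuts G)
    (y : V → ℝ) (hy : ∀ v, 0 ≤ y v) (S : Finset V) :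
    ∃ I : Finset V, I ⊆ S ∧ (∀ u ∈ I, ∀ v ∈ I, ¬ G.Adj u v) ∧
      ∑ v ∈ S, y v - (1 / 10) * ∑ u, ∑ v, (if u ∈ S ∧ v ∈ S then
        (open Classical in if G.Adj u v then min (y u) (y v) else 0) else 0) ≤
        2 * ∑ v ∈ I, y v := by
  classical
  set y' : V → ℝ := fun v => if v ∈ S then y v else 0 with hy'
  have hy'0 : ∀ v, 0 ≤ y' v := by
    intro v; simp only [hy']; split_ifs
    · exact hy v
    · exact le_refl _
  obtain ⟨A, B, hA, hB, hAB⟩ := two_stable G hG y' hy'0
  have e1 : ∑ v, y' v = ∑ v ∈ S, y v := by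
    simp only [hy', ← sum_filter]
    congr 1; ext; simp
  have e2 : ∀ u v, (if G.Adj u v then min (y' u) (y' v) else 0) =
      (if u ∈ S ∧ v ∈ S then (if G.Adj u v then min (y u) (y v) else 0) else 0) := by
    intro u v
    by_cases hu : u ∈ S
    · by_cases hv : v ∈ S
      · simp [hy', hu, hv]
      · simp only [hy', hu, hv, if_true, if_false, and_false, min_eq_right (hy u), ite_self]
    · by_cases hv : v ∈ S
      · simp only [hy', hu, hv, if_true, if_false, false_and, min_eq_left (hy v), ite_self]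
      · simp only [hy', hu, hv, if_false, false_and, min_self, ite_self]
  have e3 : ∀ I : Finset V, ∑ v ∈ I, y' v = ∑ v ∈ I ∩ S, y v := by
    intro I
    simp only [hy', ← sum_filter]
    congr 1
  rw [e1, sum_congr rfl fun u _ => sum_congr rfl fun v _ => e2 u v, e3, e3] at hAB
  rcases le_total (∑ v ∈ A ∩ S, y v) (∑ v ∈ B ∩ S, y v) with h | h
  · refine ⟨B ∩ S, inter_subset_right, fun u hu v hv => hB u (mem_inter.1 hu).1 v
      (mem_inter.1 hv).1, by linarith⟩
  · refine ⟨A ∩ S, inter_subset_right, fun u hu v hv => hA u (mem_inter.1 hu).1 v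
      (mem_inter.1 hv).1, by linarith⟩

/-- The weighted inequality behind `key0`. -/
theorem key0_bound (ε : ℝ) (hε : 0 < ε) (hε1 : ε ≤ 1 / 2) (m : ℕ) (hm : 5 ≤ ε * m)
    {V : Type} [Fintype V] (G : SimpleGraph V) (hG : HasCuts G) (out : V → ℕ)
    (hout1 : ∀ v, out v ≤ 1)
    (hout : ∀ S : Finset V, (inner G S : ℝ) + 2 * ∑ v ∈ S, (out v : ℝ) ≤ (4 + ε) * S.card)
    (L : V → Finset ℕ) (hL1 : ∀ v, (7 / 2 + ε - out v) * (m : ℝ) ≤ ((L v).card : ℝ))
    (hL2 : ∀ v, ((L v).card : ℝ) ≤ (7 / 2 + ε - out v) * (m : ℝ) + 1)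
    (y : V → ℝ) (hy : ∀ v, 0 ≤ y v) :
    ∃ c : V → Finset ℕ, IsPartialColoring G L c ∧
      (1 + 3 * ε / 20) * m * ∑ v, y v ≤ ∑ v, y v * ((c v).card : ℝ) := by
  classical
  choose Ist hsub hst hIst using fun S : Finset V => half_stable G hG y hy S
  let S : ℕ → Finset V := fun c => univ.filter fun v => c ∈ L v
  let c : V → Finset ℕ := fun v => (univ.biUnion L).filter fun x => v ∈ Ist (S x)
  have hcpc : IsPartialColoring G L c := by
    constructor
    · intro v x hx
      have h1 := hsub _ (mem_filter.1 hx).2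
      exact (mem_filter.1 h1).2
    · intro u v huv
      rw [disjoint_left]
      intro x hx hx'
      exact hst _ u (mem_filter.1 hx).2 v (mem_filter.1 hx').2 huv
  refine ⟨c, hcpc, ?_⟩
  have hweight : ∑ v, y v * ((c v).card : ℝ) = ∑ x ∈ univ.biUnion L, ∑ v ∈ Ist (S x), y v := by
    have h1 : ∀ v, y v * ((c v).card : ℝ) =
        ∑ x ∈ univ.biUnion L, if v ∈ Ist (S x) then y v else 0 := by
      intro v
      rw [← sum_filter, sum_const, nsmul_eq_mul, mul_comm]
    rw [sum_congr rfl fun v _ => h1 v, sum_comm]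
    refine sum_congr rfl fun x _ => ?_
    rw [← sum_filter]
    congr 1; ext; simp
  rw [hweight]
  set A : V → V → ℝ := fun u v => if G.Adj u v then min (y u) (y v) else 0 with hA
  have hA0 : ∀ u v, 0 ≤ A u v := by
    intro u v; simp only [hA]; split_ifs
    · exact le_min (hy u) (hy v)
    · exact le_refl _
  set h : V → ℝ := fun v => 4 + ε - 2 * out v with hh
  have hlayer : ∀ X : Finset V, ∑ u ∈ X, ∑ v ∈ X, A u v ≤ ∑ v ∈ X, y v * h v := by
    intro X
    refine layer_cake_aux G h ?_ X y (fun v _ => hy v)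
    intro S
    have := hout S
    rw [inner_eq_sum] at this
    simp only [hh, sum_sub_distrib, sum_const, nsmul_eq_mul]
    rw [← mul_sum]
    linarith
  have hsum := sum_le_sum (s := univ.biUnion L) (fun x _ => hIst (S x))
  rw [← mul_sum, sum_sub_distrib, ← mul_sum, sum_colours L y] at hsum
  have hS : ∀ x, ∑ u, ∑ v, (if u ∈ S x ∧ v ∈ S x then A u v else 0) =
      ∑ u, ∑ v, (if x ∈ L u ∧ x ∈ L v then A u v else 0) := by
    intro x
    refine sum_congr rfl fun u _ => sum_congr rfl fun v _ => ?_
    simp only [S, mem_filter, mem_univ, true_and]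
  have hsum2 : ∑ x ∈ univ.biUnion L, ∑ u, ∑ v, (if u ∈ S x ∧ v ∈ S x then
        (open Classical in if G.Adj u v then min (y u) (y v) else 0) else 0) =
      ∑ u, ∑ v, ((L u ∩ L v).card : ℝ) * A u v := by
    rw [← sum_colours₂ L A]
    exact sum_congr rfl fun x _ => hS x
  rw [hsum2] at hsum
  have hpair : ∑ u, ∑ v, ((L u ∩ L v).card : ℝ) * A u v ≤
      ∑ v, y v * ((7 / 2 + ε - out v) * m * h v + h v) := by
    have h1 : ∀ u v, ((L u ∩ L v).card : ℝ) * A u v ≤
        m * ((5 / 2 + ε) * A u v + (if out u = 0 ∧ out v = 0 then A u v else 0)) + A u v := by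
      intro u v
      have hu := hout1 u
      have hv := hout1 v
      have c1 : ((L u ∩ L v).card : ℝ) ≤ (L u).card := by
        exact_mod_cast card_le_card inter_subset_left
      have c2 : ((L u ∩ L v).card : ℝ) ≤ (L v).card := by
        exact_mod_cast card_le_card inter_subset_right
      have c3 := hL2 u
      have c4 := hL2 v
      have hA := hA0 u v
      have key : ((L u ∩ L v).card : ℝ) ≤ m * ((5 / 2 + ε) +
          (if out u = 0 ∧ out v = 0 then 1 else 0)) + 1 := by
        interval_cases hou : out u <;> interval_cases hov : out v <;>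
          norm_num at c3 c4 ⊢ <;> nlinarith
      have := mul_le_mul_of_nonneg_right key hA
      refine this.trans (le_of_eq ?_)
      split_ifs <;> ring
    refine (sum_le_sum fun u _ => sum_le_sum fun v _ => h1 u v).trans ?_
    have h2 : ∑ u, ∑ v, (m * ((5 / 2 + ε) * A u v +
          (if out u = 0 ∧ out v = 0 then A u v else 0)) + A u v) =
        m * ((5 / 2 + ε) * ∑ u, ∑ v, A u v +
          ∑ u ∈ univ.filter (fun v => out v = 0), ∑ v ∈ univ.filter (fun v => out v = 0), A u v) +
        ∑ u, ∑ v, A u v := by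
      have e1 : ∀ (P : V → Prop) [DecidablePred P],
          ∑ u ∈ univ.filter P, ∑ v ∈ univ.filter P, A u v =
          ∑ u, ∑ v, (if P u ∧ P v then A u v else 0) := by
        intro P _
        rw [sum_filter]
        refine sum_congr rfl fun u _ => ?_
        by_cases hu : P u
        · simp only [hu, if_true, true_and]
          exact sum_filter _ _
        · simp [hu]
      rw [e1]
      simp only [sum_add_distrib, mul_sum, mul_add]
    rw [h2]
    have l1 := hlayer univ
    have l3 := hlayer (univ.filter (fun v => out v = 0))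
    rw [show ∑ v ∈ univ.filter (fun v => out v = 0), y v * h v =
      ∑ v, (if out v = 0 then y v * h v else 0) from sum_filter _ _] at l3
    have hm0 : (0 : ℝ) ≤ m := Nat.cast_nonneg _
    have h3 : ∑ v, y v * ((7 / 2 + ε - out v) * m * h v + h v) =
        m * ((5 / 2 + ε) * ∑ v, y v * h v +
          ∑ v, (if out v = 0 then y v * h v else 0)) + ∑ v, y v * h v := by
      rw [mul_sum, ← sum_add_distrib, mul_sum, ← sum_add_distrib]
      refine sum_congr rfl fun v _ => ?_
      have hv := hout1 v
      interval_cases hov : out v <;> norm_num <;> ring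
    rw [h3]
    have := mul_le_mul_of_nonneg_left (add_le_add
      (mul_le_mul_of_nonneg_left l1 (by linarith : (0 : ℝ) ≤ 5 / 2 + ε)) l3) hm0
    linarith
  have hm0 : (0 : ℝ) ≤ m := Nat.cast_nonneg _
  have hfin : (1 + 3 * ε / 20) * m * ∑ v, y v ≤ ∑ v, ((1 / 2) * (((L v).card : ℝ) * y v) -
      (1 / 20) * (y v * ((7 / 2 + ε - out v) * m * h v + h v))) := by
    rw [mul_sum]
    refine sum_le_sum fun v _ => ?_
    have hv := hout1 v
    have c1 := hL1 v
    have hyv := hy v
    have key : (1 + 3 * ε / 20) * (m : ℝ) ≤ (1 / 2) * ((L v).card : ℝ) -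
        (1 / 20) * ((7 / 2 + ε - out v) * m * h v + h v) := by
      have hmε : 0 ≤ ε * m := by linarith
      have hmε2 : ε * (ε * m) ≤ (1 / 2) * (ε * m) := mul_le_mul_of_nonneg_right hε1 hmε
      have hmε3 : ε * m ≤ (1 / 2) * m := mul_le_mul_of_nonneg_right hε1 hm0
      simp only [hh]
      interval_cases hov : out v <;> norm_num at c1 ⊢ <;> nlinarith
    have := mul_le_mul_of_nonneg_right key hyv
    refine this.trans (le_of_eq ?_)
    ring
  rw [sum_sub_distrib, ← mul_sum, ← mul_sum] at hfin
  linarith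

/-- D4. Key lemma when `out ≤ 1`. -/
theorem key0 (ε : ℝ) (hε : 0 < ε) (hε1 : ε ≤ 1 / 2) : ∃ δ : ℝ, 0 < δ ∧ ∃ η : ℝ, 0 < η ∧
    ∀ K : ℕ, ∃ m₀ : ℕ, ∀ m : ℕ, m₀ ≤ m →
    ∀ (V : Type) [Fintype V] (G : SimpleGraph V), HasCuts G →
      Fintype.card V ≤ K → ∀ out : V → ℕ, (∀ v, out v ≤ 1) →
      (∀ S : Finset V, (inner G S : ℝ) + 2 * ∑ v ∈ S, (out v : ℝ) ≤ (4 + δ) * S.card) →
      ∀ L : V → Finset ℕ, (∀ v, (7 / 2 + ε - out v) * (m : ℝ) ≤ ((L v).card : ℝ)) →
      ∃ c : V → Finset ℕ, IsPartialColoring G L c ∧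
        ∀ v, (1 + η) * (m : ℝ) ≤ ((c v).card : ℝ) := by
  classical
  refine ⟨ε, hε, ε / 10, by linarith, fun K => ⟨⌈(20 * 4 ^ K + 5) / ε⌉₊, ?_⟩⟩
  intro m hm V _ G hG hcard out hout1 hout L hL
  have hm' : (20 * 4 ^ K + 5) / ε ≤ m := (Nat.le_ceil _).trans (by exact_mod_cast hm)
  rw [div_le_iff₀ hε] at hm'
  have h4 : (0 : ℝ) < 4 ^ K := by positivity
  have hceil : ∀ v, ⌈(7 / 2 + ε - out v) * (m : ℝ)⌉₊ ≤ (L v).card :=
    fun v => Nat.ceil_le.2 (hL v)
  choose L' hL'1 hL'2 using fun v => exists_subset_card_eq (hceil v)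
  have hb1 : ∀ v, (7 / 2 + ε - out v) * (m : ℝ) ≤ ((L' v).card : ℝ) := by
    intro v
    rw [hL'2 v]
    exact Nat.le_ceil _
  have hb2 : ∀ v, ((L' v).card : ℝ) ≤ (7 / 2 + ε - out v) * (m : ℝ) + 1 := by
    intro v
    rw [hL'2 v]
    have h1 : (0 : ℝ) ≤ (7 / 2 + ε - out v) * (m : ℝ) := by
      have : (out v : ℝ) ≤ 1 := by exact_mod_cast hout1 v
      exact mul_nonneg (by linarith) (Nat.cast_nonneg _)
    exact (Nat.ceil_lt_add_one h1).le
  obtain ⟨c, hc, hcM⟩ := rounding G L' ((1 + 3 * ε / 20) * m) (fun y hy =>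
    key0_bound ε hε hε1 m (by linarith) G hG out hout1 hout L' hb1 hb2 y hy)
  refine ⟨c, ⟨fun v => (hc.1 v).trans (hL'1 v), hc.2⟩, fun v => le_trans ?_ (hcM v)⟩
  have h1 : (4 : ℝ) ^ Fintype.card V ≤ 4 ^ K := pow_le_pow_right₀ (by norm_num) hcard
  linarith

end Pool.Agent.TFP
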