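import Pool.Agent.TFP.LayerDefs

/-!
# Peeling and greedy colouring of the first layers
-/

set_option autoImplicit false

namespace Pool.Agent.TFP

open Finset

section

set_option linter.unusedSectionVars false

variable {V : Type} [Fintype V] (G : SimpleGraph V)

open Classical in
/-- neighbours of `u` in `X` -/
noncomputable def nbIn (X : Finset V) (u : V) : Finset V := X.filter (fun v => G.Adj u v)

theorem mem_nbIn (X : Finset V) (u v : V) : v ∈ nbIn G X u ↔ v ∈ X ∧ G.Adj u v := by
  simp [nbIn]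

theorem inner_eq_sum_nbIn (X : Finset V) : inner G X = ∑ u ∈ X, (nbIn G X u).card := by
  classical
  rw [inner, ← Finset.card_sigma, ← Nat.card_eq_finsetCard]
  refine Nat.card_congr ⟨fun p => ⟨⟨p.1.1, p.1.2⟩, ?_⟩, fun p => ⟨(p.1.1, p.1.2), ?_⟩, ?_, ?_⟩
  · rw [Finset.mem_sigma, mem_nbIn]
    exact ⟨p.2.2.1, p.2.2.2, p.2.1⟩
  · have h := p.2
    rw [Finset.mem_sigma, mem_nbIn] at h
    exact ⟨h.2.2, h.1, h.2.1⟩
  · intro p
    rfl
  · intro p
    rfl

theorem sum_nbIn_comm (X Y : Finset V) :
    ∑ u ∈ X, (nbIn G Y u).card = ∑ v ∈ Y, (nbIn G X v).card := by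
  classical
  simp only [nbIn, Finset.card_filter]
  rw [Finset.sum_comm]
  simp only [G.adj_comm]

theorem nbIn_union_card (X Y : Finset V) (h : Disjoint X Y) (u : V) :
    (nbIn G (open Classical in X ∪ Y) u).card = (nbIn G X u).card + (nbIn G Y u).card := by
  classical
  rw [← Finset.card_union_of_disjoint]
  · congr 1
    ext v
    simp only [mem_nbIn, Finset.mem_union]
    tauto
  · rw [Finset.disjoint_left] at h ⊢
    intro v hv hv'
    rw [mem_nbIn] at hv hv'
    exact h hv.1 hv'.1

theorem outS_eq (out : V → ℕ) (S : Finset V) (v : V) :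
    outS G out S v = out v + (nbIn G (open Classical in Sᶜ) v).card := by
  classical
  rw [outS, nbIn]
  congr 2
  ext w
  simp

theorem shrink_subset (out : V → ℕ) (S : Finset V) : shrink G out S ⊆ S :=
  Finset.filter_subset _ _

theorem mem_shrink (out : V → ℕ) (S : Finset V) (v : V) :
    v ∈ shrink G out S ↔ v ∈ S ∧ outS G out S v ≤ 1 := by
  simp [shrink]

/-- D5. Peeling. -/
theorem peel (out : V → ℕ) (δ : ℝ) (hδ : 0 ≤ δ)
    (hδ1 : δ ≤ 1 / 2) (S : Finset V) (h : SparseOn G out δ S) :
    SparseOn G out (4 * δ) (shrink G out S) ∧ (∀ v ∈ S, outS G out S v ≤ 2) ∧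
      ∀ u ∈ S, ∀ v ∈ S, u ∉ shrink G out S → v ∉ shrink G out S → ¬ G.Adj u v := by
  classical
  have hbig : ∀ v ∈ S, v ∉ shrink G out S → 2 ≤ outS G out S v := by
    intro v hv hv'
    rw [mem_shrink] at hv'
    by_contra hcon
    exact hv' ⟨hv, by omega⟩
  have hstab : ∀ u ∈ S, ∀ v ∈ S, u ∉ shrink G out S → v ∉ shrink G out S → ¬ G.Adj u v := by
    intro u hu v hv hu' hv' hadj
    have h1 := h {u, v} (by
      intro x hx
      simp only [Finset.mem_insert, Finset.mem_singleton] at hx
      rcases hx with rfl | rfl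
      · exact hu
      · exact hv)
    have huv : u ≠ v := G.ne_of_adj hadj
    rw [Finset.sum_pair huv, Finset.card_pair huv, inner_eq_sum_nbIn, Finset.sum_pair huv] at h1
    have h2 : 1 ≤ (nbIn G {u, v} u).card := by
      rw [Nat.one_le_iff_ne_zero, Finset.card_ne_zero]
      exact ⟨v, by rw [mem_nbIn]; exact ⟨by simp, hadj⟩⟩
    have h3 : 1 ≤ (nbIn G {u, v} v).card := by
      rw [Nat.one_le_iff_ne_zero, Finset.card_ne_zero]
      exact ⟨u, by rw [mem_nbIn]; exact ⟨by simp, hadj.symm⟩⟩
    have h4 : (2 : ℝ) ≤ outS G out S u := by exact_mod_cast hbig u hu hu'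
    have h5 : (2 : ℝ) ≤ outS G out S v := by exact_mod_cast hbig v hv hv'
    have h2' : (1 : ℝ) ≤ (nbIn G {u, v} u).card := by exact_mod_cast h2
    have h3' : (1 : ℝ) ≤ (nbIn G {u, v} v).card := by exact_mod_cast h3
    push_cast at h1
    linarith
  refine ⟨?_, ?_, hstab⟩
  · intro U hU
    set S' := shrink G out S with hS'
    set W : Finset V := S.filter (fun v => v ∉ S') with hW
    have hUS : U ⊆ S := hU.trans (shrink_subset G out S)
    have hUW : Disjoint U W := by
      rw [Finset.disjoint_left]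
      intro x hx hx'
      rw [hW, Finset.mem_filter] at hx'
      exact hx'.2 (hU hx)
    have hout : ∀ v, outS G out S' v = outS G out S v + (nbIn G W v).card := by
      intro v
      rw [outS_eq, outS_eq, add_assoc, ← nbIn_union_card]
      · congr 3
        ext x
        simp only [Finset.mem_compl, Finset.mem_union, hW, Finset.mem_filter]
        have h1 : x ∈ S' → x ∈ S := fun hx => shrink_subset G out S hx
        tauto
      · rw [Finset.disjoint_left]
        intro x hx hx'
        rw [hW, Finset.mem_filter] at hx'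
        rw [Finset.mem_compl] at hx
        exact hx hx'.1
    set Γ : Finset V := W.filter (fun w => (nbIn G U w).Nonempty) with hΓ
    have hmemΓ : ∀ x, x ∈ Γ ↔ x ∈ W ∧ (nbIn G U x).Nonempty := fun x => Finset.mem_filter
    have hΓW : Γ ⊆ W := Finset.filter_subset _ _
    have hΓS : Γ ⊆ S := hΓW.trans (Finset.filter_subset _ _)
    have hUΓ : Disjoint U Γ := Finset.disjoint_of_subset_right hΓW hUW
    set z : ℕ := ∑ v ∈ U, (nbIn G W v).card with hz
    have hz1 : z = ∑ w ∈ Γ, (nbIn G U w).card := by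
      rw [hz, sum_nbIn_comm]
      symm
      apply Finset.sum_subset hΓW
      intro w hw hw'
      rw [hmemΓ] at hw'
      have h1 : ¬ (nbIn G U w).Nonempty := fun h1 => hw' ⟨hw, h1⟩
      rw [Finset.not_nonempty_iff_eq_empty] at h1
      rw [h1, Finset.card_empty]
    have hz2 : Γ.card ≤ z := by
      rw [hz1, Finset.card_eq_sum_ones]
      apply Finset.sum_le_sum
      intro w hw
      rw [hmemΓ] at hw
      exact Finset.card_pos.mpr hw.2
    have hz3 : ∀ v ∈ U, (nbIn G W v).card = (nbIn G Γ v).card := by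
      intro v hv
      congr 1
      ext x
      rw [mem_nbIn, mem_nbIn, hmemΓ]
      constructor
      · rintro ⟨h1, h2⟩
        exact ⟨⟨h1, v, by rw [mem_nbIn]; exact ⟨hv, h2.symm⟩⟩, h2⟩
      · rintro ⟨⟨h1, _⟩, h2⟩
        exact ⟨h1, h2⟩
    have hinner : inner G U + 2 * z ≤ inner G (U ∪ Γ) := by
      rw [inner_eq_sum_nbIn, inner_eq_sum_nbIn, Finset.sum_union hUΓ]
      have h1 : ∑ u ∈ U, (nbIn G (U ∪ Γ) u).card = ∑ u ∈ U, (nbIn G U u).card + z := by
        rw [hz, ← Finset.sum_add_distrib]
        apply Finset.sum_congr rfl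
        intro u hu
        rw [nbIn_union_card G U Γ hUΓ, hz3 u hu]
      have h2 : z ≤ ∑ u ∈ Γ, (nbIn G (U ∪ Γ) u).card := by
        rw [hz1]
        apply Finset.sum_le_sum
        intro u _
        rw [nbIn_union_card G U Γ hUΓ]
        omega
      rw [h1]
      omega
    have h1 := h (U ∪ Γ) (Finset.union_subset hUS hΓS)
    rw [Finset.sum_union hUΓ, Finset.card_union_of_disjoint hUΓ] at h1
    have h2 : (2 : ℝ) * Γ.card ≤ ∑ v ∈ Γ, (outS G out S v : ℝ) := by
      have h3 : ∑ v ∈ Γ, (2 : ℝ) ≤ ∑ v ∈ Γ, (outS G out S v : ℝ) := by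
        apply Finset.sum_le_sum
        intro v hv
        have h4 := hΓW hv
        rw [hW, Finset.mem_filter] at h4
        exact_mod_cast hbig v h4.1 h4.2
      rw [Finset.sum_const, nsmul_eq_mul] at h3
      linarith
    have h3 : ∑ v ∈ U, (outS G out S' v : ℝ) = ∑ v ∈ U, (outS G out S v : ℝ) + z := by
      rw [hz]
      push_cast
      rw [← Finset.sum_add_distrib]
      apply Finset.sum_congr rfl
      intro v _
      rw [hout v]
      push_cast
      rfl
    rw [h3]
    have h4 : (inner G U : ℝ) + 2 * z ≤ inner G (U ∪ Γ) := by exact_mod_cast hinner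
    have h5 : (Γ.card : ℝ) ≤ z := by exact_mod_cast hz2
    have h6 : (0 : ℝ) ≤ ∑ v ∈ U, (outS G out S v : ℝ) :=
      Finset.sum_nonneg fun v _ => Nat.cast_nonneg _
    have h7 : (0 : ℝ) ≤ inner G U := Nat.cast_nonneg _
    have h8 : (0 : ℝ) ≤ (Γ.card : ℝ) := Nat.cast_nonneg _
    have h9 : (0 : ℝ) ≤ (U.card : ℝ) := Nat.cast_nonneg _
    push_cast at h1
    have hz0 : (0 : ℝ) ≤ z := Nat.cast_nonneg _
    have h10 : δ * (Γ.card : ℝ) ≤ δ * z := mul_le_mul_of_nonneg_left h5 hδ
    have h11 : 2 * (z : ℝ) ≤ (4 + δ) * U.card + δ * z := by nlinarith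
    have h12 : δ * (z : ℝ) ≤ (1 / 2) * z := mul_le_mul_of_nonneg_right hδ1 hz0
    have h13 : δ * (U.card : ℝ) ≤ (1 / 2) * U.card := mul_le_mul_of_nonneg_right hδ1 h9
    have h14 : (z : ℝ) ≤ 3 * U.card := by linarith
    have h15 : δ * (z : ℝ) ≤ δ * (3 * U.card) := mul_le_mul_of_nonneg_left h14 hδ
    nlinarith
  · intro v hv
    have h1 := h {v} (Finset.singleton_subset_iff.mpr hv)
    rw [Finset.sum_singleton, Finset.card_singleton] at h1
    have h2 : (0 : ℝ) ≤ (inner G {v} : ℝ) := Nat.cast_nonneg _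
    by_contra hcon
    have h3 : 3 ≤ outS G out S v := by omega
    have h4 : (3 : ℝ) ≤ outS G out S v := by exact_mod_cast h3
    push_cast at h1
    linarith

/-- D6. Greedy colouring of the first layers. -/
theorem greedy (out : V → ℕ) (S : ℕ → Finset V)
    (R : ℕ) (h0 : S 0 = univ) (hS : ∀ i < R, S (i + 1) = shrink G out (S i))
    (h2 : ∀ i < R, ∀ v ∈ S i, outS G out (S i) v ≤ 2)
    (hst : ∀ i < R, ∀ u ∈ S i, ∀ v ∈ S i, u ∉ S (i + 1) → v ∉ S (i + 1) → ¬ G.Adj u v)
    (L : V → Finset ℕ) (m : ℕ) (hL : ∀ v, 3 * m ≤ (L v).card + out v * m) :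
    ∀ r ≤ R, ∃ c : V → Finset ℕ, IsPartialColoring G L c ∧ (∀ v ∈ S r, c v = ∅) ∧
      ∀ v, v ∉ S r → (c v).card = m := by
  classical
  intro r
  induction r with
  | zero =>
    intro _
    refine ⟨fun _ => ∅, ⟨fun v => Finset.empty_subset _, fun u v _ => ?_⟩, fun v _ => rfl, ?_⟩
    · exact Finset.disjoint_empty_left _
    · intro v hv
      exfalso
      apply hv
      rw [h0]
      exact Finset.mem_univ v
  | succ r ih =>
    intro hr
    obtain ⟨c, ⟨hc1, hc2⟩, hc3, hc4⟩ := ih (by omega)
    have hsub : S (r + 1) ⊆ S r := by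
      rw [hS r (by omega)]
      exact shrink_subset G out (S r)
    have key : ∀ v, v ∈ S r → ∃ t : Finset ℕ, t ⊆ L v \ (nbIn G (S r)ᶜ v).biUnion c ∧
        t.card = m := by
      intro v hv
      apply Finset.exists_subset_card_eq
      have h3 := h2 r (by omega) v hv
      rw [outS_eq] at h3
      have h4 : ((nbIn G (S r)ᶜ v).biUnion c).card ≤ (nbIn G (S r)ᶜ v).card * m := by
        apply Finset.card_biUnion_le_card_mul
        intro w hw
        rw [mem_nbIn, Finset.mem_compl] at hw
        exact (hc4 w hw.1).le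
      have h5 := hL v
      have h6 := Finset.le_card_sdiff ((nbIn G (S r)ᶜ v).biUnion c) (L v)
      have h7 : (out v + (nbIn G (S r)ᶜ v).card) * m ≤ 2 * m := Nat.mul_le_mul_right m h3
      rw [add_mul] at h7
      omega
    choose! t ht1 ht2 using key
    refine ⟨fun v => if v ∈ S (r + 1) then ∅ else if v ∈ S r then t v else c v, ⟨?_, ?_⟩, ?_, ?_⟩
    · intro v
      dsimp only
      split_ifs with h3 h4
      · exact Finset.empty_subset _
      · exact (ht1 v h4).trans Finset.sdiff_subset
      · exact hc1 v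
    · have hdis : ∀ u v, G.Adj u v → u ∈ S r → v ∉ S r → Disjoint (t u) (c v) := by
        intro u v huv hu hv
        rw [Finset.disjoint_left]
        intro x hx hx'
        have h3 := ht1 u hu hx
        rw [Finset.mem_sdiff] at h3
        apply h3.2
        rw [Finset.mem_biUnion]
        exact ⟨v, by rw [mem_nbIn, Finset.mem_compl]; exact ⟨hv, huv⟩, hx'⟩
      intro u v huv
      dsimp only
      split_ifs with h3 h4 h5 h6 h7 h8 h9 h10
      · exact Finset.disjoint_empty_left _
      · exact Finset.disjoint_empty_left _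
      · exact Finset.disjoint_empty_left _
      · exact Finset.disjoint_empty_right _
      · exfalso
        exact hst r (by omega) u (by assumption) v (by assumption) h3 (by assumption) huv
      · exact hdis u v huv (by assumption) (by assumption)
      · exact Finset.disjoint_empty_right _
      · exact (hdis v u huv.symm (by assumption) (by assumption)).symm
      · exact hc2 u v huv
    · intro v hv
      dsimp only
      rw [if_pos hv]
    · intro v hv
      dsimp only
      rw [if_neg hv]
      split_ifs with h3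
      · exact ht2 v h3
      · exact hc4 v h3

end

end Pool.Agent.TFP
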