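import Pool.Agent.TFP.Rounding
import Pool.Agent.TFP.Peel
import Pool.Agent.TFP.Key0

/-!
# The key lemma: sparse bounded graphs are list colourable from lists of size `(7/2 + ε - out) m`
-/

set_option autoImplicit false

namespace Pool.Agent.TFP

open Finset

theorem inner_comap {V W : Type} (G : SimpleGraph V) (f : W → V) (hf : Function.Injective f)
    (T : Finset W) : inner (G.comap f) T = inner G (T.map ⟨f, hf⟩) := by
  unfold inner
  apply Nat.card_congr
  refine Equiv.ofBijective (fun p => ⟨(f p.1.1, f p.1.2), p.2.1, ?_, ?_⟩) ⟨?_, ?_⟩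
  · exact mem_map.2 ⟨p.1.1, p.2.2.1, rfl⟩
  · exact mem_map.2 ⟨p.1.2, p.2.2.2, rfl⟩
  · rintro ⟨⟨a, b⟩, h⟩ ⟨⟨a', b'⟩, h'⟩ hab
    simp only [Subtype.mk.injEq, Prod.mk.injEq] at hab
    have h1 := hf hab.1
    have h2 := hf hab.2
    subst h1 h2
    rfl
  · rintro ⟨⟨x, y⟩, h1, h2, h3⟩
    obtain ⟨a, ha, hax⟩ := mem_map.1 h2
    obtain ⟨b, hb, hby⟩ := mem_map.1 h3
    simp only [Function.Embedding.coeFn_mk] at hax hby
    subst hax hby
    exact ⟨⟨(a, b), h1, ha, hb⟩, rfl⟩

theorem outS_univ {V : Type} [Fintype V] (G : SimpleGraph V) (out : V → ℕ) (v : V) :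
    outS G out univ v = out v := by
  unfold outS
  simp

open Classical in
/-- The colours used by the neighbours of `v` outside `S`. -/
noncomputable def blocked {V : Type} [Fintype V] (G : SimpleGraph V) (S : Finset V)
    (c : V → Finset ℕ) (v : V) : Finset ℕ :=
  (univ.filter (fun w => w ∉ S ∧ G.Adj v w)).biUnion c

/-- Colours at `v ∈ S`: the neighbours outside `S` use at most `(outS - out) m` colours. -/
theorem card_sdiff_blocked {V : Type} [Fintype V] (G : SimpleGraph V) (out : V → ℕ)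
    (S : Finset V) (c : V → Finset ℕ) (m : ℕ) (hc : ∀ v, v ∉ S → (c v).card = m) (L : Finset ℕ)
    (v : V) : L.card + out v * m ≤ (L \ blocked G S c v).card + outS G out S v * m := by
  classical
  have h1 : (blocked G S c v).card ≤
      (univ.filter (fun w => w ∉ S ∧ G.Adj v w)).card * m := by
    unfold blocked
    convert card_biUnion_le_card_mul (univ.filter (fun w => w ∉ S ∧ G.Adj v w)) c m ?_ using 2
    intro w hw
    exact (hc w (mem_filter.1 hw).2.1).le
  have h2 := card_le_card_sdiff_add_card (s := L) (t := blocked G S c v)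
  unfold outS
  rw [add_mul]
  have h3 : (univ.filter (fun w => w ∉ S ∧ G.Adj v w)).card =
      (@filter V (fun w => w ∉ S ∧ G.Adj v w) (fun _ => Classical.propDecidable _)
        univ).card := by
    congr
  rw [h3] at h1
  convert (show L.card + out v * m ≤ (L \ blocked G S c v).card + (out v * m +
    (@filter V (fun w => w ∉ S ∧ G.Adj v w) (fun _ => Classical.propDecidable _)
        univ).card * m) by omega) using 4

/-- One mode: everything is coloured except the vertices of `S \ S'`. -/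
theorem mode {V : Type} [Fintype V] (G : SimpleGraph V) (S : Finset V)
    (L : V → Finset ℕ) (c : V → Finset ℕ) (hc : IsPartialColoring G L c)
    (hcS : ∀ v ∈ S, c v = ∅) (S' : Finset V) (hS' : S' ⊆ S)
    (d : {v // v ∈ S'} → Finset ℕ)
    (hd : IsPartialColoring (G.comap (Subtype.val : {v // v ∈ S'} → V))
      (fun v => L v.1 \ blocked G S c v.1) d) :
    ∃ e : V → Finset ℕ, IsPartialColoring G L e ∧ (∀ v, v ∉ S → e v = c v) ∧
      ∀ v (hv : v ∈ S'), e v = d ⟨v, hv⟩ := by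
  classical
  refine ⟨fun v => if h : v ∈ S' then d ⟨v, h⟩ else c v, ⟨?_, ?_⟩, ?_, ?_⟩
  · intro v
    dsimp only
    split_ifs with h
    · exact (hd.1 ⟨v, h⟩).trans sdiff_subset
    · exact hc.1 v
  · have key : ∀ u (hu : u ∈ S') v, v ∉ S' → G.Adj u v → Disjoint (d ⟨u, hu⟩) (c v) := by
      intro u hu v hv huv
      by_cases hvS : v ∈ S
      · rw [hcS v hvS]
        exact disjoint_empty_right _
      · rw [disjoint_left]
        intro k hk hk'
        have h1 := hd.1 ⟨u, hu⟩ hk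
        rw [mem_sdiff] at h1
        apply h1.2
        unfold blocked
        rw [mem_biUnion]
        exact ⟨v, mem_filter.2 ⟨mem_univ v, hvS, huv⟩, hk'⟩
    intro u v huv
    dsimp only
    split_ifs with h1 h2 h2
    · exact hd.2 ⟨u, h1⟩ ⟨v, h2⟩ huv
    · exact key u h1 v h2 huv
    · exact (key v h2 u h1 huv.symm).symm
    · exact hc.2 u v huv
  · intro v hv
    dsimp only
    rw [dif_neg (fun h => hv (hS' h))]
  · intro v hv
    dsimp only
    rw [dif_pos hv]

/-- D7. Key lemma. -/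
theorem key_lemma (ε : ℝ) (hε : 0 < ε) : ∃ δ : ℝ, 0 < δ ∧ ∀ K : ℕ, ∃ m₀ : ℕ,
    ∀ (U : Type) [Fintype U] [DecidableEq U] (H : SimpleGraph U), Fintype.card U ≤ K →
    (∀ (W : Type) [Fintype W] (f : W → U), Function.Injective f → HasCuts (H.comap f)) →
    ∀ out : U → ℕ,
    (∀ S : Finset U, (inner H S : ℝ) + 2 * ∑ v ∈ S, (out v : ℝ) ≤ (4 + δ) * S.card) →
    ∀ m, m₀ ≤ m → ∀ L : U → Finset ℕ, (∀ v, (7 / 2 + ε - out v) * (m : ℝ) ≤ ((L v).card : ℝ)) →
    ∃ c : U → Finset ℕ, (∀ v, c v ⊆ L v ∧ (c v).card = m) ∧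
      ∀ u v, H.Adj u v → Disjoint (c u) (c v) := by
  classical
  set ε₁ : ℝ := min ε (1 / 2) with hε₁
  have hε₁0 : 0 < ε₁ := lt_min hε (by norm_num)
  have hε₁1 : ε₁ ≤ 1 / 2 := min_le_right _ _
  have hε₁2 : ε₁ ≤ ε := min_le_left _ _
  obtain ⟨δ₀, hδ₀, η₀, hη₀, hkey⟩ := key0 (ε₁ / 2) (by positivity) (by linarith)
  set η : ℝ := min η₀ (ε₁ / 8) with hηdef
  have hη : 0 < η := lt_min hη₀ (by positivity)
  have hη1 : η ≤ η₀ := min_le_left _ _
  have hη2 : η ≤ ε₁ / 8 := min_le_right _ _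
  obtain ⟨R, hR⟩ : ∃ R : ℕ, 2 * (1 + η) / η ≤ R := exists_nat_ge _
  have hR' : 2 * (1 + η) ≤ R * η := by rwa [div_le_iff₀ hη] at hR
  set δ₁ : ℝ := min δ₀ (1 / 2) with hδ₁
  have hδ₁0 : 0 < δ₁ := lt_min hδ₀ (by norm_num)
  have hδ₁1 : δ₁ ≤ 1 / 2 := min_le_right _ _
  have hδ₁2 : δ₁ ≤ δ₀ := min_le_left _ _
  refine ⟨δ₁ / 4 ^ R, by positivity, fun K => ?_⟩
  obtain ⟨m₁, hm₁⟩ := hkey K
  obtain ⟨m₂, hm₂⟩ : ∃ m₂ : ℕ, max (8 / ε₁) (max 12 (2 * 4 ^ K / η)) ≤ m₂ := exists_nat_ge _
  refine ⟨max m₁ m₂, ?_⟩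
  intro U _ _ H hcard hcuts out hsparse m hm L hL
  have hm1 : m₁ ≤ m := (le_max_left _ _).trans hm
  have hm2 : (m₂ : ℝ) ≤ m := by exact_mod_cast (le_max_right _ _).trans hm
  have hm8 : 8 ≤ ε₁ * m := by
    have h1 : 8 / ε₁ ≤ m := (le_max_left _ _).trans (hm₂.trans hm2)
    rw [div_le_iff₀ hε₁0] at h1
    linarith
  have hm12 : (12 : ℝ) ≤ m :=
    ((le_max_left _ _).trans (le_max_right _ _)).trans (hm₂.trans hm2)
  have hmK : 4 ^ K ≤ η / 2 * m := by
    have h1 : 2 * 4 ^ K / η ≤ m :=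
      ((le_max_right _ _).trans (le_max_right _ _)).trans (hm₂.trans hm2)
    rw [div_le_iff₀ hη] at h1
    linarith
  have hm0 : (0 : ℝ) ≤ m := by linarith
  set m' : ℕ := ⌈(1 + η) * (m : ℝ)⌉₊ with hm'
  have hm'1 : (1 + η) * (m : ℝ) ≤ m' := Nat.le_ceil _
  have hm'2 : (m' : ℝ) < (1 + η) * (m : ℝ) + 1 := Nat.ceil_lt_add_one (by positivity)
  have hηm : η * m ≤ ε₁ / 8 * m := mul_le_mul_of_nonneg_right hη2 hm0
  have hεm : ε₁ * m ≤ ε * m := mul_le_mul_of_nonneg_right hε₁2 hm0
  have hε2m : ε₁ * m ≤ 1 / 2 * m := mul_le_mul_of_nonneg_right hε₁1 hm0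
  -- layers
  let S : ℕ → Finset U := fun n => Nat.rec univ (fun _ T => shrink H out T) n
  have hS0 : S 0 = univ := rfl
  have hSs : ∀ n, S (n + 1) = shrink H out (S n) := fun _ => rfl
  have hSsub : ∀ n, S (n + 1) ⊆ S n := fun n => by
    rw [hSs]
    exact filter_subset _ _
  have hSanti : Antitone S := antitone_nat_of_succ_le hSsub
  have hbound : ∀ i ≤ R, 4 ^ i * (δ₁ / 4 ^ R) ≤ δ₁ := by
    intro i hi
    have h1 : (4 : ℝ) ^ i ≤ 4 ^ R := pow_le_pow_right₀ (by norm_num) hi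
    rw [mul_div_assoc', div_le_iff₀ (by positivity), mul_comm]
    exact mul_le_mul_of_nonneg_left h1 hδ₁0.le
  have hsp : ∀ i ≤ R, SparseOn H out (4 ^ i * (δ₁ / 4 ^ R)) (S i) := by
    intro i
    induction i with
    | zero =>
      intro _ T _
      have h1 := hsparse T
      simp only [hS0, outS_univ, pow_zero, one_mul]
      exact h1
    | succ i ih =>
      intro hi
      have h1 := (peel H out _ (by positivity) ((hbound i (by omega)).trans hδ₁1) (S i)
        (ih (by omega))).1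
      rw [hSs, pow_succ, mul_comm ((4 : ℝ) ^ i) 4, mul_assoc]
      exact h1
  have h2 : ∀ i ≤ R, ∀ v ∈ S i, outS H out (S i) v ≤ 2 := fun i hi =>
    (peel H out _ (by positivity) ((hbound i hi).trans hδ₁1) (S i) (hsp i hi)).2.1
  have hst : ∀ i ≤ R, ∀ u ∈ S i, ∀ v ∈ S i, u ∉ S (i + 1) → v ∉ S (i + 1) → ¬ H.Adj u v :=
    fun i hi =>
      (peel H out _ (by positivity) ((hbound i hi).trans hδ₁1) (S i) (hsp i hi)).2.2
  have hout2 : ∀ v, out v ≤ 2 := by
    intro v
    have h1 := h2 0 (Nat.zero_le _) v (by rw [hS0]; exact mem_univ v)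
    rwa [hS0, outS_univ] at h1
  have hL' : ∀ v, 3 * m' ≤ (L v).card + out v * m' := by
    intro v
    have h1 := hL v
    have h3 : (out v : ℝ) ≤ 2 := by exact_mod_cast hout2 v
    have h4 : (0 : ℝ) ≤ out v := Nat.cast_nonneg _
    have h5 : (3 - (out v : ℝ)) * m' ≤ (3 - out v) * ((1 + η) * m + 1) :=
      mul_le_mul_of_nonneg_left hm'2.le (by linarith)
    have h6 : (3 - (out v : ℝ)) * (η * m + 1) ≤ 3 * (η * m + 1) :=
      mul_le_mul_of_nonneg_right (by linarith) (by positivity)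
    have h7 : (3 : ℝ) * m' ≤ (L v).card + out v * m' := by
      nlinarith
    exact_mod_cast h7
  have hgreedy := greedy H out S R hS0 (fun i _ => hSs i) (fun i hi => h2 i hi.le)
    (fun i hi => hst i hi.le) L m' hL'
  -- the modes
  have hmode : ∀ r : Fin R, ∃ c : U → Finset ℕ, IsPartialColoring H L c ∧
      ∀ v, (v ∉ S r ∨ v ∈ S (r + 1)) → (1 + η) * (m : ℝ) ≤ ((c v).card : ℝ) := by
    rintro ⟨r, hr⟩
    dsimp only
    obtain ⟨c, hc, hcS, hcm⟩ := hgreedy r hr.le
    obtain ⟨d, hd, hdm⟩ := hm₁ m hm1 {v // v ∈ S (r + 1)}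
      (H.comap (Subtype.val : {v // v ∈ S (r + 1)} → U))
      (hcuts _ Subtype.val Subtype.val_injective)
      (by
        rw [Fintype.card_coe]
        exact (card_le_univ _).trans hcard)
      (fun v => outS H out (S r) v.1)
      (fun v => (mem_filter.1 (show v.1 ∈ shrink H out (S r) from v.2)).2)
      (by
        intro T
        have hT : T.map ⟨Subtype.val, Subtype.val_injective⟩ ⊆ S r := by
          intro v hv
          obtain ⟨a, -, rfl⟩ := mem_map.1 hv
          exact hSsub r a.2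
        have h1 := hsp r hr.le _ hT
        rw [sum_map, card_map] at h1
        rw [inner_comap H Subtype.val Subtype.val_injective]
        refine h1.trans (mul_le_mul_of_nonneg_right ?_ (Nat.cast_nonneg _))
        have h3 := hbound r hr.le
        linarith)
      (fun v => L v.1 \ blocked H (S r) c v.1)
      (by
        intro v
        have h1 := card_sdiff_blocked H out (S r) c m' hcm (L v.1) v.1
        have h3 : outS H out (S r) v.1 ≤ 1 :=
          (mem_filter.1 (show v.1 ∈ shrink H out (S r) from v.2)).2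
        have h4 : out v.1 ≤ outS H out (S r) v.1 := by
          unfold outS
          omega
        have h5 := hL v.1
        generalize outS H out (S r) v.1 = o at h1 h3 h4 ⊢
        generalize out v.1 = o' at h1 h4 h5 ⊢
        have h1' : ((L v.1).card : ℝ) + o' * m' ≤ ((L v.1 \ blocked H (S r) c v.1).card : ℝ) +
            o * m' := by
          exact_mod_cast h1
        have h3' : (o : ℝ) ≤ 1 := by exact_mod_cast h3
        have h4' : (o' : ℝ) ≤ o := by exact_mod_cast h4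
        have h6 : (0 : ℝ) ≤ o' := Nat.cast_nonneg _
        have h7 : ((o : ℝ) - o') * m' ≤ (o - o') * ((1 + η) * m + 1) :=
          mul_le_mul_of_nonneg_left hm'2.le (by linarith)
        have h8 : ((o : ℝ) - o') * (η * m + 1) ≤ 1 * (η * m + 1) :=
          mul_le_mul_of_nonneg_right (by linarith) (by positivity)
        nlinarith)
    obtain ⟨e, he, he1, he2⟩ := mode H (S r) L c hc hcS (S (r + 1)) (hSsub r) d hd
    refine ⟨e, he, ?_⟩
    rintro v (hv | hv)
    · rw [he1 v hv, hcm v hv]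
      exact hm'1
    · rw [he2 v hv]
      refine le_trans ?_ (hdm ⟨v, hv⟩)
      exact mul_le_mul_of_nonneg_right (by linarith) hm0
  obtain ⟨C, hC⟩ : ∃ C : Fin R → U → Finset ℕ, ∀ r : Fin R, IsPartialColoring H L (C r) ∧
      ∀ v, (v ∉ S r ∨ v ∈ S (r + 1)) → (1 + η) * (m : ℝ) ≤ ((C r v).card : ℝ) :=
    ⟨fun r => Classical.choose (hmode r), fun r => Classical.choose_spec (hmode r)⟩
  have hC1 := fun r => (hC r).1
  have hC2 := fun r => (hC r).2
  -- every vertex is missed by at most one mode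
  have hcount : ∀ v, ((R : ℝ) - 1) * ((1 + η) * m) ≤ ∑ r : Fin R, ((C r v).card : ℝ) := by
    intro v
    let P : Fin R → Prop := fun r => v ∉ S (r : ℕ) ∨ v ∈ S ((r : ℕ) + 1)
    obtain ⟨B, hB⟩ : ∃ B : Finset (Fin R), ∀ r, r ∈ B ↔ ¬ P r :=
      ⟨(Set.toFinite {r : Fin R | ¬ P r}).toFinset, fun r => by simp⟩
    have hB1 : B.card ≤ 1 := by
      rw [card_le_one]
      intro a ha b hb
      have ha' : ¬ (v ∉ S (a : ℕ) ∨ v ∈ S ((a : ℕ) + 1)) := (hB a).1 ha
      have hb' : ¬ (v ∉ S (b : ℕ) ∨ v ∈ S ((b : ℕ) + 1)) := (hB b).1 hb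
      push Not at ha' hb'
      by_contra hab
      rcases lt_or_gt_of_ne hab with h | h
      · exact ha'.2 (hSanti (show (a : ℕ) + 1 ≤ b from h) hb'.1)
      · exact hb'.2 (hSanti (show (b : ℕ) + 1 ≤ a from h) ha'.1)
    have h3 : ∑ r ∈ Bᶜ, ((1 + η) * (m : ℝ)) ≤ ∑ r ∈ Bᶜ, ((C r v).card : ℝ) := by
      refine sum_le_sum fun r hr => hC2 r v ?_
      by_contra hcon
      exact mem_compl.1 hr ((hB r).2 hcon)
    have h4 : ∑ r ∈ Bᶜ, ((C r v).card : ℝ) ≤ ∑ r : Fin R, ((C r v).card : ℝ) :=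
      sum_le_sum_of_subset_of_nonneg (subset_univ _) fun _ _ _ => Nat.cast_nonneg _
    rw [sum_const, nsmul_eq_mul, card_compl, Fintype.card_fin] at h3
    refine le_trans ?_ (h3.trans h4)
    apply mul_le_mul_of_nonneg_right _ (by positivity)
    have h5 : (R : ℤ) - 1 ≤ ((R - B.card : ℕ) : ℤ) := by omega
    exact_mod_cast h5
  obtain ⟨c, hc, hcm⟩ := rounding H L ((1 + η / 2) * m) (by
    intro y hy
    have hRpos : 0 < R := by
      rcases Nat.eq_zero_or_pos R with h0 | h0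
      · rw [h0] at hR'
        push_cast at hR'
        linarith
      · exact h0
    have : Nonempty (Fin R) := ⟨⟨0, hRpos⟩⟩
    obtain ⟨r, -, hr⟩ := exists_le_of_sum_le (s := (univ : Finset (Fin R)))
      (f := fun _ => (1 + η / 2) * (m : ℝ) * ∑ v, y v)
      (g := fun r => ∑ v, y v * ((C r v).card : ℝ)) univ_nonempty (by
        rw [sum_const, nsmul_eq_mul, card_univ, Fintype.card_fin, sum_comm, mul_sum, mul_sum]
        refine sum_le_sum fun v _ => ?_
        rw [← mul_sum]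
        have h3 := mul_le_mul_of_nonneg_left (hcount v) (hy v)
        refine le_trans ?_ h3
        have h4 : (R : ℝ) * ((1 + η / 2) * m) ≤ (R - 1) * ((1 + η) * m) := by
          have h5 : (0 : ℝ) ≤ (R * η / 2 - (1 + η)) * m :=
            mul_nonneg (by linarith) hm0
          nlinarith
        have h6 := mul_le_mul_of_nonneg_left h4 (hy v)
        calc (R : ℝ) * ((1 + η / 2) * m * y v) = y v * (R * ((1 + η / 2) * m)) := by ring
          _ ≤ _ := h6)
    exact ⟨C r, hC1 r, hr⟩)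
  have hcm' : ∀ v, m ≤ (c v).card := by
    intro v
    have h3 := hcm v
    have h4 : (4 : ℝ) ^ Fintype.card U ≤ 4 ^ K := pow_le_pow_right₀ (by norm_num) hcard
    have h5 : (m : ℝ) ≤ (c v).card := by nlinarith
    exact_mod_cast h5
  choose d hd using fun v => exists_subset_card_eq (hcm' v)
  refine ⟨d, fun v => ⟨(hd v).1.trans (hc.1 v), (hd v).2⟩, fun u v huv => ?_⟩
  exact disjoint_of_subset_left (hd u).1 (disjoint_of_subset_right (hd v).1 (hc.2 u v huv))

end Pool.Agent.TFP
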