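import Pool.Agent.TFP.PieceCore
import Pool.Agent.TFP.Hyper
import Pool.Agent.TFP.Euler

/-!
# A small set of vertices meeting few edges
-/

set_option autoImplicit false

namespace Pool.Agent.TFP

open Finset

/-- C5. A small set of vertices meeting few edges. -/
theorem exists_piece (δ : ℝ) (hδ : 0 < δ) : ∃ K : ℕ, ∀ (V : Type) [Fintype V] [DecidableEq V]
    [Nonempty V] (G : SimpleGraph V), IsPlanar G → G.CliqueFree 3 →
    ∃ X : Finset V, X.Nonempty ∧ X.card ≤ K ∧ (meet G X : ℝ) < (4 + δ) * X.card := by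
  obtain ⟨K, hK⟩ := hyperfinite (δ / (4 + δ)) (by positivity)
  refine ⟨K, ?_⟩
  intro V _ _ _ G hp ht
  obtain ⟨R, hR, hC⟩ := hK V G hp
  exact exists_piece_core δ hδ K G (edges_lt G hp ht) R hR hC

end Pool.Agent.TFP
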