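import Pool.Agent.TFP.ReducibleOf
import Pool.Agent.TFP.Piece

/-! # A reducible set -/

set_option autoImplicit false

namespace Pool.Agent.TFP

open Finset

/-- E1. A reducible set. -/
theorem exists_reducible (δ : ℝ) (hδ : 0 < δ) : ∃ K : ℕ, ∀ (V : Type) [Fintype V] [DecidableEq V]
    [Nonempty V] (G : SimpleGraph V), IsPlanar G → G.CliqueFree 3 →
    ∃ H : Finset V, H.Nonempty ∧ H.card ≤ K ∧
      ∀ S : Finset V, S ⊆ H →
        (inner G S : ℝ) + 2 * (outer G H S : ℝ) ≤ (4 + δ) * S.card :=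
  exists_reducible_of δ (exists_piece δ hδ)

end Pool.Agent.TFP
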