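import Pool.Agent.TFP.LargeAux
import Pool.Agent.TFP.KeyLemma
import Pool.Agent.TFP.Reducible
import Pool.Agent.TFP.Cuts
import Pool.Agent.TFP.CutsComap

/-! # Large `m` -/

set_option autoImplicit false

namespace Pool.Agent.TFP

open Finset

/-- E2. Large `m`. -/
theorem choosable_large (ε : ℝ) (hε : 0 < ε) : ∃ m₀ : ℕ, ∀ m : ℕ, m₀ ≤ m →
    ∀ (V : Type) [Fintype V] (G : SimpleGraph V),
    IsPlanar G → G.CliqueFree 3 → Choosable G ⌈(7 / 2 + ε) * (m : ℝ)⌉₊ m := by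
  classical
  obtain ⟨δ, hδ, hkey⟩ := key_lemma ε hε
  obtain ⟨K, hred⟩ := exists_reducible δ hδ
  obtain ⟨m₀, hm₀⟩ := hkey K
  refine ⟨m₀, fun m hm V _ G hp ht L hL => ?_⟩
  refine choosable_of_key ε δ K m ?_ ?_ ?_ _ V G rfl hp ht L ?_
  · intro U _ H hU hcut out hs L' hL'
    exact hm₀ U H hU (fun W _ f hf => hasCuts_comap H hcut f hf) out hs m hm L' hL'
  · intro V _ _ G hp ht
    exact hred V G hp ht
  · intro V _ G hp ht
    exact hasCuts_of_planar G hp ht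
  · intro v
    rw [hL v]
    exact Nat.le_ceil _

end Pool.Agent.TFP
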