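import Pool.Agent.TFP.Defs

/-!
# Large `m`: the induction which combines the key lemma and the reducible sets
-/

set_option autoImplicit false

namespace Pool.Agent.TFP

open Finset

/-- The number of ordered adjacent pairs inside a set of vertices of an induced subgraph. -/
theorem la_inner_comap {V : Type} (G : SimpleGraph V) (H : Finset V) (S : Finset {v // v ∈ H}) :
    inner (G.comap (Subtype.val : {v // v ∈ H} → V)) S =
      inner G (S.map (Function.Embedding.subtype _)) := by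
  unfold inner
  apply Nat.card_congr
  refine ⟨fun p => ⟨(p.1.1.1, p.1.2.1), ?_⟩, fun p => ⟨(⟨p.1.1, ?_⟩, ⟨p.1.2, ?_⟩), ?_⟩, ?_, ?_⟩
  · obtain ⟨⟨a, b⟩, h1, h2, h3⟩ := p
    exact ⟨h1, Finset.mem_map.2 ⟨a, h2, rfl⟩, Finset.mem_map.2 ⟨b, h3, rfl⟩⟩
  · obtain ⟨⟨a, b⟩, h1, h2, h3⟩ := p
    obtain ⟨x, hx, rfl⟩ := Finset.mem_map.1 h2
    exact x.2
  · obtain ⟨⟨a, b⟩, h1, h2, h3⟩ := p
    obtain ⟨x, hx, rfl⟩ := Finset.mem_map.1 h3
    exact x.2
  · obtain ⟨⟨a, b⟩, h1, h2, h3⟩ := p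
    obtain ⟨x, hx, rfl⟩ := Finset.mem_map.1 h2
    obtain ⟨y, hy, rfl⟩ := Finset.mem_map.1 h3
    exact ⟨h1, hx, hy⟩
  · rintro ⟨⟨a, b⟩, h1, h2, h3⟩
    rfl
  · rintro ⟨⟨a, b⟩, h1, h2, h3⟩
    rfl

/-- The number of ordered adjacent pairs leaving a set, as a sum of numbers of neighbours. -/
theorem outer_eq_sum {V : Type} [Fintype V] (G : SimpleGraph V) (H : Finset V)
    (S : Finset {v // v ∈ H}) :
    outer G H (S.map (Function.Embedding.subtype _)) =
      ∑ v ∈ S, Nat.card {w : {w // w ∉ H} // G.Adj v.1 w.1} := by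
  classical
  have h1 : (∑ v ∈ S, Nat.card {w : {w // w ∉ H} // G.Adj v.1 w.1}) =
      Nat.card (Σ v : S, {w : {w // w ∉ H} // G.Adj v.1.1 w.1}) := by
    rw [Nat.card_sigma, ← Finset.sum_coe_sort S]
  rw [h1]
  unfold outer
  apply Nat.card_congr
  refine ⟨fun p => ⟨⟨⟨p.1.1, ?_⟩, ?_⟩, ⟨⟨p.1.2, p.2.2.2⟩, p.2.1⟩⟩,
    fun p => ⟨(p.1.1.1, p.2.1.1), p.2.2, ?_, p.2.1.2⟩, ?_, ?_⟩
  · obtain ⟨⟨a, b⟩, h1, h2, h3⟩ := p
    obtain ⟨x, hx, rfl⟩ := Finset.mem_map.1 h2
    exact x.2
  · obtain ⟨⟨a, b⟩, h1, h2, h3⟩ := p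
    obtain ⟨x, hx, rfl⟩ := Finset.mem_map.1 h2
    exact hx
  · obtain ⟨⟨x, hx⟩, w⟩ := p
    exact Finset.mem_map.2 ⟨x, hx, rfl⟩
  · rintro ⟨⟨a, b⟩, h1, h2, h3⟩
    rfl
  · rintro ⟨⟨⟨a, ha⟩, hx⟩, ⟨⟨w, hw⟩, h⟩⟩
    rfl

/-- The induction. -/
theorem choosable_of_key (ε δ : ℝ) (K : ℕ) (m : ℕ)
    (hkey : ∀ (U : Type) [Fintype U] (H : SimpleGraph U), Fintype.card U ≤ K → HasCuts H →
      ∀ out : U → ℕ,
      (∀ S : Finset U, (inner H S : ℝ) + 2 * ∑ v ∈ S, (out v : ℝ) ≤ (4 + δ) * S.card) →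
      ∀ L : U → Finset ℕ, (∀ v, (7 / 2 + ε - out v) * (m : ℝ) ≤ ((L v).card : ℝ)) →
      ∃ c : U → Finset ℕ, (∀ v, c v ⊆ L v ∧ (c v).card = m) ∧
        ∀ u v, H.Adj u v → Disjoint (c u) (c v))
    (hred : ∀ (V : Type) [Fintype V] [Nonempty V] (G : SimpleGraph V), IsPlanar G →
      G.CliqueFree 3 → ∃ H : Finset V, H.Nonempty ∧ H.card ≤ K ∧
      ∀ S : Finset V, S ⊆ H →
        (inner G S : ℝ) + 2 * (outer G H S : ℝ) ≤ (4 + δ) * S.card)
    (hcuts : ∀ (V : Type) [Fintype V] (G : SimpleGraph V), IsPlanar G → G.CliqueFree 3 →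
      HasCuts G) :
    ∀ (n : ℕ) (V : Type) [Fintype V] (G : SimpleGraph V), Fintype.card V = n →
      IsPlanar G → G.CliqueFree 3 →
      ∀ L : V → Finset ℕ, (∀ v, (7 / 2 + ε) * (m : ℝ) ≤ ((L v).card : ℝ)) →
      ∃ c : V → Finset ℕ, (∀ v, c v ⊆ L v ∧ (c v).card = m) ∧
        ∀ u v, G.Adj u v → Disjoint (c u) (c v) := by
  classical
  intro n
  induction n using Nat.strong_induction_on with
  | _ n ih =>
    intro V _ G hn hp ht L hL
    rcases isEmpty_or_nonempty V with hV | hV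
    · exact ⟨fun v => (hV.false v).elim, fun v => (hV.false v).elim, fun u => (hV.false u).elim⟩
    obtain ⟨H, hH, hHK, hS⟩ := hred V G hp ht
    -- colour the rest
    have hcf : ∀ (P : V → Prop), (G.comap (Subtype.val : {v // P v} → V)).CliqueFree 3 := by
      intro P
      exact ht.comap (SimpleGraph.Embedding.comap (Function.Embedding.subtype P) G).toCopy.isContained
    have hpl : ∀ (P : V → Prop), IsPlanar (G.comap (Subtype.val : {v // P v} → V)) :=
      fun P => hp.comap _ Subtype.val_injective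
    have hW : Fintype.card {w // w ∉ H} < n := by
      rw [← hn]
      obtain ⟨v, hv⟩ := hH
      exact Fintype.card_subtype_lt (x := v) (by simpa using hv)
    obtain ⟨c', hc', hd'⟩ := ih _ hW {w // w ∉ H} (G.comap Subtype.val) rfl (hpl _) (hcf _)
      (fun w => L w.1) (fun w => hL w.1)
    -- the lists of the vertices of `H`
    let N : {v // v ∈ H} → Finset {w // w ∉ H} := fun v => univ.filter (fun w => G.Adj v.1 w.1)
    let L' : {v // v ∈ H} → Finset ℕ := fun v => L v.1 \ (N v).biUnion c'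
    have hN : ∀ v, Nat.card {w : {w // w ∉ H} // G.Adj v.1 w.1} = (N v).card := by
      intro v
      rw [Nat.card_eq_fintype_card, Fintype.card_subtype]
    have hL' : ∀ v, (7 / 2 + ε - ((N v).card : ℕ)) * (m : ℝ) ≤ ((L' v).card : ℝ) := by
      intro v
      have h1 : ((N v).biUnion c').card ≤ (N v).card * m := by
        refine Finset.card_biUnion_le.trans ?_
        rw [Finset.sum_congr rfl (fun w _ => (hc' w).2)]
        simp
      have h2 : (L v.1).card ≤ (L' v).card + ((N v).biUnion c').card := by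
        have := Finset.le_card_sdiff ((N v).biUnion c') (L v.1)
        change _ ≤ (L' v).card at this
        omega
      have h3 : ((L v.1).card : ℝ) ≤ (L' v).card + ((N v).card : ℝ) * m := by
        have : (L v.1).card ≤ (L' v).card + (N v).card * m := by omega
        exact_mod_cast this
      have h4 := hL v.1
      nlinarith [h3, h4]
    obtain ⟨c'', hc'', hd''⟩ := hkey {v // v ∈ H} (G.comap Subtype.val)
      (by simpa using hHK) (hcuts _ _ (hpl _) (hcf _)) (fun v => (N v).card) (by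
        intro S
        have h1 := hS (S.map (Function.Embedding.subtype _)) (by
          intro x hx
          obtain ⟨y, hy, rfl⟩ := Finset.mem_map.1 hx
          exact y.2)
        rw [← la_inner_comap, outer_eq_sum, Finset.card_map] at h1
        rw [Finset.sum_congr rfl (fun v _ => hN v)] at h1
        push_cast at h1
        exact h1) L' hL'
    refine ⟨fun v => if h : v ∈ H then c'' ⟨v, h⟩ else c' ⟨v, h⟩, ?_, ?_⟩
    · intro v
      by_cases h : v ∈ H
      · simp only [h, dif_pos]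
        exact ⟨(hc'' ⟨v, h⟩).1.trans Finset.sdiff_subset, (hc'' ⟨v, h⟩).2⟩
      · simp only [h, dif_neg, not_false_iff]
        exact hc' ⟨v, h⟩
    · -- disjointness across
      have key : ∀ (u v : V) (hu : u ∈ H) (hv : v ∉ H), G.Adj u v →
          Disjoint (c'' ⟨u, hu⟩) (c' ⟨v, hv⟩) := by
        intro u v hu hv hadj
        rw [Finset.disjoint_left]
        intro x hx hx'
        have h1 := (hc'' ⟨u, hu⟩).1 hx
        simp only [L', Finset.mem_sdiff, Finset.mem_biUnion, not_exists, not_and] at h1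
        exact h1.2 ⟨v, hv⟩ (by simp [N, hadj]) hx'
      intro u v hadj
      by_cases hu : u ∈ H <;> by_cases hv : v ∈ H
      · simp only [hu, hv, dif_pos]
        exact hd'' ⟨u, hu⟩ ⟨v, hv⟩ hadj
      · simp only [hu, hv, dif_pos, dif_neg, not_false_iff]
        exact key u v hu hv hadj
      · simp only [hu, hv, dif_pos, dif_neg, not_false_iff]
        exact (key v u hv hu hadj.symm).symm
      · simp only [hu, hv, dif_neg, not_false_iff]
        exact hd' ⟨u, hu⟩ ⟨v, hv⟩ hadj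

end Pool.Agent.TFP
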