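import Pool.Agent.TFP.Defs

/-!
# Sparse sets and peeling: definitions
-/

set_option autoImplicit false

namespace Pool.Agent.TFP

open Finset

open Classical in
/-- `out v` plus the number of the neighbours of `v` outside `S`. -/
noncomputable def outS {V : Type} [Fintype V] (G : SimpleGraph V) (out : V → ℕ) (S : Finset V)
    (v : V) : ℕ :=
  out v + (univ.filter (fun w => w ∉ S ∧ G.Adj v w)).card

/-- `S` is sparse: every `U ⊆ S` satisfies `e(U) + out_S(U) ≤ (2 + δ / 2) |U|` (doubled). -/
def SparseOn {V : Type} [Fintype V] (G : SimpleGraph V) (out : V → ℕ) (δ : ℝ)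
    (S : Finset V) : Prop :=
  ∀ U : Finset V, U ⊆ S →
    (inner G U : ℝ) + 2 * ∑ v ∈ U, (outS G out S v : ℝ) ≤ (4 + δ) * U.card

/-- Remove from `S` the vertices with `outS ≥ 2`. -/
noncomputable def shrink {V : Type} [Fintype V] (G : SimpleGraph V) (out : V → ℕ)
    (S : Finset V) : Finset V :=
  S.filter (fun v => outS G out S v ≤ 1)

/-- A colouring from the lists `L` (of arbitrary sizes) with adjacent sets disjoint. -/
def IsPartialColoring {V : Type} (G : SimpleGraph V) (L : V → Finset ℕ) (c : V → Finset ℕ) :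
    Prop :=
  (∀ v, c v ⊆ L v) ∧ ∀ u v, G.Adj u v → Disjoint (c u) (c v)

end Pool.Agent.TFP
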