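import Pool.Agent.TFP.TreeDefs

/-!
# The link graph of a spherical map is a tree (package C2c)
-/

set_option autoImplicit false

namespace Pool.Agent.TFP

open Finset

namespace BFS

variable {D : Type} {M : CMap D} (B : BFS M)

theorem ltIsTreeAlpha {d : D} (h : B.IsTree d) : B.IsTree (M.α d) := by
  obtain ⟨v, hv, rfl | rfl⟩ := h
  · exact ⟨v, hv, Or.inr rfl⟩
  · exact ⟨v, hv, Or.inl (M.invol _)⟩

theorem ltLinkSymm {d e : D} (h : B.Link d e) : B.Link e d := by
  rcases h with ⟨h1, h2⟩ | h | h
  · refine Or.inl ⟨by rw [h1, M.invol], fun h3 => h2 ?_⟩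
    have := B.ltIsTreeAlpha h3
    rwa [h1, M.invol] at this
  · exact Or.inr (Or.inr h)
  · exact Or.inr (Or.inl h)

theorem p_inj {v w : M.Vertex} (hv : v ≠ B.r) (hw : w ≠ B.r) (h : B.p v = B.p w) : v = w := by
  rw [← B.p_vtx v hv, ← B.p_vtx w hw, h]

theorem p_ne_α {v w : M.Vertex} (hv : v ≠ B.r) (hw : w ≠ B.r) : B.p v ≠ M.α (B.p w) := by
  intro h
  have h1 := B.p_dep v hv
  have h2 := B.p_dep w hw
  rw [h, M.invol, B.p_vtx w hw] at h1
  rw [← h, B.p_vtx v hv] at h2
  omega

open Classical in
theorem card_nontree [Fintype D] [Fintype M.Vertex] :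
    (univ.filter (fun d => ¬ B.IsTree d)).card + 2 * Fintype.card M.Vertex =
      Fintype.card D + 2 := by
  set S : Finset M.Vertex := univ.filter (fun v => v ≠ B.r) with hS
  have hSc : S.card + 1 = Fintype.card M.Vertex := by
    have h1 : S = univ.erase B.r := by
      ext v
      simp [hS]
    rw [h1, card_erase_of_mem (mem_univ _), card_univ]
    have : 0 < Fintype.card M.Vertex := Fintype.card_pos_iff.2 ⟨B.r⟩
    omega
  have h1 : univ.filter (fun d => B.IsTree d) = S.image B.p ∪ S.image (fun v => M.α (B.p v)) := by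
    ext d
    simp only [mem_filter, mem_univ, true_and, mem_union, mem_image, hS, IsTree]
    constructor
    · rintro ⟨v, hv, rfl | rfl⟩
      · exact Or.inl ⟨v, hv, rfl⟩
      · exact Or.inr ⟨v, hv, rfl⟩
    · rintro (⟨v, hv, rfl⟩ | ⟨v, hv, rfl⟩)
      · exact ⟨v, hv, Or.inl rfl⟩
      · exact ⟨v, hv, Or.inr rfl⟩
  have h2 : (S.image B.p).card = S.card := by
    apply card_image_of_injOn
    intro v hv w hw h
    simp only [hS, coe_filter, Set.mem_setOf_eq, mem_univ, true_and] at hv hw
    exact B.p_inj hv hw h
  have h3 : (S.image (fun v => M.α (B.p v))).card = S.card := by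
    apply card_image_of_injOn
    intro v hv w hw h
    simp only [hS, coe_filter, Set.mem_setOf_eq, mem_univ, true_and] at hv hw
    exact B.p_inj hv hw (M.α.injective h)
  have h4 : Disjoint (S.image B.p) (S.image (fun v => M.α (B.p v))) := by
    rw [disjoint_left]
    intro d hd hd'
    simp only [mem_image, hS, mem_filter, mem_univ, true_and] at hd hd'
    obtain ⟨v, hv, rfl⟩ := hd
    obtain ⟨w, hw, h⟩ := hd'
    exact B.p_ne_α hv hw h.symm
  have h5 : (univ.filter (fun d => B.IsTree d)).card = 2 * S.card := by
    rw [h1, card_union_of_disjoint h4, h2, h3]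
    omega
  have h6 := card_filter_add_card_filter_not (s := (univ : Finset D)) (fun d => B.IsTree d)
  rw [card_univ] at h6
  omega

end BFS

open Classical in
theorem card_nonbase {D : Type} [Fintype D] (M : CMap D) [Fintype M.Face] :
    (univ.filter (fun e => e ≠ M.base (M.face e))).card + Fintype.card M.Face =
      Fintype.card D := by
  have h1 : (univ.filter (fun e => e = M.base (M.face e))).card = Fintype.card M.Face := by
    rw [← card_univ]
    symm
    apply card_bij (fun f _ => M.base f)
    · intro f _
      simp only [mem_filter, mem_univ, true_and]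
      rw [M.face_base]
    · intro f _ g _ h
      rw [← M.face_base f, ← M.face_base g, h]
    · intro e he
      simp only [mem_filter, mem_univ, true_and] at he
      exact ⟨M.face e, mem_univ _, he.symm⟩
  have h6 := card_filter_add_card_filter_not (s := (univ : Finset D)) (fun e => e = M.base (M.face e))
  rw [card_univ] at h6
  simp only [ne_eq]
  omega

open Classical in
theorem card_link {D : Type} [Fintype D] {M : CMap D} (hs : M.Spherical) (B : BFS M) :
    (univ.filter (fun x : D × D => B.Link x.1 x.2)).card + 2 ≤ 2 * Fintype.card D := by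
  have : Finite M.Vertex := Quotient.finite _
  have : Finite M.Face := Quotient.finite _
  have : Fintype M.Vertex := Fintype.ofFinite _
  have : Fintype M.Face := Fintype.ofFinite _
  have hs' : 2 * (Fintype.card M.Vertex + Fintype.card M.Face) = Fintype.card D + 4 := by
    have := hs
    unfold CMap.Spherical at this
    simpa only [Nat.card_eq_fintype_card] using this
  have h1 := B.card_nontree
  have h2 := card_nonbase M
  have h3 : univ.filter (fun x : D × D => B.Link x.1 x.2) ⊆
      (univ.filter (fun d => ¬ B.IsTree d)).image (fun d => (d, M.α d)) ∪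
      ((univ.filter (fun e => e ≠ M.base (M.face e))).image (fun e => (M.φ.symm e, e)) ∪
      (univ.filter (fun e => e ≠ M.base (M.face e))).image (fun e => (e, M.φ.symm e))) := by
    rintro ⟨d, e⟩ h
    simp only [mem_filter, mem_univ, true_and] at h
    simp only [mem_union, mem_image, mem_filter, mem_univ, true_and]
    rcases h with ⟨rfl, h⟩ | ⟨h, h'⟩ | ⟨h, h'⟩
    · exact Or.inl ⟨d, h, rfl⟩
    · refine Or.inr (Or.inl ⟨e, h', ?_⟩)
      rw [h, Equiv.symm_apply_apply]
    · refine Or.inr (Or.inr ⟨d, h', ?_⟩)
      rw [h, Equiv.symm_apply_apply]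
  have h4 := card_le_card h3
  have h5 := card_union_le ((univ.filter (fun d => ¬ B.IsTree d)).image (fun d => (d, M.α d)))
      ((univ.filter (fun e => e ≠ M.base (M.face e))).image (fun e => (M.φ.symm e, e)) ∪
      (univ.filter (fun e => e ≠ M.base (M.face e))).image (fun e => (e, M.φ.symm e)))
  have h6 := card_union_le ((univ.filter (fun e => e ≠ M.base (M.face e))).image
      (fun e => (M.φ.symm e, e)))
      ((univ.filter (fun e => e ≠ M.base (M.face e))).image (fun e => (e, M.φ.symm e)))
  have h7 := card_image_le (s := univ.filter (fun d => ¬ B.IsTree d)) (f := fun d => (d, M.α d))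
  have h8 := card_image_le (s := univ.filter (fun e => e ≠ M.base (M.face e)))
    (f := fun e => (M.φ.symm e, e))
  have h9 := card_image_le (s := univ.filter (fun e => e ≠ M.base (M.face e)))
    (f := fun e => (e, M.φ.symm e))
  omega

/-- C2c. The link graph is a tree. -/
theorem link_tree {D : Type} [Finite D] [Nonempty D] {M : CMap D} (hs : M.Spherical) (B : BFS M)
    (hconn : ∀ d e : D, Relation.ReflTransGen B.Link d e) :
    ∃ (x₀ : D) (np : D → D) (nd : D → ℕ),
      (∀ x, x ≠ x₀ → B.Link x (np x) ∧ nd (np x) + 1 = nd x) ∧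
      (∀ a b, B.Link a b → (a ≠ x₀ ∧ b = np a) ∨ (b ≠ x₀ ∧ a = np b)) := by
  classical
  have : Fintype D := Fintype.ofFinite D
  obtain ⟨x₀⟩ := ‹Nonempty D›
  set G : SimpleGraph D := SimpleGraph.fromRel B.Link with hG
  have hreach : ∀ x, G.Reachable x x₀ := by
    intro x
    have h := hconn x x₀
    induction h using Relation.ReflTransGen.head_induction_on with
    | refl => exact SimpleGraph.Reachable.refl _
    | @head a b h1 _ ih =>
      by_cases hab : a = b
      · rw [hab]
        exact ih
      · have h2 : G.Adj a b := by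
          rw [hG, SimpleGraph.fromRel_adj]
          exact ⟨hab, Or.inl h1⟩
        exact h2.reachable.trans ih
  have hnp : ∀ x, x ≠ x₀ → ∃ y, B.Link x y ∧ G.dist y x₀ + 1 = G.dist x x₀ := by
    intro x hx
    obtain ⟨w, hw⟩ := (hreach x).exists_walk_length_eq_dist
    cases w with
    | nil => exact absurd rfl hx
    | cons h w' =>
      rename_i y
      refine ⟨y, ?_, ?_⟩
      · rw [hG, SimpleGraph.fromRel_adj] at h
        rcases h.2 with h3 | h3
        · exact h3
        · exact B.ltLinkSymm h3
      · have h1 : G.dist y x₀ ≤ w'.length := SimpleGraph.dist_le w'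
        have h2 : G.dist x x₀ ≤ G.dist y x₀ + 1 := by
          obtain ⟨w2, hw2⟩ := (hreach y).exists_walk_length_eq_dist
          have h4 := SimpleGraph.dist_le (SimpleGraph.Walk.cons h w2)
          rw [SimpleGraph.Walk.length_cons, hw2] at h4
          exact h4
        rw [SimpleGraph.Walk.length_cons] at hw
        omega
  choose! np hnp1 hnp2 using hnp
  refine ⟨x₀, np, fun x => G.dist x x₀, fun x hx => ⟨hnp1 x hx, hnp2 x hx⟩, ?_⟩
  set S : Finset D := univ.filter (fun x => x ≠ x₀) with hS
  have hSc : S.card + 1 = Fintype.card D := by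
    have h1 : S = univ.erase x₀ := by
      ext v
      simp [hS]
    rw [h1, card_erase_of_mem (mem_univ _), card_univ]
    have : 0 < Fintype.card D := Fintype.card_pos_iff.2 ⟨x₀⟩
    omega
  set T : Finset (D × D) := S.image (fun x => (x, np x)) ∪ S.image (fun x => (np x, x)) with hT
  have hdis : Disjoint (S.image (fun x => (x, np x))) (S.image (fun x => (np x, x))) := by
    rw [disjoint_left]
    intro p hp hp'
    simp only [mem_image, hS, mem_filter, mem_univ, true_and] at hp hp'
    obtain ⟨x, hx, rfl⟩ := hp
    obtain ⟨y, hy, h⟩ := hp'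
    simp only [Prod.mk.injEq] at h
    have h1 := hnp2 x hx
    have h2 := hnp2 y hy
    rw [h.1] at h2
    rw [← h.2] at h1
    omega
  have hTc : T.card = 2 * S.card := by
    rw [hT, card_union_of_disjoint hdis, card_image_of_injective, card_image_of_injective]
    · omega
    · intro x y h
      exact (Prod.mk.injEq _ _ _ _ ▸ h : np x = np y ∧ x = y).2
    · intro x y h
      exact (Prod.mk.injEq _ _ _ _ ▸ h : x = y ∧ np x = np y).1
  have hsub : T ⊆ univ.filter (fun x : D × D => B.Link x.1 x.2) := by
    intro p hp
    simp only [hT, mem_union, mem_image, hS, mem_filter, mem_univ, true_and] at hp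
    simp only [mem_filter, mem_univ, true_and]
    rcases hp with ⟨x, hx, rfl⟩ | ⟨x, hx, rfl⟩
    · exact hnp1 x hx
    · exact B.ltLinkSymm (hnp1 x hx)
  have heq : T = univ.filter (fun x : D × D => B.Link x.1 x.2) := by
    apply eq_of_subset_of_card_le hsub
    have := card_link hs B
    omega
  intro a b hab
  have hmem : (a, b) ∈ T := by
    rw [heq]
    simp only [mem_filter, mem_univ, true_and]
    exact hab
  simp only [hT, mem_union, mem_image, hS, mem_filter, mem_univ, true_and, Prod.mk.injEq] at hmem
  rcases hmem with ⟨x, hx, rfl, rfl⟩ | ⟨x, hx, rfl, rfl⟩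
  · exact Or.inl ⟨hx, rfl⟩
  · exact Or.inr ⟨hx, rfl⟩

end Pool.Agent.TFP
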