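import Pool.Agent.TFP.Large
import Pool.Agent.TFP.Four

/-!
# The strong fractional choice number: assembly for all `m`
-/

set_option autoImplicit false

namespace Pool.Agent.TFP

/-- `Choosable` is monotone in the size of the lists. -/
private theorem choosable_of_le {V : Type} {G : SimpleGraph V} {a a' b : ℕ} (h : Choosable G a b)
    (ha : a ≤ a') : Choosable G a' b := by
  intro L hL
  have h1 : ∀ v, ∃ t ⊆ L v, t.card = a := fun v =>
    Finset.exists_subset_card_eq (by rw [hL v]; exact ha)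
  choose L' hL' hcard using h1
  obtain ⟨c, hc, hdis⟩ := h L' hcard
  exact ⟨c, fun v => ⟨(hc v).1.trans (hL' v), (hc v).2⟩, hdis⟩

/-- E4. All `m`. -/
theorem strongly : ∃ ε : ℝ, 0 < ε ∧ ∀ (V : Type) [Fintype V] (G : SimpleGraph V),
    IsPlanar G → G.CliqueFree 3 → StronglyChoosable G (4 - ε) := by
  obtain ⟨m₀, hm₀⟩ := choosable_large (1 / 4) (by norm_num)
  have hpos : (0 : ℝ) < m₀ + 1 := by positivity
  refine ⟨min (1 / 4) (1 / (m₀ + 1)), lt_min (by norm_num) (by positivity), ?_⟩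
  intro V _ G hp ht m hm
  obtain ⟨ε, hε⟩ : ∃ ε : ℝ, ε = min (1 / 4) (1 / ((m₀ : ℝ) + 1)) := ⟨_, rfl⟩
  have h1 : ε ≤ 1 / 4 := by rw [hε]; exact min_le_left _ _
  have h2 : ε ≤ 1 / ((m₀ : ℝ) + 1) := by rw [hε]; exact min_le_right _ _
  rw [← hε]
  have hmr : (1 : ℝ) ≤ m := by exact_mod_cast hm
  rcases le_or_gt m₀ m with h | h
  · refine choosable_of_le (hm₀ m h V G hp ht) (Nat.ceil_le_ceil ?_)
    nlinarith
  · refine choosable_of_le (choosable_four m V G hp ht) ?_
    have h3 : ε * m < 1 := by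
      have h4 : (m : ℝ) < m₀ + 1 := by
        have : (m : ℝ) < m₀ := by exact_mod_cast h
        linarith
      calc ε * m ≤ 1 / (m₀ + 1) * m := mul_le_mul_of_nonneg_right h2 (by linarith)
        _ = m / (m₀ + 1) := by ring
        _ < 1 := by rw [div_lt_one hpos]; exact h4
    have h5 : 4 * m - 1 < ⌈(4 - ε) * (m : ℝ)⌉₊ := by
      rw [Nat.lt_ceil]
      have h6 : ((4 * m - 1 : ℕ) : ℝ) = 4 * m - 1 := by
        rw [Nat.cast_sub (by omega)]
        push_cast
        ring
      rw [h6]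
      nlinarith
    omega

/-- E5. The strong fractional choice number of the class is smaller than 4. -/
theorem chfsQ_lt : ∃ ε : ℝ, 0 < ε ∧ chfsQ ≤ 4 - ε := by
  obtain ⟨ε, hε, h⟩ := strongly
  refine ⟨min ε 1, lt_min hε one_pos, ?_⟩
  have h4 : (0 : ℝ) < 4 - min ε 1 := by
    have := min_le_right ε 1
    linarith
  refine Real.sSup_le ?_ h4.le
  rintro r ⟨n, G, hp, ht, rfl⟩
  refine csInf_le ⟨0, fun r hr => hr.1.le⟩ ⟨h4, ?_⟩
  intro m hm
  refine choosable_of_le (h (Fin n) G hp ht m hm) (Nat.ceil_le_ceil ?_)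
  have h5 := min_le_left ε 1
  have h6 : (0 : ℝ) ≤ m := Nat.cast_nonneg m
  nlinarith

end Pool.Agent.TFP
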