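import Pool.Agent.TFP.TreeDefs

/-!
# The tree decomposition from the link tree
-/

set_option autoImplicit false

namespace Pool.Agent.TFP

namespace TreeDecompAux

/-- Every node reaches the root. -/
theorem reach {D : Type} (np : D → D) (nd : D → ℕ) (x₀ : D)
    (hnp : ∀ x, x ≠ x₀ → nd (np x) + 1 = nd x) : ∀ y, ∃ i, np^[i] y = x₀ := by
  intro y
  induction hn : nd y using Nat.strong_induction_on generalizing y with
  | _ n ih =>
    by_cases hy : y = x₀
    · exact ⟨0, hy⟩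
    · have h := hnp y hy
      obtain ⟨i, hi⟩ := ih (nd (np y)) (by omega) (np y) rfl
      exact ⟨i + 1, by rw [Function.iterate_succ_apply]; exact hi⟩

/-- The first step out of the set of the descendants of `x`. -/
theorem cross {D : Type} (L : D → D → Prop) (P : D → Prop) (np : D → D) (x₀ : D)
    (hL : ∀ a b, L a b → (a ≠ x₀ ∧ b = np a) ∨ (b ≠ x₀ ∧ a = np b)) (x : D)
    (y y' : D) (h : Relation.ReflTransGen (fun a b => L a b ∧ P a ∧ P b) y y')
    (hy : ∃ i, np^[i] y = x) (hy' : ∀ i, np^[i] y' ≠ x) : P x ∧ P (np x) := by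
  induction h with
  | refl =>
    obtain ⟨i, hi⟩ := hy
    exact absurd hi (hy' i)
  | @tail b c _ hbc ih =>
    by_cases hb : ∃ i, np^[i] b = x
    · obtain ⟨i, hi⟩ := hb
      obtain ⟨hLbc, hPb, hPc⟩ := hbc
      rcases hL b c hLbc with ⟨_, rfl⟩ | ⟨_, rfl⟩
      · cases i with
        | zero =>
          have : b = x := hi
          subst this
          exact ⟨hPb, hPc⟩
        | succ i =>
          rw [Function.iterate_succ_apply] at hi
          exact absurd hi (hy' i)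
      · exact absurd (show np^[i + 1] c = x by rw [Function.iterate_succ_apply]; exact hi)
          (hy' (i + 1))
    · push Not at hb
      exact ih hb

theorem anc_root {D : Type} {M : CMap D} (B : BFS M) (v : M.Vertex) : B.Anc B.r v := by
  induction hn : B.dep v using Nat.strong_induction_on generalizing v with
  | _ n ih =>
    by_cases hv : v = B.r
    · exact ⟨0, hv⟩
    · have h := B.p_dep v hv
      obtain ⟨i, hi⟩ := ih (B.dep (M.vtx (M.α (B.p v)))) (by omega) _ rfl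
      refine ⟨i + 1, ?_⟩
      rw [Function.iterate_succ_apply]
      have : B.par v = M.vtx (M.α (B.p v)) := by
        unfold BFS.par
        rw [if_neg hv]
      rw [this]
      exact hi

theorem anc_self {D : Type} {M : CMap D} (B : BFS M) (v : M.Vertex) : B.Anc v v := ⟨0, rfl⟩

theorem main {D : Type} [Finite D] [Nonempty D] (M : CMap D) (B : BFS M)
    (card_bag : ∀ (d : D) (a b : ℕ),
      Nat.card {v : M.Vertex // B.Bag v d ∧ a ≤ B.dep v ∧ B.dep v < b} ≤ 3 * (b - a))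
    (bag_connected : ∀ (v : M.Vertex) (d e : D), B.Bag v d → B.Bag v e →
      Relation.ReflTransGen (fun a b => B.Link a b ∧ B.Bag v a ∧ B.Bag v b) d e)
    (link_tree : (∀ d e : D, Relation.ReflTransGen B.Link d e) →
      ∃ (x₀ : D) (np : D → D) (nd : D → ℕ),
      (∀ x, x ≠ x₀ → B.Link x (np x) ∧ nd (np x) + 1 = nd x) ∧
      (∀ a b, B.Link a b → (a ≠ x₀ ∧ b = np a) ∨ (b ≠ x₀ ∧ a = np b))) :
    ∃ (dep : M.Vertex → ℕ) (N : M.Vertex → D → Prop) (x₀ : D) (np : D → D) (nd : D → ℕ),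
      (∀ d, dep (M.vtx (M.α d)) ≤ dep (M.vtx d) + 1) ∧
      (∀ d, N (M.vtx d) d ∧ N (M.vtx (M.α d)) d) ∧
      (∀ d a b, Nat.card {v : M.Vertex // N v d ∧ a ≤ dep v ∧ dep v < b} ≤ 3 * (b - a)) ∧
      (∀ x, x ≠ x₀ → nd (np x) + 1 = nd x) ∧
      (∀ y, ∃ i, np^[i] y = x₀) ∧ np x₀ = x₀ ∧
      (∀ v x, (∃ y, N v y ∧ ∃ i, np^[i] y = x) → (∃ y, N v y ∧ ∀ i, np^[i] y ≠ x) →
        N v x ∧ N v (np x)) := by
  classical
  have hroot : ∀ d : D, B.Bag B.r d := fun d => ⟨M.vtx d, anc_root B _, Or.inl rfl⟩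
  obtain ⟨x₀, np', nd, h1', h2'⟩ := link_tree (by
    intro d e
    have h := bag_connected B.r d e (hroot d) (hroot e)
    exact h.lift id (fun a b hab => hab.1))
  obtain ⟨np, hnp⟩ : ∃ np : D → D, np = Function.update np' x₀ x₀ := ⟨_, rfl⟩
  have hnp0 : np x₀ = x₀ := by rw [hnp, Function.update_self]
  have hnp1 : ∀ x, x ≠ x₀ → np x = np' x := by
    intro x hx
    rw [hnp, Function.update_of_ne hx]
  have h1 : ∀ x, x ≠ x₀ → B.Link x (np x) ∧ nd (np x) + 1 = nd x := by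
    intro x hx
    rw [hnp1 x hx]
    exact h1' x hx
  have h2 : ∀ a b, B.Link a b → (a ≠ x₀ ∧ b = np a) ∨ (b ≠ x₀ ∧ a = np b) := by
    intro a b hab
    rcases h2' a b hab with ⟨ha, h⟩ | ⟨hb, h⟩
    · exact Or.inl ⟨ha, by rw [hnp1 a ha]; exact h⟩
    · exact Or.inr ⟨hb, by rw [hnp1 b hb]; exact h⟩
  refine ⟨B.dep, B.Bag, x₀, np, nd, B.dep_le, ?_, card_bag, fun x hx => (h1 x hx).2, ?_, hnp0, ?_⟩
  · intro d
    exact ⟨⟨M.vtx d, anc_self B _, Or.inl rfl⟩, ⟨M.vtx (M.α d), anc_self B _, Or.inr (Or.inl rfl)⟩⟩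
  · exact reach np nd x₀ (fun x hx => (h1 x hx).2)
  · rintro v x ⟨y, hy, hyx⟩ ⟨y', hy', hyx'⟩
    exact cross B.Link (fun d => B.Bag v d) np x₀ h2 x y y' (bag_connected v y y' hy hy') hyx hyx'

end TreeDecompAux

end Pool.Agent.TFP
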