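import Pool.Agent.TFP.Bfs
import Pool.Agent.TFP.CardBag
import Pool.Agent.TFP.BagConnected
import Pool.Agent.TFP.LinkTree
import Pool.Agent.TFP.TreeDecompAux

/-!
# The tree decomposition of a spherical map
-/

set_option autoImplicit false

namespace Pool.Agent.TFP

/-- C2d. The tree decomposition of a spherical map: `N v x` says that `v` is in the bag of the
node `x`; the nodes are the darts, with parent function `np`, root `x₀`, height `nd`. -/
theorem tree_decomposition {D : Type} [Finite D] [Nonempty D] (M : CMap D) (hc : M.Connected)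
    (hs : M.Spherical) :
    ∃ (dep : M.Vertex → ℕ) (N : M.Vertex → D → Prop) (x₀ : D) (np : D → D) (nd : D → ℕ),
      (∀ d, dep (M.vtx (M.α d)) ≤ dep (M.vtx d) + 1) ∧
      (∀ d, N (M.vtx d) d ∧ N (M.vtx (M.α d)) d) ∧
      (∀ d a b, Nat.card {v : M.Vertex // N v d ∧ a ≤ dep v ∧ dep v < b} ≤ 3 * (b - a)) ∧
      (∀ x, x ≠ x₀ → nd (np x) + 1 = nd x) ∧
      (∀ y, ∃ i, np^[i] y = x₀) ∧ np x₀ = x₀ ∧
      (∀ v x, (∃ y, N v y ∧ ∃ i, np^[i] y = x) → (∃ y, N v y ∧ ∀ i, np^[i] y ≠ x) →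
        N v x ∧ N v (np x)) := by
  obtain ⟨B⟩ := exists_bfs M hc
  exact TreeDecompAux.main M B (card_bag B) (bag_connected B) (link_tree hs B)

end Pool.Agent.TFP
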