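import Pool.Agent.TFP.Contract

/-!
# Gluing plane graphs along an edge

`CMap.glue M N d e` is the map obtained from two maps by identifying the start of `d` with the start
of `e` and the end of `d` with the end of `e`. If `M` and `N` are connected and spherical, so is the
glued map. Hence the parallel composition of planar graphs with two adjacent poles is planar.
-/

set_option autoImplicit false

namespace Pool.Agent.TFP

open Equiv Equiv.Perm

section Sum

variable {D E : Type} (σ : Perm D) (τ : Perm E)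

theorem sumCongr_zpow (k : ℤ) : (Perm.sumCongr σ τ) ^ k = Perm.sumCongr (σ ^ k) (τ ^ k) :=
  (map_zpow (Perm.sumCongrHom D E) (σ, τ) k).symm

theorem sum_inl {x y : D} :
    (Perm.sumCongr σ τ).SameCycle (Sum.inl x) (Sum.inl y) ↔ σ.SameCycle x y := by
  unfold Perm.SameCycle
  simp only [sumCongr_zpow, Perm.sumCongr_apply, Sum.map_inl, Sum.inl.injEq]

theorem sum_inr {x y : E} :
    (Perm.sumCongr σ τ).SameCycle (Sum.inr x) (Sum.inr y) ↔ τ.SameCycle x y := by
  unfold Perm.SameCycle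
  simp only [sumCongr_zpow, Perm.sumCongr_apply, Sum.map_inr, Sum.inr.injEq]

theorem sum_ne {x : D} {y : E} : ¬ (Perm.sumCongr σ τ).SameCycle (Sum.inl x) (Sum.inr y) := by
  rintro ⟨k, hk⟩
  rw [sumCongr_zpow, Perm.sumCongr_apply, Sum.map_inl] at hk
  cases hk

theorem sum_ne' {x : D} {y : E} : ¬ (Perm.sumCongr σ τ).SameCycle (Sum.inr y) (Sum.inl x) :=
  fun h => sum_ne σ τ h.symm

theorem card_sum [Finite D] [Finite E] :
    Nat.card (Quotient (SameCycle.setoid (Perm.sumCongr σ τ))) =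
      Nat.card (Quotient (SameCycle.setoid σ)) + Nat.card (Quotient (SameCycle.setoid τ)) := by
  classical
  let f : Quotient (SameCycle.setoid σ) ⊕ Quotient (SameCycle.setoid τ) →
      Quotient (SameCycle.setoid (Perm.sumCongr σ τ)) :=
    Sum.elim
      (Quotient.map' (s₁ := SameCycle.setoid σ) (s₂ := SameCycle.setoid (Perm.sumCongr σ τ))
        Sum.inl (fun _ _ h => (sum_inl σ τ).2 h))
      (Quotient.map' (s₁ := SameCycle.setoid τ) (s₂ := SameCycle.setoid (Perm.sumCongr σ τ))
        Sum.inr (fun _ _ h => (sum_inr σ τ).2 h))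
  have hf : Function.Bijective f := by
    constructor
    · rintro (q | q) (q' | q') h
      · induction q using Quotient.inductionOn with | _ x => ?_
        induction q' using Quotient.inductionOn with | _ y => ?_
        have h1 : (Perm.sumCongr σ τ).SameCycle (Sum.inl x) (Sum.inl y) :=
          Quotient.exact (s := SameCycle.setoid (Perm.sumCongr σ τ)) h
        exact congrArg Sum.inl (Quotient.sound (s := SameCycle.setoid σ) ((sum_inl σ τ).1 h1))
      · induction q using Quotient.inductionOn with | _ x => ?_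
        induction q' using Quotient.inductionOn with | _ y => ?_
        have h1 : (Perm.sumCongr σ τ).SameCycle (Sum.inl x) (Sum.inr y) :=
          Quotient.exact (s := SameCycle.setoid (Perm.sumCongr σ τ)) h
        exact absurd h1 (sum_ne σ τ)
      · induction q using Quotient.inductionOn with | _ x => ?_
        induction q' using Quotient.inductionOn with | _ y => ?_
        have h1 : (Perm.sumCongr σ τ).SameCycle (Sum.inr x) (Sum.inl y) :=
          Quotient.exact (s := SameCycle.setoid (Perm.sumCongr σ τ)) h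
        exact absurd h1 (sum_ne' σ τ)
      · induction q using Quotient.inductionOn with | _ x => ?_
        induction q' using Quotient.inductionOn with | _ y => ?_
        have h1 : (Perm.sumCongr σ τ).SameCycle (Sum.inr x) (Sum.inr y) :=
          Quotient.exact (s := SameCycle.setoid (Perm.sumCongr σ τ)) h
        exact congrArg Sum.inr (Quotient.sound (s := SameCycle.setoid τ) ((sum_inr σ τ).1 h1))
    · intro q
      induction q using Quotient.inductionOn with | _ x => ?_
      rcases x with x | x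
      · exact ⟨Sum.inl (Quotient.mk (SameCycle.setoid σ) x), rfl⟩
      · exact ⟨Sum.inr (Quotient.mk (SameCycle.setoid τ) x), rfl⟩
  have : Finite (Quotient (SameCycle.setoid σ)) := Quotient.finite _
  have : Finite (Quotient (SameCycle.setoid τ)) := Quotient.finite _
  rw [← Nat.card_sum]
  exact (Nat.card_congr (Equiv.ofBijective f hf)).symm

end Sum

/-- A swap of two elements of one cycle splits this cycle. -/
theorem split_not {D : Type} [Finite D] [DecidableEq D] (P : Perm D) {x y : D} (hne : x ≠ y)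
    (h : P.SameCycle x y) : ¬ (swap x y * P).SameCycle x y := by
  classical
  have hex : ∃ k : ℕ, (P ^ k) x = y := h.exists_nat_pow_eq
  have hk := Nat.find_spec hex
  have hmin : ∀ j, j < Nat.find hex → (P ^ j) x ≠ y := fun j hj => Nat.find_min hex hj
  generalize Nat.find hex = k at hk hmin
  have hk0 : 0 < k := by
    rcases Nat.eq_zero_or_pos k with h0 | h0
    · subst h0; exact absurd hk hne
    · exact h0
  have key : ∀ i : ℕ, ∃ j, j < k ∧ ((swap x y * P) ^ i) x = (P ^ j) x := by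
    intro i
    induction i with
    | zero => exact ⟨0, hk0, rfl⟩
    | succ i ih =>
      obtain ⟨j, hj, e⟩ := ih
      have e2 : (swap x y * P) ((P ^ j) x) = swap x y ((P ^ (j + 1)) x) := by
        rw [Perm.mul_apply, pow_succ' P j, Perm.mul_apply]
      rw [pow_succ', Perm.mul_apply, e, e2]
      by_cases hj1 : j + 1 < k
      · refine ⟨j + 1, hj1, ?_⟩
        rw [swap_apply_of_ne_of_ne]
        · intro hx
          have h1 : (P ^ (k - (j + 1))) x = y := by
            have h2 : k = (k - (j + 1)) + (j + 1) := by omega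
            rw [h2, pow_add, Perm.mul_apply, hx] at hk
            exact hk
          exact hmin _ (by omega) h1
        · exact hmin _ hj1
      · have h3 : j + 1 = k := by omega
        refine ⟨0, hk0, ?_⟩
        rw [h3, hk, swap_apply_right, pow_zero, Perm.one_apply]
  intro hc
  obtain ⟨i, hi⟩ := hc.exists_nat_pow_eq
  obtain ⟨j, hj, e⟩ := key i
  exact hmin j hj (e.symm.trans hi)

namespace CMap

variable {D E : Type} [Finite D] [Finite E] [DecidableEq D] [DecidableEq E]

/-- Glue two maps along the darts `d` and `e`. -/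
def glue (M : CMap D) (N : CMap E) (d : D) (e : E) : CMap (D ⊕ E) where
  σ := swap (Sum.inl (M.φ d)) (Sum.inr (N.φ e)) *
    (swap (Sum.inl d) (Sum.inr e) * Perm.sumCongr M.σ N.σ)
  α := Perm.sumCongr M.α N.α
  invol := by
    rintro (x | x)
    · simp [M.invol]
    · simp [N.invol]
  ne := by
    rintro (x | x)
    · simp [M.ne]
    · simp [N.ne]

variable (M : CMap D) (N : CMap E) (d : D) (e : E)

theorem glue_φ : (glue M N d e).φ = swap (Sum.inl (M.φ d)) (Sum.inr (N.φ e)) *
    (swap (Sum.inl d) (Sum.inr e) * Perm.sumCongr M.φ N.φ) := by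
  unfold φ glue
  simp only [mul_assoc, Perm.sumCongr_mul]
  rfl

/-- the start class of the glued edge -/
def UU (z : D ⊕ E) : Prop :=
  (Perm.sumCongr M.σ N.σ).SameCycle (Sum.inl d) z ∨ (Perm.sumCongr M.σ N.σ).SameCycle (Sum.inr e) z

/-- the end class of the glued edge -/
def WW (z : D ⊕ E) : Prop :=
  (Perm.sumCongr M.σ N.σ).SameCycle (Sum.inl (M.φ d)) z ∨
    (Perm.sumCongr M.σ N.σ).SameCycle (Sum.inr (N.φ e)) z

variable (hd : M.vtx d ≠ M.vtx (M.α d)) (he : N.vtx e ≠ N.vtx (N.α e))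

include hd in
theorem not_same_left : ¬ M.σ.SameCycle d (M.φ d) := by
  intro h
  apply hd
  rw [vtx_eq_iff]
  exact sameCycle_apply_right.1 h

include hd he in
theorem first_iff {z z' : D ⊕ E} :
    (swap (Sum.inl d) (Sum.inr e) * Perm.sumCongr M.σ N.σ).SameCycle z z' ↔
      (Perm.sumCongr M.σ N.σ).SameCycle z z' ∨ (UU M N d e z ∧ UU M N d e z') :=
  merge_iff (Perm.sumCongr M.σ N.σ) (Sum.inl d) (Sum.inr e) (sum_ne M.σ N.σ)

include hd he in
theorem not_UU_left : ¬ UU M N d e (Sum.inl (M.φ d)) := by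
  rintro (h | h)
  · exact not_same_left M d hd ((sum_inl M.σ N.σ).1 h)
  · exact sum_ne' M.σ N.σ h

include hd he in
theorem not_UU_right : ¬ UU M N d e (Sum.inr (N.φ e)) := by
  rintro (h | h)
  · exact sum_ne M.σ N.σ h
  · exact not_same_left N e he ((sum_inr M.σ N.σ).1 h)

include hd he in
theorem not_second : ¬ (swap (Sum.inl d) (Sum.inr e) * Perm.sumCongr M.σ N.σ).SameCycle
    (Sum.inl (M.φ d)) (Sum.inr (N.φ e)) := by
  rw [first_iff M N d e hd he]
  rintro (h | h)
  · exact sum_ne M.σ N.σ h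
  · exact not_UU_left M N d e hd he h.1

include hd he in
/-- The vertices of the glued map. -/
theorem glue_vtx_iff {z z' : D ⊕ E} : (glue M N d e).vtx z = (glue M N d e).vtx z' ↔
    (Perm.sumCongr M.σ N.σ).SameCycle z z' ∨ (UU M N d e z ∧ UU M N d e z') ∨
      (WW M N d e z ∧ WW M N d e z') := by
  rw [vtx_eq_iff]
  have h := merge_iff (swap (Sum.inl d) (Sum.inr e) * Perm.sumCongr M.σ N.σ)
    (Sum.inl (M.φ d)) (Sum.inr (N.φ e)) (not_second M N d e hd he) (x := z) (y := z')
  have key : ∀ w : D ⊕ E,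
      ((swap (Sum.inl d) (Sum.inr e) * Perm.sumCongr M.σ N.σ).SameCycle (Sum.inl (M.φ d)) w ∨
        (swap (Sum.inl d) (Sum.inr e) * Perm.sumCongr M.σ N.σ).SameCycle (Sum.inr (N.φ e)) w) ↔
      WW M N d e w := by
    intro w
    rw [first_iff M N d e hd he, first_iff M N d e hd he]
    unfold WW
    constructor
    · rintro ((h1 | h1) | (h1 | h1))
      · exact Or.inl h1
      · exact absurd h1.1 (not_UU_left M N d e hd he)
      · exact Or.inr h1
      · exact absurd h1.1 (not_UU_right M N d e hd he)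
    · rintro (h1 | h1)
      · exact Or.inl (Or.inl h1)
      · exact Or.inr (Or.inl h1)
  rw [key, key, first_iff M N d e hd he] at h
  change ((swap (Sum.inl (M.φ d)) (Sum.inr (N.φ e)) *
    (swap (Sum.inl d) (Sum.inr e) * Perm.sumCongr M.σ N.σ)).SameCycle z z' ↔ _)
  rw [h, or_assoc]

include hd he in
theorem card_vertex_glue :
    Nat.card M.Vertex + Nat.card N.Vertex = Nat.card (glue M N d e).Vertex + 2 := by
  have h1 := card_sum M.σ N.σ
  have h2 := card_merge (Perm.sumCongr M.σ N.σ) (Sum.inl d) (Sum.inr e) (sum_ne M.σ N.σ)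
  have h3 := card_merge (swap (Sum.inl d) (Sum.inr e) * Perm.sumCongr M.σ N.σ)
    (Sum.inl (M.φ d)) (Sum.inr (N.φ e)) (not_second M N d e hd he)
  unfold Vertex
  change _ = Nat.card (Quotient (SameCycle.setoid (swap (Sum.inl (M.φ d)) (Sum.inr (N.φ e)) *
    (swap (Sum.inl d) (Sum.inr e) * Perm.sumCongr M.σ N.σ)))) + 2
  omega

include hd he in
theorem card_face_glue :
    Nat.card M.Face + Nat.card N.Face = Nat.card (glue M N d e).Face := by
  have h1 := card_sum M.φ N.φ
  have h2 := card_merge (Perm.sumCongr M.φ N.φ) (Sum.inl d) (Sum.inr e) (sum_ne M.φ N.φ)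
  -- the second swap splits a face
  have hs1 : (swap (Sum.inl d) (Sum.inr e) * Perm.sumCongr M.φ N.φ).SameCycle (Sum.inl d)
      (Sum.inr e) := merge_ab (Perm.sumCongr M.φ N.φ) (Sum.inl d) (Sum.inr e) (sum_ne M.φ N.φ)
  have hg : (glue M N d e).φ = swap (Sum.inl (M.φ d)) (Sum.inr (N.φ e)) *
    (swap (Sum.inl d) (Sum.inr e) * Perm.sumCongr M.φ N.φ) := glue_φ M N d e
  obtain ⟨P, hP⟩ : ∃ P, P = swap (Sum.inl d) (Sum.inr e) * Perm.sumCongr M.φ N.φ := ⟨_, rfl⟩
  rw [← hP] at h2 hs1 hg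
  have hdd : M.φ d ≠ d := by
    intro h
    apply hd
    rw [← M.vtx_φ d, h]
  have hee : N.φ e ≠ e := by
    intro h
    apply he
    rw [← N.vtx_φ e, h]
  have e1 : P (Sum.inl d) = Sum.inl (M.φ d) := by
    rw [hP, Perm.mul_apply, Perm.sumCongr_apply, Sum.map_inl, swap_apply_of_ne_of_ne]
    · intro h; exact hdd (Sum.inl_injective h)
    · exact Sum.inl_ne_inr
  have e2 : P (Sum.inr e) = Sum.inr (N.φ e) := by
    rw [hP, Perm.mul_apply, Perm.sumCongr_apply, Sum.map_inr, swap_apply_of_ne_of_ne]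
    · exact Sum.inr_ne_inl
    · intro h; exact hee (Sum.inr_injective h)
  have hsame : P.SameCycle (Sum.inl (M.φ d)) (Sum.inr (N.φ e)) := by
    rw [← e1, ← e2]
    exact sameCycle_apply_left.2 (sameCycle_apply_right.2 hs1)
  have hne : (Sum.inl (M.φ d) : D ⊕ E) ≠ Sum.inr (N.φ e) := Sum.inl_ne_inr
  have h4 := split_not P hne hsame
  have h5 := card_merge (swap (Sum.inl (M.φ d)) (Sum.inr (N.φ e)) * P) _ _ h4
  have h6 : swap (Sum.inl (M.φ d)) (Sum.inr (N.φ e)) *
      (swap (Sum.inl (M.φ d)) (Sum.inr (N.φ e)) * P) = P := by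
    rw [← mul_assoc, swap_mul_self, one_mul]
  rw [h6] at h5
  unfold Face
  rw [hg]
  omega

include hd he in
theorem spherical_glue (hM : M.Spherical) (hN : N.Spherical) : (glue M N d e).Spherical := by
  unfold Spherical at hM hN ⊢
  have h1 := card_vertex_glue M N d e hd he
  have h2 := card_face_glue M N d e hd he
  rw [Nat.card_sum]
  omega

theorem conn_symm (M : CMap D) {x y : D}
    (h : Relation.ReflTransGen (fun a b => b = M.σ a ∨ b = M.α a) x y) :
    Relation.ReflTransGen (fun a b => b = M.σ a ∨ b = M.α a) y x := by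
  have hσ : ∀ k : ℕ, ∀ z, Relation.ReflTransGen (fun a b => b = M.σ a ∨ b = M.α a) z
      ((M.σ ^ k) z) := by
    intro k z
    induction k with
    | zero => exact Relation.ReflTransGen.refl
    | succ k ih =>
      rw [pow_succ', Perm.mul_apply]
      exact ih.tail (Or.inl rfl)
  induction h with
  | refl => exact Relation.ReflTransGen.refl
  | @tail b c _ hbc ih =>
    refine Relation.ReflTransGen.trans ?_ ih
    rcases hbc with rfl | rfl
    · have h1 : M.σ.SameCycle (M.σ b) b := sameCycle_apply_left.2 (SameCycle.refl _ _)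
      obtain ⟨k, hk⟩ := h1.exists_nat_pow_eq
      have h2 := hσ k (M.σ b)
      rwa [hk] at h2
    · have h2 : Relation.ReflTransGen (fun a b => b = M.σ a ∨ b = M.α a) (M.α b) (M.α (M.α b)) :=
        Relation.ReflTransGen.single (Or.inr rfl)
      rwa [M.invol] at h2

theorem conn_cycle (M : CMap D) {x y : D} (h : M.σ.SameCycle x y) :
    Relation.ReflTransGen (fun a b => b = M.σ a ∨ b = M.α a) x y := by
  obtain ⟨k, rfl⟩ := h.exists_nat_pow_eq
  clear h
  induction k with
  | zero => exact Relation.ReflTransGen.refl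
  | succ k ih =>
    rw [pow_succ', Perm.mul_apply]
    exact ih.tail (Or.inl rfl)

include hd he in
theorem connected_glue (hM : M.Connected) (hN : N.Connected) : (glue M N d e).Connected := by
  have hl : ∀ x y : D, Relation.ReflTransGen
      (fun a b => b = (glue M N d e).σ a ∨ b = (glue M N d e).α a) (Sum.inl x) (Sum.inl y) := by
    intro x y
    have h := hM x y
    induction h with
    | refl => exact Relation.ReflTransGen.refl
    | @tail b c _ hbc ih =>
      refine ih.trans ?_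
      rcases hbc with rfl | rfl
      · apply conn_cycle
        rw [← vtx_eq_iff, glue_vtx_iff M N d e hd he]
        exact Or.inl ((sum_inl _ _).2 (sameCycle_apply_right.2 (SameCycle.refl _ _)))
      · exact Relation.ReflTransGen.single (Or.inr rfl)
  have hr : ∀ x y : E, Relation.ReflTransGen
      (fun a b => b = (glue M N d e).σ a ∨ b = (glue M N d e).α a) (Sum.inr x) (Sum.inr y) := by
    intro x y
    have h := hN x y
    induction h with
    | refl => exact Relation.ReflTransGen.refl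
    | @tail b c _ hbc ih =>
      refine ih.trans ?_
      rcases hbc with rfl | rfl
      · apply conn_cycle
        rw [← vtx_eq_iff, glue_vtx_iff M N d e hd he]
        exact Or.inl ((sum_inr _ _).2 (sameCycle_apply_right.2 (SameCycle.refl _ _)))
      · exact Relation.ReflTransGen.single (Or.inr rfl)
  have hm : Relation.ReflTransGen
      (fun a b => b = (glue M N d e).σ a ∨ b = (glue M N d e).α a) (Sum.inl d) (Sum.inr e) := by
    apply conn_cycle
    rw [← vtx_eq_iff, glue_vtx_iff M N d e hd he]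
    exact Or.inr (Or.inl ⟨Or.inl (SameCycle.refl _ _), Or.inr (SameCycle.refl _ _)⟩)
  rintro (x | x) (y | y)
  · exact hl x y
  · exact ((hl x d).trans hm).trans (hr e y)
  · exact ((hr x e).trans (conn_symm _ hm)).trans (hl d y)
  · exact hr x y

end CMap

theorem IsPlanar.mono {V : Type} {G H : SimpleGraph V} (hH : IsPlanar H)
    (h : ∀ u v, G.Adj u v → H.Adj u v) : IsPlanar G := by
  obtain ⟨D, hD, M, hc, hs, ι, hι, hadj⟩ := hH
  exact ⟨D, hD, M, hc, hs, ι, hι, fun u v huv => hadj _ _ (h u v huv)⟩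

/-- `z`, a vertex of the glued graph, is the vertex `a` of the second graph. -/
def In2 {V1 V2 : Type} (u1 v1 : V1) (u2 v2 : V2) (z : V1 ⊕ V2) (a : V2) : Prop :=
  z = Sum.inr a ∨ (z = Sum.inl u1 ∧ a = u2) ∨ (z = Sum.inl v1 ∧ a = v2)

/-- Two planar graphs, glued along an edge, give a planar graph. The map `f` places the vertices of
`G`; the two ends of the edge are placed in the first graph. -/
theorem isPlanar_twoSum {V V1 V2 : Type} (G : SimpleGraph V) (G1 : SimpleGraph V1)
    (G2 : SimpleGraph V2) {u1 v1 : V1} {u2 v2 : V2} (h1 : G1.Adj u1 v1) (h2 : G2.Adj u2 v2)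
    (p1 : IsPlanar G1) (p2 : IsPlanar G2) (f : V → V1 ⊕ V2) (hf : Function.Injective f)
    (hf2 : ∀ x, f x ≠ Sum.inr u2 ∧ f x ≠ Sum.inr v2)
    (hadj : ∀ x y, G.Adj x y →
      (∃ a b, f x = Sum.inl a ∧ f y = Sum.inl b ∧ G1.Adj a b) ∨
      (∃ a b, In2 u1 v1 u2 v2 (f x) a ∧ In2 u1 v1 u2 v2 (f y) b ∧ G2.Adj a b)) :
    IsPlanar G := by
  classical
  obtain ⟨D, hD, M, hMc, hMs, ι1, hι1, hM⟩ := p1
  obtain ⟨E, hE, N, hNc, hNs, ι2, hι2, hN⟩ := p2
  obtain ⟨d, hd1, hd2⟩ := hM u1 v1 h1
  obtain ⟨e, he1, he2⟩ := hN u2 v2 h2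
  have hd : M.vtx d ≠ M.vtx (M.α d) := by
    rw [hd1, hd2]
    exact fun h => h1.ne (hι1 h)
  have he : N.vtx e ≠ N.vtx (N.α e) := by
    rw [he1, he2]
    exact fun h => h2.ne (hι2 h)
  have hr1 : ∀ a, ∃ z, M.vtx z = ι1 a := fun a => M.vtx_surj _
  have hr2 : ∀ a, ∃ z, N.vtx z = ι2 a := fun a => N.vtx_surj _
  choose r1 hr1 using hr1
  choose r2 hr2 using hr2
  let K := CMap.glue M N d e
  let J : V1 ⊕ V2 → K.Vertex :=
    Sum.elim (fun a => K.vtx (Sum.inl (r1 a))) (fun b => K.vtx (Sum.inr (r2 b)))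
  have hU1 : ∀ x : D, CMap.UU M N d e (Sum.inl x) ↔ M.vtx x = ι1 u1 := by
    intro x
    unfold CMap.UU
    rw [sum_inl, ← CMap.vtx_eq_iff, hd1]
    constructor
    · rintro (h | h)
      · exact h.symm
      · exact absurd h (sum_ne' _ _)
    · intro h; exact Or.inl h.symm
  have hU2 : ∀ x : E, CMap.UU M N d e (Sum.inr x) ↔ N.vtx x = ι2 u2 := by
    intro x
    unfold CMap.UU
    rw [sum_inr, ← CMap.vtx_eq_iff, he1]
    constructor
    · rintro (h | h)
      · exact absurd h (sum_ne _ _)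
      · exact h.symm
    · intro h; exact Or.inr h.symm
  have hW1 : ∀ x : D, CMap.WW M N d e (Sum.inl x) ↔ M.vtx x = ι1 v1 := by
    intro x
    unfold CMap.WW
    rw [sum_inl, ← CMap.vtx_eq_iff, CMap.vtx_φ, hd2]
    constructor
    · rintro (h | h)
      · exact h.symm
      · exact absurd h (sum_ne' _ _)
    · intro h; exact Or.inl h.symm
  have hW2 : ∀ x : E, CMap.WW M N d e (Sum.inr x) ↔ N.vtx x = ι2 v2 := by
    intro x
    unfold CMap.WW
    rw [sum_inr, ← CMap.vtx_eq_iff, CMap.vtx_φ, he2]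
    constructor
    · rintro (h | h)
      · exact absurd h (sum_ne _ _)
      · exact h.symm
    · intro h; exact Or.inr h.symm
  have J1 : ∀ (z : D) (a : V1), M.vtx z = ι1 a → K.vtx (Sum.inl z) = J (Sum.inl a) := by
    intro z a hz
    change K.vtx (Sum.inl z) = K.vtx (Sum.inl (r1 a))
    rw [CMap.glue_vtx_iff M N d e hd he, sum_inl, ← CMap.vtx_eq_iff, hz, hr1]
    exact Or.inl rfl
  have J2 : ∀ (z : E) (a : V2), N.vtx z = ι2 a → K.vtx (Sum.inr z) = J (Sum.inr a) := by
    intro z a hz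
    change K.vtx (Sum.inr z) = K.vtx (Sum.inr (r2 a))
    rw [CMap.glue_vtx_iff M N d e hd he, sum_inr, ← CMap.vtx_eq_iff, hz, hr2]
    exact Or.inl rfl
  have J3 : J (Sum.inl u1) = J (Sum.inr u2) := by
    change K.vtx (Sum.inl (r1 u1)) = K.vtx (Sum.inr (r2 u2))
    rw [CMap.glue_vtx_iff M N d e hd he]
    exact Or.inr (Or.inl ⟨(hU1 _).2 (hr1 u1), (hU2 _).2 (hr2 u2)⟩)
  have J4 : J (Sum.inl v1) = J (Sum.inr v2) := by
    change K.vtx (Sum.inl (r1 v1)) = K.vtx (Sum.inr (r2 v2))
    rw [CMap.glue_vtx_iff M N d e hd he]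
    exact Or.inr (Or.inr ⟨(hW1 _).2 (hr1 v1), (hW2 _).2 (hr2 v2)⟩)
  have hJ : ∀ z z' : V1 ⊕ V2, z ≠ Sum.inr u2 ∧ z ≠ Sum.inr v2 → z' ≠ Sum.inr u2 ∧ z' ≠ Sum.inr v2 →
      J z = J z' → z = z' := by
    rintro (a | a) (b | b) hz hz' h
    · change K.vtx (Sum.inl (r1 a)) = K.vtx (Sum.inl (r1 b)) at h
      rw [CMap.glue_vtx_iff M N d e hd he, sum_inl, ← CMap.vtx_eq_iff, hr1, hr1, hU1, hU1, hW1,
        hW1, hr1, hr1] at h
      rcases h with h | ⟨h, h'⟩ | ⟨h, h'⟩
      · rw [hι1 h]
      · rw [hι1 h, hι1 h']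
      · rw [hι1 h, hι1 h']
    · change K.vtx (Sum.inl (r1 a)) = K.vtx (Sum.inr (r2 b)) at h
      rw [CMap.glue_vtx_iff M N d e hd he, hU2, hW2, hr2] at h
      rcases h with h | ⟨_, h'⟩ | ⟨_, h'⟩
      · exact absurd h (sum_ne _ _)
      · exact absurd (by rw [hι2 h']) hz'.1
      · exact absurd (by rw [hι2 h']) hz'.2
    · change K.vtx (Sum.inr (r2 a)) = K.vtx (Sum.inl (r1 b)) at h
      rw [CMap.glue_vtx_iff M N d e hd he, hU2, hW2, hr2] at h
      rcases h with h | ⟨h', _⟩ | ⟨h', _⟩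
      · exact absurd h (sum_ne' _ _)
      · exact absurd (by rw [hι2 h']) hz.1
      · exact absurd (by rw [hι2 h']) hz.2
    · change K.vtx (Sum.inr (r2 a)) = K.vtx (Sum.inr (r2 b)) at h
      rw [CMap.glue_vtx_iff M N d e hd he, sum_inr, ← CMap.vtx_eq_iff, hr2, hr2, hU2, hU2, hW2,
        hW2, hr2, hr2] at h
      rcases h with h | ⟨h, h'⟩ | ⟨h, h'⟩
      · rw [hι2 h]
      · rw [hι2 h, hι2 h']
      · rw [hι2 h, hι2 h']
  have hIn : ∀ z a, In2 u1 v1 u2 v2 z a → J z = J (Sum.inr a) := by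
    rintro z a (h | ⟨h, h'⟩ | ⟨h, h'⟩)
    · rw [h]
    · rw [h, h', J3]
    · rw [h, h', J4]
  refine ⟨D ⊕ E, inferInstance, K, CMap.connected_glue M N d e hd he hMc hNc,
    CMap.spherical_glue M N d e hd he hMs hNs, fun x => J (f x), ?_, ?_⟩
  · intro x y h
    exact hf (hJ _ _ (hf2 x) (hf2 y) h)
  · intro x y hxy
    rcases hadj x y hxy with ⟨a, b, ha, hb, hab⟩ | ⟨a, b, ha, hb, hab⟩
    · obtain ⟨z, hz1, hz2⟩ := hM a b hab
      refine ⟨Sum.inl z, ?_, ?_⟩
      · change _ = J (f x)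
        rw [ha]; exact J1 z a hz1
      · change _ = J (f y)
        rw [hb]; exact J1 (M.α z) b hz2
    · obtain ⟨z, hz1, hz2⟩ := hN a b hab
      refine ⟨Sum.inr z, ?_, ?_⟩
      · change _ = J (f x)
        rw [hIn _ _ ha]; exact J2 z a hz1
      · change _ = J (f y)
        rw [hIn _ _ hb]; exact J2 (N.α z) b hz2

/-- The graph with poles `inr true`, `inr false` and `n` disjoint copies of the inner part of
`G0`. -/
def copies {W : Type} (G0 : SimpleGraph (W ⊕ Bool)) (n : ℕ) :
    SimpleGraph ((Fin n × W) ⊕ Bool) where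
  Adj x y := match x, y with
    | Sum.inl p, Sum.inl q => p.1 = q.1 ∧ G0.Adj (Sum.inl p.2) (Sum.inl q.2)
    | Sum.inl p, Sum.inr b => G0.Adj (Sum.inl p.2) (Sum.inr b)
    | Sum.inr b, Sum.inl p => G0.Adj (Sum.inr b) (Sum.inl p.2)
    | Sum.inr b, Sum.inr c => G0.Adj (Sum.inr b) (Sum.inr c)
  symm := ⟨by
    rintro (p | b) (q | c) h
    · exact ⟨h.1.symm, G0.adj_symm h.2⟩
    · exact G0.adj_symm h
    · exact G0.adj_symm h
    · exact G0.adj_symm h⟩
  loopless := ⟨by
    rintro (p | b) h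
    · exact G0.loopless.irrefl _ h.2
    · exact G0.loopless.irrefl _ h⟩

/-- The parallel composition of `n` copies of a planar graph with adjacent poles is planar. -/
theorem isPlanar_copies {W : Type} (G0 : SimpleGraph (W ⊕ Bool))
    (h : G0.Adj (Sum.inr true) (Sum.inr false)) (hp : IsPlanar G0) (n : ℕ) :
    IsPlanar (copies G0 n) := by
  induction n with
  | zero =>
    let f : (Fin 0 × W) ⊕ Bool → W ⊕ Bool := Sum.elim (fun p => p.1.elim0) Sum.inr
    have hf : Function.Injective f := by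
      rintro (p | b) (q | c) hbc
      · exact p.1.elim0
      · exact p.1.elim0
      · exact q.1.elim0
      · exact congrArg Sum.inr (Sum.inr_injective hbc)
    refine (hp.comap f hf).mono ?_
    rintro (p | b) (q | c) hbc
    · exact p.1.elim0
    · exact p.1.elim0
    · exact q.1.elim0
    · exact hbc
  | succ n ih =>
    let f : (Fin (n + 1) × W) ⊕ Bool → ((Fin n × W) ⊕ Bool) ⊕ (W ⊕ Bool) :=
      Sum.elim (fun p => Fin.lastCases (motive := fun _ => ((Fin n × W) ⊕ Bool) ⊕ (W ⊕ Bool))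
        (Sum.inr (Sum.inl p.2)) (fun j => Sum.inl (Sum.inl (j, p.2))) p.1)
        (fun b => Sum.inl (Sum.inr b))
    have f1 : ∀ w, f (Sum.inl (Fin.last n, w)) = Sum.inr (Sum.inl w) := fun w => by
      change Fin.lastCases (motive := fun _ => ((Fin n × W) ⊕ Bool) ⊕ (W ⊕ Bool)) _ _ _ = _
      rw [Fin.lastCases_last]
    have f2 : ∀ (j : Fin n) w, f (Sum.inl (j.castSucc, w)) = Sum.inl (Sum.inl (j, w)) :=
      fun j w => by
      change Fin.lastCases (motive := fun _ => ((Fin n × W) ⊕ Bool) ⊕ (W ⊕ Bool)) _ _ _ = _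
      rw [Fin.lastCases_castSucc]
    have f3 : ∀ b, f (Sum.inr b) = Sum.inl (Sum.inr b) := fun b => rfl
    have hcases : ∀ z : (Fin (n + 1) × W) ⊕ Bool, (∃ w, z = Sum.inl (Fin.last n, w)) ∨
        (∃ (j : Fin n) (w : W), z = Sum.inl (j.castSucc, w)) ∨ ∃ b, z = Sum.inr b := by
      rintro (⟨i, w⟩ | b)
      · induction i using Fin.lastCases with
        | last => exact Or.inl ⟨w, rfl⟩
        | cast j => exact Or.inr (Or.inl ⟨j, w, rfl⟩)
      · exact Or.inr (Or.inr ⟨b, rfl⟩)
    have hne : ∀ j : Fin n, (Fin.last n) ≠ j.castSucc := fun j => (Fin.castSucc_ne_last j).symm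
    have h12 : ∀ b, In2 (Sum.inr true : (Fin n × W) ⊕ Bool) (Sum.inr false) (Sum.inr true : W ⊕ Bool)
        (Sum.inr false) (Sum.inl (Sum.inr b)) (Sum.inr b) := by
      intro b
      cases b
      · exact Or.inr (Or.inr ⟨rfl, rfl⟩)
      · exact Or.inr (Or.inl ⟨rfl, rfl⟩)
    refine isPlanar_twoSum (copies G0 (n + 1)) (copies G0 n) G0 (u1 := Sum.inr true)
      (v1 := Sum.inr false) (u2 := Sum.inr true) (v2 := Sum.inr false) h h ih hp f ?_ ?_ ?_
    · intro x y hxy
      rcases hcases x with ⟨w, rfl⟩ | ⟨j, w, rfl⟩ | ⟨b, rfl⟩ <;>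
      rcases hcases y with ⟨w', rfl⟩ | ⟨j', w', rfl⟩ | ⟨b', rfl⟩ <;>
      simp only [f1, f2, f3, Sum.inl.injEq, Sum.inr.injEq, Prod.mk.injEq, reduceCtorEq] at hxy
      · rw [hxy]
      · rw [hxy.1, hxy.2]
      · rw [hxy]
    · intro x
      rcases hcases x with ⟨w, rfl⟩ | ⟨j, w, rfl⟩ | ⟨b, rfl⟩
      · simp only [f1]; simp
      · simp only [f2]; simp
      · simp only [f3]; simp
    · intro x y hxy
      rcases hcases x with ⟨w, rfl⟩ | ⟨j, w, rfl⟩ | ⟨b, rfl⟩ <;>
      rcases hcases y with ⟨w', rfl⟩ | ⟨j', w', rfl⟩ | ⟨b', rfl⟩ <;>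
      simp only [f1, f2, f3]
      · exact Or.inr ⟨_, _, Or.inl rfl, Or.inl rfl, hxy.2⟩
      · exact absurd hxy.1 (hne _)
      · exact Or.inr ⟨_, _, Or.inl rfl, h12 b', hxy⟩
      · exact absurd hxy.1.symm (hne _)
      · exact Or.inl ⟨_, _, rfl, rfl, ⟨Fin.castSucc_injective _ hxy.1, hxy.2⟩⟩
      · exact Or.inl ⟨_, _, rfl, rfl, hxy⟩
      · exact Or.inr ⟨_, _, h12 b, Or.inl rfl, hxy⟩
      · exact Or.inl ⟨_, _, rfl, rfl, hxy⟩
      · exact Or.inl ⟨_, _, rfl, rfl, hxy⟩

end Pool.Agent.TFP
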